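import Pool.Agent.Helper208_LN.Lift

set_option autoImplicit false
set_option linter.unusedSectionVars false
set_option linter.style.haveILetI false

namespace Pool.Agent.LN
open scoped TensorProduct

section base
variable {k R : Type} [Field k] [CommRing R] [Algebra k R] [Algebra R k] [IsScalarTower k R k]

/-- the properties of the dual numbers used below -/
structure DN (k R : Type) [Field k] [CommRing R] [Algebra k R] [Algebra R k] (ε : R) : Prop where
  sq : ε * ε = 0
  ker : ∀ r, algebraMap R k r = 0 → ∃ s, r = ε * s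
  ann : ∀ r, ε * r = 0 → ∃ s, r = ε * s
  zero : algebraMap R k ε = 0

variable {ε : R} (h : DN k R ε)
include h

lemma DN.exact : Function.Exact (LinearMap.mulLeft R ε) (Algebra.linearMap R k) := by
  intro r
  constructor
  · intro hr
    obtain ⟨s, hs⟩ := h.ker r hr
    exact ⟨s, hs.symm⟩
  · rintro ⟨s, rfl⟩
    simp [h.zero]

lemma DN.exact' : Function.Exact (LinearMap.mulLeft R ε) (LinearMap.mulLeft R ε) := by
  intro r
  constructor
  · intro hr
    obtain ⟨s, hs⟩ := h.ann r hr
    exact ⟨s, hs.symm⟩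
  · rintro ⟨s, rfl⟩
    simp [← mul_assoc, h.sq]

lemma mulLeft_rTensor_lid (M : Type) [AddCommGroup M] [Module R M] (z : R ⊗[R] M) :
    TensorProduct.lid R M ((LinearMap.mulLeft R ε).rTensor M z) = ε • TensorProduct.lid R M z := by
  induction z with
  | zero => simp
  | add x y hx hy => rw [map_add, map_add, map_add, hx, hy, smul_add]
  | tmul r x => simp [mul_smul]

lemma DN.surj : Function.Surjective (algebraMap R k) := by
  intro c
  refine ⟨algebraMap k R c, ?_⟩
  rw [← IsScalarTower.algebraMap_apply k R k]; rfl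

lemma DN.kerM (M : Type) [AddCommGroup M] [Module R M] (x : M)
    (hx : (1 : k) ⊗ₜ[R] x = 0) : ∃ y, x = ε • y := by
  have hs : Function.Surjective (Algebra.linearMap R k) := h.surj
  have h1 := rTensor_exact M h.exact hs
  have h2 : (Algebra.linearMap R k).rTensor M ((1 : R) ⊗ₜ[R] x) = 0 := by
    rw [LinearMap.rTensor_tmul]
    simpa using hx
  obtain ⟨z, hz⟩ := (h1 _).1 h2
  refine ⟨TensorProduct.lid R M z, ?_⟩
  rw [← mulLeft_rTensor_lid h, hz]
  simp

lemma DN.flatM (M : Type) [AddCommGroup M] [Module R M] [Module.Flat R M] (x : M)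
    (hx : ε • x = 0) : ∃ y, x = ε • y := by
  have h1 := Module.Flat.rTensor_exact M h.exact'
  have h2 : (LinearMap.mulLeft R ε).rTensor M ((1 : R) ⊗ₜ[R] x) = 0 := by
    rw [LinearMap.rTensor_tmul]
    have : (LinearMap.mulLeft R ε) 1 = ε • (1 : R) := by simp
    rw [this, TensorProduct.smul_tmul, hx, TensorProduct.tmul_zero]
  obtain ⟨z, hz⟩ := (h1 _).1 h2
  refine ⟨TensorProduct.lid R M z, ?_⟩
  rw [← mulLeft_rTensor_lid h, hz]
  simp

end base

section red
variable {k R : Type} [Field k] [CommRing R] [Algebra k R] [Algebra R k] [IsScalarTower k R k]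
variable {A : Type} [CommRing A] [HopfAlgebra R A]

/-- reduction -/
noncomputable def pA (k R A : Type) [Field k] [CommRing R] [Algebra R k] [CommRing A] [Algebra R A] :
    A →ₐ[R] k ⊗[R] A := Algebra.TensorProduct.includeRight

noncomputable def pAA (k R A : Type) [Field k] [CommRing R] [Algebra R k] [CommRing A]
    [Algebra R A] : A ⊗[R] A →ₐ[R] (k ⊗[R] A) ⊗[k] (k ⊗[R] A) :=
  Algebra.TensorProduct.lift
    (((Algebra.TensorProduct.includeLeft : (k ⊗[R] A) →ₐ[k] (k ⊗[R] A) ⊗[k] (k ⊗[R] A)).restrictScalars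
      R).comp (pA k R A))
    (((Algebra.TensorProduct.includeRight : (k ⊗[R] A) →ₐ[k] (k ⊗[R] A) ⊗[k] (k ⊗[R] A)).restrictScalars
      R).comp (pA k R A)) (fun _ _ => Commute.all _ _)

lemma pA_apply (x : A) : pA k R A x = 1 ⊗ₜ x := rfl

lemma pAA_tmul (x y : A) : pAA k R A (x ⊗ₜ y) = pA k R A x ⊗ₜ pA k R A y := by
  simp [pAA]

lemma pAA_eq (z : A ⊗[R] A) :
    pAA k R A z = TensorProduct.AlgebraTensorModule.distribBaseChange R k A A (1 ⊗ₜ z) := by
  induction z with
  | zero => simp
  | add x y hx hy => rw [map_add, hx, hy, TensorProduct.tmul_add, map_add]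
  | tmul x y => rw [pAA_tmul, pA_apply, pA_apply]; simp

variable {ε : R} (h : DN k R ε)

include h in
lemma pA_ker (x : A) (hx : pA k R A x = 0) : ∃ y, x = ε • y := h.kerM A x hx

include h in
lemma pA_surj : Function.Surjective (pA k R A) := by
  intro z
  induction z with
  | zero => exact ⟨0, map_zero _⟩
  | add x y hx hy =>
    obtain ⟨x', rfl⟩ := hx
    obtain ⟨y', rfl⟩ := hy
    exact ⟨x' + y', map_add _ _ _⟩
  | tmul c x =>
    obtain ⟨r, rfl⟩ := h.surj c
    refine ⟨r • x, ?_⟩
    rw [pA_apply, ← TensorProduct.smul_tmul, Algebra.algebraMap_eq_smul_one]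

include h in
lemma pAA_ker (z : A ⊗[R] A) (hz : pAA k R A z = 0) : ∃ y, z = ε • y := by
  rw [pAA_eq] at hz
  exact h.kerM _ z ((LinearEquiv.map_eq_zero_iff _).1 hz)

lemma comul_pA (x : A) : Coalgebra.comul (R := k) (pA k R A x) =
    pAA k R A (Coalgebra.comul (R := R) x) := by
  have h1 : ∀ z : A ⊗[R] A, (Algebra.TensorProduct.tensorTensorTensorComm R k R k k k A A)
      ((1 : k ⊗[k] k) ⊗ₜ[R] z) = pAA k R A z := by
    intro z
    induction z with
    | zero => simp
    | add x y hx hy => rw [TensorProduct.tmul_add, map_add, hx, hy, map_add]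
    | tmul x y => rw [pAA_tmul, pA_apply, pA_apply, Algebra.TensorProduct.one_def]; simp
  have h2 := Bialgebra.TensorProduct.comul_eq_algHom_toLinearMap R k k A
  rw [h2, ← h1]
  rw [AlgHom.toLinearMap_apply, AlgHom.comp_apply, pA_apply]
  rw [Algebra.TensorProduct.map_tmul, map_one]
  rfl

lemma counit_pA (x : A) : Coalgebra.counit (R := k) (pA k R A x) =
    algebraMap R k (Coalgebra.counit (R := R) x) := by
  rw [pA_apply, Bialgebra.TensorProduct.counit_eq_algHom_toLinearMap R k k A,
    AlgHom.toLinearMap_apply, AlgHom.comp_apply, Algebra.TensorProduct.map_tmul, map_one]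
  simp [Algebra.algebraMap_eq_smul_one]

lemma antipode_pA (x : A) : HopfAlgebra.antipode k (pA k R A x) =
    pA k R A (HopfAlgebra.antipode R x) := by
  rw [pA_apply, TensorProduct.antipode_def]
  simp [pA_apply]

end red

end Pool.Agent.LN
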