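import Pool.Agent.Helper208_LN.Base

set_option autoImplicit false
set_option linter.unusedSectionVars false
set_option linter.style.haveILetI false

namespace Pool.Agent.LN
open Matrix Finset
open scoped TensorProduct

section univ
variable {R A T : Type} [CommRing R] [CommRing A] [HopfAlgebra R A] [CommRing T] [Algebra R T]
variable {n : ℕ} {a ai : Matrix (Fin n) (Fin n) A} {f : Matrix (Fin n) (Fin n) (A ⊗[R] A)} {ε : R}

lemma point_mul (hcom : a.map (Bialgebra.comulAlgHom R A) = (1 + (algebraMap R (A ⊗[R] A) ε) • f) *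
      (a.map (iL : A →ₐ[R] A ⊗[R] A) * a.map (iR : A →ₐ[R] A ⊗[R] A))) (x y : A →ₐ[R] T) :
    a.map (cm x y) = (1 + algebraMap R T ε • f.map (lf x y)) * (a.map x * a.map y) := by
  have h1 := congrArg (fun M => M.map (lf x y)) hcom
  simp only [Matrix.map_mul] at h1
  have h2 := mmap_one_add ((lf x y : A ⊗[R] A →ₐ[R] T) : A ⊗[R] A →+* T)
    (algebraMap R (A ⊗[R] A) ε) f
  simp only [RingHom.coe_coe, AlgHom.commutes] at h2
  rw [h2] at h1
  have h3 : (a.map (iL : A →ₐ[R] A ⊗[R] A)).map (lf x y) = a.map x := by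
    refine Matrix.ext fun i j => ?_
    simp only [Matrix.map_apply, Algebra.TensorProduct.includeLeft_apply, lf_tmul, map_one, mul_one]
  have h4 : (a.map (iR : A →ₐ[R] A ⊗[R] A)).map (lf x y) = a.map y := by
    refine Matrix.ext fun i j => ?_
    simp only [Matrix.map_apply, Algebra.TensorProduct.includeRight_apply, lf_tmul, map_one, one_mul]
  rw [h3, h4] at h1
  exact h1

lemma univ_rel (hε : ε * ε = 0) (ha : a * ai = 1)
    (hcom : a.map (Bialgebra.comulAlgHom R A) = (1 + (algebraMap R (A ⊗[R] A) ε) • f) *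
      (a.map (iL : A →ₐ[R] A ⊗[R] A) * a.map (iR : A →ₐ[R] A ⊗[R] A))) (x y z : A →ₐ[R] T) :
    algebraMap R T ε • ((f.map (lf (cm x y) z) + f.map (lf x y)) -
      (f.map (lf x (cm y z)) + a.map x * f.map (lf y z) * ai.map x)) = 0 := by
  have hee : algebraMap R T ε * algebraMap R T ε = 0 := by
    rw [← map_mul, hε, map_zero]
  have hinv : ∀ x : A →ₐ[R] T, a.map x * ai.map x = 1 := by
    intro x
    rw [← Matrix.map_mul, ha]; exact Matrix.map_one _ (map_zero _) (map_one _)
  have hinv' : ∀ x : A →ₐ[R] T, ai.map x * a.map x = 1 := fun x => mul_eq_one_comm.1 (hinv x)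
  have h1 : a.map (cm (cm x y) z) =
      (1 + algebraMap R T ε • (f.map (lf (cm x y) z) + f.map (lf x y))) *
        (a.map x * a.map y * a.map z) := by
    rw [point_mul hcom, point_mul hcom x y, ← one_add_mul_one_add hee]
    simp only [Matrix.mul_assoc]
  have h2 : a.map (cm x (cm y z)) =
      (1 + algebraMap R T ε • (f.map (lf x (cm y z)) + a.map x * f.map (lf y z) * ai.map x)) *
        (a.map x * a.map y * a.map z) := by
    rw [point_mul hcom x (cm y z), point_mul hcom y z, ← one_add_mul_one_add hee]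
    have h3 : (1 + algebraMap R T ε • (a.map x * f.map (lf y z) * ai.map x)) * a.map x =
        a.map x * (1 + algebraMap R T ε • f.map (lf y z)) := by
      rw [add_mul, one_mul, mul_add, mul_one, Matrix.smul_mul, Matrix.mul_smul,
        Matrix.mul_assoc (a.map x * f.map (lf y z)), hinv', Matrix.mul_one]
    calc _ = (1 + algebraMap R T ε • f.map (lf x (cm y z))) * ((a.map x *
          (1 + algebraMap R T ε • f.map (lf y z))) * (a.map y * a.map z)) := by
          simp only [Matrix.mul_assoc]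
      _ = _ := by rw [← h3]; simp only [Matrix.mul_assoc]
  rw [cm_assoc] at h1
  rw [h1] at h2
  have h4 : (a.map x * a.map y * a.map z) * (ai.map z * ai.map y * ai.map x) = 1 := by
    calc _ = a.map x * (a.map y * (a.map z * ai.map z) * ai.map y) * ai.map x := by
          simp only [Matrix.mul_assoc]
      _ = 1 := by rw [hinv, Matrix.mul_one, hinv, Matrix.mul_one, hinv]
  have h5 := congrArg (fun M => M * (ai.map z * ai.map y * ai.map x)) h2
  simp only [Matrix.mul_assoc _ (a.map x * a.map y * a.map z), h4, Matrix.mul_one] at h5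
  rw [smul_sub, sub_eq_zero]
  exact add_left_cancel h5

end univ

section coc
variable {k R : Type} [Field k] [CommRing R] [Algebra k R] [Algebra R k] [IsScalarTower k R k]
variable {A : Type} [CommRing A] [HopfAlgebra R A]
variable {n : ℕ} {a ai : Matrix (Fin n) (Fin n) A} {f : Matrix (Fin n) (Fin n) (A ⊗[R] A)} {ε : R}

theorem coc_of (h : DN k R ε) [Module.Flat R A] (ha : a * ai = 1)
    (hcom : a.map (Bialgebra.comulAlgHom R A) = (1 + (algebraMap R (A ⊗[R] A) ε) • f) *
      (a.map (iL : A →ₐ[R] A ⊗[R] A) * a.map (iR : A →ₐ[R] A ⊗[R] A)))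
    (hG : GrpL k (a.map (pA k R A))) : Coc (a.map (pA k R A)) (f.map (pAA k R A)) := by
  intro C _ _ g g' g''
  letI : Algebra R C := Algebra.compHom C (algebraMap R k)
  haveI : IsScalarTower R k C := IsScalarTower.of_algebraMap_eq (fun _ => rfl)
  let rp : (k ⊗[R] A →ₐ[k] C) → (A →ₐ[R] C) := fun g => (g.restrictScalars R).comp (pA k R A)
  have hlf : ∀ u v : k ⊗[R] A →ₐ[k] C, ∀ z : A ⊗[R] A, lf u v (pAA k R A z) = lf (rp u) (rp v) z := by
    intro u v z
    induction z with
    | zero => simp only [map_zero]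
    | add x y hx hy => simp only [map_add, hx, hy]
    | tmul x y => rw [pAA_tmul, lf_tmul, lf_tmul]; rfl
  have hcm : ∀ u v : k ⊗[R] A →ₐ[k] C, rp (cm u v) = cm (rp u) (rp v) := by
    intro u v
    refine AlgHom.ext fun x => ?_
    show cm u v (pA k R A x) = cm (rp u) (rp v) x
    rw [cm_apply, cm_apply, comul_pA, hlf]
  have hf : ∀ u v : k ⊗[R] A →ₐ[k] C, (f.map (pAA k R A)).map (lf u v) =
      f.map (lf (rp u) (rp v)) := by
    intro u v
    refine Matrix.ext fun i j => ?_
    simp only [Matrix.map_apply, hlf]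
  have hinv : (a.map (pA k R A)).map (inv' g) = ai.map (rp g) := by
    have h1 := hG.inv_mul g
    have h2 : (a.map (pA k R A)).map g * ai.map (rp g) = 1 := by
      have h3 : (a.map (pA k R A)).map g = a.map (rp g) := rfl
      rw [h3, ← Matrix.map_mul, ha]; exact Matrix.map_one _ (map_zero _) (map_one _)
    calc _ = (a.map (pA k R A)).map (inv' g) * ((a.map (pA k R A)).map g * ai.map (rp g)) := by
          rw [h2, Matrix.mul_one]
      _ = _ := by rw [← Matrix.mul_assoc, h1, Matrix.one_mul]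
  rw [hf, hf, hf, hf, hcm, hcm, hinv]
  -- the universal relation
  let T := A ⊗[R] (A ⊗[R] A)
  let x : A →ₐ[R] T := iL
  let y : A →ₐ[R] T := (iR : A ⊗[R] A →ₐ[R] T).comp iL
  let z : A →ₐ[R] T := (iR : A ⊗[R] A →ₐ[R] T).comp iR
  let θ : T →ₐ[R] C := Algebra.TensorProduct.lift (rp g) (lf (rp g') (rp g''))
    (fun _ _ => Commute.all _ _)
  have hx : θ.comp x = rp g :=
    Algebra.TensorProduct.lift_comp_includeLeft _ _ (fun _ _ => Commute.all _ _)
  have hR : θ.comp (iR : A ⊗[R] A →ₐ[R] T) = lf (rp g') (rp g'') :=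
    Algebra.TensorProduct.lift_comp_includeRight _ _ (fun _ _ => Commute.all _ _)
  have hy : θ.comp y = rp g' := by
    show θ.comp ((iR : A ⊗[R] A →ₐ[R] T).comp iL) = rp g'
    rw [← AlgHom.comp_assoc, hR]
    exact Algebra.TensorProduct.lift_comp_includeLeft _ _ (fun _ _ => Commute.all _ _)
  have hz : θ.comp z = rp g'' := by
    show θ.comp ((iR : A ⊗[R] A →ₐ[R] T).comp iR) = rp g''
    rw [← AlgHom.comp_assoc, hR]
    exact Algebra.TensorProduct.lift_comp_includeRight _ _ (fun _ _ => Commute.all _ _)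
  have h1 := univ_rel (T := T) h.sq ha hcom x y z
  have h2 : ∀ i j, θ (((f.map (lf (cm x y) z) + f.map (lf x y)) -
      (f.map (lf x (cm y z)) + a.map x * f.map (lf y z) * ai.map x)) i j) = 0 := by
    intro i j
    have h3 := congrFun (congrFun h1 i) j
    rw [Matrix.smul_apply, Matrix.zero_apply, algebraMap_smul] at h3
    obtain ⟨w, hw⟩ := h.flatM T _ h3
    rw [hw, map_smul, Algebra.smul_def]
    have : algebraMap R C ε = 0 := by
      show algebraMap k C (algebraMap R k ε) = 0
      rw [h.zero, map_zero]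
    rw [this, zero_mul]
  have h3 : ((f.map (lf (cm x y) z) + f.map (lf x y)) -
      (f.map (lf x (cm y z)) + a.map x * f.map (lf y z) * ai.map x)).map θ = 0 :=
    Matrix.ext fun i j => h2 i j
  rw [Matrix.map_sub _ (map_sub θ), Matrix.map_add _ (map_add θ), Matrix.map_add _ (map_add θ),
    Matrix.map_mul, Matrix.map_mul] at h3
  have e1 : ∀ u v : A →ₐ[R] T, (f.map (lf u v)).map θ = f.map (lf (θ.comp u) (θ.comp v)) := by
    intro u v
    rw [← comp_lf]; rfl
  have e2 : ∀ (M : Matrix (Fin n) (Fin n) A) (u : A →ₐ[R] T), (M.map u).map θ = M.map (θ.comp u) :=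
    fun M u => rfl
  rw [e1, e1, e1, e1, e2, e2, comp_cm, comp_cm, hx, hy, hz] at h3
  exact sub_eq_zero.1 h3

end coc

end Pool.Agent.LN
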