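import Pool.Agent.Helper208_LN.Data

set_option autoImplicit false
set_option linter.unusedSectionVars false
set_option linter.style.haveILetI false

namespace Pool.Agent.LN
open Matrix Finset

/-- A point of `GL_n × G_m × GL_m` -/
@[ext] structure Pt (n m : ℕ) (O : Type) where
  x : Matrix (Fin n) (Fin n) O
  xi : Matrix (Fin n) (Fin n) O
  t : O
  ti : O
  y : Matrix (Fin m) (Fin m) O
  yi : Matrix (Fin m) (Fin m) O

/-- data attached to a group element -/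
@[ext] structure Gd (n : ℕ) (E : Type) (O : Type) where
  a : Matrix (Fin n) (Fin n) O
  ai : Matrix (Fin n) (Fin n) O
  χ : O
  χi : O
  ξ : E → Matrix (Fin n) (Fin n) O

structure Pt.Valid {n m : ℕ} {O : Type} [CommRing O] (P : Pt n m O) : Prop where
  hx : P.x * P.xi = 1
  ht : P.t * P.ti = 1
  hy : P.y * P.yi = 1

def Pt.map {n m : ℕ} {O O' : Type} (P : Pt n m O) (φ : O → O') : Pt n m O' where
  x := P.x.map φ
  xi := P.xi.map φ
  t := φ P.t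
  ti := φ P.ti
  y := P.y.map φ
  yi := P.yi.map φ

def Gd.map {n : ℕ} {E O O' : Type} (P : Gd n E O) (φ : O → O') : Gd n E O' where
  a := P.a.map φ
  ai := P.ai.map φ
  χ := φ P.χ
  χi := φ P.χi
  ξ := fun e => (P.ξ e).map φ

section
variable {k : Type} [Field k] {n m N : ℕ} {Q E : Type} [Fintype Q] [DecidableEq Q]
  [Fintype E] [DecidableEq E]
variable {O O' : Type} [CommRing O] [Algebra k O] [CommRing O'] [Algebra k O']
variable (p : ℕ) (ρ : PRep k n (Q ⊕ E)) (e0 : E) (ε : II Q E ≃ Unit ⊕ Fin m) (e : II Q E ≃ Fin N)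
  (μ : E → E → Matrix (Fin n) (Fin n) k)

/-- twisted `γ` -/
noncomputable def gp (a : Matrix (Fin n) (Fin n) O) (χi : O) : Matrix (Fin m) (Fin m) O :=
  (gam ρ e0 ε a χi).map (fun z => z^p)

noncomputable def bp (a : Matrix (Fin n) (Fin n) O) (χi : O) : Matrix Unit (Fin m) O :=
  (bet ρ e0 ε a χi).map (fun z => z^p)

lemma gp_map (φ : O →ₐ[k] O') (x : Matrix (Fin n) (Fin n) O) (t : O) :
    (gp p ρ e0 ε x t).map φ = gp p ρ e0 ε (x.map φ) (φ t) := by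
  unfold gp
  rw [← gam_map]
  ext i j
  simp

lemma bp_map (φ : O →ₐ[k] O') (x : Matrix (Fin n) (Fin n) O) (t : O) :
    (bp p ρ e0 ε x t).map φ = bp p ρ e0 ε (x.map φ) (φ t) := by
  unfold bp
  rw [← bet_map]
  ext i j
  simp

noncomputable def Pt.act (P : Pt n m O) (g : Gd n E O) : Pt n m O where
  x := P.x * g.a
  xi := g.ai * P.xi
  t := P.t * g.χ
  ti := P.ti * g.χi
  y := P.y * gp p ρ e0 ε g.a g.χi
  yi := gp p ρ e0 ε g.ai g.χ * P.yi

lemma Pt.act_map (P : Pt n m O) (g : Gd n E O) (φ : O →ₐ[k] O') :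
    (P.act p ρ e0 ε g).map φ = (P.map φ).act p ρ e0 ε (g.map φ) := by
  unfold Pt.act Pt.map Gd.map
  ext1
  · simp only [Matrix.map_mul]
  · simp only [Matrix.map_mul]
  · simp only [map_mul]
  · simp only [map_mul]
  · simp only [Matrix.map_mul, gp_map]
  · simp only [Matrix.map_mul, gp_map]

noncomputable def Fv (P : Pt n m O) (f : II Q E) : O := Rm ρ e0 ε P.x P.ti f (Sum.inl ())

noncomputable def vv (P : Pt n m O) (f : II Q E) : O := (Rim ρ e0 ε P.xi P.t (Sum.inl ()) f)^p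

noncomputable def Yv (P : Pt n m O) (a : Fin m) (f : II Q E) : O :=
  ∑ b, P.y a b * (Rim ρ e0 ε P.xi P.t (Sum.inr b) f)^p

noncomputable def Uv (P : Pt n m O) (f : II Q E) (a : Fin m) : O :=
  ∑ b, (Rm ρ e0 ε P.x P.ti f (Sum.inr b))^p * P.yi b a

noncomputable def zv (P : Pt n m O) (g : Gd n E O) (a : Fin m) : O :=
  - (bp p ρ e0 ε g.a g.χi * gp p ρ e0 ε g.ai g.χ * P.yi) () a

/-- `s_f(j)` -/
noncomputable def sf (P : Pt n m O) (f : II Q E) (j : E) : O := P.ti * minor f j (ρ.ev P.x)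

noncomputable def Kf (P : Pt n m O) (g : Gd n E O) (f : II Q E) : Matrix (Fin n) (Fin n) O :=
  P.x * (∑ j, sf ρ P f j • g.ξ j) * P.xi

noncomputable def Mff (P : Pt n m O) (f f' : II Q E) : Matrix (Fin n) (Fin n) O :=
  P.x * (∑ j, ∑ l, (sf ρ P f j * sf ρ P f' l) • (μ j l).map (algebraMap k O)) * P.xi

noncomputable def XH (P : Pt n m O) (g : Gd n E O) : Matrix (Fin n) (Fin n) O :=
  Matrix.of fun α β => Kill.Xhat p e (Fv ρ e0 ε P) (Yv p ρ e0 ε P) (vv p ρ e0 ε P)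
    (vv p ρ e0 ε (P.act p ρ e0 ε g)) (Uv p ρ e0 ε P) (Uv p ρ e0 ε (P.act p ρ e0 ε g))
    (fun f f' => Mff ρ μ (P.act p ρ e0 ε g) f f' α β) (fun f => Kf ρ P g f α β)
    (zv p ρ e0 ε P g)

/-! ### naturality -/

lemma Fv_map (P : Pt n m O) (φ : O →ₐ[k] O') (f : II Q E) :
    φ (Fv ρ e0 ε P f) = Fv ρ e0 ε (P.map φ) f := by
  unfold Fv
  have := Rm_map ρ e0 ε φ P.x P.ti
  exact congrFun (congrFun this f) (Sum.inl ())

lemma vv_map (P : Pt n m O) (φ : O →ₐ[k] O') (f : II Q E) :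
    φ (vv p ρ e0 ε P f) = vv p ρ e0 ε (P.map φ) f := by
  unfold vv
  have := Rim_map ρ e0 ε φ P.xi P.t
  rw [map_pow]
  congr 1
  exact congrFun (congrFun this (Sum.inl ())) f

lemma Yv_map (P : Pt n m O) (φ : O →ₐ[k] O') (a : Fin m) (f : II Q E) :
    φ (Yv p ρ e0 ε P a f) = Yv p ρ e0 ε (P.map φ) a f := by
  unfold Yv
  have := Rim_map ρ e0 ε φ P.xi P.t
  simp only [map_sum, map_mul, map_pow]
  refine Finset.sum_congr rfl fun b _ => ?_
  have h2 := congrFun (congrFun this (Sum.inr b)) f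
  simp only [Matrix.map_apply] at h2
  rw [h2]
  rfl

lemma Uv_map (P : Pt n m O) (φ : O →ₐ[k] O') (f : II Q E) (a : Fin m) :
    φ (Uv p ρ e0 ε P f a) = Uv p ρ e0 ε (P.map φ) f a := by
  unfold Uv
  have := Rm_map ρ e0 ε φ P.x P.ti
  simp only [map_sum, map_mul, map_pow]
  refine Finset.sum_congr rfl fun b _ => ?_
  have h2 := congrFun (congrFun this f) (Sum.inr b)
  simp only [Matrix.map_apply] at h2
  rw [h2]
  rfl

lemma zv_map (P : Pt n m O) (g : Gd n E O) (φ : O →ₐ[k] O') (a : Fin m) :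
    φ (zv p ρ e0 ε P g a) = zv p ρ e0 ε (P.map φ) (g.map φ) a := by
  unfold zv
  rw [map_neg]
  congr 1
  have : (bp p ρ e0 ε g.a g.χi * gp p ρ e0 ε g.ai g.χ * P.yi).map φ =
    bp p ρ e0 ε (g.map φ).a (g.map φ).χi * gp p ρ e0 ε (g.map φ).ai (g.map φ).χ * (P.map φ).yi := by
    rw [Matrix.map_mul, Matrix.map_mul, bp_map, gp_map]
    rfl
  exact congrFun (congrFun this ()) a

lemma sf_map (P : Pt n m O) (φ : O →ₐ[k] O') (f : II Q E) (j : E) :
    φ (sf ρ P f j) = sf ρ (P.map φ) f j := by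
  unfold sf
  rw [map_mul]
  have h := minor_map (φ : O →+* O') f j (ρ.ev P.x)
  simp only [RingHom.coe_coe] at h
  rw [h, ρ.ev_map]
  rfl

lemma Kf_map (P : Pt n m O) (g : Gd n E O) (φ : O →ₐ[k] O') (f : II Q E) :
    (Kf ρ P g f).map φ = Kf ρ (P.map φ) (g.map φ) f := by
  unfold Kf
  rw [Matrix.map_mul, Matrix.map_mul]
  have : (∑ j, sf ρ P f j • g.ξ j).map φ = ∑ j, sf ρ (P.map φ) f j • (g.map φ).ξ j := by
    ext α β
    simp only [Matrix.map_apply, Matrix.sum_apply, Matrix.smul_apply, smul_eq_mul, map_sum, map_mul,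
      sf_map]
    rfl
  rw [this]
  rfl

lemma Mff_map (P : Pt n m O) (φ : O →ₐ[k] O') (f f' : II Q E) :
    (Mff ρ μ P f f').map φ = Mff ρ μ (P.map φ) f f' := by
  unfold Mff
  rw [Matrix.map_mul, Matrix.map_mul]
  have : (∑ j, ∑ l, (sf ρ P f j * sf ρ P f' l) • (μ j l).map (algebraMap k O)).map φ =
    ∑ j, ∑ l, (sf ρ (P.map φ) f j * sf ρ (P.map φ) f' l) • (μ j l).map (algebraMap k O') := by
    ext α β
    simp only [Matrix.map_apply, Matrix.sum_apply, Matrix.smul_apply, smul_eq_mul, map_sum, map_mul,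
      sf_map, AlgHom.commutes]
  rw [this]
  rfl

theorem XH_map (P : Pt n m O) (g : Gd n E O) (φ : O →ₐ[k] O') :
    (XH p ρ e0 ε e μ P g).map φ = XH p ρ e0 ε e μ (P.map φ) (g.map φ) := by
  ext α β
  simp only [XH, Matrix.map_apply, Matrix.of_apply]
  have h := Kill.Xhat_map (φ : O →+* O') p e (Fv ρ e0 ε P) (Yv p ρ e0 ε P) (vv p ρ e0 ε P)
    (vv p ρ e0 ε (P.act p ρ e0 ε g)) (Uv p ρ e0 ε P) (Uv p ρ e0 ε (P.act p ρ e0 ε g))
    (fun f f' => Mff ρ μ (P.act p ρ e0 ε g) f f' α β) (fun f => Kf ρ P g f α β)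
    (zv p ρ e0 ε P g)
  simp only [RingHom.coe_coe, Fv_map, Yv_map, vv_map, Uv_map, zv_map, Pt.act_map] at h
  have hK : ∀ f, φ (Kf ρ P g f α β) = Kf ρ (P.map φ) (g.map φ) f α β := by
    intro f; rw [← Kf_map]; rfl
  have hM : ∀ f f', φ (Mff ρ μ (P.act p ρ e0 ε g) f f' α β) =
      Mff ρ μ ((P.map φ).act p ρ e0 ε (g.map φ)) f f' α β := by
    intro f f'; rw [← Pt.act_map, ← Mff_map]; rfl
  simp only [hK, hM] at h
  exact h

/-! ### the cochain identity -/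

/-- validity of the group data -/
def Gd.Ok (g : Gd n E O) : Prop := Good ρ e0 g.a g.ai g.χ g.χi

/-- composition of group data, with 2-cocycle value `f` -/
structure Gd.Comp (g h gh : Gd n E O) (f : Matrix (Fin n) (Fin n) O) : Prop where
  a : gh.a = g.a * h.a
  ai : gh.ai = h.ai * g.ai
  χ : gh.χ = g.χ * h.χ
  χi : gh.χi = g.χi * h.χi
  rel : ∀ i, (if i = e0 then f else 0) = g.ξ i +
    (∑ j, (ρ.ev g.a) (Sum.inr i) (Sum.inr j) • (g.a * h.ξ j * g.ai)) - gh.ξ i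

/-- the second relation -/
def Gd.Cob (g : Gd n E O) : Prop :=
  ∀ i i', (∑ j, ∑ l, ((ρ.ev g.a) (Sum.inr i) (Sum.inr j) * (ρ.ev g.a) (Sum.inr i') (Sum.inr l)) •
      (g.a * (μ j l).map (algebraMap k O) * g.ai)) - (μ i i').map (algebraMap k O) =
    (if i' = e0 then g.ξ i else 0) - (if i = e0 then g.ξ i' else 0)

variable {ρ e0 ε μ}

section act
variable {P : Pt n m O} {g : Gd n E O} (hP : P.Valid) (hg : g.Ok ρ e0) (hε : ε (cl e0) = Sum.inl ())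
include hP hg hε

lemma act_Fv (f : II Q E) : Fv ρ e0 ε (P.act p ρ e0 ε g) f = Fv ρ e0 ε P f := by
  unfold Fv Pt.act
  simp only
  rw [Rm_act ρ e0 ε _ _ _ _ (PRep.isUnit_det_of_mul_eq_one hP.hx).1
    (PRep.isUnit_det_of_mul_eq_one hg.inv).1, Matrix.mul_apply]
  simp only [hg.Cm_col ε hε]
  rw [← Matrix.mul_apply, Matrix.mul_one]

lemma act_sf (f : II Q E) (j : E) : sf ρ (P.act p ρ e0 ε g) f j =
    ∑ i, (ρ.ev g.a) (Sum.inr i) (Sum.inr j) * sf ρ P f i := by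
  unfold sf Pt.act
  simp only
  rw [hg.minor_act _ (PRep.isUnit_det_of_mul_eq_one hP.hx).1, Finset.mul_sum, Finset.mul_sum]
  refine Finset.sum_congr rfl fun i _ => ?_
  have := hg.chi
  linear_combination (P.ti * (ρ.ev g.a) (Sum.inr i) (Sum.inr j) * minor f i (ρ.ev P.x)) * this

omit hg in
lemma Fv_eq_sf (f : II Q E) : Fv ρ e0 ε P f = sf ρ P f e0 := by
  have hs : ε.symm (Sum.inl ()) = cl e0 := by rw [← hε, Equiv.symm_apply_apply]
  unfold Fv sf Rm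
  rw [Matrix.submatrix_apply, hs, id, Matrix.mul_apply]
  simp only [Om_col]
  rw [minor_eq_mulVec]
  simp only [BZ, mulVec, dotProduct, Matrix.smul_apply, smul_eq_mul, Finset.mul_sum, mul_assoc]

end act

section frob
variable [hp : Fact p.Prime] [CharP O p]

lemma map_pow_mul {A B C : Type} [Fintype B] (M : Matrix A B O) (N : Matrix B C O) :
    (M * N).map (fun z => z^p) = M.map (fun z => z^p) * N.map (fun z => z^p) := by
  ext i j
  simp only [Matrix.map_apply, Matrix.mul_apply]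
  rw [Kill.sum_pow_p]
  simp only [mul_pow]

lemma map_pow_add {A B : Type} (M N : Matrix A B O) :
    (M + N).map (fun z => z^p) = M.map (fun z => z^p) + N.map (fun z => z^p) := by
  ext i j
  simp only [Matrix.map_apply, Matrix.add_apply, add_pow_char]

lemma map_pow_one {A : Type} [DecidableEq A] :
    (1 : Matrix A A O).map (fun z => z^p) = 1 := by
  ext i j
  simp only [Matrix.map_apply, Matrix.one_apply]
  split_ifs
  · exact one_pow p
  · exact zero_pow hp.out.ne_zero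

variable {P : Pt n m O} {g : Gd n E O}

/-- twisted matrices -/
lemma Rp_facts (hP : P.Valid) :
    ((Rm ρ e0 ε P.x P.ti).map (fun z => z^p)) * ((Rim ρ e0 ε P.xi P.t).map (fun z => z^p)) = 1 ∧
    ((Rim ρ e0 ε P.xi P.t).map (fun z => z^p)) * ((Rm ρ e0 ε P.x P.ti).map (fun z => z^p)) = 1 := by
  rw [← map_pow_mul, ← map_pow_mul, Rm_mul_Rim ρ e0 ε _ _ _ _ hP.hx hP.ht,
    Rim_mul_Rm ρ e0 ε _ _ _ _ hP.hx hP.ht]
  exact ⟨map_pow_one p, map_pow_one p⟩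

lemma act_valid (hP : P.Valid) (hg : g.Ok ρ e0) (hε : ε (cl e0) = Sum.inl ()) :
    (P.act p ρ e0 ε g).Valid := by
  refine ⟨?_, ?_, ?_⟩
  · show P.x * g.a * (g.ai * P.xi) = 1
    calc _ = P.x * (g.a * g.ai) * P.xi := by simp only [Matrix.mul_assoc]
      _ = 1 := by rw [hg.inv, Matrix.mul_one, hP.hx]
  · show P.t * g.χ * (P.ti * g.χi) = 1
    have h1 := hP.ht
    have h2 := hg.chi
    linear_combination (g.χ * g.χi) * h1 + h2
  · show P.y * gp p ρ e0 ε g.a g.χi * (gp p ρ e0 ε g.ai g.χ * P.yi) = 1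
    have h1 : gp p ρ e0 ε g.a g.χi * gp p ρ e0 ε g.ai g.χ = 1 := by
      unfold gp
      rw [← map_pow_mul, hg.gam_inv ε hε, map_pow_one]
    calc _ = P.y * (gp p ρ e0 ε g.a g.χi * gp p ρ e0 ε g.ai g.χ) * P.yi := by
          simp only [Matrix.mul_assoc]
      _ = 1 := by rw [h1, Matrix.mul_one, hP.hy]

lemma hvF (hP : P.Valid) : ∑ f, vv p ρ e0 ε P f * Fv ρ e0 ε P f ^ p = 1 := by
  have h := congrFun (congrFun (Rp_facts (ε := ε) (e0 := e0) (ρ := ρ) p hP).2 (Sum.inl ())) (Sum.inl ())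
  rw [Matrix.mul_apply] at h
  simpa [vv, Fv] using h

lemma hYF (hP : P.Valid) (a : Fin m) : ∑ f, Yv p ρ e0 ε P a f * Fv ρ e0 ε P f ^ p = 0 := by
  have h : ∀ b : Fin m, ∑ f, (Rim ρ e0 ε P.xi P.t (Sum.inr b) f)^p * Fv ρ e0 ε P f ^ p = 0 := by
    intro b
    have h := congrFun (congrFun (Rp_facts (ε := ε) (e0 := e0) (ρ := ρ) p hP).2 (Sum.inr b)) (Sum.inl ())
    rw [Matrix.mul_apply] at h
    simpa [Fv] using h
  unfold Yv
  simp only [Finset.sum_mul]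
  rw [Finset.sum_comm]
  refine Finset.sum_eq_zero fun b _ => ?_
  have h2 := congrArg (fun t => P.y a b * t) (h b)
  simp only [Finset.mul_sum, mul_zero] at h2
  rw [← h2]
  exact Finset.sum_congr rfl fun f _ => by ring

/-- transition for the inverse matrices: `R_0^{-1} = C R_1^{-1}` -/
lemma Rim_act (hP : P.Valid) (hg : g.Ok ρ e0) :
    Rim ρ e0 ε P.xi P.t = Cm ρ e0 ε g.a g.χi * Rim ρ e0 ε (P.act p ρ e0 ε g).xi (P.act p ρ e0 ε g).t := by
  have h1 := Rm_act ρ e0 ε P.x g.a P.ti g.χi (PRep.isUnit_det_of_mul_eq_one hP.hx).1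
    (PRep.isUnit_det_of_mul_eq_one hg.inv).1
  have hx1 : (P.x * g.a) * (g.ai * P.xi) = 1 := by
    calc _ = P.x * (g.a * g.ai) * P.xi := by simp only [Matrix.mul_assoc]
      _ = 1 := by rw [hg.inv, Matrix.mul_one, hP.hx]
  have ht1 : P.t * g.χ * (P.ti * g.χi) = 1 := by
    have h1 := hP.ht
    have h2 := hg.chi
    linear_combination (g.χ * g.χi) * h1 + h2
  have h2 := Rm_mul_Rim ρ e0 ε _ _ _ _ hx1 ht1
  rw [h1] at h2
  have h3 := Rim_mul_Rm ρ e0 ε _ _ _ _ hP.hx hP.ht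
  calc Rim ρ e0 ε P.xi P.t = Rim ρ e0 ε P.xi P.t *
        (Rm ρ e0 ε P.x P.ti * Cm ρ e0 ε g.a g.χi * Rim ρ e0 ε (g.ai * P.xi) (P.t * g.χ)) := by
        rw [h2, Matrix.mul_one]
    _ = (Rim ρ e0 ε P.xi P.t * Rm ρ e0 ε P.x P.ti) * Cm ρ e0 ε g.a g.χi *
          Rim ρ e0 ε (g.ai * P.xi) (P.t * g.χ) := by simp only [Matrix.mul_assoc]
    _ = _ := by rw [h3, Matrix.one_mul]; rfl

/-- matrix forms -/
noncomputable def Ym (p : ℕ) (ρ : PRep k n (Q ⊕ E)) (e0 : E) (ε : II Q E ≃ Unit ⊕ Fin m)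
    (P : Pt n m O) : Matrix (Fin m) (II Q E) O :=
  Matrix.of fun b f => (Rim ρ e0 ε P.xi P.t (Sum.inr b) f)^p

noncomputable def vm (p : ℕ) (ρ : PRep k n (Q ⊕ E)) (e0 : E) (ε : II Q E ≃ Unit ⊕ Fin m)
    (P : Pt n m O) : Matrix Unit (II Q E) O :=
  Matrix.of fun _ f => (Rim ρ e0 ε P.xi P.t (Sum.inl ()) f)^p

noncomputable def Umm (p : ℕ) (ρ : PRep k n (Q ⊕ E)) (e0 : E) (ε : II Q E ≃ Unit ⊕ Fin m)
    (P : Pt n m O) : Matrix (II Q E) (Fin m) O :=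
  Matrix.of fun f b => (Rm ρ e0 ε P.x P.ti f (Sum.inr b))^p

noncomputable def Fm (p : ℕ) (ρ : PRep k n (Q ⊕ E)) (e0 : E) (ε : II Q E ≃ Unit ⊕ Fin m)
    (P : Pt n m O) : Matrix (II Q E) Unit O :=
  Matrix.of fun f _ => (Rm ρ e0 ε P.x P.ti f (Sum.inl ()))^p

lemma Ym_act (hP : P.Valid) (hg : g.Ok ρ e0) (hε : ε (cl e0) = Sum.inl ()) :
    Ym p ρ e0 ε P = gp p ρ e0 ε g.a g.χi * Ym p ρ e0 ε (P.act p ρ e0 ε g) ∧
    vm p ρ e0 ε P = vm p ρ e0 ε (P.act p ρ e0 ε g) +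
      bp p ρ e0 ε g.a g.χi * Ym p ρ e0 ε (P.act p ρ e0 ε g) := by
  have h := congrArg (fun M => M.map (fun z => z^p)) (Rim_act (ε := ε) p hP hg)
  simp only [map_pow_mul] at h
  constructor
  · ext b f
    have h2 := congrFun (congrFun h (Sum.inr b)) f
    rw [Matrix.mul_apply, Fintype.sum_sum_type] at h2
    simp only [Matrix.map_apply, Finset.univ_unique, Finset.sum_singleton] at h2
    rw [show (default : Unit) = () from rfl, hg.Cm_col ε hε] at h2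
    rw [Matrix.mul_apply]
    simp only [Ym, Matrix.of_apply, gp, gam, Matrix.toBlocks₂₂, Matrix.map_apply]
    rw [h2]
    simp [hp.out.ne_zero]
  · ext b f
    obtain rfl : b = () := rfl
    have h2 := congrFun (congrFun h (Sum.inl ())) f
    rw [Matrix.mul_apply, Fintype.sum_sum_type] at h2
    simp only [Matrix.map_apply, Finset.univ_unique, Finset.sum_singleton] at h2
    rw [show (default : Unit) = () from rfl, hg.Cm_col ε hε] at h2
    rw [Matrix.add_apply, Matrix.mul_apply]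
    simp only [Ym, vm, Matrix.of_apply, bp, bet, Matrix.toBlocks₁₂, Matrix.map_apply]
    rw [h2]
    simp

lemma Umm_act (hP : P.Valid) (hg : g.Ok ρ e0) :
    Umm p ρ e0 ε (P.act p ρ e0 ε g) = Fm p ρ e0 ε P * bp p ρ e0 ε g.a g.χi +
      Umm p ρ e0 ε P * gp p ρ e0 ε g.a g.χi := by
  have h := congrArg (fun M => M.map (fun z => z^p)) (Rm_act ρ e0 ε P.x g.a P.ti g.χi
    (PRep.isUnit_det_of_mul_eq_one hP.hx).1 (PRep.isUnit_det_of_mul_eq_one hg.inv).1)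
  simp only [map_pow_mul] at h
  ext f b
  have h2 := congrFun (congrFun h f) (Sum.inr b)
  rw [Matrix.mul_apply, Fintype.sum_sum_type] at h2
  simp only [Matrix.map_apply, Finset.univ_unique, Finset.sum_singleton] at h2
  rw [Matrix.add_apply, Matrix.mul_apply, Matrix.mul_apply]
  simp only [Umm, Fm, Matrix.of_apply, bp, bet, gp, gam, Matrix.toBlocks₁₂, Matrix.toBlocks₂₂,
    Matrix.map_apply, Finset.univ_unique, Finset.sum_singleton]
  exact h2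

lemma gp_mul_inv (hg : g.Ok ρ e0) (hε : ε (cl e0) = Sum.inl ()) :
    gp p ρ e0 ε g.a g.χi * gp p ρ e0 ε g.ai g.χ = 1 := by
  unfold gp
  rw [← map_pow_mul, hg.gam_inv ε hε, map_pow_one]

lemma act_Yv (hP : P.Valid) (hg : g.Ok ρ e0) (hε : ε (cl e0) = Sum.inl ()) (a : Fin m) (f : II Q E) :
    Yv p ρ e0 ε (P.act p ρ e0 ε g) a f = Yv p ρ e0 ε P a f := by
  have h1 : ∀ P : Pt n m O, Yv p ρ e0 ε P a f = (P.y * Ym p ρ e0 ε P) a f := by
    intro P; rw [Matrix.mul_apply]; rfl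
  rw [h1, h1, (Ym_act (ε := ε) p hP hg hε).1, ← Matrix.mul_assoc]
  rfl

lemma act_vv (hP : P.Valid) (hg : g.Ok ρ e0) (hε : ε (cl e0) = Sum.inl ()) (f : II Q E) :
    vv p ρ e0 ε (P.act p ρ e0 ε g) f = vv p ρ e0 ε P f + ∑ a, zv p ρ e0 ε P g a * Yv p ρ e0 ε P a f := by
  have hy' : P.yi * P.y = 1 := mul_eq_one_comm.1 hP.hy
  have hgi : gp p ρ e0 ε g.ai g.χ * gp p ρ e0 ε g.a g.χi = 1 := mul_eq_one_comm.1 (gp_mul_inv p hg hε)
  have h1 : ∑ a, zv p ρ e0 ε P g a * Yv p ρ e0 ε P a f =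
      (- (bp p ρ e0 ε g.a g.χi * gp p ρ e0 ε g.ai g.χ * P.yi) * (P.y * Ym p ρ e0 ε P)) () f := by
    rw [Matrix.mul_apply]
    refine Finset.sum_congr rfl fun a _ => ?_
    rw [Matrix.neg_apply]
    have : Yv p ρ e0 ε P a f = (P.y * Ym p ρ e0 ε P) a f := by rw [Matrix.mul_apply]; rfl
    rw [this]
    rfl
  have h2 : - (bp p ρ e0 ε g.a g.χi * gp p ρ e0 ε g.ai g.χ * P.yi) * (P.y * Ym p ρ e0 ε P) =
      - (bp p ρ e0 ε g.a g.χi * Ym p ρ e0 ε (P.act p ρ e0 ε g)) := by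
    rw [Matrix.neg_mul]
    congr 1
    calc _ = bp p ρ e0 ε g.a g.χi * gp p ρ e0 ε g.ai g.χ * (P.yi * P.y) * Ym p ρ e0 ε P := by
          simp only [Matrix.mul_assoc]
      _ = bp p ρ e0 ε g.a g.χi * (gp p ρ e0 ε g.ai g.χ * gp p ρ e0 ε g.a g.χi) *
            Ym p ρ e0 ε (P.act p ρ e0 ε g) := by
          rw [hy', Matrix.mul_one, (Ym_act (ε := ε) p hP hg hε).1]
          simp only [Matrix.mul_assoc]
      _ = _ := by rw [hgi, Matrix.mul_one]
  have h3 := congrFun (congrFun (Ym_act (ε := ε) p hP hg hε).2 ()) f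
  rw [h1, h2]
  rw [Matrix.add_apply] at h3
  rw [Matrix.neg_apply]
  show vm p ρ e0 ε (P.act p ρ e0 ε g) () f = vm p ρ e0 ε P () f + _
  rw [h3]
  ring

lemma act_Uv (hP : P.Valid) (hg : g.Ok ρ e0) (hε : ε (cl e0) = Sum.inl ()) (f : II Q E) (a : Fin m) :
    Uv p ρ e0 ε (P.act p ρ e0 ε g) f a = Uv p ρ e0 ε P f a - Fv ρ e0 ε P f ^ p * zv p ρ e0 ε P g a := by
  have h1 : ∀ P : Pt n m O, Uv p ρ e0 ε P f a = (Umm p ρ e0 ε P * P.yi) f a := by
    intro P; rw [Matrix.mul_apply]; rfl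
  rw [h1, h1, Umm_act (ε := ε) p hP hg]
  have h2 : (Fm p ρ e0 ε P * bp p ρ e0 ε g.a g.χi + Umm p ρ e0 ε P * gp p ρ e0 ε g.a g.χi) *
      (P.act p ρ e0 ε g).yi = Umm p ρ e0 ε P * P.yi -
      Fm p ρ e0 ε P * (- (bp p ρ e0 ε g.a g.χi * gp p ρ e0 ε g.ai g.χ * P.yi)) := by
    have hyi : (P.act p ρ e0 ε g).yi = gp p ρ e0 ε g.ai g.χ * P.yi := rfl
    rw [hyi, Matrix.add_mul, Matrix.mul_neg, sub_neg_eq_add, add_comm]
    congr 1
    · calc _ = Umm p ρ e0 ε P * (gp p ρ e0 ε g.a g.χi * gp p ρ e0 ε g.ai g.χ) * P.yi := by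
            simp only [Matrix.mul_assoc]
        _ = _ := by rw [gp_mul_inv p hg hε, Matrix.mul_one]
    · simp only [Matrix.mul_assoc]
  rw [h2, Matrix.sub_apply]
  congr 1
  rw [Matrix.mul_apply]
  simp only [Finset.univ_unique, Finset.sum_singleton, Matrix.neg_apply]
  rfl

omit hp in
lemma sum_rearr (c : E → E → O) (s s' : E → O) (W : E → E → Matrix (Fin n) (Fin n) O) :
    ∑ j, ∑ l, ((∑ i, c i j * s i) * (∑ i', c i' l * s' i')) • W j l =
      ∑ i, ∑ i', (s i * s' i') • ∑ j, ∑ l, (c i j * c i' l) • W j l := by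
  simp only [Finset.sum_mul_sum, Finset.sum_smul, Finset.smul_sum, smul_smul]
  calc _ = ∑ j, ∑ i, ∑ l, ∑ i', (c i j * s i * (c i' l * s' i')) • W j l := by
        refine Finset.sum_congr rfl fun j _ => ?_
        rw [Finset.sum_comm]
    _ = ∑ i, ∑ j, ∑ i', ∑ l, (c i j * s i * (c i' l * s' i')) • W j l := by
        rw [Finset.sum_comm]
        refine Finset.sum_congr rfl fun i _ => Finset.sum_congr rfl fun j _ => ?_
        rw [Finset.sum_comm]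
    _ = ∑ i, ∑ i', ∑ j, ∑ l, (c i j * s i * (c i' l * s' i')) • W j l := by
        refine Finset.sum_congr rfl fun i _ => ?_
        rw [Finset.sum_comm]
    _ = _ := by
        refine Finset.sum_congr rfl fun i _ => Finset.sum_congr rfl fun i' _ =>
          Finset.sum_congr rfl fun j _ => Finset.sum_congr rfl fun l _ => ?_
        congr 1
        ring

omit hp in
lemma Mff_diff (hP : P.Valid) (hg : g.Ok ρ e0) (hε : ε (cl e0) = Sum.inl ()) (hc : g.Cob ρ e0 μ)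
    (f f' : II Q E) :
    Mff ρ μ (P.act p ρ e0 ε g) f f' - Mff ρ μ P f f' =
      Fv ρ e0 ε P f' • Kf ρ P g f - Fv ρ e0 ε P f • Kf ρ P g f' := by
  rw [Fv_eq_sf hP hε, Fv_eq_sf hP hε]
  unfold Mff Kf
  have h1 : ∀ f j, sf ρ (P.act p ρ e0 ε g) f j =
    ∑ i, (ρ.ev g.a) (Sum.inr i) (Sum.inr j) * sf ρ P f i := fun f j => act_sf p hP hg hε f j
  simp only [h1]
  have hx : (P.act p ρ e0 ε g).x = P.x * g.a := rfl
  have hxi : (P.act p ρ e0 ε g).xi = g.ai * P.xi := rfl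
  have h2 : P.x * g.a * (∑ j, ∑ l, ((∑ i, (ρ.ev g.a) (Sum.inr i) (Sum.inr j) * sf ρ P f i) *
      (∑ i, (ρ.ev g.a) (Sum.inr i) (Sum.inr l) * sf ρ P f' i)) • (μ j l).map (algebraMap k O)) *
      (g.ai * P.xi) = P.x * (∑ i, ∑ i', (sf ρ P f i * sf ρ P f' i') •
        ∑ j, ∑ l, ((ρ.ev g.a) (Sum.inr i) (Sum.inr j) * (ρ.ev g.a) (Sum.inr i') (Sum.inr l)) •
        (g.a * (μ j l).map (algebraMap k O) * g.ai)) * P.xi := by
    rw [← sum_rearr (fun i j => (ρ.ev g.a) (Sum.inr i) (Sum.inr j)) (sf ρ P f) (sf ρ P f')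
      (fun j l => g.a * (μ j l).map (algebraMap k O) * g.ai)]
    have h3 : (∑ j, ∑ l, ((∑ i, (ρ.ev g.a) (Sum.inr i) (Sum.inr j) * sf ρ P f i) *
      (∑ i, (ρ.ev g.a) (Sum.inr i) (Sum.inr l) * sf ρ P f' i)) •
      (g.a * (μ j l).map (algebraMap k O) * g.ai)) =
      g.a * (∑ j, ∑ l, ((∑ i, (ρ.ev g.a) (Sum.inr i) (Sum.inr j) * sf ρ P f i) *
      (∑ i, (ρ.ev g.a) (Sum.inr i) (Sum.inr l) * sf ρ P f' i)) •
      (μ j l).map (algebraMap k O)) * g.ai := by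
      simp only [Matrix.mul_sum, Matrix.sum_mul, Matrix.mul_smul, Matrix.smul_mul]
    rw [h3]
    simp only [Matrix.mul_assoc]
  rw [hx, hxi, h2]
  rw [← Matrix.sub_mul, ← Matrix.mul_sub]
  have h4 : (∑ i, ∑ i', (sf ρ P f i * sf ρ P f' i') •
        ∑ j, ∑ l, ((ρ.ev g.a) (Sum.inr i) (Sum.inr j) * (ρ.ev g.a) (Sum.inr i') (Sum.inr l)) •
        (g.a * (μ j l).map (algebraMap k O) * g.ai)) -
      (∑ j, ∑ l, (sf ρ P f j * sf ρ P f' l) • (μ j l).map (algebraMap k O)) =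
      sf ρ P f' e0 • (∑ j, sf ρ P f j • g.ξ j) - sf ρ P f e0 • (∑ j, sf ρ P f' j • g.ξ j) := by
    simp only [← Finset.sum_sub_distrib, ← smul_sub]
    have h5 : ∀ i i', (∑ j, ∑ l, ((ρ.ev g.a) (Sum.inr i) (Sum.inr j) * (ρ.ev g.a) (Sum.inr i') (Sum.inr l)) •
        (g.a * (μ j l).map (algebraMap k O) * g.ai)) - (μ i i').map (algebraMap k O) =
      (if i' = e0 then g.ξ i else 0) - (if i = e0 then g.ξ i' else 0) := hc
    simp only [h5, smul_sub, Finset.sum_sub_distrib, smul_ite, smul_zero]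
    congr 1
    · simp only [Finset.sum_ite_eq', Finset.mem_univ, if_true, Finset.smul_sum, smul_smul]
      exact Finset.sum_congr rfl fun i _ => by rw [mul_comm]
    · rw [Finset.sum_comm]
      simp only [Finset.sum_ite_eq', Finset.mem_univ, if_true, Finset.smul_sum, smul_smul]
  rw [h4, Matrix.mul_sub, Matrix.sub_mul, Matrix.mul_smul, Matrix.smul_mul, Matrix.mul_smul,
    Matrix.smul_mul]

omit hp in
lemma Kf_rel {h gh : Gd n E O} {fm : Matrix (Fin n) (Fin n) O} (hP : P.Valid) (hg : g.Ok ρ e0)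
    (hε : ε (cl e0) = Sum.inl ()) (hcomp : Gd.Comp ρ e0 g h gh fm) (f : II Q E) :
    Fv ρ e0 ε P f • (P.x * fm * P.xi) = Kf ρ P g f + Kf ρ (P.act p ρ e0 ε g) h f - Kf ρ P gh f := by
  rw [Fv_eq_sf hP hε]
  unfold Kf
  have h1 : ∀ f j, sf ρ (P.act p ρ e0 ε g) f j =
    ∑ i, (ρ.ev g.a) (Sum.inr i) (Sum.inr j) * sf ρ P f i := fun f j => act_sf p hP hg hε f j
  simp only [h1]
  have hx : (P.act p ρ e0 ε g).x = P.x * g.a := rfl
  have hxi : (P.act p ρ e0 ε g).xi = g.ai * P.xi := rfl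
  have h2 : P.x * g.a * (∑ j, (∑ i, (ρ.ev g.a) (Sum.inr i) (Sum.inr j) * sf ρ P f i) • h.ξ j) *
      (g.ai * P.xi) = P.x * (∑ i, sf ρ P f i • ∑ j, (ρ.ev g.a) (Sum.inr i) (Sum.inr j) •
        (g.a * h.ξ j * g.ai)) * P.xi := by
    have h3 : (∑ i, sf ρ P f i • ∑ j, (ρ.ev g.a) (Sum.inr i) (Sum.inr j) •
        (g.a * h.ξ j * g.ai)) = g.a * (∑ j, (∑ i, (ρ.ev g.a) (Sum.inr i) (Sum.inr j) * sf ρ P f i) •
          h.ξ j) * g.ai := by
      simp only [Matrix.mul_sum, Matrix.sum_mul, Matrix.mul_smul, Matrix.smul_mul, Finset.sum_smul,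
        Finset.smul_sum, smul_smul]
      rw [Finset.sum_comm]
      refine Finset.sum_congr rfl fun j _ => Finset.sum_congr rfl fun i _ => ?_
      rw [mul_comm]
    rw [h3]
    simp only [Matrix.mul_assoc]
  rw [hx, hxi, h2, ← Matrix.add_mul, ← Matrix.mul_add, ← Matrix.sub_mul, ← Matrix.mul_sub,
    ← Finset.sum_add_distrib, ← Finset.sum_sub_distrib]
  have h6 : (∑ i, (sf ρ P f i • g.ξ i + sf ρ P f i • ∑ j, (ρ.ev g.a) (Sum.inr i) (Sum.inr j) •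
        (g.a * h.ξ j * g.ai) - sf ρ P f i • gh.ξ i)) = sf ρ P f e0 • fm := by
    simp only [← smul_add, ← smul_sub, ← hcomp.rel]
    simp
  rw [h6, Matrix.mul_smul, Matrix.smul_mul]

lemma gp_ai_mul {h gh : Gd n E O} {fm : Matrix (Fin n) (Fin n) O} (hg : g.Ok ρ e0)
    (hh : h.Ok ρ e0) (hgh : gh.Ok ρ e0)
    (hε : ε (cl e0) = Sum.inl ()) (hcomp : Gd.Comp ρ e0 g h gh fm) :
    gp p ρ e0 ε gh.a gh.χi = gp p ρ e0 ε g.a g.χi * gp p ρ e0 ε h.a h.χi ∧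
    gp p ρ e0 ε gh.ai gh.χ = gp p ρ e0 ε h.ai h.χ * gp p ρ e0 ε g.ai g.χ ∧
    bp p ρ e0 ε gh.a gh.χi = bp p ρ e0 ε h.a h.χi + bp p ρ e0 ε g.a g.χi * gp p ρ e0 ε h.a h.χi := by
  have hgam := Good.gam_mul ε hg hh hε hcomp.a hcomp.χi hgh
  have h1 : gp p ρ e0 ε gh.a gh.χi = gp p ρ e0 ε g.a g.χi * gp p ρ e0 ε h.a h.χi := by
    unfold gp
    rw [hgam.1, map_pow_mul]
  refine ⟨h1, ?_, ?_⟩
  · have h2 := gp_mul_inv (ε := ε) p hgh hε
    have h3 := gp_mul_inv (ε := ε) p hg hε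
    have h4 := gp_mul_inv (ε := ε) p hh hε
    have h2' : gp p ρ e0 ε gh.ai gh.χ * gp p ρ e0 ε gh.a gh.χi = 1 := mul_eq_one_comm.1 h2
    calc gp p ρ e0 ε gh.ai gh.χ = gp p ρ e0 ε gh.ai gh.χ *
          (gp p ρ e0 ε g.a g.χi * (gp p ρ e0 ε h.a h.χi * gp p ρ e0 ε h.ai h.χ) *
            gp p ρ e0 ε g.ai g.χ) := by
          rw [h4, Matrix.mul_one, h3, Matrix.mul_one]
      _ = (gp p ρ e0 ε gh.ai gh.χ * (gp p ρ e0 ε g.a g.χi * gp p ρ e0 ε h.a h.χi)) *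
            (gp p ρ e0 ε h.ai h.χ * gp p ρ e0 ε g.ai g.χ) := by simp only [Matrix.mul_assoc]
      _ = _ := by rw [← h1, h2', Matrix.one_mul]
  · unfold bp gp
    rw [hgam.2, map_pow_add, map_pow_mul]

lemma act_act {h gh : Gd n E O} {fm : Matrix (Fin n) (Fin n) O} (hg : g.Ok ρ e0)
    (hh : h.Ok ρ e0) (hgh : gh.Ok ρ e0)
    (hε : ε (cl e0) = Sum.inl ()) (hcomp : Gd.Comp ρ e0 g h gh fm) :
    P.act p ρ e0 ε gh = (P.act p ρ e0 ε g).act p ρ e0 ε h := by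
  obtain ⟨h1, h2, -⟩ := gp_ai_mul (ε := ε) p hg hh hgh hε hcomp
  unfold Pt.act
  ext1
  · simp only [hcomp.a, Matrix.mul_assoc]
  · simp only [hcomp.ai, Matrix.mul_assoc]
  · simp only [hcomp.χ, mul_assoc]
  · simp only [hcomp.χi, mul_assoc]
  · simp only [h1, Matrix.mul_assoc]
  · simp only [h2, Matrix.mul_assoc]

lemma zv_rel {h gh : Gd n E O} {fm : Matrix (Fin n) (Fin n) O} (hg : g.Ok ρ e0)
    (hh : h.Ok ρ e0) (hgh : gh.Ok ρ e0)
    (hε : ε (cl e0) = Sum.inl ()) (hcomp : Gd.Comp ρ e0 g h gh fm) (a : Fin m) :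
    zv p ρ e0 ε P gh a = zv p ρ e0 ε P g a + zv p ρ e0 ε (P.act p ρ e0 ε g) h a := by
  obtain ⟨h1, h2, h3⟩ := gp_ai_mul (ε := ε) p hg hh hgh hε hcomp
  unfold zv
  rw [h2, h3]
  have h4 := gp_mul_inv (ε := ε) p hh hε
  have e1 : (bp p ρ e0 ε h.a h.χi + bp p ρ e0 ε g.a g.χi * gp p ρ e0 ε h.a h.χi) *
      (gp p ρ e0 ε h.ai h.χ * gp p ρ e0 ε g.ai g.χ) * P.yi =
      bp p ρ e0 ε h.a h.χi * gp p ρ e0 ε h.ai h.χ * (P.act p ρ e0 ε g).yi +
      bp p ρ e0 ε g.a g.χi * gp p ρ e0 ε g.ai g.χ * P.yi := by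
    have hyi : (P.act p ρ e0 ε g).yi = gp p ρ e0 ε g.ai g.χ * P.yi := rfl
    rw [hyi, Matrix.add_mul, Matrix.add_mul]
    congr 1
    · simp only [Matrix.mul_assoc]
    · calc _ = bp p ρ e0 ε g.a g.χi * (gp p ρ e0 ε h.a h.χi * gp p ρ e0 ε h.ai h.χ) *
            gp p ρ e0 ε g.ai g.χ * P.yi := by simp only [Matrix.mul_assoc]
        _ = _ := by rw [h4, Matrix.mul_one]
  rw [e1, Matrix.add_apply]
  ring

/-- **The cochain identity.** -/
theorem cochain {h gh : Gd n E O} {fm : Matrix (Fin n) (Fin n) O} (hP : P.Valid) (hg : g.Ok ρ e0)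
    (hh : h.Ok ρ e0) (hgh : gh.Ok ρ e0) (hε : ε (cl e0) = Sum.inl ())
    (hcomp : Gd.Comp ρ e0 g h gh fm) (hcg : g.Cob ρ e0 μ) (hch : h.Cob ρ e0 μ) :
    P.x * fm * P.xi = XH p ρ e0 ε e μ P g + XH p ρ e0 ε e μ (P.act p ρ e0 ε g) h -
      XH p ρ e0 ε e μ P gh := by
  have hP1 := act_valid (ε := ε) p hP hg hε
  have hF1 : Fv ρ e0 ε (P.act p ρ e0 ε g) = Fv ρ e0 ε P := funext fun f => act_Fv p hP hg hε f
  have hY1 : Yv p ρ e0 ε (P.act p ρ e0 ε g) = Yv p ρ e0 ε P :=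
    funext fun a => funext fun f => act_Yv p hP hg hε a f
  have hPgh := act_act (ε := ε) (P := P) p hg hh hgh hε hcomp
  ext α β
  rw [Matrix.sub_apply, Matrix.add_apply]
  simp only [XH, Matrix.of_apply]
  rw [hF1, hY1, hPgh]
  refine Kill.kill p e (Fv ρ e0 ε P) (Yv p ρ e0 ε P) (vv p ρ e0 ε P) (vv p ρ e0 ε (P.act p ρ e0 ε g))
    (vv p ρ e0 ε ((P.act p ρ e0 ε g).act p ρ e0 ε h)) (Uv p ρ e0 ε P) (Uv p ρ e0 ε (P.act p ρ e0 ε g))
    (Uv p ρ e0 ε ((P.act p ρ e0 ε g).act p ρ e0 ε h)) (fun f f' => Mff ρ μ P f f' α β) _ _ _ _ _ _ _ _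
    ((P.x * fm * P.xi) α β) (hvF p hP) ?_ (hYF p hP) (act_vv p hP hg hε) ?_ (act_Uv p hP hg hε) ?_
    (zv_rel p hg hh hgh hε hcomp) ?_ ?_ ?_
  · have := hvF (ε := ε) (e0 := e0) (ρ := ρ) p hP1
    rwa [hF1] at this
  · intro f
    have := act_vv (ε := ε) p hP1 hh hε f
    rwa [hY1] at this
  · intro f a
    have := act_Uv (ε := ε) p hP1 hh hε f a
    rwa [hF1] at this
  · intro i j
    have := congrFun (congrFun (Mff_diff (ε := ε) p hP hg hε hcg i j) α) β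
    simpa only [Matrix.sub_apply, Matrix.smul_apply, smul_eq_mul] using this
  · intro i j
    have := congrFun (congrFun (Mff_diff (ε := ε) p hP1 hh hε hch i j) α) β
    rw [hF1] at this
    simpa only [Matrix.sub_apply, Matrix.smul_apply, smul_eq_mul] using this
  · intro i
    have := congrFun (congrFun (Kf_rel (ε := ε) p hP hg hε hcomp i) α) β
    simpa only [Matrix.sub_apply, Matrix.add_apply, Matrix.smul_apply, smul_eq_mul] using this

end frob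

end

end Pool.Agent.LN
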