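import Pool.Agent.Helper208_LN.Cochain

set_option autoImplicit false
set_option linter.unusedSectionVars false
set_option linter.style.haveILetI false

namespace Pool.Agent.LN
open Matrix Finset MvPolynomial

section prodPhi
variable {V₁ V₂ : Type} [Fintype V₁] [DecidableEq V₁] [Fintype V₂] [DecidableEq V₂]
variable {C : Type} [CommRing C]

lemma Phi_rename_mul (q : ℕ) (A : MvPolynomial V₁ C) (B : MvPolynomial V₂ C) :
    Phi q (rename (Sum.inl : V₁ → V₁ ⊕ V₂) A * rename (Sum.inr : V₂ → V₁ ⊕ V₂) B) =
      Phi q A * Phi q B := by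
  induction A using MvPolynomial.induction_on' with
  | add f g hf hg => rw [map_add, add_mul, map_add, hf, hg, map_add, add_mul]
  | monomial α a =>
  induction B using MvPolynomial.induction_on' with
  | add f g hf hg => rw [map_add, mul_add, map_add, hf, hg, map_add, mul_add]
  | monomial β b =>
  rw [rename_monomial, rename_monomial, monomial_mul, Phi_apply, Phi_apply, Phi_apply,
    coeff_monomial, coeff_monomial, coeff_monomial]
  have hiff : (Finsupp.mapDomain Sum.inl α + Finsupp.mapDomain Sum.inr β = topExp (V₁ ⊕ V₂) q) ↔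
      (α = topExp V₁ q ∧ β = topExp V₂ q) := by
    have hl : ∀ v : V₁, (Finsupp.mapDomain Sum.inl α + Finsupp.mapDomain Sum.inr β : V₁ ⊕ V₂ →₀ ℕ)
        (Sum.inl v) = α v := by
      intro v
      rw [Finsupp.add_apply, Finsupp.mapDomain_apply Sum.inl_injective,
        Finsupp.mapDomain_of_notMem_range _ _ (by simp), add_zero]
    have hr : ∀ v : V₂, (Finsupp.mapDomain Sum.inl α + Finsupp.mapDomain Sum.inr β : V₁ ⊕ V₂ →₀ ℕ)
        (Sum.inr v) = β v := by
      intro v
      rw [Finsupp.add_apply, Finsupp.mapDomain_apply Sum.inr_injective,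
        Finsupp.mapDomain_of_notMem_range _ _ (by simp), zero_add]
    constructor
    · intro h
      constructor
      · ext v
        have := DFunLike.congr_fun h (Sum.inl v)
        rw [hl] at this
        exact this
      · ext v
        have := DFunLike.congr_fun h (Sum.inr v)
        rw [hr] at this
        exact this
    · rintro ⟨h1, h2⟩
      ext v
      rcases v with v | v
      · rw [hl, h1]; rfl
      · rw [hr, h2]; rfl
  by_cases h1 : α = topExp V₁ q
  · by_cases h2 : β = topExp V₂ q
    · rw [if_pos (hiff.2 ⟨h1, h2⟩), if_pos h1, if_pos h2]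
    · rw [if_neg (fun h => h2 (hiff.1 h).2), if_neg h2, mul_zero]
  · rw [if_neg (fun h => h1 (hiff.1 h).1), if_neg h1, zero_mul]

lemma Phi_unit (q : ℕ) : Phi q ((X () : MvPolynomial Unit C)^(q-1)) = 1 := by
  have h := Phi_top (V := Unit) (C := C) q 1
  simpa using h

end prodPhi

section regular
variable {V : Type} {k C : Type} [Field k] [CommRing C] [Algebra k C]

lemma map_mem_nonZeroDivisors (F : MvPolynomial V k) (hF : F ≠ 0) :
    MvPolynomial.map (algebraMap k C) F ∈ nonZeroDivisors (MvPolynomial V C) := by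
  classical
  rw [mem_nonZeroDivisors_iff_right]
  intro G hG
  ext m
  rw [coeff_zero]
  rw [← Module.forall_dual_apply_eq_zero_iff k]
  intro l
  let Gl : MvPolynomial V k := ∑ b ∈ G.support, monomial b (l (coeff b G))
  have hGl : ∀ b, coeff b Gl = l (coeff b G) := by
    intro b
    simp only [Gl, coeff_sum, coeff_monomial]
    rw [Finset.sum_ite_eq']
    split_ifs with h
    · rfl
    · rw [notMem_support_iff.1 h, map_zero]
  have h0 : Gl * F = 0 := by
    ext b
    rw [coeff_zero, coeff_mul]
    have h1 := congrArg (fun P => l (coeff b P)) hG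
    simp only [coeff_mul, map_sum, coeff_zero, map_zero] at h1
    rw [← h1]
    refine Finset.sum_congr rfl fun x _ => ?_
    rw [hGl, coeff_map, mul_comm (coeff x.1 G), ← Algebra.smul_def, map_smul, smul_eq_mul, mul_comm]
  have h2 : Gl = 0 := by
    rcases mul_eq_zero.1 h0 with h | h
    · exact h
    · exact absurd h hF
  rw [← hGl, h2, coeff_zero]

end regular

section setup
variable (n m : ℕ)

abbrev SV (n m : ℕ) : Type := (Fin n × Fin n) ⊕ (Unit ⊕ (Fin m × Fin m))

abbrev PP (n m : ℕ) (C : Type) [CommRing C] : Type := MvPolynomial (SV n m) C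

variable {n m} {C C' : Type} [CommRing C] [CommRing C']

noncomputable def xM (n m : ℕ) (C : Type) [CommRing C] : Matrix (Fin n) (Fin n) (PP n m C) :=
  Matrix.of fun i j => X (Sum.inl (i, j))

noncomputable def tM (n m : ℕ) (C : Type) [CommRing C] : PP n m C := X (Sum.inr (Sum.inl ()))

noncomputable def yM (n m : ℕ) (C : Type) [CommRing C] : Matrix (Fin m) (Fin m) (PP n m C) :=
  Matrix.of fun i j => X (Sum.inr (Sum.inr (i, j)))

noncomputable def DM (n m : ℕ) (C : Type) [CommRing C] : PP n m C :=
  (xM n m C).det * tM n m C * (yM n m C).det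

lemma xM_map (f : C →+* C') : (xM n m C).map (MvPolynomial.map f) = xM n m C' := by
  ext i j : 2; simp [xM]

lemma yM_map (f : C →+* C') : (yM n m C).map (MvPolynomial.map f) = yM n m C' := by
  ext i j : 2; simp [yM]

lemma tM_map (f : C →+* C') : MvPolynomial.map f (tM n m C) = tM n m C' := by
  simp [tM]

lemma DM_map (f : C →+* C') : MvPolynomial.map f (DM n m C) = DM n m C' := by
  unfold DM
  rw [map_mul, map_mul, RingHom.map_det, RingHom.map_det, tM_map]
  have h1 : (MvPolynomial.map f).mapMatrix (xM n m C) = xM n m C' := xM_map f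
  have h2 : (MvPolynomial.map f).mapMatrix (yM n m C) = yM n m C' := yM_map f
  rw [h1, h2]

lemma xM_eq : xM n m C = (gX n C).map (rename (Sum.inl : _ → SV n m)) := by
  ext i j : 2; simp [xM, gX]

lemma yM_eq : yM n m C = (gX m C).map (fun F => rename (Sum.inr : _ → SV n m)
    (rename (Sum.inr : _ → Unit ⊕ (Fin m × Fin m)) F)) := by
  ext i j : 2; simp [yM, gX]

lemma xM_det_eq : (xM n m C).det = rename (Sum.inl : _ → SV n m) (gX n C).det := by
  rw [xM_eq, AlgHom.map_det]; rfl

lemma yM_det_eq : (yM n m C).det = rename (Sum.inr : _ → SV n m)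
    (rename (Sum.inr : _ → Unit ⊕ (Fin m × Fin m)) (gX m C).det) := by
  rw [AlgHom.map_det, AlgHom.map_det]
  congr 1
  ext i j : 2
  simp [yM, gX]

lemma DM_ne_zero [IsDomain C] : DM n m C ≠ 0 := by
  unfold DM
  refine mul_ne_zero (mul_ne_zero ?_ ?_) ?_
  · rw [xM_det_eq]
    intro h
    have := rename_injective _ Sum.inl_injective (h.trans (map_zero _).symm)
    exact gX_det_ne_zero this
  · exact X_ne_zero _
  · rw [yM_det_eq]
    intro h
    have h1 := rename_injective _ Sum.inr_injective (h.trans (map_zero _).symm)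
    have h2 := rename_injective _ Sum.inr_injective (h1.trans (map_zero _).symm)
    exact gX_det_ne_zero h2

lemma DM_regular {k : Type} [Field k] [Algebra k C] : DM n m C ∈ nonZeroDivisors (PP n m C) := by
  rw [← DM_map (algebraMap k C)]
  exact map_mem_nonZeroDivisors _ DM_ne_zero

/-- the substitution matrix -/
def GG (a : Matrix (Fin n) (Fin n) C) (χ : C) (b : Matrix (Fin m) (Fin m) C) :
    Matrix (SV n m) (SV n m) C :=
  Matrix.fromBlocks (Matrix.kroneckerMap (· * ·) 1 a) 0 0
    (Matrix.fromBlocks (Matrix.of fun _ _ => χ) 0 0 (Matrix.kroneckerMap (· * ·) 1 b))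

lemma GG_det (a : Matrix (Fin n) (Fin n) C) (χ : C) (b : Matrix (Fin m) (Fin m) C) :
    (GG a χ b).det = a.det ^ n * (χ * b.det ^ m) := by
  unfold GG
  rw [Matrix.det_fromBlocks_zero₂₁, Matrix.det_fromBlocks_zero₂₁]
  have h1 := Matrix.det_kronecker (1 : Matrix (Fin n) (Fin n) C) a
  have h2 := Matrix.det_kronecker (1 : Matrix (Fin m) (Fin m) C) b
  have e1 : (Matrix.kroneckerMap (· * ·) (1 : Matrix (Fin n) (Fin n) C) a).det = a.det ^ n := by
    rw [h1]; simp
  have e2 : (Matrix.kroneckerMap (· * ·) (1 : Matrix (Fin m) (Fin m) C) b).det = b.det ^ m := by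
    rw [h2]; simp
  rw [e1, e2]
  congr 2
  simp

lemma lsub_xM (a : Matrix (Fin n) (Fin n) C) (χ : C) (b : Matrix (Fin m) (Fin m) C) :
    (xM n m C).map (lsub (GG a χ b)) = xM n m C * a.map MvPolynomial.C := by
  refine Matrix.ext fun i j => ?_
  simp only [Matrix.map_apply, xM, Matrix.of_apply, lsub, aeval_X, Matrix.mul_apply]
  rw [Fintype.sum_sum_type, Fintype.sum_prod_type, Finset.sum_eq_single_of_mem i (Finset.mem_univ i)]
  · rw [Finset.sum_eq_zero (s := (Finset.univ : Finset (Unit ⊕ (Fin m × Fin m)))), add_zero]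
    · refine Finset.sum_congr rfl fun l _ => ?_
      simp [GG, mul_comm]
    · rintro (u | v) _ <;> simp [GG]
  · intro b _ hb
    apply Finset.sum_eq_zero
    intro l _
    simp [GG, Matrix.one_apply_ne hb]

lemma lsub_tM (a : Matrix (Fin n) (Fin n) C) (χ : C) (b : Matrix (Fin m) (Fin m) C) :
    lsub (GG a χ b) (tM n m C) = tM n m C * MvPolynomial.C χ := by
  simp only [tM, lsub, aeval_X]
  rw [Fintype.sum_sum_type, Fintype.sum_sum_type,
    Finset.sum_eq_zero (s := (Finset.univ : Finset (Fin n × Fin n))),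
    Finset.sum_eq_zero (s := (Finset.univ : Finset (Fin m × Fin m)))]
  · simp [GG, mul_comm]
  · rintro v _; simp [GG]
  · rintro v _; simp [GG]

lemma lsub_yM (a : Matrix (Fin n) (Fin n) C) (χ : C) (b : Matrix (Fin m) (Fin m) C) :
    (yM n m C).map (lsub (GG a χ b)) = yM n m C * b.map MvPolynomial.C := by
  refine Matrix.ext fun i j => ?_
  simp only [Matrix.map_apply, yM, Matrix.of_apply, lsub, aeval_X, Matrix.mul_apply]
  rw [Fintype.sum_sum_type, Finset.sum_eq_zero (s := (Finset.univ : Finset (Fin n × Fin n))),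
    zero_add, Fintype.sum_sum_type, Finset.sum_eq_zero (s := (Finset.univ : Finset Unit)),
    zero_add, Fintype.sum_prod_type, Finset.sum_eq_single_of_mem i (Finset.mem_univ i)]
  · refine Finset.sum_congr rfl fun l _ => ?_
    simp [GG, mul_comm]
  · intro b _ hb
    apply Finset.sum_eq_zero
    intro l _
    simp [GG, Matrix.one_apply_ne hb]
  · rintro v _; simp [GG]
  · rintro v _; simp [GG]

end setup

end Pool.Agent.LN
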