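import Pool.Agent.Helper208_LN.Conv1

set_option autoImplicit false
set_option linter.unusedSectionVars false
set_option linter.style.haveILetI false

namespace Pool.Agent.LN
open Matrix Finset MvPolynomial

section nat
variable {k : Type} [Field k] {n m : ℕ} {Q E : Type} [Fintype Q] [DecidableEq Q]
  [Fintype E] [DecidableEq E]
variable {O O' : Type} [CommRing O] [Algebra k O] [CommRing O'] [Algebra k O']
variable {ρ : PRep k n (Q ⊕ E)} {e0 : E} {μ : E → E → Matrix (Fin n) (Fin n) k}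

lemma ev_apply_map (φ : O →ₐ[k] O') (a : Matrix (Fin n) (Fin n) O) (i j : Q ⊕ E) :
    ρ.ev (a.map φ) i j = φ (ρ.ev a i j) := by
  rw [← ρ.ev_map]; rfl

lemma Good.map {a ai : Matrix (Fin n) (Fin n) O} {χ χi : O} (h : Good ρ e0 a ai χ χi)
    (φ : O →ₐ[k] O') : Good ρ e0 (a.map φ) (ai.map φ) (φ χ) (φ χi) where
  inv := by rw [← Matrix.map_mul, h.inv]; exact Matrix.map_one _ (map_zero _) (map_one _)
  chi := by rw [← map_mul, h.chi, map_one]
  blk := fun e q => by rw [ev_apply_map, h.blk, map_zero]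
  col := fun e => by rw [ev_apply_map, h.col, apply_ite φ, map_one, map_zero]
  det := by
    rw [← h.det, AlgHom.map_det]
    congr 1
    ext i j
    simp only [Matrix.toBlocks₁₁, Matrix.of_apply, ev_apply_map]
    rfl

lemma Gd.Ok.map {g : Gd n E O} (h : g.Ok ρ e0) (φ : O →ₐ[k] O') : (g.map φ).Ok ρ e0 :=
  Good.map h φ

lemma Gd.Cob.map {g : Gd n E O} (h : g.Cob ρ e0 μ) (φ : O →ₐ[k] O') : (g.map φ).Cob ρ e0 μ := by
  intro i i'
  have h1 := congrArg (fun M => M.map φ) (h i i')
  simp only [Matrix.map_sub _ (map_sub φ)] at h1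
  have e1 : (∑ j, ∑ l, ((ρ.ev g.a) (Sum.inr i) (Sum.inr j) * (ρ.ev g.a) (Sum.inr i') (Sum.inr l)) •
      (g.a * (μ j l).map (algebraMap k O) * g.ai)).map φ =
      ∑ j, ∑ l, ((ρ.ev (g.map φ).a) (Sum.inr i) (Sum.inr j) *
        (ρ.ev (g.map φ).a) (Sum.inr i') (Sum.inr l)) •
      ((g.map φ).a * (μ j l).map (algebraMap k O') * (g.map φ).ai) := by
    have hs : ∀ (M : Matrix (Fin n) (Fin n) O) (c : O), (c • M).map φ = φ c • M.map φ := by
      intro M c; ext α β; simp
    have hsum : ∀ (f : E → Matrix (Fin n) (Fin n) O), (∑ j, f j).map φ = ∑ j, (f j).map φ := by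
      intro f; ext α β; simp [Matrix.sum_apply]
    rw [hsum]
    refine Finset.sum_congr rfl fun j _ => ?_
    rw [hsum]
    refine Finset.sum_congr rfl fun l _ => ?_
    rw [hs, Matrix.map_mul, Matrix.map_mul, map_mul]
    have : ((μ j l).map (algebraMap k O)).map φ = (μ j l).map (algebraMap k O') := by
      ext α β; simp
    rw [this]
    simp only [Gd.map, ev_apply_map]
  have e2 : ((μ i i').map (algebraMap k O)).map φ = (μ i i').map (algebraMap k O') := by
    ext α β; simp
  have e3 : ∀ (c : Prop) [Decidable c] (M : Matrix (Fin n) (Fin n) O),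
      (if c then M else 0).map φ = if c then M.map φ else 0 := by
    intro c _ M; split_ifs
    · rfl
    · ext; simp
  rw [e1, e2, e3, e3] at h1
  exact h1

lemma Gd.Comp.map {g h gh : Gd n E O} {f : Matrix (Fin n) (Fin n) O}
    (hc : Gd.Comp ρ e0 g h gh f) (φ : O →ₐ[k] O') :
    Gd.Comp ρ e0 (g.map φ) (h.map φ) (gh.map φ) (f.map φ) where
  a := by simp only [Gd.map, hc.a, Matrix.map_mul]
  ai := by simp only [Gd.map, hc.ai, Matrix.map_mul]
  χ := by simp only [Gd.map, hc.χ, map_mul]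
  χi := by simp only [Gd.map, hc.χi, map_mul]
  rel := by
    intro i
    have h1 := congrArg (fun M => M.map φ) (hc.rel i)
    simp only [Matrix.map_sub _ (map_sub φ), Matrix.map_add _ (map_add φ)] at h1
    have hs : ∀ (M : Matrix (Fin n) (Fin n) O) (c : O), (c • M).map φ = φ c • M.map φ := by
      intro M c; ext α β; simp
    have hsum : ∀ (f : E → Matrix (Fin n) (Fin n) O), (∑ j, f j).map φ = ∑ j, (f j).map φ := by
      intro f; ext α β; simp [Matrix.sum_apply]
    have e3 : ∀ (c : Prop) [Decidable c] (M : Matrix (Fin n) (Fin n) O),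
        (if c then M else 0).map φ = if c then M.map φ else 0 := by
      intro c _ M; split_ifs
      · rfl
      · ext; simp
    rw [e3, hsum] at h1
    rw [h1]
    congr 2
    refine Finset.sum_congr rfl fun j _ => ?_
    rw [hs, Matrix.map_mul, Matrix.map_mul]
    simp only [Gd.map, ev_apply_map]

end nat

section univ
variable {k : Type} [Field k] {n m N : ℕ} {Q E : Type} [Fintype Q] [DecidableEq Q]
  [Fintype E] [DecidableEq E]
variable {O O' : Type} [CommRing O] [Algebra k O] [CommRing O'] [Algebra k O']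

/-- the universal point attached to a ring hom out of `PP n m O` -/
noncomputable def PtU (ι : PP n m O →+* O') : Pt n m O' where
  x := (xM n m O).map ι
  xi := ((xM n m O).map ι)⁻¹
  t := ι (tM n m O)
  ti := Ring.inverse (ι (tM n m O))
  y := (yM n m O).map ι
  yi := ((yM n m O).map ι)⁻¹

lemma PtU_valid (ι : PP n m O →+* O') (h : IsUnit (ι (DM n m O))) : (PtU ι).Valid := by
  unfold DM at h
  rw [map_mul, map_mul] at h
  have h1 : IsUnit (ι (xM n m O).det) := (isUnit_of_mul_isUnit_left (isUnit_of_mul_isUnit_left h))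
  have h2 : IsUnit (ι (tM n m O)) := (isUnit_of_mul_isUnit_right (isUnit_of_mul_isUnit_left h))
  have h3 : IsUnit (ι (yM n m O).det) := isUnit_of_mul_isUnit_right h
  rw [RingHom.map_det] at h1 h3
  exact ⟨Matrix.mul_nonsing_inv _ h1, Ring.mul_inverse_cancel _ h2, Matrix.mul_nonsing_inv _ h3⟩

/-- evaluation at a group element and a point -/
noncomputable def EV (φ : O →ₐ[k] O') (P : Pt n m O') : PP n m O →ₐ[k] O' where
  toRingHom := eval₂Hom (φ : O →+* O') (Sum.elim (fun ij => P.x ij.1 ij.2)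
    (Sum.elim (fun _ => P.t) (fun ij => P.y ij.1 ij.2)))
  commutes' := by
    intro r
    simp [MvPolynomial.algebraMap_apply]

lemma EV_C (φ : O →ₐ[k] O') (P : Pt n m O') (c : O) : EV φ P (MvPolynomial.C c) = φ c := by
  show eval₂Hom _ _ (MvPolynomial.C c) = _
  simp

lemma EV_X (φ : O →ₐ[k] O') (P : Pt n m O') (v : SV n m) : EV φ P (X v) =
    (Sum.elim (fun ij => P.x ij.1 ij.2) (Sum.elim (fun _ => P.t) (fun ij => P.y ij.1 ij.2))) v := by
  show eval₂Hom _ _ (X v) = _
  simp

lemma EV_xM (φ : O →ₐ[k] O') (P : Pt n m O') : (xM n m O).map (EV φ P) = P.x := by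
  ext i j; simp [xM, EV_X]

lemma EV_yM (φ : O →ₐ[k] O') (P : Pt n m O') : (yM n m O).map (EV φ P) = P.y := by
  ext i j; simp [yM, EV_X]

lemma EV_tM (φ : O →ₐ[k] O') (P : Pt n m O') : EV φ P (tM n m O) = P.t := by
  simp [tM, EV_X]

lemma EV_DM (φ : O →ₐ[k] O') (P : Pt n m O') :
    EV φ P (DM n m O) = P.x.det * P.t * P.y.det := by
  unfold DM
  have h1 : (EV φ P).mapMatrix (xM n m O) = P.x := EV_xM φ P
  have h2 : (EV φ P).mapMatrix (yM n m O) = P.y := EV_yM φ P
  rw [map_mul, map_mul, AlgHom.map_det, AlgHom.map_det, EV_tM, h1, h2]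

lemma DP_isUnit {P : Pt n m O} (hP : P.Valid) : IsUnit (P.x.det * P.t * P.y.det) :=
  ((PRep.isUnit_det_of_mul_eq_one hP.hx).1.mul (IsUnit.of_mul_eq_one _ hP.ht)).mul
    (PRep.isUnit_det_of_mul_eq_one hP.hy).1

/-- a valid point is determined by `x,t,y` -/
lemma Pt.Valid.ext' {P P' : Pt n m O} (hP : P.Valid) (hP' : P'.Valid) (hx : P.x = P'.x)
    (ht : P.t = P'.t) (hy : P.y = P'.y) : P = P' := by
  have h1 : P.xi = P'.xi := by
    have h2 : P'.xi * P'.x = 1 := mul_eq_one_comm.1 hP'.hx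
    calc P.xi = (P'.xi * P'.x) * P.xi := by rw [h2, Matrix.one_mul]
      _ = P'.xi * (P.x * P.xi) := by rw [hx, Matrix.mul_assoc]
      _ = _ := by rw [hP.hx, Matrix.mul_one]
  have h3 : P.yi = P'.yi := by
    have h2 : P'.yi * P'.y = 1 := mul_eq_one_comm.1 hP'.hy
    calc P.yi = (P'.yi * P'.y) * P.yi := by rw [h2, Matrix.one_mul]
      _ = P'.yi * (P.y * P.yi) := by rw [hy, Matrix.mul_assoc]
      _ = _ := by rw [hP.hy, Matrix.mul_one]
  have h4 : P.ti = P'.ti := by
    have h2 := hP.ht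
    have h3 := hP'.ht
    rw [← ht] at h3
    linear_combination P'.ti * h2 - P.ti * h3
  exact Pt.ext hx h1 ht h4 hy h3

lemma Pt.Valid.map {P : Pt n m O} (hP : P.Valid) (φ : O →ₐ[k] O') : (P.map φ).Valid where
  hx := by
    show P.x.map φ * P.xi.map φ = 1
    rw [← Matrix.map_mul, hP.hx]; exact Matrix.map_one _ (map_zero _) (map_one _)
  ht := by
    show φ P.t * φ P.ti = 1
    rw [← map_mul, hP.ht, map_one]
  hy := by
    show P.y.map φ * P.yi.map φ = 1
    rw [← Matrix.map_mul, hP.hy]; exact Matrix.map_one _ (map_zero _) (map_one _)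

variable {H : Type} [CommRing H] [Algebra k H]
variable (p : ℕ) (ρ : PRep k n (Q ⊕ E)) (e0 : E) (ε : II Q E ≃ Unit ⊕ Fin m) (e : II Q E ≃ Fin N)
  (μ : E → E → Matrix (Fin n) (Fin n) k) (gu : Gd n E H)

theorem univ_poly : ∃ N0 : ℕ, ∀ N1 ≥ N0, ∃ Pp : Matrix (Fin n) (Fin n) (PP n m H),
    ∀ (O : Type) [CommRing O] [Algebra k O] (P : Pt n m O) (_ : P.Valid) (φ : H →ₐ[k] O),
      (P.x.det * P.t * P.y.det) ^ N1 • (P.xi * XH p ρ e0 ε e μ P (gu.map φ) * P.x) =
        Pp.map (EV φ P) := by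
  classical
  let OH := Localization.Away (DM n m H)
  let ι : PP n m H →ₐ[k] OH := IsScalarTower.toAlgHom k (PP n m H) OH
  have hι : ∀ z, ι z = algebraMap (PP n m H) OH z := fun _ => rfl
  have hD : IsUnit (ι (DM n m H)) := IsLocalization.Away.algebraMap_isUnit (DM n m H)
  let Pu : Pt n m OH := PtU (ι : PP n m H →+* OH)
  have hPu : Pu.Valid := PtU_valid _ hD
  let cH : H →ₐ[k] OH := ι.comp (IsScalarTower.toAlgHom k H (PP n m H))
  let Z : Matrix (Fin n) (Fin n) OH := Pu.xi * XH p ρ e0 ε e μ Pu (gu.map cH) * Pu.x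
  have hZ : ∀ i j, ∃ (s : ℕ) (a : PP n m H), Z i j * ι (DM n m H) ^ s = ι a := by
    intro i j
    exact IsLocalization.Away.surj (DM n m H) (Z i j)
  choose s a hs using hZ
  refine ⟨∑ i, ∑ j, s i j, fun N1 hN1 => ⟨Matrix.of fun i j => a i j * DM n m H ^ (N1 - s i j), ?_⟩⟩
  have hle : ∀ i j, s i j ≤ N1 := by
    intro i j
    refine le_trans ?_ hN1
    refine le_trans ?_ (Finset.single_le_sum (f := fun i => ∑ j, s i j)
      (fun _ _ => Nat.zero_le _) (Finset.mem_univ i))
    exact Finset.single_le_sum (f := fun j => s i j) (fun _ _ => Nat.zero_le _) (Finset.mem_univ j)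
  intro O _ _ P hP φ
  -- the lift
  have hunit : ∀ y : Submonoid.powers (DM n m H), IsUnit (EV φ P y) := by
    rintro ⟨y, r, rfl⟩
    simp only
    rw [map_pow, EV_DM]
    exact (DP_isUnit hP).pow r
  let ψ : OH →ₐ[k] O := IsLocalization.liftAlgHom (M := Submonoid.powers (DM n m H)) hunit
  have hψ : ∀ z, ψ (ι z) = EV φ P z := by
    intro z
    show IsLocalization.lift hunit (algebraMap _ _ z) = _
    rw [IsLocalization.lift_eq]
    rfl
  have hPuP : Pu.map ψ = P := by
    refine Pt.Valid.ext' (hPu.map ψ) hP ?_ ?_ ?_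
    · show ((xM n m H).map ι).map ψ = P.x
      rw [← EV_xM φ P]
      ext i j
      simp only [Matrix.map_apply]
      exact hψ _
    · show ψ (ι (tM n m H)) = P.t
      rw [hψ, EV_tM]
    · show ((yM n m H).map ι).map ψ = P.y
      rw [← EV_yM φ P]
      ext i j
      simp only [Matrix.map_apply]
      exact hψ _
  have hgu : (gu.map cH).map ψ = gu.map φ := by
    have hc : ∀ z, ψ (cH z) = φ z := by
      intro z
      show ψ (ι (MvPolynomial.C z)) = φ z
      rw [hψ, EV_C]
    unfold Gd.map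
    ext1
    · ext i j; exact hc _
    · ext i j; exact hc _
    · exact hc _
    · exact hc _
    · ext e' i j; exact hc _
  have hZψ : Z.map ψ = P.xi * XH p ρ e0 ε e μ P (gu.map φ) * P.x := by
    simp only [Z]
    rw [Matrix.map_mul, Matrix.map_mul, XH_map, hgu]
    have h1 : Pu.xi.map ψ = (Pu.map ψ).xi := rfl
    have h2 : Pu.x.map ψ = (Pu.map ψ).x := rfl
    rw [h1, h2, hPuP]
  rw [← hZψ]
  ext i j
  simp only [Matrix.smul_apply, Matrix.map_apply, smul_eq_mul, Matrix.of_apply]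
  rw [← hψ, map_mul, map_pow, ← hs, map_mul, map_mul, map_pow, map_pow, hψ, EV_DM]
  rw [mul_assoc (ψ (Z i j)), ← pow_add, Nat.add_sub_cancel' (hle i j), mul_comm]

end univ

end Pool.Agent.LN
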