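import Pool.Agent.Helper208_LN.Conv2

set_option autoImplicit false
set_option linter.unusedSectionVars false
set_option linter.style.haveILetI false

namespace Pool.Agent.LN
open Matrix Finset MvPolynomial

section star
variable {k : Type} [Field k] {n m N : ℕ} {Q E : Type} [Fintype Q] [DecidableEq Q]
  [Fintype E] [DecidableEq E]
variable {O O' : Type} [CommRing O] [Algebra k O] [CommRing O'] [Algebra k O']
variable {H C₂ : Type} [CommRing H] [Algebra k H] [CommRing C₂] [Algebra k C₂]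
variable (p : ℕ) [hp : Fact p.Prime] [CharP C₂ p] (ρ : PRep k n (Q ⊕ E)) (e0 : E)
  (ε : II Q E ≃ Unit ⊕ Fin m) (e : II Q E ≃ Fin N)
  (μ : E → E → Matrix (Fin n) (Fin n) k) (gu : Gd n E H)

lemma lsub_C {V C : Type} [Fintype V] [DecidableEq V] [CommRing C] (G : Matrix V V C) (c : C) :
    lsub G (MvPolynomial.C c) = MvPolynomial.C c := by
  simp [lsub, MvPolynomial.algebraMap_eq]

omit hp [CharP C₂ p] in
lemma EV_act (g₁ g₂ : H →ₐ[k] C₂) (ι : PP n m C₂ →ₐ[k] O') (z : PP n m H) :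
    EV ((ι.comp (IsScalarTower.toAlgHom k C₂ (PP n m C₂))).comp g₂)
      ((PtU (ι : PP n m C₂ →+* O')).act p ρ e0 ε
        ((gu.map g₁).map (ι.comp (IsScalarTower.toAlgHom k C₂ (PP n m C₂))))) z =
      ι (lsub (GG (gu.map g₁).a (gu.map g₁).χ (gp p ρ e0 ε (gu.map g₁).a (gu.map g₁).χi))
        (MvPolynomial.map (g₂ : H →+* C₂) z)) := by
  set cC := ι.comp (IsScalarTower.toAlgHom k C₂ (PP n m C₂)) with hcC
  have hc : ∀ c, cC c = ι (MvPolynomial.C c) := fun _ => rfl
  induction z using MvPolynomial.induction_on with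
  | C a =>
    rw [EV_C, MvPolynomial.map_C, lsub_C]
    rfl
  | add f g hf hg => rw [map_add, map_add, map_add, map_add, hf, hg]
  | mul_X f v hf =>
    rw [map_mul, map_mul, map_mul, map_mul, hf, EV_X, MvPolynomial.map_X]
    congr 1
    rcases v with ⟨i, j⟩ | u | ⟨i, j⟩
    · have h1 := congrFun (congrFun (lsub_xM (gu.map g₁).a (gu.map g₁).χ
        (gp p ρ e0 ε (gu.map g₁).a (gu.map g₁).χi)) i) j
      simp only [Matrix.map_apply] at h1
      have h2 : (xM n m C₂) i j = X (Sum.inl (i, j)) := rfl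
      rw [h2] at h1
      rw [h1]
      show (((xM n m C₂).map ι) * ((gu.map g₁).a.map cC)) i j = _
      rw [Matrix.mul_apply, Matrix.mul_apply, map_sum]
      refine Finset.sum_congr rfl fun l _ => ?_
      rw [map_mul]
      rfl
    · have h1 := lsub_tM (gu.map g₁).a (gu.map g₁).χ
        (gp p ρ e0 ε (gu.map g₁).a (gu.map g₁).χi)
      have h2 : (tM n m C₂) = X (Sum.inr (Sum.inl u)) := rfl
      rw [h2] at h1
      rw [h1]
      show ι (tM n m C₂) * cC ((gu.map g₁).χ) = _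
      rw [map_mul]
      rfl
    · have h1 := congrFun (congrFun (lsub_yM (gu.map g₁).a (gu.map g₁).χ
        (gp p ρ e0 ε (gu.map g₁).a (gu.map g₁).χi)) i) j
      simp only [Matrix.map_apply] at h1
      have h2 : (yM n m C₂) i j = X (Sum.inr (Sum.inr (i, j))) := rfl
      rw [h2] at h1
      rw [h1]
      have h3 : gp p ρ e0 ε ((gu.map g₁).map cC).a ((gu.map g₁).map cC).χi =
        (gp p ρ e0 ε (gu.map g₁).a (gu.map g₁).χi).map cC := (gp_map p ρ e0 ε cC _ _).symm
      show (((yM n m C₂).map ι) * gp p ρ e0 ε ((gu.map g₁).map cC).a ((gu.map g₁).map cC).χi) i j = _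
      rw [h3, Matrix.mul_apply, Matrix.mul_apply, map_sum]
      refine Finset.sum_congr rfl fun l _ => ?_
      rw [map_mul]
      rfl

omit hp [CharP C₂ p] in
lemma EV_PtU (g₂ : H →ₐ[k] C₂) (ι : PP n m C₂ →ₐ[k] O') (z : PP n m H) :
    EV ((ι.comp (IsScalarTower.toAlgHom k C₂ (PP n m C₂))).comp g₂)
      (PtU (ι : PP n m C₂ →+* O')) z = ι (MvPolynomial.map (g₂ : H →+* C₂) z) := by
  induction z using MvPolynomial.induction_on with
  | C a =>
    rw [EV_C, MvPolynomial.map_C]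
    rfl
  | add f g hf hg => rw [map_add, map_add, map_add, hf, hg]
  | mul_X f v hf =>
    rw [map_mul, map_mul, map_mul, hf, EV_X, MvPolynomial.map_X]
    congr 1
    rcases v with ⟨i, j⟩ | u | ⟨i, j⟩ <;> rfl

omit hp [CharP C₂ p] in
lemma PtU_DM (ι : PP n m C₂ →ₐ[k] O') : (PtU (ι : PP n m C₂ →+* O')).x.det *
    (PtU (ι : PP n m C₂ →+* O')).t * (PtU (ι : PP n m C₂ →+* O')).y.det = ι (DM n m C₂) := by
  unfold DM
  rw [map_mul, map_mul, AlgHom.map_det, AlgHom.map_det]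
  rfl

variable {ρ e0 ε μ gu}

theorem star (hOk : gu.Ok ρ e0) (hCob : gu.Cob ρ e0 μ) (hε : ε (cl e0) = Sum.inl ())
    (g₁ g₂ g₃ : H →ₐ[k] C₂) (fm : Matrix (Fin n) (Fin n) C₂)
    (hcomp : Gd.Comp ρ e0 (gu.map g₁) (gu.map g₂) (gu.map g₃) fm)
    (N1 : ℕ) (Pp : Matrix (Fin n) (Fin n) (PP n m H))
    (hPp : ∀ (O : Type) [CommRing O] [Algebra k O] (P : Pt n m O) (_ : P.Valid) (φ : H →ₐ[k] O),
      (P.x.det * P.t * P.y.det) ^ N1 • (P.xi * XH p ρ e0 ε e μ P (gu.map φ) * P.x) =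
        Pp.map (EV φ P)) :
    (MvPolynomial.C (σ := SV n m) (((gu.map g₁).a.det * (gu.map g₁).χ *
        (gp p ρ e0 ε (gu.map g₁).a (gu.map g₁).χi).det)^N1) * (DM n m C₂)^N1) •
        fm.map (MvPolynomial.C (σ := SV n m)) =
      MvPolynomial.C (σ := SV n m) (((gu.map g₁).a.det * (gu.map g₁).χ *
        (gp p ρ e0 ε (gu.map g₁).a (gu.map g₁).χi).det)^N1) •
          Pp.map (MvPolynomial.map (g₁ : H →+* C₂)) +
      (gu.map g₁).a.map (MvPolynomial.C (σ := SV n m)) *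
        (Pp.map (MvPolynomial.map (g₂ : H →+* C₂))).map (lsub (GG (gu.map g₁).a (gu.map g₁).χ
          (gp p ρ e0 ε (gu.map g₁).a (gu.map g₁).χi))) *
        (gu.map g₁).ai.map (MvPolynomial.C (σ := SV n m)) -
      MvPolynomial.C (σ := SV n m) (((gu.map g₁).a.det * (gu.map g₁).χ *
        (gp p ρ e0 ε (gu.map g₁).a (gu.map g₁).χi).det)^N1) •
          Pp.map (MvPolynomial.map (g₃ : H →+* C₂)) := by
  let OL := Localization.Away (DM n m C₂)
  let ι : PP n m C₂ →ₐ[k] OL := IsScalarTower.toAlgHom k (PP n m C₂) OL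
  have hιinj : Function.Injective ι :=
    IsLocalization.injective (M := Submonoid.powers (DM n m C₂)) OL
      (Submonoid.powers_le.2 (DM_regular (k := k)))
  haveI : CharP OL p := charP_of_injective_ringHom (f := (ι : PP n m C₂ →+* OL)) hιinj p
  have hD : IsUnit (ι (DM n m C₂)) := IsLocalization.Away.algebraMap_isUnit (DM n m C₂)
  set cC : C₂ →ₐ[k] OL := ι.comp (IsScalarTower.toAlgHom k C₂ (PP n m C₂)) with hcC
  have hc : ∀ c, cC c = ι (MvPolynomial.C c) := fun _ => rfl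
  set P : Pt n m OL := PtU (ι : PP n m C₂ →+* OL) with hPdef
  have hP : P.Valid := PtU_valid _ hD
  set g := gu.map g₁ with hg
  set δ : C₂ := g.a.det * g.χ * (gp p ρ e0 ε g.a g.χi).det with hδ
  have hgOk : (g.map cC).Ok ρ e0 := (hOk.map g₁).map cC
  have hhOk : ((gu.map g₂).map cC).Ok ρ e0 := (hOk.map g₂).map cC
  have hghOk : ((gu.map g₃).map cC).Ok ρ e0 := (hOk.map g₃).map cC
  have hco := cochain (e := e) (μ := μ) p hP hgOk hhOk hghOk hε (hcomp.map cC)
    ((hCob.map g₁).map cC) ((hCob.map g₂).map cC)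
  have hDv : P.x.det * P.t * P.y.det = ι (DM n m C₂) := PtU_DM ι
  -- E1, E3
  have E13 : ∀ g' : H →ₐ[k] C₂, (ι (DM n m C₂))^N1 •
      (P.xi * XH p ρ e0 ε e μ P ((gu.map g').map cC) * P.x) =
      (Pp.map (MvPolynomial.map (g' : H →+* C₂))).map ι := by
    intro g'
    have h1 := hPp OL P hP (cC.comp g')
    rw [hDv] at h1
    have h2 : gu.map (cC.comp g') = (gu.map g').map cC := rfl
    rw [h2] at h1
    rw [h1]
    ext i j
    simp only [Matrix.map_apply]
    exact EV_PtU g' ι (Pp i j)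
  have hP1 := act_valid (ε := ε) p hP hgOk hε
  have E2 : ((P.act p ρ e0 ε (g.map cC)).x.det * (P.act p ρ e0 ε (g.map cC)).t *
      (P.act p ρ e0 ε (g.map cC)).y.det)^N1 •
      ((P.act p ρ e0 ε (g.map cC)).xi * XH p ρ e0 ε e μ (P.act p ρ e0 ε (g.map cC))
        ((gu.map g₂).map cC) * (P.act p ρ e0 ε (g.map cC)).x) =
      ((Pp.map (MvPolynomial.map (g₂ : H →+* C₂))).map (lsub (GG g.a g.χ
          (gp p ρ e0 ε g.a g.χi)))).map ι := by
    have h1 := hPp OL (P.act p ρ e0 ε (g.map cC)) hP1 (cC.comp g₂)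
    have h2 : gu.map (cC.comp g₂) = (gu.map g₂).map cC := rfl
    rw [h2] at h1
    rw [h1]
    ext i j
    simp only [Matrix.map_apply]
    exact EV_act p ρ e0 ε gu g₁ g₂ ι (Pp i j)
  have hDP1 : (P.act p ρ e0 ε (g.map cC)).x.det * (P.act p ρ e0 ε (g.map cC)).t *
      (P.act p ρ e0 ε (g.map cC)).y.det = cC δ * ι (DM n m C₂) := by
    rw [← hDv]
    have h1 : (P.act p ρ e0 ε (g.map cC)).x.det = P.x.det * cC g.a.det := by
      show (P.x * (g.a.map cC)).det = _
      rw [Matrix.det_mul, AlgHom.map_det]; rfl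
    have h2 : (P.act p ρ e0 ε (g.map cC)).t = P.t * cC g.χ := rfl
    have h3 : (P.act p ρ e0 ε (g.map cC)).y.det = P.y.det * cC (gp p ρ e0 ε g.a g.χi).det := by
      show (P.y * gp p ρ e0 ε (g.map cC).a (g.map cC).χi).det = _
      have : gp p ρ e0 ε (g.map cC).a (g.map cC).χi = (gp p ρ e0 ε g.a g.χi).map cC :=
        (gp_map p ρ e0 ε cC _ _).symm
      rw [Matrix.det_mul, this, AlgHom.map_det]; rfl
    rw [h1, h2, h3, hδ, map_mul, map_mul]
    ring
  rw [hDP1] at E2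
  -- conjugation
  have hxi : P.xi * P.x = 1 := mul_eq_one_comm.1 hP.hx
  have hgi : (g.map cC).ai * (g.map cC).a = 1 := mul_eq_one_comm.1 hgOk.inv
  have hf : fm.map cC = P.xi * XH p ρ e0 ε e μ P (g.map cC) * P.x +
      P.xi * XH p ρ e0 ε e μ (P.act p ρ e0 ε (g.map cC)) ((gu.map g₂).map cC) * P.x -
      P.xi * XH p ρ e0 ε e μ P ((gu.map g₃).map cC) * P.x := by
    rw [← Matrix.add_mul, ← Matrix.mul_add, ← Matrix.sub_mul, ← Matrix.mul_sub, ← hco]
    calc fm.map cC = (P.xi * P.x) * fm.map cC * (P.xi * P.x) := by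
          rw [hxi, Matrix.one_mul, Matrix.mul_one]
      _ = _ := by simp only [Matrix.mul_assoc]
  have hmid : (cC δ * ι (DM n m C₂))^N1 •
      (P.xi * XH p ρ e0 ε e μ (P.act p ρ e0 ε (g.map cC)) ((gu.map g₂).map cC) * P.x) =
      (g.map cC).a * (((Pp.map (MvPolynomial.map (g₂ : H →+* C₂))).map (lsub (GG g.a g.χ
          (gp p ρ e0 ε g.a g.χi)))).map ι) * (g.map cC).ai := by
    rw [← E2, Matrix.mul_smul, Matrix.smul_mul]
    congr 1
    have h1 : (P.act p ρ e0 ε (g.map cC)).xi = (g.map cC).ai * P.xi := rfl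
    have h2 : (P.act p ρ e0 ε (g.map cC)).x = P.x * (g.map cC).a := rfl
    rw [h1, h2]
    calc _ = ((g.map cC).a * (g.map cC).ai) * P.xi *
          XH p ρ e0 ε e μ (P.act p ρ e0 ε (g.map cC)) ((gu.map g₂).map cC) * P.x *
          ((g.map cC).a * (g.map cC).ai) := by
          rw [show (g.map cC).a * (g.map cC).ai = 1 from hgOk.inv, Matrix.one_mul, Matrix.mul_one]
      _ = _ := by simp only [Matrix.mul_assoc]
  -- assemble in `OL`
  have hfinal : (cC δ ^ N1 * ι (DM n m C₂) ^ N1) • fm.map cC =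
      cC δ ^ N1 • (Pp.map (MvPolynomial.map (g₁ : H →+* C₂))).map ι +
      (g.map cC).a * (((Pp.map (MvPolynomial.map (g₂ : H →+* C₂))).map (lsub (GG g.a g.χ
          (gp p ρ e0 ε g.a g.χi)))).map ι) * (g.map cC).ai -
      cC δ ^ N1 • (Pp.map (MvPolynomial.map (g₃ : H →+* C₂))).map ι := by
    rw [← hmid, ← E13 g₁, ← E13 g₃, hf, smul_sub, smul_add, mul_pow, smul_smul, smul_smul]
  -- descend
  have hmapinj : Function.Injective (fun M : Matrix (Fin n) (Fin n) (PP n m C₂) => M.map ι) :=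
    Matrix.map_injective hιinj
  apply hmapinj
  simp only
  have hs : ∀ (M : Matrix (Fin n) (Fin n) (PP n m C₂)) (c : PP n m C₂), (c • M).map ι = ι c • M.map ι := by
    intro M c; ext α β; simp
  rw [Matrix.map_sub _ (map_sub ι), Matrix.map_add _ (map_add ι), hs, hs, hs, Matrix.map_mul,
    Matrix.map_mul, map_mul, map_pow, map_pow, map_pow]
  exact hfinal

end star

end Pool.Agent.LN
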