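import Pool.Agent.Helper208_LN.Conv3

set_option autoImplicit false
set_option linter.unusedSectionVars false
set_option linter.style.haveILetI false

namespace Pool.Agent.LN
open Matrix Finset MvPolynomial
open scoped Kronecker

section phi
variable {V : Type} [Fintype V] [DecidableEq V] {C : Type} [CommRing C]
  {A B A' B' : Type} [Fintype A] [Fintype B]

lemma Phi_mat_mul_left (q : ℕ) (L : Matrix A' A C) (M : Matrix A B (MvPolynomial V C)) :
    (L.map (MvPolynomial.C (σ := V)) * M).map (Phi q) = L * M.map (Phi q) := by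
  ext i j
  simp only [Matrix.map_apply, Matrix.mul_apply, map_sum, Phi_C_mul]

lemma Phi_mat_mul_right (q : ℕ) (M : Matrix A B (MvPolynomial V C)) (L : Matrix B B' C) :
    (M * L.map (MvPolynomial.C (σ := V))).map (Phi q) = M.map (Phi q) * L := by
  ext i j
  simp only [Matrix.map_apply, Matrix.mul_apply, map_sum, Phi_mul_C]

lemma Phi_mat_smul (q : ℕ) (c : C) (M : Matrix A B (MvPolynomial V C)) :
    (MvPolynomial.C (σ := V) c • M).map (Phi q) = c • M.map (Phi q) := by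
  ext i j
  simp only [Matrix.map_apply, Matrix.smul_apply, smul_eq_mul, Phi_C_mul]

end phi

section T
variable {k : Type} [Field k] {n m q : ℕ}
variable {C C' : Type} [CommRing C] [Algebra k C] [CommRing C'] [Algebra k C']
variable (Sx : SData k n q) (Sy : SData k m q)

/-- the representation of `GL_n` used in the end -/
noncomputable def rho1 : PRep k n ((Unit ⊕ Fin n) × Fin Sx.r) := (PRep.oneId k n).kron Sx.ρ

/-- `Θ` for the product -/
noncomputable def Th (C : Type) [CommRing C] [Algebra k C] :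
    Matrix (((Unit ⊕ Fin n) × Fin Sx.r) × Fin Sy.r) (((Unit ⊕ Fin n) × Fin Sx.r) × Fin Sy.r)
      (PP n m C) :=
  ((1 : Matrix (Unit ⊕ Fin n) (Unit ⊕ Fin n) (PP n m C)) ⊗ₖ evM Sx.Θ (xM n m C)) ⊗ₖ
    evM Sy.Θ (yM n m C)

/-- the operator `T` -/
noncomputable def Top (Pm : Matrix (Fin n) (Fin n) (PP n m C)) :
    Matrix (((Unit ⊕ Fin n) × Fin Sx.r) × Fin Sy.r) (((Unit ⊕ Fin n) × Fin Sx.r) × Fin Sy.r) C :=
  ((((rho1 Sx).d Pm) ⊗ₖ (1 : Matrix (Fin Sy.r) (Fin Sy.r) (PP n m C))) * Th Sx Sy C).map (Phi q)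

lemma Top_add (A B : Matrix (Fin n) (Fin n) (PP n m C)) :
    Top Sx Sy (A + B) = Top Sx Sy A + Top Sx Sy B := by
  unfold Top
  rw [PRep.d_add, Matrix.add_kronecker, Matrix.add_mul, Matrix.map_add _ (map_add (Phi q))]

lemma Top_sub (A B : Matrix (Fin n) (Fin n) (PP n m C)) :
    Top Sx Sy (A - B) = Top Sx Sy A - Top Sx Sy B := by
  have h := Top_add Sx Sy (A - B) B
  rw [sub_add_cancel] at h
  rw [h]; abel

lemma Top_smul (c : C) (A : Matrix (Fin n) (Fin n) (PP n m C)) :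
    Top Sx Sy (MvPolynomial.C (σ := SV n m) c • A) = c • Top Sx Sy A := by
  unfold Top
  rw [PRep.d_smul, Matrix.smul_kronecker, Matrix.smul_mul, Phi_mat_smul]

/-- base change hom on polynomial rings as a `k`-algebra hom -/
noncomputable def mapK (φ : C →ₐ[k] C') : PP n m C →ₐ[k] PP n m C' where
  toRingHom := MvPolynomial.map (φ : C →+* C')
  commutes' := by
    intro r
    simp [MvPolynomial.algebraMap_apply]

lemma mapK_apply (φ : C →ₐ[k] C') (z : PP n m C) : mapK φ z = MvPolynomial.map (φ : C →+* C') z := rfl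

lemma Th_map (φ : C →ₐ[k] C') : (Th Sx Sy C).map (mapK φ) = Th Sx Sy C' := by
  unfold Th
  have h1 : (evM Sx.Θ (xM n m C)).map (mapK φ) = evM Sx.Θ (xM n m C') := by
    rw [evM_map]; congr 1; exact xM_map _
  have h2 : (evM Sy.Θ (yM n m C)).map (mapK φ) = evM Sy.Θ (yM n m C') := by
    rw [evM_map]; congr 1; exact yM_map _
  ext ⟨⟨u, a⟩, c⟩ ⟨⟨u', a'⟩, c'⟩
  simp only [Matrix.map_apply, Matrix.kroneckerMap_apply, map_mul, ← h1, ← h2, Matrix.one_apply,
    apply_ite (mapK φ), map_one, map_zero]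

lemma Top_map (φ : C →ₐ[k] C') (A : Matrix (Fin n) (Fin n) (PP n m C)) :
    (Top Sx Sy A).map φ = Top Sx Sy (A.map (MvPolynomial.map (φ : C →+* C'))) := by
  unfold Top
  rw [← Th_map Sx Sy φ]
  have h1 : (A.map (MvPolynomial.map (φ : C →+* C'))) = A.map (mapK φ) := rfl
  rw [h1, ← PRep.d_map]
  have h2 : (((rho1 Sx).d A).map (mapK φ) ⊗ₖ (1 : Matrix (Fin Sy.r) (Fin Sy.r) (PP n m C'))) =
      (((rho1 Sx).d A) ⊗ₖ (1 : Matrix (Fin Sy.r) (Fin Sy.r) (PP n m C))).map (mapK φ) := by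
    ext ⟨a, c⟩ ⟨a', c'⟩
    simp only [Matrix.map_apply, Matrix.kroneckerMap_apply, map_mul, Matrix.one_apply,
      apply_ite (mapK φ), map_one, map_zero]
  rw [h2, ← Matrix.map_mul]
  ext i j
  simp only [Matrix.map_apply, mapK_apply]
  exact (Phi_map (φ : C →+* C') q _).symm

/-- The key normalisation. -/
lemma Phi_Th : ((DM n m C)^(q-1) • Th Sx Sy C).map (Phi q) = 1 := by
  have hx : ∀ i j, (xM n m C).det^(q-1) * (evM Sx.Θ (xM n m C)) i j =
      rename (Sum.inl : _ → SV n m) ((gX n C).det^(q-1) *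
        MvPolynomial.map (algebraMap k C) (Sx.Θ i j)) := by
    intro i j
    rw [map_mul, map_pow, ← xM_det_eq]
    congr 1
    rw [evM_apply, MvPolynomial.rename_eq_aeval, MvPolynomial.aeval_map_algebraMap]
    rfl
  have hy : ∀ i j, (yM n m C).det^(q-1) * (evM Sy.Θ (yM n m C)) i j =
      rename (Sum.inr : _ → SV n m) (rename (Sum.inr : _ → Unit ⊕ (Fin m × Fin m))
        ((gX m C).det^(q-1) * MvPolynomial.map (algebraMap k C) (Sy.Θ i j))) := by
    intro i j
    rw [map_mul, map_pow, map_mul, map_pow, ← yM_det_eq]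
    congr 1
    rw [evM_apply, MvPolynomial.rename_rename, MvPolynomial.rename_eq_aeval,
      MvPolynomial.aeval_map_algebraMap]
    rfl
  have ht : (tM n m C)^(q-1) = rename (Sum.inr : _ → SV n m)
      (rename (Sum.inl : _ → Unit ⊕ (Fin m × Fin m)) ((X () : MvPolynomial Unit C)^(q-1))) := by
    simp [tM]
  have hPx : ∀ i j, Phi q ((gX n C).det^(q-1) * MvPolynomial.map (algebraMap k C) (Sx.Θ i j)) =
      (1 : Matrix (Fin Sx.r) (Fin Sx.r) C) i j := by
    intro i j
    have h := congrArg (algebraMap k C) (Sx.Θ1 i j)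
    rw [← Phi_map, map_mul, map_pow, RingHom.map_det] at h
    have h2 : (MvPolynomial.map (algebraMap k C)).mapMatrix (gX n k) = gX n C := gX_map _
    rw [h2] at h
    rw [h]
    simp [Matrix.one_apply, apply_ite (algebraMap k C)]
  have hPy : ∀ i j, Phi q ((gX m C).det^(q-1) * MvPolynomial.map (algebraMap k C) (Sy.Θ i j)) =
      (1 : Matrix (Fin Sy.r) (Fin Sy.r) C) i j := by
    intro i j
    have h := congrArg (algebraMap k C) (Sy.Θ1 i j)
    rw [← Phi_map, map_mul, map_pow, RingHom.map_det] at h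
    have h2 : (MvPolynomial.map (algebraMap k C)).mapMatrix (gX m k) = gX m C := gX_map _
    rw [h2] at h
    rw [h]
    simp [Matrix.one_apply, apply_ite (algebraMap k C)]
  ext ⟨⟨u, a⟩, c⟩ ⟨⟨u', a'⟩, c'⟩
  simp only [Matrix.map_apply, Matrix.smul_apply, smul_eq_mul, Th, Matrix.kroneckerMap_apply]
  have h1 : (DM n m C)^(q-1) * ((1 : Matrix (Unit ⊕ Fin n) (Unit ⊕ Fin n) (PP n m C)) u u' *
      evM Sx.Θ (xM n m C) a a' * evM Sy.Θ (yM n m C) c c') =
      MvPolynomial.C ((1 : Matrix (Unit ⊕ Fin n) (Unit ⊕ Fin n) C) u u') *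
      (rename (Sum.inl : _ → SV n m) ((gX n C).det^(q-1) *
        MvPolynomial.map (algebraMap k C) (Sx.Θ a a')) *
      rename (Sum.inr : _ → SV n m)
        (rename (Sum.inl : _ → Unit ⊕ (Fin m × Fin m)) ((X () : MvPolynomial Unit C)^(q-1)) *
        rename (Sum.inr : _ → Unit ⊕ (Fin m × Fin m))
        ((gX m C).det^(q-1) * MvPolynomial.map (algebraMap k C) (Sy.Θ c c')))) := by
    have h0 : MvPolynomial.C ((1 : Matrix (Unit ⊕ Fin n) (Unit ⊕ Fin n) C) u u') =
      (1 : Matrix (Unit ⊕ Fin n) (Unit ⊕ Fin n) (PP n m C)) u u' := by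
      simp only [Matrix.one_apply, apply_ite (MvPolynomial.C), map_one, map_zero]
    rw [map_mul (rename (Sum.inr : _ → SV n m)), ← hx, ← hy, ← ht, DM, h0]
    ring
  rw [h1, Phi_C_mul, Phi_rename_mul, Phi_rename_mul, hPx, Phi_unit, hPy, one_mul]
  simp only [Matrix.one_apply, Prod.mk.injEq]
  split_ifs <;> simp_all

lemma Top_const (c : C) (fm : Matrix (Fin n) (Fin n) C) :
    Top Sx Sy ((MvPolynomial.C (σ := SV n m) c * (DM n m C)^(q-1)) •
      fm.map (MvPolynomial.C (σ := SV n m))) =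
      c • (((rho1 Sx).d fm) ⊗ₖ (1 : Matrix (Fin Sy.r) (Fin Sy.r) C)) := by
  unfold Top
  rw [PRep.d_smul, Matrix.smul_kronecker, Matrix.smul_mul, ← Matrix.mul_smul, mul_smul]
  have h1 : (rho1 Sx).d (fm.map (MvPolynomial.C (σ := SV n m))) =
      ((rho1 Sx).d fm).map (MvPolynomial.C (σ := SV n m)) := by
    have := (rho1 Sx).d_map fm (IsScalarTower.toAlgHom k C (PP n m C))
    exact this.symm
  have h2 : ((((rho1 Sx).d fm).map (MvPolynomial.C (σ := SV n m))) ⊗ₖ
      (1 : Matrix (Fin Sy.r) (Fin Sy.r) (PP n m C))) =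
      ((((rho1 Sx).d fm) ⊗ₖ (1 : Matrix (Fin Sy.r) (Fin Sy.r) C))).map
        (MvPolynomial.C (σ := SV n m)) := by
    ext ⟨a, c⟩ ⟨a', c'⟩
    simp only [Matrix.map_apply, Matrix.kroneckerMap_apply, map_mul, Matrix.one_apply,
      apply_ite (MvPolynomial.C), map_one, map_zero]
  rw [h1, h2, Phi_mat_mul_left, Phi_mat_smul, Phi_Th, Matrix.mul_smul, Matrix.mul_one]

end T

end Pool.Agent.LN
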