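import Pool.Agent.Helper208_LN.Conv4

set_option autoImplicit false
set_option linter.unusedSectionVars false
set_option linter.style.haveILetI false

namespace Pool.Agent.LN
open Matrix Finset MvPolynomial
open scoped Kronecker

section T3
variable {k : Type} [Field k] {n m : ℕ}
variable {C : Type} [CommRing C] [Algebra k C]
variable (p r : ℕ) [hp : Fact p.Prime] [CharP C p]
variable (Sx : SData k n (p^r)) (Sy : SData k m (p^r))

/-- `L` -/
noncomputable def Lm {q : ℕ} (Sx : SData k n q) (Sy : SData k m q)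
    (a : Matrix (Fin n) (Fin n) C) (b : Matrix (Fin m) (Fin m) C) :
    Matrix (((Unit ⊕ Fin n) × Fin Sx.r) × Fin Sy.r) (((Unit ⊕ Fin n) × Fin Sx.r) × Fin Sy.r) C :=
  ((rho1 Sx).ev a) ⊗ₖ (Sy.ρ.ev b)

omit hp [CharP C p] in
lemma Lm_inv {a ai : Matrix (Fin n) (Fin n) C} {b bi : Matrix (Fin m) (Fin m) C}
    (ha : a * ai = 1) (hb : b * bi = 1) : Lm Sx Sy a b * Lm Sx Sy ai bi = 1 := by
  unfold Lm
  rw [← Matrix.mul_kronecker_mul, PRep.ev_mul_inv _ ha, PRep.ev_mul_inv _ hb,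
    Matrix.one_kronecker_one]

omit hp [CharP C p] in
lemma Lm_map {C' : Type} [CommRing C'] [Algebra k C'] (φ : C →ₐ[k] C')
    (a : Matrix (Fin n) (Fin n) C) (b : Matrix (Fin m) (Fin m) C) :
    (Lm Sx Sy a b).map φ = Lm Sx Sy (a.map φ) (b.map φ) := by
  unfold Lm
  rw [← PRep.ev_map, ← PRep.ev_map]
  ext ⟨a, c⟩ ⟨a', c'⟩
  simp only [Matrix.map_apply, Matrix.kroneckerMap_apply, map_mul]

omit hp [CharP C p] in
lemma Lm_expand (a : Matrix (Fin n) (Fin n) C) (b : Matrix (Fin m) (Fin m) C) :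
    Lm Sx Sy a b = (((PRep.oneId k n).ev a) ⊗ₖ (Sx.ρ.ev a)) ⊗ₖ (Sy.ρ.ev b) := by
  unfold Lm rho1
  rw [PRep.kron_ev]

/-- transformation of `Θ` under the substitution -/
lemma Th_lsub {a ai : Matrix (Fin n) (Fin n) C} {b bi : Matrix (Fin m) (Fin m) C}
    (ha : a * ai = 1) (hb : b * bi = 1) (χ : C) :
    Lm Sx Sy (a.map (MvPolynomial.C (σ := SV n m))) (b.map (MvPolynomial.C (σ := SV n m))) *
      (Th Sx Sy C).map (lsub (GG a χ b)) *
      Lm Sx Sy (ai.map (MvPolynomial.C (σ := SV n m))) (bi.map (MvPolynomial.C (σ := SV n m))) =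
    MvPolynomial.C (σ := SV n m) (a.det ^ ((n-1)*(p^r-1)) * b.det ^ ((m-1)*(p^r-1))) • Th Sx Sy C := by
  let s : PP n m C →ₐ[k] PP n m C := (lsub (GG a χ b)).restrictScalars k
  set aC := a.map (MvPolynomial.C (σ := SV n m)) with haC
  set bC := b.map (MvPolynomial.C (σ := SV n m)) with hbC
  set aiC := ai.map (MvPolynomial.C (σ := SV n m)) with haiC
  set biC := bi.map (MvPolynomial.C (σ := SV n m)) with hbiC
  have ha' : aC * aiC = 1 := by
    rw [haC, haiC, ← Matrix.map_mul, ha]; exact Matrix.map_one _ (map_zero _) (map_one _)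
  have hb' : bC * biC = 1 := by
    rw [hbC, hbiC, ← Matrix.map_mul, hb]; exact Matrix.map_one _ (map_zero _) (map_one _)
  have h1 : (evM Sx.Θ (xM n m C)).map s = (aC.det ^ ((n-1)*(p^r-1))) •
      (Sx.ρ.ev aiC * evM Sx.Θ (xM n m C) * Sx.ρ.ev aC) := by
    rw [evM_map, ← Sx.Θ2 _ _ _ _ ha']
    congr 1
    exact lsub_xM a χ b
  have h2 : (evM Sy.Θ (yM n m C)).map s = (bC.det ^ ((m-1)*(p^r-1))) •
      (Sy.ρ.ev biC * evM Sy.Θ (yM n m C) * Sy.ρ.ev bC) := by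
    rw [evM_map, ← Sy.Θ2 _ _ _ _ hb']
    congr 1
    exact lsub_yM a χ b
  have h3 : (Th Sx Sy C).map (lsub (GG a χ b)) =
      ((1 : Matrix (Unit ⊕ Fin n) (Unit ⊕ Fin n) (PP n m C)) ⊗ₖ ((evM Sx.Θ (xM n m C)).map s)) ⊗ₖ
      ((evM Sy.Θ (yM n m C)).map s) := by
    ext ⟨⟨u, a⟩, c⟩ ⟨⟨u', a'⟩, c'⟩
    have hs : ∀ z, (lsub (GG _ χ b)) z = s z := fun _ => rfl
    simp only [Th, Matrix.map_apply, Matrix.kroneckerMap_apply, map_mul, Matrix.one_apply,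
      hs, apply_ite s, map_one, map_zero]
  have hda : aC.det = MvPolynomial.C a.det := by rw [haC, RingHom.map_det]; rfl
  have hdb : bC.det = MvPolynomial.C b.det := by rw [hbC, RingHom.map_det]; rfl
  rw [h3, h1, h2, Lm_expand, Lm_expand, Matrix.kronecker_smul, Matrix.kronecker_smul,
    Matrix.smul_kronecker, Matrix.mul_smul, Matrix.mul_smul, Matrix.smul_mul, Matrix.smul_mul,
    smul_smul, ← Matrix.mul_kronecker_mul, ← Matrix.mul_kronecker_mul, ← Matrix.mul_kronecker_mul,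
    ← Matrix.mul_kronecker_mul, Matrix.mul_one, PRep.ev_mul_inv _ ha']
  have e1 : Sx.ρ.ev aC * (Sx.ρ.ev aiC * evM Sx.Θ (xM n m C) * Sx.ρ.ev aC) * Sx.ρ.ev aiC =
      evM Sx.Θ (xM n m C) := by
    calc _ = (Sx.ρ.ev aC * Sx.ρ.ev aiC) * evM Sx.Θ (xM n m C) * (Sx.ρ.ev aC * Sx.ρ.ev aiC) := by
          simp only [Matrix.mul_assoc]
      _ = _ := by rw [PRep.ev_mul_inv _ ha', Matrix.one_mul, Matrix.mul_one]
  have e2 : Sy.ρ.ev bC * (Sy.ρ.ev biC * evM Sy.Θ (yM n m C) * Sy.ρ.ev bC) * Sy.ρ.ev biC =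
      evM Sy.Θ (yM n m C) := by
    calc _ = (Sy.ρ.ev bC * Sy.ρ.ev biC) * evM Sy.Θ (yM n m C) * (Sy.ρ.ev bC * Sy.ρ.ev biC) := by
          simp only [Matrix.mul_assoc]
      _ = _ := by rw [PRep.ev_mul_inv _ hb', Matrix.one_mul, Matrix.mul_one]
  rw [e1, e2, hda, hdb]
  unfold Th
  congr 1
  rw [map_mul, map_pow, map_pow, mul_comm]

theorem Top_act (hn : 1 ≤ n) (hm : 1 ≤ m) {a ai : Matrix (Fin n) (Fin n) C}
    {b bi : Matrix (Fin m) (Fin m) C}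
    (ha : a * ai = 1) (hb : b * bi = 1) (χ : C) (Pm : Matrix (Fin n) (Fin n) (PP n m C)) :
    Top Sx Sy (a.map (MvPolynomial.C (σ := SV n m)) * (Pm.map (lsub (GG a χ b))) *
      ai.map (MvPolynomial.C (σ := SV n m))) =
    (a.det * χ * b.det)^(p^r-1) • (Lm Sx Sy a b * Top Sx Sy Pm * Lm Sx Sy ai bi) := by
  let s : PP n m C →ₐ[k] PP n m C := (lsub (GG a χ b)).restrictScalars k
  set aC := a.map (MvPolynomial.C (σ := SV n m)) with haC
  set bC := b.map (MvPolynomial.C (σ := SV n m)) with hbC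
  set aiC := ai.map (MvPolynomial.C (σ := SV n m)) with haiC
  set biC := bi.map (MvPolynomial.C (σ := SV n m)) with hbiC
  have ha' : aC * aiC = 1 := by
    rw [haC, haiC, ← Matrix.map_mul, ha]; exact Matrix.map_one _ (map_zero _) (map_one _)
  have hb' : bC * biC = 1 := by
    rw [hbC, hbiC, ← Matrix.map_mul, hb]; exact Matrix.map_one _ (map_zero _) (map_one _)
  have hai' : aiC * aC = 1 := mul_eq_one_comm.1 ha'
  have hbi' : biC * bC = 1 := mul_eq_one_comm.1 hb'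
  obtain ⟨hua, _⟩ := PRep.isUnit_det_of_mul_eq_one ha
  obtain ⟨hub, _⟩ := PRep.isUnit_det_of_mul_eq_one hb
  set κ : C := a.det ^ ((n-1)*(p^r-1)) * b.det ^ ((m-1)*(p^r-1)) with hκ
  have huκ : IsUnit κ := (hua.pow _).mul (hub.pow _)
  have hTh := Th_lsub p r Sx Sy ha hb χ
  rw [← haC, ← hbC, ← haiC, ← hbiC] at hTh
  have hLiL : Lm Sx Sy aiC biC * Lm Sx Sy aC bC = 1 := Lm_inv p r Sx Sy hai' hbi'
  -- the matrix before applying `Φ`
  have key : MvPolynomial.C (σ := SV n m) κ • ((((rho1 Sx).d (aC * (Pm.map (lsub (GG a χ b))) * aiC)) ⊗ₖ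
      (1 : Matrix (Fin Sy.r) (Fin Sy.r) (PP n m C))) * Th Sx Sy C) =
      Lm Sx Sy aC bC * (((((rho1 Sx).d Pm) ⊗ₖ (1 : Matrix (Fin Sy.r) (Fin Sy.r) (PP n m C))) *
        Th Sx Sy C).map (lsub (GG a χ b))) * Lm Sx Sy aiC biC := by
    have e1 : (((rho1 Sx).d (aC * (Pm.map (lsub (GG a χ b))) * aiC)) ⊗ₖ
      (1 : Matrix (Fin Sy.r) (Fin Sy.r) (PP n m C))) =
      Lm Sx Sy aC bC * (((rho1 Sx).d (Pm.map s)) ⊗ₖ (1 : Matrix (Fin Sy.r) (Fin Sy.r) (PP n m C))) *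
        Lm Sx Sy aiC biC := by
      have : Pm.map (lsub (GG a χ b)) = Pm.map s := rfl
      rw [this, PRep.d_conj _ ha']
      unfold Lm
      rw [← Matrix.mul_kronecker_mul, ← Matrix.mul_kronecker_mul, Matrix.mul_one,
        PRep.ev_mul_inv _ hb']
    have e2 : (((((rho1 Sx).d Pm) ⊗ₖ (1 : Matrix (Fin Sy.r) (Fin Sy.r) (PP n m C))) *
        Th Sx Sy C).map (lsub (GG a χ b))) =
        (((rho1 Sx).d (Pm.map s)) ⊗ₖ (1 : Matrix (Fin Sy.r) (Fin Sy.r) (PP n m C))) *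
        ((Th Sx Sy C).map (lsub (GG a χ b))) := by
      have e3 : (((((rho1 Sx).d Pm) ⊗ₖ (1 : Matrix (Fin Sy.r) (Fin Sy.r) (PP n m C))) *
        Th Sx Sy C).map (lsub (GG a χ b))) = (((((rho1 Sx).d Pm) ⊗ₖ
          (1 : Matrix (Fin Sy.r) (Fin Sy.r) (PP n m C))) * Th Sx Sy C).map s) := rfl
      rw [e3, Matrix.map_mul]
      congr 1
      rw [← PRep.d_map]
      ext ⟨a, c⟩ ⟨a', c'⟩
      simp only [Matrix.map_apply, Matrix.kroneckerMap_apply, map_mul, Matrix.one_apply,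
        apply_ite s, map_one, map_zero]
    rw [e2, ← Matrix.mul_smul, ← hTh, e1]
    calc _ = Lm Sx Sy aC bC * (((rho1 Sx).d (Pm.map s)) ⊗ₖ
          (1 : Matrix (Fin Sy.r) (Fin Sy.r) (PP n m C))) *
          (Lm Sx Sy aiC biC * Lm Sx Sy aC bC) * ((Th Sx Sy C).map (lsub (GG a χ b))) *
          Lm Sx Sy aiC biC := by simp only [Matrix.mul_assoc]
      _ = _ := by rw [hLiL, Matrix.mul_one]; simp only [Matrix.mul_assoc]
  have hLC : Lm Sx Sy aC bC = (Lm Sx Sy a b).map (MvPolynomial.C (σ := SV n m)) :=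
    (Lm_map p r Sx Sy (IsScalarTower.toAlgHom k C (PP n m C)) a b).symm
  have hLiC : Lm Sx Sy aiC biC = (Lm Sx Sy ai bi).map (MvPolynomial.C (σ := SV n m)) :=
    (Lm_map p r Sx Sy (IsScalarTower.toAlgHom k C (PP n m C)) ai bi).symm
  have key2 := congrArg (fun M => M.map (Phi (p^r))) key
  rw [Phi_mat_smul, hLC, hLiC, Phi_mat_mul_right, Phi_mat_mul_left] at key2
  have hphi : ((((((rho1 Sx).d Pm) ⊗ₖ (1 : Matrix (Fin Sy.r) (Fin Sy.r) (PP n m C))) *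
        Th Sx Sy C).map (lsub (GG a χ b)))).map (Phi (p^r)) =
        (GG a χ b).det^(p^r-1) • Top Sx Sy Pm := by
    ext i j
    simp only [Matrix.map_apply, Matrix.smul_apply, smul_eq_mul, Top]
    exact Phi_lsub p r (GG a χ b) _
  rw [hphi, GG_det, Matrix.mul_smul, Matrix.smul_mul] at key2
  have hpow : (a.det ^ n * (χ * b.det ^ m))^(p^r-1) = κ * (a.det * χ * b.det)^(p^r-1) := by
    obtain ⟨n', rfl⟩ : ∃ n', n = n' + 1 := ⟨n-1, by omega⟩
    obtain ⟨m', rfl⟩ : ∃ m', m = m' + 1 := ⟨m-1, by omega⟩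
    simp only [hκ, Nat.add_sub_cancel, mul_pow, ← pow_mul]
    ring
  rw [hpow, mul_smul κ ((a.det * χ * b.det)^(p^r-1))] at key2
  exact huκ.smul_left_cancel.1 key2

end T3

section core
variable {k : Type} [Field k] {n m N : ℕ} {Q E : Type} [Fintype Q] [DecidableEq Q]
  [Fintype E] [DecidableEq E]
variable {H C₂ : Type} [CommRing H] [Algebra k H] [CommRing C₂] [Algebra k C₂]
variable (p : ℕ) [hp : Fact p.Prime] [CharP k p] [CharP C₂ p] {ρ : PRep k n (Q ⊕ E)} {e0 : E}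
  {ε : II Q E ≃ Unit ⊕ Fin m} {μ : E → E → Matrix (Fin n) (Fin n) k} {gu : Gd n E H}

/-- **Core theorem.** -/
theorem core (hn : 1 ≤ n) (hm : 1 ≤ m) (hOk : gu.Ok ρ e0) (hCob : gu.Cob ρ e0 μ)
    (hε : ε (cl e0) = Sum.inl ())
    (g₁ g₂ g₃ : H →ₐ[k] C₂) (fm : Matrix (Fin n) (Fin n) C₂)
    (hcomp : Gd.Comp ρ e0 (gu.map g₁) (gu.map g₂) (gu.map g₃) fm) :
    ∃ (q : ℕ) (Sx : SData k n q) (Sy : SData k m q)
      (X : Matrix (((Unit ⊕ Fin n) × Fin Sx.r) × Fin Sy.r)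
        (((Unit ⊕ Fin n) × Fin Sx.r) × Fin Sy.r) H),
      (((rho1 Sx).d fm) ⊗ₖ (1 : Matrix (Fin Sy.r) (Fin Sy.r) C₂)) =
        X.map g₁ + Lm Sx Sy (gu.map g₁).a (gp p ρ e0 ε (gu.map g₁).a (gu.map g₁).χi) * X.map g₂ *
          Lm Sx Sy (gu.map g₁).ai (gp p ρ e0 ε (gu.map g₁).ai (gu.map g₁).χ) - X.map g₃ := by
  obtain ⟨N0, hN0⟩ := univ_poly (N := Fintype.card (II Q E)) p ρ e0 ε (Fintype.equivFin (II Q E)) μ gu
  let r := N0 + 1
  have hr : N0 ≤ p^r - 1 := by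
    have h1 : r < p^r := Nat.lt_pow_self hp.out.one_lt
    omega
  obtain ⟨Pp, hPp⟩ := hN0 (p^r-1) hr
  obtain ⟨Sx⟩ := exists_SData p r k n hn
  obtain ⟨Sy⟩ := exists_SData p r k m hm
  refine ⟨p^r, Sx, Sy, Top Sx Sy Pp, ?_⟩
  have hstar := star (e := Fintype.equivFin (II Q E)) p hOk hCob hε g₁ g₂ g₃ fm hcomp (p^r-1) Pp hPp
  set g := gu.map g₁ with hg
  have hgOk : g.Ok ρ e0 := hOk.map g₁
  set b := gp p ρ e0 ε g.a g.χi with hb
  set bi := gp p ρ e0 ε g.ai g.χ with hbi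
  have hbb : b * bi = 1 := gp_mul_inv p hgOk hε
  set δ : C₂ := (g.a.det * g.χ * b.det)^(p^r-1) with hδ
  have hδu : IsUnit δ := by
    refine IsUnit.pow _ ((IsUnit.mul ?_ ?_).mul ?_)
    · exact (PRep.isUnit_det_of_mul_eq_one hgOk.inv).1
    · exact IsUnit.of_mul_eq_one _ hgOk.chi
    · exact (PRep.isUnit_det_of_mul_eq_one hbb).1
  have h1 := congrArg (Top Sx Sy) hstar
  rw [Top_const, Top_sub, Top_add, Top_smul, Top_smul, Top_act p r Sx Sy hn hm hgOk.inv hbb,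
    ← Top_map, ← Top_map, ← Top_map, ← hδ, ← smul_add, ← smul_sub] at h1
  exact hδu.smul_left_cancel.1 h1

end core

end Pool.Agent.LN
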