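import Mathlib

set_option autoImplicit false
set_option linter.unusedSectionVars false
set_option linter.style.haveILetI false

namespace Pool.Agent.LN.Kill
open Finset

section tele
variable {R : Type*} [CommRing R]

/-- prefix sums -/
def pre (s : ℕ → R) (j : ℕ) : R := ∑ i ∈ range j, s i

/-- `Q_j = (S_{j+1}^{p-1} - S_j^{p-1}) / (S_{j+1} - S_j)` -/
def Qf (p : ℕ) (s : ℕ → R) (j : ℕ) : R :=
  ∑ k ∈ range (p-1), pre s (j+1) ^ (p-1-1-k) * pre s j ^ k

lemma Qf_mul (p : ℕ) (s : ℕ → R) (j : ℕ) :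
    Qf p s j * s j = pre s (j+1)^(p-1) - pre s j^(p-1) := by
  have h := Commute.geom_sum₂_mul (Commute.all (pre s j) (pre s (j+1))) (p-1)
  have h2 : pre s (j+1) - pre s j = s j := by simp [pre, Finset.sum_range_succ]
  have h3 : Qf p s j = ∑ i ∈ range (p-1), pre s j ^ i * pre s (j+1) ^ (p-1-1-i) := by
    unfold Qf
    exact Finset.sum_congr rfl fun k _ => mul_comm _ _
  rw [h3, ← h2]
  linear_combination -h

/-- in characteristic `p`, `∑ X^{p-1-k} Y^k = (X-Y)^{p-1}` -/
lemma geom_char (p : ℕ) [hp : Fact p.Prime] [CharP R p] (x y : R) :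
    ∑ k ∈ range p, x^(p-1-k) * y^k = (x - y)^(p-1) := by
  let S := MvPolynomial (Fin 2) (ZMod p)
  have key : ∑ k ∈ range p, (MvPolynomial.X 0 : S)^(p-1-k) * (MvPolynomial.X 1 : S)^k =
      (MvPolynomial.X 0 - MvPolynomial.X 1 : S)^(p-1) := by
    have hne : (MvPolynomial.X 0 - MvPolynomial.X 1 : S) ≠ 0 := by
      rw [sub_ne_zero]
      intro h
      have := MvPolynomial.X_injective h
      exact absurd this (by decide)
    apply mul_right_cancel₀ hne
    rw [← pow_succ, Nat.sub_add_cancel hp.out.one_le, sub_pow_char]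
    have h := Commute.geom_sum₂_mul (Commute.all (MvPolynomial.X 1 : S) (MvPolynomial.X 0)) p
    have h3 : ∑ k ∈ range p, (MvPolynomial.X 0 : S)^(p-1-k) * (MvPolynomial.X 1 : S)^k =
        ∑ i ∈ range p, (MvPolynomial.X 1 : S)^i * (MvPolynomial.X 0 : S)^(p-1-i) :=
      Finset.sum_congr rfl fun k _ => mul_comm _ _
    rw [h3]
    linear_combination -h
  let ψ : S →+* R := MvPolynomial.eval₂Hom (ZMod.castHom (dvd_refl p) R) ![x, y]
  have h := congrArg ψ key
  have h0 : ψ (MvPolynomial.X 0) = x := MvPolynomial.eval₂Hom_X' _ _ _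
  have h1 : ψ (MvPolynomial.X 1) = y := MvPolynomial.eval₂Hom_X' _ _ _
  simpa only [map_sum, map_mul, map_pow, map_sub, h0, h1] using h

lemma Qf_mul_pre (p : ℕ) [hp : Fact p.Prime] [CharP R p] (s : ℕ → R) (j : ℕ) :
    Qf p s j * pre s j = s j^(p-1) - pre s (j+1)^(p-1) := by
  have h := geom_char p (pre s (j+1)) (pre s j)
  have h2 : pre s (j+1) - pre s j = s j := by simp [pre, Finset.sum_range_succ]
  rw [h2] at h
  obtain ⟨m, hm⟩ : ∃ m, p = m + 1 := ⟨p-1, by have := hp.out.one_le; omega⟩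
  have h3 : ∑ k ∈ range p, pre s (j+1)^(p-1-k) * pre s j^k =
      pre s (j+1)^(p-1) + Qf p s j * pre s j := by
    have : range p = range (m+1) := by rw [hm]
    rw [this, Finset.sum_range_succ', Qf, Finset.sum_mul]
    have hm' : p - 1 = m := by omega
    rw [hm', add_comm]
    congr 1
    · simp
    · refine Finset.sum_congr rfl fun k hk => ?_
      rw [pow_succ]
      have : m - (k+1) = m - 1 - k := by omega
      rw [this]
      ring
  rw [← h, h3]
  ring

/-- telescoping identity -/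
lemma tele_nat (p : ℕ) [hp : Fact p.Prime] [CharP R p] (s t : ℕ → R) (M : ℕ) :
    ∑ j ∈ range M, ∑ i ∈ range j, Qf p s j * (s i * t j - s j * t i) =
      (∑ j ∈ range M, s j^(p-1) * t j) - pre s M^(p-1) * ∑ j ∈ range M, t j := by
  induction M with
  | zero => simp
  | succ M ih =>
    rw [Finset.sum_range_succ, ih, Finset.sum_range_succ, Finset.sum_range_succ (fun j => t j)]
    have h1 : ∑ i ∈ range M, Qf p s M * (s i * t M - s M * t i) =
        (Qf p s M * pre s M) * t M - (Qf p s M * s M) * ∑ i ∈ range M, t i := by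
      simp only [pre, mul_sub, Finset.sum_sub_distrib, Finset.mul_sum, Finset.sum_mul]
      congr 1
      · exact Finset.sum_congr rfl fun _ _ => by ring
      · exact Finset.sum_congr rfl fun _ _ => by ring
    rw [h1, Qf_mul, Qf_mul_pre]
    ring

end tele

variable {R : Type} [CommRing R] {I : Type} [Fintype I] {N m : ℕ}

/-- extension of a function on `I ≃ Fin N` to the naturals -/
def nx (e : I ≃ Fin N) (s : I → R) (i : ℕ) : R := if h : i < N then s (e.symm ⟨i, h⟩) else 0

lemma nx_val (e : I ≃ Fin N) (s : I → R) (i : I) : nx e s (e i).val = s i := by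
  simp [nx]

/-- The Koszul-type matrix. -/
def Bf (p : ℕ) (e : I ≃ Fin N) (s : I → R) (i j : I) : R :=
  if (e i).val < (e j).val then Qf p (nx e s) (e j).val else 0

lemma Bf_map {R' : Type} [CommRing R'] (φ : R →+* R') (p : ℕ) (e : I ≃ Fin N) (s : I → R) (i j : I) :
    φ (Bf p e s i j) = Bf p e (fun i => φ (s i)) i j := by
  have h : ∀ k, φ (nx e s k) = nx e (fun i => φ (s i)) k := by
    intro k; unfold nx; split_ifs <;> simp
  unfold Bf
  split_ifs
  · simp only [Qf, pre, map_sum, map_mul, map_pow, h]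
  · simp

lemma Bf_sum (p : ℕ) [hp : Fact p.Prime] [CharP R p] (e : I ≃ Fin N) (s t : I → R)
    (hs : ∑ i, s i = 0) :
    ∑ i, ∑ j, Bf p e s i j * (s i * t j - s j * t i) = ∑ j, s j^(p-1) * t j := by
  have h := tele_nat p (nx e s) (nx e t) N
  have hsum : ∀ f : ℕ → R, ∑ j ∈ range N, f j = ∑ i : I, f (e i).val := by
    intro f
    rw [Finset.sum_range, ← Equiv.sum_comp e]
  have hpre : pre (nx e s) N = 0 := by
    rw [pre, hsum]
    simp only [nx_val, hs]
  have hp1 : p - 1 ≠ 0 := by have := hp.out.two_le; omega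
  rw [hpre, zero_pow hp1, zero_mul, sub_zero] at h
  have hrhs : ∑ j ∈ range N, nx e s j ^ (p-1) * nx e t j = ∑ j, s j^(p-1) * t j := by
    rw [hsum]
    simp only [nx_val]
  rw [hrhs] at h
  rw [← h, hsum, Finset.sum_comm]
  refine Finset.sum_congr rfl fun j _ => ?_
  have h2 : ∑ i ∈ range (e j).val, Qf p (nx e s) (e j).val * (nx e s i * nx e t (e j).val -
      nx e s (e j).val * nx e t i) = ∑ i ∈ range N, if i < (e j).val then
        Qf p (nx e s) (e j).val * (nx e s i * nx e t (e j).val - nx e s (e j).val * nx e t i) else 0 := by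
    rw [← Finset.sum_filter]
    congr 1
    ext i
    simp only [Finset.mem_range, Finset.mem_filter]
    have := (e j).2
    omega
  rw [h2, hsum]
  refine Finset.sum_congr rfl fun i _ => ?_
  simp only [nx_val, Bf]
  split_ifs <;> ring

section data
variable (p : ℕ) (e : I ≃ Fin N)

/-- the alternating extension of `M` -/
def Malt (e : I ≃ Fin N) (M : I → I → R) (i j : I) : R :=
  if (e i).val < (e j).val then M i j else if (e j).val < (e i).val then - M j i else 0

def Na (p : ℕ) (e : I ≃ Fin N) (F : I → R) (Y : Fin m → I → R) (M : I → I → R) (a : Fin m) (j : I) : R :=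
  ∑ i, Y a i * F i^(p-1) * Malt e M i j

def Ga (p : ℕ) (e : I ≃ Fin N) (F : I → R) (Y : Fin m → I → R) (v : I → R) (M : I → I → R) (a : Fin m) : R :=
  ∑ j, v j * F j^(p-1) * Na p e F Y M a j

def Tab (p : ℕ) (e : I ≃ Fin N) (F : I → R) (Y : Fin m → I → R) (M : I → I → R) (a b : Fin m) : R :=
  ∑ j, Y b j * F j^(p-1) * Na p e F Y M a j

def Kab (U : I → Fin m → R) (i j : I) (a b : Fin m) : R := U i a * U j b - U i b * U j a

def Xa (p : ℕ) (F : I → R) (v : I → R) (U : I → Fin m → R) (a : Fin m) : R :=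
  - ∑ i, (F i^p)^(p-1) * v i^p * U i a

def tau (p : ℕ) (e : I ≃ Fin N) (F : I → R) (Y : Fin m → I → R) (a : Fin m) (i j : I) : R :=
  Y a i * Y a j * Bf p e (fun i => F i^p * Y a i) i j

def theta (p : ℕ) (e : I ≃ Fin N) (F : I → R) (Y : Fin m → I → R) (z : Fin m → R) (i j : I) : R :=
  ∑ a, tau p e F Y a i j * z a^p

def kap (p : ℕ) (e : I ≃ Fin N) (F : I → R) (Y : Fin m → I → R) (v0 : I → R)
    (U0 U1 : I → Fin m → R) (z : Fin m → R) (a b : Fin m) : R :=
  - (∑ i, ∑ j, theta p e F Y z i j * Kab U1 i j a b) + Xa p F v0 U0 a * z b - Xa p F v0 U0 b * z a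

/-- the explicit one-cochain -/
def Xhat (p : ℕ) (e : I ≃ Fin N) (F : I → R) (Y : Fin m → I → R) (v0 v1 : I → R)
    (U0 U1 : I → Fin m → R) (M1 : I → I → R) (K : I → R) (z : Fin m → R) : R :=
  (∑ i, v0 i * F i^(p-1) * K i) + (∑ a, z a * Ga p e F Y v1 M1 a) +
    ∑ a, ∑ b, if a < b then Tab p e F Y M1 a b * kap p e F Y v0 U0 U1 z a b else 0

lemma Xhat_map {R' : Type} [CommRing R'] (φ : R →+* R') (p : ℕ) (e : I ≃ Fin N)
    (F : I → R) (Y : Fin m → I → R) (v0 v1 : I → R)
    (U0 U1 : I → Fin m → R) (M1 : I → I → R) (K : I → R) (z : Fin m → R) :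
    φ (Xhat p e F Y v0 v1 U0 U1 M1 K z) = Xhat p e (fun i => φ (F i)) (fun a i => φ (Y a i))
      (fun i => φ (v0 i)) (fun i => φ (v1 i)) (fun i a => φ (U0 i a)) (fun i a => φ (U1 i a))
      (fun i j => φ (M1 i j)) (fun i => φ (K i)) (fun a => φ (z a)) := by
  have hM : ∀ i j, φ (Malt e M1 i j) = Malt e (fun i j => φ (M1 i j)) i j := by
    intro i j; unfold Malt; split_ifs <;> simp
  have hN : ∀ a j, φ (Na p e F Y M1 a j) = Na p e (fun i => φ (F i)) (fun a i => φ (Y a i))
      (fun i j => φ (M1 i j)) a j := by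
    intro a j; simp only [Na, map_sum, map_mul, map_pow, hM]
  have hG : ∀ a, φ (Ga p e F Y v1 M1 a) = Ga p e (fun i => φ (F i)) (fun a i => φ (Y a i))
      (fun i => φ (v1 i)) (fun i j => φ (M1 i j)) a := by
    intro a; simp only [Ga, map_sum, map_mul, map_pow, hN]
  have hT : ∀ a b, φ (Tab p e F Y M1 a b) = Tab p e (fun i => φ (F i)) (fun a i => φ (Y a i))
      (fun i j => φ (M1 i j)) a b := by
    intro a b; simp only [Tab, map_sum, map_mul, map_pow, hN]
  have hX : ∀ a, φ (Xa p F v0 U0 a) = Xa p (fun i => φ (F i)) (fun i => φ (v0 i))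
      (fun i a => φ (U0 i a)) a := by
    intro a; simp only [Xa, map_neg, map_sum, map_mul, map_pow]
  have htau : ∀ a i j, φ (tau p e F Y a i j) = tau p e (fun i => φ (F i)) (fun a i => φ (Y a i)) a i j := by
    intro a i j; simp only [tau, map_mul, Bf_map, map_pow]
  have htheta : ∀ i j, φ (theta p e F Y z i j) = theta p e (fun i => φ (F i)) (fun a i => φ (Y a i))
      (fun a => φ (z a)) i j := by
    intro i j; simp only [theta, map_sum, map_mul, map_pow, htau]
  have hk : ∀ a b, φ (kap p e F Y v0 U0 U1 z a b) = kap p e (fun i => φ (F i)) (fun a i => φ (Y a i))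
      (fun i => φ (v0 i)) (fun i a => φ (U0 i a)) (fun i a => φ (U1 i a)) (fun a => φ (z a)) a b := by
    intro a b
    simp only [kap, Kab, map_add, map_sub, map_neg, map_sum, map_mul, htheta, hX]
  unfold Xhat
  simp only [map_add, map_sum, map_mul, map_pow, hG, apply_ite φ, map_zero, hT, hk]

end data

section main
variable (p : ℕ) [hp : Fact p.Prime] [CharP R p] (e : I ≃ Fin N)

lemma sum_pow_p {ι : Type} (s : Finset ι) (f : ι → R) : (∑ i ∈ s, f i)^p = ∑ i ∈ s, f i^p := by
  haveI : ExpChar R p := ExpChar.prime hp.out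
  exact sum_pow_char p s f

lemma Malt_antisymm (M : I → I → R) (i j : I) : Malt e M j i = - Malt e M i j := by
  unfold Malt
  split_ifs <;> first | omega | simp

lemma Malt_self (M : I → I → R) (i : I) : Malt e M i i = 0 := by
  unfold Malt
  simp

lemma Malt_diff (F K : I → R) (M M' : I → I → R)
    (h : ∀ i j, M' i j - M i j = F j * K i - F i * K j) (i j : I) :
    Malt e M' i j - Malt e M i j = F j * K i - F i * K j := by
  unfold Malt
  split_ifs with h1 h2
  · exact h i j
  · have := h j i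
    linear_combination -this
  · have : e i = e j := Fin.ext (by omega)
    have := e.injective this
    subst this
    ring

lemma Na_diff (F K : I → R) (Y : Fin m → I → R) (M M' : I → I → R)
    (hYF : ∀ a, ∑ i, Y a i * F i^p = 0)
    (h : ∀ i j, M' i j - M i j = F j * K i - F i * K j) (a : Fin m) (j : I) :
    Na p e F Y M' a j - Na p e F Y M a j = F j * ∑ i, Y a i * F i^(p-1) * K i := by
  unfold Na
  rw [← Finset.sum_sub_distrib]
  have h1 : ∀ i, Y a i * F i^(p-1) * Malt e M' i j - Y a i * F i^(p-1) * Malt e M i j =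
      F j * (Y a i * F i^(p-1) * K i) - (Y a i * F i^p) * K j := by
    intro i
    rw [← mul_sub, Malt_diff e F K M M' h]
    have : F i^p = F i^(p-1) * F i := by
      rw [← pow_succ, Nat.sub_add_cancel hp.out.one_le]
    rw [this]
    ring
  simp only [h1, Finset.sum_sub_distrib]
  rw [← Finset.mul_sum, ← Finset.sum_mul, hYF, zero_mul, sub_zero]

lemma Tab_alt (F : I → R) (Y : Fin m → I → R) (M : I → I → R) (a b : Fin m) :
    Tab p e F Y M b a = - Tab p e F Y M a b ∧ Tab p e F Y M a a = 0 := by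
  have hex : ∀ a b, Tab p e F Y M a b = ∑ j, ∑ i, (Y b j * F j^(p-1)) * (Y a i * F i^(p-1)) *
      Malt e M i j := by
    intro a b
    unfold Tab Na
    refine Finset.sum_congr rfl fun j _ => ?_
    rw [Finset.mul_sum]
    exact Finset.sum_congr rfl fun i _ => by ring
  constructor
  · rw [hex, hex, Finset.sum_comm, ← Finset.sum_neg_distrib]
    refine Finset.sum_congr rfl fun i _ => ?_
    rw [← Finset.sum_neg_distrib]
    refine Finset.sum_congr rfl fun j _ => ?_
    rw [Malt_antisymm e M i j]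
    ring
  · rw [hex]
    -- sum over pairs of an alternating function
    rw [← Fintype.sum_prod_type' (fun j i => (Y a j * F j^(p-1)) * (Y a i * F i^(p-1)) * Malt e M i j)]
    refine Finset.sum_involution (fun x _ => (x.2, x.1)) ?_ ?_ ?_ ?_
    · rintro ⟨j, i⟩ _
      simp only
      rw [Malt_antisymm e M i j]
      ring
    · rintro ⟨j, i⟩ _ hne heq
      simp only [Prod.mk.injEq] at heq
      apply hne
      simp only
      rw [heq.1, Malt_self]
      ring
    · intro a _; exact Finset.mem_univ _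
    · rintro ⟨j, i⟩ _; rfl

/-- decomposing an alternating double sum -/
lemma alt_sum (T : Fin m → Fin m → R) (hT : ∀ a b, T b a = - T a b) (hT0 : ∀ a, T a a = 0)
    (f : Fin m → Fin m → R) :
    ∑ a, ∑ b, T a b * f a b = ∑ a, ∑ b, if a < b then T a b * (f a b - f b a) else 0 := by
  have h1 : ∀ a b, T a b * f a b = (if a < b then T a b * f a b else 0) +
      (if b < a then T a b * f a b else 0) := by
    intro a b
    rcases lt_trichotomy a b with h | h | h
    · simp [h, h.not_gt]
    · subst h; simp [hT0]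
    · simp [h, h.not_gt]
  have h2 : ∀ a b, (if a < b then T a b * (f a b - f b a) else 0) =
      (if a < b then T a b * f a b else 0) + (if a < b then T b a * f b a else 0) := by
    intro a b
    split_ifs
    · rw [hT a b]; ring
    · ring
  simp only [h2, Finset.sum_add_distrib]
  conv_lhs => rw [Finset.sum_congr rfl fun a _ => Finset.sum_congr rfl fun b _ => h1 a b]
  simp only [Finset.sum_add_distrib]
  congr 1
  rw [Finset.sum_comm]

/-- `κ` kills the antisymmetrised cup product. -/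
lemma kap_coboundary (F : I → R) (Y : Fin m → I → R) (v0 v1 : I → R) (U0 U1 U2 : I → Fin m → R)
    (z01 z12 z02 : Fin m → R)
    (hvF : ∑ i, v0 i * F i^p = 1) (hYF : ∀ a, ∑ i, Y a i * F i^p = 0)
    (hv1 : ∀ i, v1 i = v0 i + ∑ a, z01 a * Y a i)
    (hU1 : ∀ i a, U1 i a = U0 i a - F i^p * z01 a)
    (hU2 : ∀ i a, U2 i a = U1 i a - F i^p * z12 a)
    (hz : ∀ a, z02 a = z01 a + z12 a) (a b : Fin m) :
    kap p e F Y v0 U0 U1 z01 a b + kap p e F Y v1 U1 U2 z12 a b - kap p e F Y v0 U0 U2 z02 a b =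
      z01 a * z12 b - z01 b * z12 a := by
  -- invariants
  let w : I → I → Fin m → R := fun i j a => F i^p * U1 j a - F j^p * U1 i a
  have hw0 : ∀ i j a, F i^p * U0 j a - F j^p * U0 i a = w i j a := by
    intro i j a; simp only [w, hU1]; ring
  let psi : Fin m → Fin m → R := fun c a => ∑ i, (F i^p)^(p-1) * Y c i^p * U0 i a
  have hpsi : ∀ c a, psi c a = ∑ i, ∑ j, tau p e F Y c i j * w i j a := by
    intro c a
    have h := Bf_sum p e (fun i => F i^p * Y c i) (fun i => Y c i * U0 i a)
      (by simpa [mul_comm] using hYF c)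
    have e1 : psi c a = ∑ j, (F j^p * Y c j)^(p-1) * (Y c j * U0 j a) := by
      refine Finset.sum_congr rfl fun i _ => ?_
      have : Y c i^p = Y c i^(p-1) * Y c i := by
        rw [← pow_succ, Nat.sub_add_cancel hp.out.one_le]
      rw [this, mul_pow]
      ring
    rw [e1, ← h]
    refine Finset.sum_congr rfl fun i _ => Finset.sum_congr rfl fun j _ => ?_
    rw [tau, ← hw0]
    ring
  have hX : ∀ a, Xa p F v1 U1 a - Xa p F v0 U0 a = z01 a - ∑ c, z01 c^p * psi c a := by
    intro a
    have hvp : ∀ i, v1 i^p = v0 i^p + ∑ c, z01 c^p * Y c i^p := by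
      intro i
      rw [hv1, add_pow_char, sum_pow_p]
      simp only [mul_pow]
    have hFp : ∀ i, (F i^p)^p = (F i^p)^(p-1) * F i^p := by
      intro i
      rw [← pow_succ, Nat.sub_add_cancel hp.out.one_le]
    have e1 : ∑ i, (F i^p)^(p-1) * F i^p * v0 i^p = 1 := by
      have := congrArg (fun t => t^p) hvF
      simp only [sum_pow_p, one_pow, mul_pow] at this
      rw [← this]
      exact Finset.sum_congr rfl fun i _ => by rw [hFp]; ring
    have e2 : ∀ c, ∑ i, (F i^p)^(p-1) * F i^p * Y c i^p = 0 := by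
      intro c
      have := congrArg (fun t => t^p) (hYF c)
      simp only [sum_pow_p, mul_pow] at this
      rw [zero_pow hp.out.ne_zero] at this
      rw [← this]
      exact Finset.sum_congr rfl fun i _ => by rw [hFp]; ring
    unfold Xa
    have e3 : ∀ i, (F i^p)^(p-1) * v1 i^p * U1 i a = (F i^p)^(p-1) * v0 i^p * U0 i a
        - ((F i^p)^(p-1) * F i^p * v0 i^p) * z01 a + (∑ c, z01 c^p * ((F i^p)^(p-1) * Y c i^p * U0 i a))
        - (∑ c, z01 c^p * ((F i^p)^(p-1) * F i^p * Y c i^p)) * z01 a := by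
      intro i
      rw [hvp, hU1]
      have g1 : ∑ c, z01 c^p * ((F i^p)^(p-1) * Y c i^p * U0 i a) =
        (F i^p)^(p-1) * (∑ c, z01 c^p * Y c i^p) * U0 i a := by
        rw [Finset.mul_sum, Finset.sum_mul]
        exact Finset.sum_congr rfl fun c _ => by ring
      have g2 : ∑ c, z01 c^p * ((F i^p)^(p-1) * F i^p * Y c i^p) =
        (F i^p)^(p-1) * F i^p * (∑ c, z01 c^p * Y c i^p) := by
        rw [Finset.mul_sum]
        exact Finset.sum_congr rfl fun c _ => by ring
      rw [g1, g2]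
      ring
    simp only [e3, Finset.sum_add_distrib, Finset.sum_sub_distrib, ← Finset.sum_mul, e1]
    have e4 : ∑ i, ∑ c, z01 c^p * ((F i^p)^(p-1) * Y c i^p * U0 i a) = ∑ c, z01 c^p * psi c a := by
      rw [Finset.sum_comm]
      refine Finset.sum_congr rfl fun c _ => ?_
      rw [Finset.mul_sum]
    have e5 : ∑ i, ∑ c, z01 c^p * ((F i^p)^(p-1) * F i^p * Y c i^p) = 0 := by
      rw [Finset.sum_comm]
      refine Finset.sum_eq_zero fun c _ => ?_
      rw [← Finset.mul_sum, e2, mul_zero]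
    rw [e4, e5]
    ring
  have htheta : ∀ i j, theta p e F Y z02 i j = theta p e F Y z01 i j + theta p e F Y z12 i j := by
    intro i j
    unfold theta
    rw [← Finset.sum_add_distrib]
    refine Finset.sum_congr rfl fun c _ => ?_
    rw [hz, add_pow_char]
    ring
  have hKab : ∀ i j, Kab U2 i j a b = Kab U1 i j a b + w i j a * z12 b - w i j b * z12 a := by
    intro i j
    simp only [Kab, hU2, w]
    ring
  have hthw : ∀ a, ∑ i, ∑ j, theta p e F Y z01 i j * w i j a = ∑ c, z01 c^p * psi c a := by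
    intro a
    have h1 : ∀ i j, theta p e F Y z01 i j * w i j a = ∑ c, z01 c^p * (tau p e F Y c i j * w i j a) := by
      intro i j
      unfold theta
      rw [Finset.sum_mul]
      exact Finset.sum_congr rfl fun c _ => by ring
    simp only [h1]
    calc _ = ∑ i, ∑ c, ∑ j, z01 c^p * (tau p e F Y c i j * w i j a) := by
          refine Finset.sum_congr rfl fun i _ => ?_
          rw [Finset.sum_comm]
      _ = ∑ c, ∑ i, ∑ j, z01 c^p * (tau p e F Y c i j * w i j a) := by rw [Finset.sum_comm]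
      _ = _ := by
          refine Finset.sum_congr rfl fun c _ => ?_
          rw [hpsi]
          simp only [Finset.mul_sum]
  have hS : (∑ i, ∑ j, theta p e F Y z02 i j * Kab U2 i j a b) =
      (∑ i, ∑ j, theta p e F Y z12 i j * Kab U2 i j a b) +
      (∑ i, ∑ j, theta p e F Y z01 i j * Kab U1 i j a b) +
      (∑ c, z01 c^p * psi c a) * z12 b - (∑ c, z01 c^p * psi c b) * z12 a := by
    rw [← hthw a, ← hthw b]
    simp only [Finset.sum_mul]
    simp only [← Finset.sum_add_distrib, ← Finset.sum_sub_distrib]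
    refine Finset.sum_congr rfl fun i _ => Finset.sum_congr rfl fun j _ => ?_
    rw [htheta]
    linear_combination theta p e F Y z01 i j * hKab i j
  unfold kap
  rw [hS, hz, hz]
  linear_combination (z12 b) * hX a - (z12 a) * hX b

/-- **Kill lemma.** -/
theorem kill (F : I → R) (Y : Fin m → I → R) (v0 v1 v2 : I → R) (U0 U1 U2 : I → Fin m → R)
    (M0 M1 M2 : I → I → R) (K01 K12 K02 : I → R) (z01 z12 z02 : Fin m → R) (c : R)
    (hvF0 : ∑ i, v0 i * F i^p = 1) (hvF1 : ∑ i, v1 i * F i^p = 1)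
    (hYF : ∀ a, ∑ i, Y a i * F i^p = 0)
    (hv1 : ∀ i, v1 i = v0 i + ∑ a, z01 a * Y a i)
    (hv2 : ∀ i, v2 i = v1 i + ∑ a, z12 a * Y a i)
    (hU1 : ∀ i a, U1 i a = U0 i a - F i^p * z01 a)
    (hU2 : ∀ i a, U2 i a = U1 i a - F i^p * z12 a)
    (hz : ∀ a, z02 a = z01 a + z12 a)
    (hM1 : ∀ i j, M1 i j - M0 i j = F j * K01 i - F i * K01 j)
    (hM2 : ∀ i j, M2 i j - M1 i j = F j * K12 i - F i * K12 j)
    (hK : ∀ i, F i * c = K01 i + K12 i - K02 i) :
    c = Xhat p e F Y v0 v1 U0 U1 M1 K01 z01 + Xhat p e F Y v1 v2 U1 U2 M2 K12 z12 -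
      Xhat p e F Y v0 v2 U0 U2 M2 K02 z02 := by
  have hFp : ∀ i, F i^p = F i^(p-1) * F i := by
    intro i
    rw [← pow_succ, Nat.sub_add_cancel hp.out.one_le]
  let L : Fin m → R := fun a => ∑ i, Y a i * F i^(p-1) * K12 i
  have hN21 : ∀ a j, Na p e F Y M2 a j - Na p e F Y M1 a j = F j * L a := fun a j =>
    Na_diff p e F K12 Y M1 M2 hYF hM2 a j
  have hN10 : ∀ a j, Na p e F Y M1 a j - Na p e F Y M0 a j =
      F j * ∑ i, Y a i * F i^(p-1) * K01 i := fun a j =>
    Na_diff p e F K01 Y M0 M1 hYF hM1 a j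
  have hT21 : ∀ a b, Tab p e F Y M2 a b = Tab p e F Y M1 a b := by
    intro a b
    rw [← sub_eq_zero]
    unfold Tab
    rw [← Finset.sum_sub_distrib]
    have : ∀ j, Y b j * F j^(p-1) * Na p e F Y M2 a j - Y b j * F j^(p-1) * Na p e F Y M1 a j =
        (Y b j * F j^p) * L a := by
      intro j
      rw [← mul_sub, hN21, hFp]
      ring
    simp only [this, ← Finset.sum_mul, hYF, zero_mul]
  -- first sum
  have hP : (∑ i, v0 i * F i^(p-1) * K01 i) + (∑ i, v1 i * F i^(p-1) * K12 i) -
      (∑ i, v0 i * F i^(p-1) * K02 i) = c + ∑ a, z01 a * L a := by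
    have h1 : ∀ i, v1 i * F i^(p-1) * K12 i = v0 i * F i^(p-1) * K12 i +
        ∑ a, z01 a * (Y a i * F i^(p-1) * K12 i) := by
      intro i
      rw [hv1, add_mul, add_mul, Finset.sum_mul, Finset.sum_mul]
      congr 1
      exact Finset.sum_congr rfl fun a _ => by ring
    have h2 : ∑ i, ∑ a, z01 a * (Y a i * F i^(p-1) * K12 i) = ∑ a, z01 a * L a := by
      rw [Finset.sum_comm]
      refine Finset.sum_congr rfl fun a _ => ?_
      rw [Finset.mul_sum]
    simp only [h1, Finset.sum_add_distrib, h2]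
    have h3 : (∑ i, v0 i * F i^(p-1) * K01 i) + (∑ i, v0 i * F i^(p-1) * K12 i) -
        (∑ i, v0 i * F i^(p-1) * K02 i) = c := by
      rw [← Finset.sum_add_distrib, ← Finset.sum_sub_distrib]
      have : ∀ i, v0 i * F i^(p-1) * K01 i + v0 i * F i^(p-1) * K12 i - v0 i * F i^(p-1) * K02 i =
          (v0 i * F i^p) * c := by
        intro i
        rw [hFp]
        linear_combination -(v0 i * F i^(p-1)) * hK i
      simp only [this, ← Finset.sum_mul, hvF0, one_mul]
    linear_combination h3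
  -- second sum
  have hG : ∀ a, Ga p e F Y v2 M2 a - Ga p e F Y v1 M1 a = L a + ∑ b, z12 b * Tab p e F Y M2 a b := by
    intro a
    unfold Ga
    rw [← Finset.sum_sub_distrib]
    have h1 : ∀ j, v2 j * F j^(p-1) * Na p e F Y M2 a j - v1 j * F j^(p-1) * Na p e F Y M1 a j =
        (v1 j * F j^p) * L a + ∑ b, z12 b * (Y b j * F j^(p-1) * Na p e F Y M2 a j) := by
      intro j
      have g1 : ∑ b, z12 b * (Y b j * F j^(p-1) * Na p e F Y M2 a j) =
          (∑ b, z12 b * Y b j) * F j^(p-1) * Na p e F Y M2 a j := by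
        rw [Finset.sum_mul, Finset.sum_mul]
        exact Finset.sum_congr rfl fun b _ => by ring
      rw [g1, hv2, hFp]
      linear_combination (v1 j * F j^(p-1)) * hN21 a j
    simp only [h1, Finset.sum_add_distrib, ← Finset.sum_mul, hvF1, one_mul]
    congr 1
    rw [Finset.sum_comm]
    refine Finset.sum_congr rfl fun b _ => ?_
    rw [← Finset.mul_sum]
    rfl
  have hQ : (∑ a, z01 a * Ga p e F Y v1 M1 a) + (∑ a, z12 a * Ga p e F Y v2 M2 a) -
      (∑ a, z02 a * Ga p e F Y v2 M2 a) =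
      - (∑ a, z01 a * L a) - ∑ a, ∑ b, Tab p e F Y M2 a b * (z01 a * z12 b) := by
    have h1 : ∀ a, z02 a * Ga p e F Y v2 M2 a = z01 a * Ga p e F Y v1 M1 a + z12 a * Ga p e F Y v2 M2 a
        + z01 a * L a + ∑ b, Tab p e F Y M2 a b * (z01 a * z12 b) := by
      intro a
      have g1 : ∑ b, Tab p e F Y M2 a b * (z01 a * z12 b) =
          z01 a * ∑ b, z12 b * Tab p e F Y M2 a b := by
        rw [Finset.mul_sum]
        exact Finset.sum_congr rfl fun b _ => by ring
      rw [g1, hz]
      linear_combination (z01 a) * hG a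
    simp only [h1, Finset.sum_add_distrib]
    ring
  have hA := alt_sum (Tab p e F Y M2) (fun a b => (Tab_alt p e F Y M2 a b).1)
    (fun a => (Tab_alt p e F Y M2 a a).2) (fun a b => z01 a * z12 b)
  rw [hA] at hQ
  have hkap : ∀ a b, kap p e F Y v0 U0 U1 z01 a b + kap p e F Y v1 U1 U2 z12 a b -
      kap p e F Y v0 U0 U2 z02 a b = z01 a * z12 b - z01 b * z12 a :=
    fun a b => kap_coboundary p e F Y v0 v1 U0 U1 U2 z01 z12 z02 hvF0 hYF hv1 hU1 hU2 hz a b
  have hT : (∑ a, ∑ b, if a < b then Tab p e F Y M1 a b * kap p e F Y v0 U0 U1 z01 a b else 0) +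
      (∑ a, ∑ b, if a < b then Tab p e F Y M2 a b * kap p e F Y v1 U1 U2 z12 a b else 0) -
      (∑ a, ∑ b, if a < b then Tab p e F Y M2 a b * kap p e F Y v0 U0 U2 z02 a b else 0) =
      ∑ a, ∑ b, if a < b then Tab p e F Y M2 a b * (z01 a * z12 b - z01 b * z12 a) else 0 := by
    simp only [← Finset.sum_add_distrib, ← Finset.sum_sub_distrib]
    refine Finset.sum_congr rfl fun a _ => Finset.sum_congr rfl fun b _ => ?_
    split_ifs
    · rw [← hkap, hT21]; ring
    · ring
  unfold Xhat
  linear_combination -hP - hQ - hT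

end main

end Pool.Agent.LN.Kill
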