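import Pool.Agent.Helper208_LN.Minor
import Pool.Agent.Helper208_LN.Kill

set_option autoImplicit false
set_option linter.unusedSectionVars false
set_option linter.style.haveILetI false

namespace Pool.Agent.LN
open Matrix Finset

section RC
variable {k : Type} [Field k] {n m : ℕ} {Q E : Type} [Fintype Q] [DecidableEq Q]
  [Fintype E] [DecidableEq E]
variable {O O' : Type} [CommRing O] [Algebra k O] [CommRing O'] [Algebra k O']
variable (ρ : PRep k n (Q ⊕ E)) (e0 : E) (ε : II Q E ≃ Unit ⊕ Fin m)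

noncomputable def BZ (x : Matrix (Fin n) (Fin n) O) (t : O) : Matrix (II Q E) (II Q E) O :=
  t • tp (Q ⊕ Unit) (ρ.ev x)

noncomputable def Rm (x : Matrix (Fin n) (Fin n) O) (ti : O) : Matrix (II Q E) (Unit ⊕ Fin m) O :=
  (BZ ρ x ti * Om e0 O).submatrix id ε.symm

noncomputable def Rim (xi : Matrix (Fin n) (Fin n) O) (t : O) : Matrix (Unit ⊕ Fin m) (II Q E) O :=
  (Omi e0 O * BZ ρ xi t).submatrix ε.symm id

noncomputable def Cm (a : Matrix (Fin n) (Fin n) O) (χi : O) :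
    Matrix (Unit ⊕ Fin m) (Unit ⊕ Fin m) O :=
  (Omi e0 O * BZ ρ a χi * Om e0 O).submatrix ε.symm ε.symm

lemma BZ_mul (x a : Matrix (Fin n) (Fin n) O) (t s : O) (hx : IsUnit x.det) (ha : IsUnit a.det) :
    BZ ρ (x * a) (t * s) = BZ ρ x t * BZ ρ a s := by
  unfold BZ
  rw [ρ.ev_mul x a hx ha, tp_mul, Matrix.smul_mul, Matrix.mul_smul, smul_smul]

lemma BZ_one : BZ ρ (1 : Matrix (Fin n) (Fin n) O) 1 = 1 := by
  unfold BZ
  rw [ρ.ev_one, tp_one, one_smul]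

lemma Rm_mul_Rim (x xi : Matrix (Fin n) (Fin n) O) (t ti : O) (hx : x * xi = 1) (ht : t * ti = 1) :
    Rm ρ e0 ε x ti * Rim ρ e0 ε xi t = 1 := by
  obtain ⟨h1, h2⟩ := PRep.isUnit_det_of_mul_eq_one hx
  unfold Rm Rim
  rw [Matrix.submatrix_mul_equiv]
  have : BZ ρ x ti * Om e0 O * (Omi e0 O * BZ ρ xi t) = 1 := by
    calc _ = BZ ρ x ti * (Om e0 O * Omi e0 O) * BZ ρ xi t := by simp only [Matrix.mul_assoc]
      _ = _ := by
        rw [Om_mul_Omi, Matrix.mul_one, ← BZ_mul ρ _ _ _ _ h1 h2, hx, mul_comm ti t, ht, BZ_one]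
  rw [this]
  rfl

lemma Rim_mul_Rm (x xi : Matrix (Fin n) (Fin n) O) (t ti : O) (hx : x * xi = 1) (ht : t * ti = 1) :
    Rim ρ e0 ε xi t * Rm ρ e0 ε x ti = 1 := by
  obtain ⟨h1, h2⟩ := PRep.isUnit_det_of_mul_eq_one hx
  have hx' : xi * x = 1 := mul_eq_one_comm.1 hx
  unfold Rm Rim
  have h3 := Matrix.submatrix_mul_equiv (Omi e0 O * BZ ρ xi t) (BZ ρ x ti * Om e0 O) ε.symm
    (Equiv.refl (II Q E)) ε.symm
  have h4 : Omi e0 O * BZ ρ xi t * (BZ ρ x ti * Om e0 O) = 1 := by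
    calc _ = Omi e0 O * (BZ ρ xi t * BZ ρ x ti) * Om e0 O := by simp only [Matrix.mul_assoc]
      _ = _ := by
        rw [← BZ_mul ρ _ _ _ _ h2 h1, hx', ht, BZ_one, Matrix.mul_one, Omi_mul_Om]
  rw [h4] at h3
  simp only [Equiv.coe_refl] at h3
  rw [h3, Matrix.submatrix_one_equiv]

lemma Rm_act (x a : Matrix (Fin n) (Fin n) O) (ti χi : O) (hx : IsUnit x.det) (ha : IsUnit a.det) :
    Rm ρ e0 ε (x * a) (ti * χi) = Rm ρ e0 ε x ti * Cm ρ e0 ε a χi := by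
  unfold Rm Cm
  rw [Matrix.submatrix_mul_equiv, BZ_mul ρ _ _ _ _ hx ha]
  congr 1
  calc _ = BZ ρ x ti * 1 * BZ ρ a χi * Om e0 O := by rw [Matrix.mul_one]
    _ = BZ ρ x ti * (Om e0 O * Omi e0 O) * BZ ρ a χi * Om e0 O := by rw [Om_mul_Omi]
    _ = _ := by simp only [Matrix.mul_assoc]

lemma Cm_mul (a b : Matrix (Fin n) (Fin n) O) (s t : O) (ha : IsUnit a.det) (hb : IsUnit b.det) :
    Cm ρ e0 ε (a * b) (s * t) = Cm ρ e0 ε a s * Cm ρ e0 ε b t := by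
  unfold Cm
  rw [Matrix.submatrix_mul_equiv, BZ_mul ρ _ _ _ _ ha hb]
  congr 1
  calc _ = Omi e0 O * BZ ρ a s * 1 * BZ ρ b t * Om e0 O := by
        simp only [Matrix.mul_assoc, Matrix.one_mul]
    _ = Omi e0 O * BZ ρ a s * (Om e0 O * Omi e0 O) * BZ ρ b t * Om e0 O := by rw [Om_mul_Omi]
    _ = _ := by simp only [Matrix.mul_assoc]

lemma Cm_inv (a ai : Matrix (Fin n) (Fin n) O) (χ χi : O) (ha : a * ai = 1) (hχ : χ * χi = 1) :
    Cm ρ e0 ε a χi * Cm ρ e0 ε ai χ = 1 := by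
  obtain ⟨h1, h2⟩ := PRep.isUnit_det_of_mul_eq_one ha
  rw [← Cm_mul ρ e0 ε _ _ _ _ h1 h2, ha, mul_comm χi χ, hχ]
  unfold Cm
  rw [BZ_one, Matrix.mul_one, Omi_mul_Om, Matrix.submatrix_one_equiv]

/-- naturality -/
lemma BZ_map (φ : O →ₐ[k] O') (x : Matrix (Fin n) (Fin n) O) (t : O) :
    (BZ ρ x t).map φ = BZ ρ (x.map φ) (φ t) := by
  ext f f'
  simp only [BZ, Matrix.map_apply, Matrix.smul_apply, smul_eq_mul, map_mul, tp_apply, map_prod,
    ← ρ.ev_map]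

lemma Rm_map (φ : O →ₐ[k] O') (x : Matrix (Fin n) (Fin n) O) (t : O) :
    (Rm ρ e0 ε x t).map φ = Rm ρ e0 ε (x.map φ) (φ t) := by
  unfold Rm
  rw [← Matrix.submatrix_map, Matrix.map_mul, BZ_map]
  have := Om_map (Q := Q) (φ : O →+* O') e0
  simp only [RingHom.coe_coe] at this
  rw [this]

lemma Rim_map (φ : O →ₐ[k] O') (x : Matrix (Fin n) (Fin n) O) (t : O) :
    (Rim ρ e0 ε x t).map φ = Rim ρ e0 ε (x.map φ) (φ t) := by
  unfold Rim
  rw [← Matrix.submatrix_map, Matrix.map_mul, BZ_map]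
  have := Omi_map (Q := Q) (φ : O →+* O') e0
  simp only [RingHom.coe_coe] at this
  rw [this]

lemma Cm_map (φ : O →ₐ[k] O') (x : Matrix (Fin n) (Fin n) O) (t : O) :
    (Cm ρ e0 ε x t).map φ = Cm ρ e0 ε (x.map φ) (φ t) := by
  unfold Cm
  rw [← Matrix.submatrix_map, Matrix.map_mul, Matrix.map_mul, BZ_map]
  have h1 := Omi_map (Q := Q) (φ : O →+* O') e0
  have h2 := Om_map (Q := Q) (φ : O →+* O') e0
  simp only [RingHom.coe_coe] at h1 h2
  rw [h1, h2]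

/-- The conditions on (the image of) the group-like matrix. -/
structure Good (a ai : Matrix (Fin n) (Fin n) O) (χ χi : O) : Prop where
  inv : a * ai = 1
  chi : χ * χi = 1
  blk : ∀ e q, (ρ.ev a) (Sum.inr e) (Sum.inl q) = 0
  col : ∀ e, (ρ.ev a) (Sum.inr e) (Sum.inr e0) = if e = e0 then 1 else 0
  det : (ρ.ev a).toBlocks₁₁.det = χ

variable {ρ e0}

lemma Good.minor_act {a ai : Matrix (Fin n) (Fin n) O} {χ χi : O} (hg : Good ρ e0 a ai χ χi)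
    (x : Matrix (Fin n) (Fin n) O) (hx : IsUnit x.det) (f : II Q E) (j : E) :
    minor f j (ρ.ev (x * a)) = χ * ∑ i, (ρ.ev a) (Sum.inr i) (Sum.inr j) * minor f i (ρ.ev x) := by
  rw [ρ.ev_mul x a hx (PRep.isUnit_det_of_mul_eq_one hg.inv).1, minor_mul f j _ _ hg.blk, hg.det]

lemma Good.Cm_col {a ai : Matrix (Fin n) (Fin n) O} {χ χi : O} (hg : Good ρ e0 a ai χ χi)
    (hε : ε (cl e0) = Sum.inl ()) (u : Unit ⊕ Fin m) :
    Cm ρ e0 ε a χi u (Sum.inl ()) = (1 : Matrix (Unit ⊕ Fin m) (Unit ⊕ Fin m) O) u (Sum.inl ()) := by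
  have hs : ε.symm (Sum.inl ()) = cl e0 := by rw [← hε, Equiv.symm_apply_apply]
  have h1 : ∀ f, (BZ ρ a χi * (Om e0 O : Matrix (II Q E) (II Q E) O)) f (cl e0) =
      Om e0 O f (cl e0) := by
    intro f
    rw [Matrix.mul_apply]
    simp only [Om_col]
    have h2 : ∑ j, BZ ρ a χi f j * om e0 O j = χi * (tp (Q ⊕ Unit) (ρ.ev a)).mulVec (om e0 O) f := by
      simp only [BZ, mulVec, dotProduct, Matrix.smul_apply, smul_eq_mul, Finset.mul_sum, mul_assoc]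
    rw [h2, ← minor_eq_mulVec]
    have h3 := hg.minor_act 1 (by simp) f e0
    rw [Matrix.one_mul] at h3
    rw [h3, ← mul_assoc, mul_comm χi χ, hg.chi, one_mul]
    simp only [hg.col, ρ.ev_one]
    rw [Finset.sum_eq_single e0]
    · rw [if_pos rfl, one_mul]; rfl
    · intro b _ hb; rw [if_neg hb, zero_mul]
    · simp
  unfold Cm
  rw [Matrix.submatrix_apply, hs, Matrix.mul_assoc, Matrix.mul_apply]
  simp only [h1]
  rw [← Matrix.mul_apply, Omi_mul_Om, ← hs]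
  simp only [Matrix.one_apply, EmbeddingLike.apply_eq_iff_eq]

variable (ρ e0)

noncomputable def gam (a : Matrix (Fin n) (Fin n) O) (χi : O) : Matrix (Fin m) (Fin m) O :=
  (Cm ρ e0 ε a χi).toBlocks₂₂

noncomputable def bet (a : Matrix (Fin n) (Fin n) O) (χi : O) : Matrix Unit (Fin m) O :=
  (Cm ρ e0 ε a χi).toBlocks₁₂

lemma gam_map (φ : O →ₐ[k] O') (x : Matrix (Fin n) (Fin n) O) (t : O) :
    (gam ρ e0 ε x t).map φ = gam ρ e0 ε (x.map φ) (φ t) := by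
  unfold gam
  rw [← Cm_map]
  rfl

lemma bet_map (φ : O →ₐ[k] O') (x : Matrix (Fin n) (Fin n) O) (t : O) :
    (bet ρ e0 ε x t).map φ = bet ρ e0 ε (x.map φ) (φ t) := by
  unfold bet
  rw [← Cm_map]
  rfl

variable {ρ e0}

lemma Good.Cm_blocks {a ai : Matrix (Fin n) (Fin n) O} {χ χi : O} (hg : Good ρ e0 a ai χ χi)
    (hε : ε (cl e0) = Sum.inl ()) :
    Cm ρ e0 ε a χi = Matrix.fromBlocks 1 (bet ρ e0 ε a χi) 0 (gam ρ e0 ε a χi) := by
  ext (u | i) (u' | j)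
  · rw [hg.Cm_col ε hε]; simp
  · rfl
  · rw [hg.Cm_col ε hε]; simp
  · rfl

lemma Good.gam_mul {a ai b bi c : Matrix (Fin n) (Fin n) O} {χ χi ψ ψi ωi : O}
    (hg : Good ρ e0 a ai χ χi) (hh : Good ρ e0 b bi ψ ψi) (hε : ε (cl e0) = Sum.inl ())
    (hc : c = a * b) (hω : ωi = χi * ψi) {ci : Matrix (Fin n) (Fin n) O} {ω : O}
    (hgh : Good ρ e0 c ci ω ωi) :
    gam ρ e0 ε c ωi = gam ρ e0 ε a χi * gam ρ e0 ε b ψi ∧
    bet ρ e0 ε c ωi = bet ρ e0 ε b ψi + bet ρ e0 ε a χi * gam ρ e0 ε b ψi := by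
  have h := Cm_mul ρ e0 ε a b χi ψi (PRep.isUnit_det_of_mul_eq_one hg.inv).1
    (PRep.isUnit_det_of_mul_eq_one hh.inv).1
  rw [← hc, ← hω, hgh.Cm_blocks ε hε, hg.Cm_blocks ε hε, hh.Cm_blocks ε hε,
    Matrix.fromBlocks_multiply, Matrix.fromBlocks_inj] at h
  obtain ⟨_, h2, _, h4⟩ := h
  constructor
  · rw [h4]; simp
  · rw [h2]; simp

lemma Good.gam_inv {a ai : Matrix (Fin n) (Fin n) O} {χ χi : O}
    (hg : Good ρ e0 a ai χ χi) (hε : ε (cl e0) = Sum.inl ()) :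
    gam ρ e0 ε a χi * gam ρ e0 ε ai χ = 1 := by
  have h := Cm_inv ρ e0 ε a ai χ χi hg.inv hg.chi
  rw [hg.Cm_blocks ε hε] at h
  have h2 : Cm ρ e0 ε ai χ = Matrix.fromBlocks (Cm ρ e0 ε ai χ).toBlocks₁₁ (bet ρ e0 ε ai χ)
    (Cm ρ e0 ε ai χ).toBlocks₂₁ (gam ρ e0 ε ai χ) := (Matrix.fromBlocks_toBlocks _).symm
  rw [h2, Matrix.fromBlocks_multiply, ← Matrix.fromBlocks_one, Matrix.fromBlocks_inj] at h
  have := h.2.2.2
  simpa using this

end RC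

end Pool.Agent.LN
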