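import Pool.Agent.Helper208_LN.CocA

set_option autoImplicit false
set_option linter.unusedSectionVars false
set_option linter.style.haveILetI false

namespace Pool.Agent.LN
open Matrix Finset
open scoped TensorProduct Kronecker

section finish
variable {R A : Type} [CommRing R] [CommRing A] [HopfAlgebra R A]
variable {N : Type} [Fintype N] [DecidableEq N]

lemma finish {c ci : Matrix N N A} (hc : c * ci = 1)
    (hcom : c.map (Bialgebra.comulAlgHom R A) = c.map (iL : A →ₐ[R] A ⊗[R] A) *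
      c.map (iR : A →ₐ[R] A ⊗[R] A)) : GrpL R c := by
  have hcm : ∀ g h : A →ₐ[R] A, c.map (cm g h) = c.map g * c.map h := by
    intro g h
    have h1 := congrArg (fun M => M.map (lf g h)) hcom
    simp only [Matrix.map_mul] at h1
    have h3 : (c.map (iL : A →ₐ[R] A ⊗[R] A)).map (lf g h) = c.map g := by
      refine Matrix.ext fun i j => ?_
      simp only [Matrix.map_apply, Algebra.TensorProduct.includeLeft_apply, lf_tmul, map_one,
        mul_one]
    have h4 : (c.map (iR : A →ₐ[R] A ⊗[R] A)).map (lf g h) = c.map h := by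
      refine Matrix.ext fun i j => ?_
      simp only [Matrix.map_apply, Algebra.TensorProduct.includeRight_apply, lf_tmul, map_one,
        one_mul]
    rw [h3, h4] at h1
    exact h1
  constructor
  · intro i j
    have h1 := congrFun (congrFun hcom i) j
    rw [Matrix.mul_apply] at h1
    simp only [Matrix.map_apply, Algebra.TensorProduct.includeLeft_apply,
      Algebra.TensorProduct.includeRight_apply, Algebra.TensorProduct.tmul_mul_tmul, mul_one,
      one_mul] at h1
    exact h1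
  · intro i j
    have h1 := hcm one' (AlgHom.id R A)
    rw [one_cm] at h1
    have h2 : c.map (AlgHom.id R A) = c := Matrix.ext fun _ _ => rfl
    rw [h2] at h1
    have h3 : c.map (one' : A →ₐ[R] A) = 1 := by
      calc c.map (one' : A →ₐ[R] A) = c.map (one' : A →ₐ[R] A) * (c * ci) := by
            rw [hc, Matrix.mul_one]
        _ = (c.map (one' : A →ₐ[R] A) * c) * ci := by rw [Matrix.mul_assoc]
        _ = 1 := by rw [← h1, hc]
    have h4 := congrFun (congrFun h3 i) j
    rw [Matrix.map_apply] at h4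
    have h5 : (one' : A →ₐ[R] A) (c i j) = algebraMap R A (Coalgebra.counit (R := R) (c i j)) := rfl
    rw [h5] at h4
    have h6 := congrArg (Coalgebra.counit (R := R)) h4
    rw [Bialgebra.counit_algebraMap, Matrix.one_apply] at h6
    rw [h6]
    split_ifs
    · exact Bialgebra.counit_one
    · exact map_zero _

end finish

section red
variable {k R : Type} [Field k] [CommRing R] [Algebra k R] [Algebra R k] [IsScalarTower k R k]
variable {A : Type} [CommRing A] [HopfAlgebra R A] {ε : R}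
variable {N : Type} [Fintype N] [DecidableEq N]

lemma GrpL_red {c : Matrix N N A} (hc : GrpL R c) : GrpL k (c.map (pA k R A)) := by
  constructor
  · intro i j
    rw [Matrix.map_apply, comul_pA, hc.comul, map_sum]
    refine Finset.sum_congr rfl fun l _ => ?_
    rw [pAA_tmul]; rfl
  · intro i j
    rw [Matrix.map_apply, counit_pA, hc.counit]
    split_ifs
    · exact map_one _
    · exact map_zero _

lemma gen_of (h : DN k R ε) (c : Matrix N N A)
    (hgen : Algebra.adjoin k (Set.range (fun ij : N × N => pA k R A (c ij.1 ij.2)) ∪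
      Set.range (fun ij : N × N => HopfAlgebra.antipode k (pA k R A (c ij.1 ij.2)))) = ⊤) :
    Algebra.adjoin R (Set.range (fun ij : N × N => c ij.1 ij.2) ∪
      Set.range (fun ij : N × N => HopfAlgebra.antipode R (c ij.1 ij.2))) = ⊤ := by
  set B := Algebra.adjoin R (Set.range (fun ij : N × N => c ij.1 ij.2) ∪
      Set.range (fun ij : N × N => HopfAlgebra.antipode R (c ij.1 ij.2))) with hB
  have h1 : ∀ x : k ⊗[R] A, ∃ b ∈ B, pA k R A b = x := by
    intro x
    have hx : x ∈ Algebra.adjoin k (Set.range (fun ij : N × N => pA k R A (c ij.1 ij.2)) ∪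
      Set.range (fun ij : N × N => HopfAlgebra.antipode k (pA k R A (c ij.1 ij.2)))) := by
      rw [hgen]; trivial
    induction hx using Algebra.adjoin_induction with
    | mem x hx =>
      rcases hx with ⟨ij, rfl⟩ | ⟨ij, rfl⟩
      · exact ⟨c ij.1 ij.2, Algebra.subset_adjoin (Or.inl ⟨ij, rfl⟩), rfl⟩
      · exact ⟨HopfAlgebra.antipode R (c ij.1 ij.2), Algebra.subset_adjoin (Or.inr ⟨ij, rfl⟩),
          (antipode_pA _).symm⟩
    | algebraMap r =>
      obtain ⟨s, rfl⟩ := h.surj r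
      refine ⟨algebraMap R A s, B.algebraMap_mem s, ?_⟩
      rw [AlgHom.commutes]
      exact IsScalarTower.algebraMap_apply R k (k ⊗[R] A) s
    | add x y _ _ hx hy =>
      obtain ⟨b, hb, rfl⟩ := hx
      obtain ⟨b', hb', rfl⟩ := hy
      exact ⟨b + b', B.add_mem hb hb', map_add _ _ _⟩
    | mul x y _ _ hx hy =>
      obtain ⟨b, hb, rfl⟩ := hx
      obtain ⟨b', hb', rfl⟩ := hy
      exact ⟨b * b', B.mul_mem hb hb', map_mul _ _ _⟩
  have h2 : ∀ y : A, ∃ b ∈ B, ∃ w, y = b + ε • w := by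
    intro y
    obtain ⟨b, hb, hby⟩ := h1 (pA k R A y)
    obtain ⟨w, hw⟩ := pA_ker h (y - b) (by rw [map_sub, hby, sub_self])
    exact ⟨b, hb, w, by rw [← hw]; abel⟩
  rw [eq_top_iff]
  intro y _
  obtain ⟨b, hb, w, rfl⟩ := h2 y
  obtain ⟨b', hb', w', rfl⟩ := h2 w
  rw [smul_add, smul_smul, h.sq, zero_smul, add_zero]
  exact B.add_mem hb (B.smul_mem hb' _)

end red

section genL
variable {k : Type} [Field k] {n m q : ℕ} (Sx : SData k n q) (Sy : SData k m q)
variable {H : Type} [CommRing H] [HopfAlgebra k H]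

lemma gen_L (a ai : Matrix (Fin n) (Fin n) H) (b bi : Matrix (Fin m) (Fin m) H)
    (ha : a * ai = 1) (hb : b * bi = 1) (hL : GrpL k (Lm Sx Sy a b))
    (hgen : Algebra.adjoin k (Set.range fun ij : Fin n × Fin n => a ij.1 ij.2) = ⊤) :
    Algebra.adjoin k (Set.range (fun ij : (((Unit ⊕ Fin n) × Fin Sx.r) × Fin Sy.r) ×
        (((Unit ⊕ Fin n) × Fin Sx.r) × Fin Sy.r) => (Lm Sx Sy a b) ij.1 ij.2) ∪
      Set.range (fun ij : (((Unit ⊕ Fin n) × Fin Sx.r) × Fin Sy.r) ×
        (((Unit ⊕ Fin n) × Fin Sx.r) × Fin Sy.r) =>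
          HopfAlgebra.antipode k ((Lm Sx Sy a b) ij.1 ij.2))) = ⊤ := by
  have h1 : (Lm Sx Sy a b).map (inv' (AlgHom.id k H)) = Lm Sx Sy ai bi := by
    have h2 := hL.inv_mul (AlgHom.id k H)
    have h3 : (Lm Sx Sy a b).map (AlgHom.id k H) = Lm Sx Sy a b := Matrix.ext fun _ _ => rfl
    rw [h3] at h2
    calc _ = (Lm Sx Sy a b).map (inv' (AlgHom.id k H)) * (Lm Sx Sy a b * Lm Sx Sy ai bi) := by
          rw [Lm_inv' Sx Sy ha hb, Matrix.mul_one]
      _ = _ := by rw [← Matrix.mul_assoc, h2, Matrix.one_mul]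
  have h4 : ∀ i j, HopfAlgebra.antipode k ((Lm Sx Sy a b) i j) = (Lm Sx Sy ai bi) i j := by
    intro i j
    rw [← h1]; rfl
  rw [eq_top_iff, ← hgen]
  apply Algebra.adjoin_le
  rintro _ ⟨⟨i, j⟩, rfl⟩
  let u : Fin Sx.r := ⟨0, Sx.hr⟩
  let v : Fin Sy.r := ⟨0, Sy.hr⟩
  have h5 : a i j = ∑ u' : Fin Sx.r, ∑ v' : Fin Sy.r,
      (Lm Sx Sy a b) ((Sum.inr i, u), v) ((Sum.inr j, u'), v') *
        (Lm Sx Sy ai bi) ((Sum.inl (), u'), v') ((Sum.inl (), u), v) := by
    rw [Lm_expand', Lm_expand', PRep.oneId_ev, PRep.oneId_ev]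
    simp only [Matrix.kroneckerMap_apply, Matrix.fromBlocks_apply₂₂, Matrix.fromBlocks_apply₁₁,
      Matrix.one_apply_eq, one_mul]
    have h6 := congrFun (congrFun (PRep.ev_mul_inv Sx.ρ ha) u) u
    have h7 := congrFun (congrFun (PRep.ev_mul_inv Sy.ρ hb) v) v
    rw [Matrix.mul_apply, Matrix.one_apply_eq] at h6 h7
    have h8 : ∀ u' v', a i j * (Sx.ρ.ev a) u u' * (Sy.ρ.ev b) v v' *
        ((Sx.ρ.ev ai) u' u * (Sy.ρ.ev bi) v' v) =
        a i j * (((Sx.ρ.ev a) u u' * (Sx.ρ.ev ai) u' u) * ((Sy.ρ.ev b) v v' * (Sy.ρ.ev bi) v' v)) := by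
      intro u' v'; ring
    simp only [h8, ← Finset.mul_sum, h7, mul_one, h6]
  refine (congrArg (· ∈ Algebra.adjoin k (Set.range (fun ij : (((Unit ⊕ Fin n) × Fin Sx.r) × Fin Sy.r) ×
        (((Unit ⊕ Fin n) × Fin Sx.r) × Fin Sy.r) => (Lm Sx Sy a b) ij.1 ij.2) ∪
      Set.range (fun ij : (((Unit ⊕ Fin n) × Fin Sx.r) × Fin Sy.r) ×
        (((Unit ⊕ Fin n) × Fin Sx.r) × Fin Sy.r) =>
          HopfAlgebra.antipode k ((Lm Sx Sy a b) ij.1 ij.2)))) h5).mpr ?_
  refine Subalgebra.sum_mem _ fun u' _ => Subalgebra.sum_mem _ fun v' _ => Subalgebra.mul_mem _ ?_ ?_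
  · exact Algebra.subset_adjoin (Or.inl ⟨(_, _), rfl⟩)
  · exact Algebra.subset_adjoin (Or.inr ⟨(_, _), h4 _ _⟩)

end genL

end Pool.Agent.LN
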