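import Mathlib

set_option autoImplicit false
set_option linter.unusedSectionVars false
set_option linter.style.haveILetI false

namespace Pool.Agent.LN
open Finset
open scoped TensorProduct

section li
variable {k : Type} [Field k] {H C : Type} [AddCommGroup H] [Module k H] [AddCommGroup C] [Module k C]
variable {E : Type} [Fintype E] [DecidableEq E]

/-- dual functionals to a linearly independent family -/
lemma exists_dual (e : E → H) (he : LinearIndependent k e) :
    ∃ φ : E → (H →ₗ[k] k), ∀ b b', φ b (e b') = if b = b' then 1 else 0 := by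
  let f : (E → k) →ₗ[k] H := Fintype.linearCombination k e
  have hf : LinearMap.ker f = ⊥ := by
    rw [LinearMap.ker_eq_bot']
    intro c hc
    have := Fintype.linearIndependent_iff.1 he c (by simpa [f, Fintype.linearCombination_apply] using hc)
    exact funext this
  obtain ⟨r, hr⟩ := LinearMap.exists_leftInverse_of_injective f hf
  refine ⟨fun b => (LinearMap.proj b).comp r, fun b b' => ?_⟩
  have h1 : f (Pi.single b' 1) = e b' := by
    simp [f, Fintype.linearCombination_apply, Pi.single_apply]
  rw [LinearMap.comp_apply, ← h1, ← LinearMap.comp_apply r f, hr]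
  simp [Pi.single_apply]

lemma li_coeff (e : E → H) (he : LinearIndependent k e) (h : E → C)
    (h0 : ∑ b, e b ⊗ₜ[k] h b = 0) (b : E) : h b = 0 := by
  obtain ⟨φ, hφ⟩ := exists_dual e he
  have h1 := congrArg (fun z => TensorProduct.lid k C ((φ b).rTensor C z)) h0
  simp only [map_sum, LinearMap.rTensor_tmul, TensorProduct.lid_tmul, hφ, map_zero] at h1
  simpa using h1

end li

section lf
variable {k : Type} [Field k] {H : Type} [CommRing H] [HopfAlgebra k H]

/-- Local finiteness: finitely many elements lie in a finite dimensional right subcomodule. -/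
theorem local_finite (s : Finset H) : ∃ (V : Submodule k H), V.FG ∧ (s : Set H) ⊆ V ∧
    ∀ v ∈ V, Coalgebra.comul (R := k) v ∈ LinearMap.range (TensorProduct.map V.subtype (LinearMap.id (R := k) (M := H))) := by
  classical
  let b := Module.Free.chooseBasis k H
  let Xc : Module.Free.ChooseBasisIndex k H → (H ⊗[k] H →ₗ[k] H) := fun l =>
    (TensorProduct.rid k H).toLinearMap ∘ₗ (b.coord l).lTensor H
  have hXc : ∀ l z, Xc l z = TensorProduct.equivFinsuppOfBasisRight b z l := by
    intro l z
    rw [TensorProduct.equivFinsuppOfBasisRight_apply]; rfl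
  have hrec : ∀ z : H ⊗[k] H, z = ∑ l ∈ (TensorProduct.equivFinsuppOfBasisRight b z).support,
      Xc l z ⊗ₜ b l := by
    intro z
    conv_lhs => rw [← (TensorProduct.equivFinsuppOfBasisRight b).symm_apply_apply z]
    rw [TensorProduct.equivFinsuppOfBasisRight_symm_apply, Finsupp.sum]
    exact Finset.sum_congr rfl fun l _ => by rw [hXc]
  let S : Set H := ⋃ h ∈ s, ⋃ l ∈ (TensorProduct.equivFinsuppOfBasisRight b
    (Coalgebra.comul (R := k) h)).support, {Xc l (Coalgebra.comul (R := k) h)}
  let V : Submodule k H := Submodule.span k S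
  have hmem : ∀ h ∈ s, ∀ l, Xc l (Coalgebra.comul (R := k) h) ∈ V := by
    intro h hh l
    by_cases hl : l ∈ (TensorProduct.equivFinsuppOfBasisRight b (Coalgebra.comul (R := k) h)).support
    · apply Submodule.subset_span
      simp only [S, Set.mem_iUnion]
      exact ⟨h, hh, l, hl, rfl⟩
    · rw [hXc, Finsupp.notMem_support_iff.1 hl]
      exact V.zero_mem
  refine ⟨V, ?_, ?_, ?_⟩
  · apply Submodule.fg_span
    apply Set.Finite.biUnion s.finite_toSet
    intro h _
    apply Set.Finite.biUnion (Finset.finite_toSet _)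
    intro l _
    exact Set.finite_singleton _
  · intro h hh
    have h1 : (TensorProduct.rid k H) ((Coalgebra.counit (R := k)).lTensor H (Coalgebra.comul (R := k) h)) = h := by
      rw [Coalgebra.lTensor_counit_comul]; simp
    rw [← h1, SetLike.mem_coe, hrec (Coalgebra.comul (R := k) h)]
    rw [map_sum, map_sum]
    apply Submodule.sum_mem
    intro l _
    rw [LinearMap.lTensor_tmul, TensorProduct.rid_tmul]
    exact V.smul_mem _ (hmem h hh l)
  · intro v hv
    refine Submodule.span_induction (p := fun v _ => Coalgebra.comul (R := k) v ∈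
      LinearMap.range (TensorProduct.map V.subtype (LinearMap.id (R := k) (M := H)))) ?_ ?_ ?_ ?_ hv
    · intro v hvS
      simp only [S, Set.mem_iUnion] at hvS
      obtain ⟨h, hh, l, hl, rfl⟩ := hvS
      -- coassociativity
      have hco := Coalgebra.coassoc_apply (R := k) h
      let Y : H ⊗[k] (H ⊗[k] H) →ₗ[k] H ⊗[k] H := (Xc l).lTensor H
      have h2 := congrArg Y hco
      have h3 : ∀ z : H ⊗[k] H, Y (TensorProduct.assoc k H H H ((Coalgebra.comul (R := k)).rTensor H z)) =
          Coalgebra.comul (R := k) (Xc l z) := by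
        intro z
        induction z with
        | zero => simp
        | add x y hx hy => rw [map_add, map_add, map_add, hx, hy, map_add, map_add]
        | tmul x y =>
          rw [LinearMap.rTensor_tmul]
          have hy : Xc l (x ⊗ₜ y) = b.coord l y • x := by
            simp [Xc]
          rw [hy, map_smul]
          generalize Coalgebra.comul (R := k) x = w
          induction w with
          | zero => simp
          | add x y hx hy => rw [TensorProduct.add_tmul, map_add, map_add, hx, hy, smul_add]
          | tmul u v =>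
            rw [TensorProduct.assoc_tmul, LinearMap.lTensor_tmul]
            have : Xc l (v ⊗ₜ y) = b.coord l y • v := by simp [Xc]
            rw [this, TensorProduct.tmul_smul]
      rw [h3] at h2
      rw [h2, hrec (Coalgebra.comul (R := k) h)]
      rw [map_sum, map_sum]
      apply Submodule.sum_mem
      intro ν _
      rw [LinearMap.lTensor_tmul, LinearMap.lTensor_tmul]
      exact ⟨(⟨_, hmem h hh ν⟩ : V) ⊗ₜ (Xc l) (Coalgebra.comul (R := k) (b ν)), by simp⟩
    · rw [map_zero]; exact Submodule.zero_mem _
    · intro x y _ _ hx hy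
      rw [map_add]; exact Submodule.add_mem _ hx hy
    · intro c x _ hx
      rw [map_smul]; exact Submodule.smul_mem _ _ hx

/-- existence of a group-like matrix with generating entries -/
theorem exists_grouplike [Algebra.FiniteType k H] : ∃ (n : ℕ) (_ : 1 ≤ n) (a : Matrix (Fin n) (Fin n) H),
    (∀ i j, Coalgebra.comul (R := k) (a i j) = ∑ l, a i l ⊗ₜ[k] a l j) ∧
    (∀ i j, Coalgebra.counit (R := k) (a i j) = if i = j then 1 else 0) ∧
    Algebra.adjoin k (Set.range fun ij : Fin n × Fin n => a ij.1 ij.2) = ⊤ := by
  classical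
  obtain ⟨s, hs⟩ := (inferInstance : Algebra.FiniteType k H).out
  obtain ⟨V, hVfg, hsV, hV⟩ := local_finite (k := k) (insert (1 : H) s)
  haveI : Module.Finite k V := Module.Finite.iff_fg.2 hVfg
  let n := Module.finrank k V
  let bV : Module.Basis (Fin n) k V := Module.finBasis k V
  let e : Fin n → H := fun i => (bV i : H)
  have he : LinearIndependent k e := by
    have := bV.linearIndependent.map' V.subtype (Submodule.ker_subtype V)
    exact this
  have hspan : ∀ v ∈ V, ∃ c : Fin n → k, v = ∑ i, c i • e i := by
    intro v hv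
    refine ⟨fun i => bV.repr ⟨v, hv⟩ i, ?_⟩
    have := bV.sum_repr ⟨v, hv⟩
    have h2 := congrArg (fun z : V => (z : H)) this
    simp only [Submodule.coe_sum, Submodule.coe_smul] at h2
    exact h2.symm
  have hc : ∀ j, ∃ c : Fin n → H, Coalgebra.comul (R := k) (e j) = ∑ i, e i ⊗ₜ[k] c i := by
    intro j
    obtain ⟨z, hz⟩ := hV (e j) (bV j).2
    refine ⟨fun i => TensorProduct.equivFinsuppOfBasisLeft bV z i, ?_⟩
    rw [← hz]
    conv_lhs => rw [← (TensorProduct.equivFinsuppOfBasisLeft bV).symm_apply_apply z]
    rw [TensorProduct.equivFinsuppOfBasisLeft_symm_apply, Finsupp.sum_fintype _ _ (by simp), map_sum]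
    rfl
  choose c' hc' using hc
  let a : Matrix (Fin n) (Fin n) H := Matrix.of fun i j => c' j i
  have ha : ∀ j, Coalgebra.comul (R := k) (e j) = ∑ i, e i ⊗ₜ[k] a i j := hc'
  have hn : 1 ≤ n := by
    rcases Nat.eq_zero_or_pos n with h | h
    · exfalso
      have h1 : (1 : H) ∈ V := hsV (by simp)
      obtain ⟨c, hc⟩ := hspan 1 h1
      haveI : IsEmpty (Fin n) := by rw [h]; infer_instance
      have h2 : (1 : H) = 0 := by rw [hc]; simp
      have h3 := congrArg (Coalgebra.counit (R := k)) h2
      rw [Bialgebra.counit_one, map_zero] at h3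
      exact one_ne_zero h3
    · exact h
  have hcomul : ∀ i j, Coalgebra.comul (R := k) (a i j) = ∑ l, a i l ⊗ₜ[k] a l j := by
    intro i j
    rw [← sub_eq_zero]
    have hco := Coalgebra.coassoc_apply (R := k) (e j)
    rw [ha j, map_sum, map_sum, map_sum] at hco
    have h1 : ∀ l, TensorProduct.assoc k H H H ((Coalgebra.comul (R := k)).rTensor H (e l ⊗ₜ[k] a l j)) =
        ∑ i, e i ⊗ₜ[k] (a i l ⊗ₜ[k] a l j) := by
      intro l
      rw [LinearMap.rTensor_tmul, ha l, TensorProduct.sum_tmul, map_sum]
      rfl
    simp only [h1, LinearMap.lTensor_tmul] at hco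
    rw [Finset.sum_comm] at hco
    have h2 : ∑ i, e i ⊗ₜ[k] (Coalgebra.comul (R := k) (a i j) - ∑ l, a i l ⊗ₜ[k] a l j) = 0 := by
      simp only [TensorProduct.tmul_sub, Finset.sum_sub_distrib, TensorProduct.tmul_sum]
      rw [hco, sub_self]
    exact li_coeff e he _ h2 i
  have hcounit : ∀ i j, Coalgebra.counit (R := k) (a i j) = if i = j then 1 else 0 := by
    intro i j
    have h1 := Coalgebra.lTensor_counit_comul (R := k) (e j)
    rw [ha j, map_sum] at h1
    simp only [LinearMap.lTensor_tmul] at h1
    have h2 : ∑ i, e i ⊗ₜ[k] (Coalgebra.counit (R := k) (a i j) - if i = j then (1:k) else 0) = 0 := by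
      simp only [TensorProduct.tmul_sub, Finset.sum_sub_distrib]
      rw [h1, sub_eq_zero, Finset.sum_eq_single j]
      · simp
      · intro b _ hb; rw [if_neg hb, TensorProduct.tmul_zero]
      · simp
    exact sub_eq_zero.1 (li_coeff e he _ h2 i)
  refine ⟨n, hn, a, hcomul, hcounit, ?_⟩
  rw [eq_top_iff, ← hs]
  apply Algebra.adjoin_le
  intro x hx
  have hxV : x ∈ V := hsV (by simp at hx ⊢; exact Or.inr hx)
  obtain ⟨c, rfl⟩ := hspan x hxV
  refine Subalgebra.sum_mem _ fun j _ => Subalgebra.smul_mem _ ?_ _
  have h1 := Coalgebra.rTensor_counit_comul (R := k) (e j)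
  rw [ha j, map_sum] at h1
  simp only [LinearMap.rTensor_tmul] at h1
  have h2 := congrArg (TensorProduct.lid k H) h1
  simp only [map_sum, TensorProduct.lid_tmul, one_smul] at h2
  rw [← h2]
  refine Subalgebra.sum_mem _ fun i _ => Subalgebra.smul_mem _ ?_ _
  exact Algebra.subset_adjoin ⟨(i, j), rfl⟩

end lf

end Pool.Agent.LN
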