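import Pool.Agent.Helper208_LN.Conv5
import Pool.Agent.Helper208_LN.Hopf1

set_option autoImplicit false
set_option linter.unusedSectionVars false
set_option linter.style.haveILetI false

namespace Pool.Agent.LN
open Matrix Finset
open scoped TensorProduct

section points
variable {k : Type} [CommRing k] {H : Type} [CommRing H] [HopfAlgebra k H]
variable {C C' : Type} [CommRing C] [Algebra k C] [CommRing C'] [Algebra k C']

/-- lift of two points -/
noncomputable def lf (g h : H →ₐ[k] C) : H ⊗[k] H →ₐ[k] C :=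
  Algebra.TensorProduct.lift g h (fun _ _ => Commute.all _ _)

@[simp] lemma lf_tmul (g h : H →ₐ[k] C) (x y : H) : lf g h (x ⊗ₜ y) = g x * h y := by
  simp [lf]

/-- product of points -/
noncomputable def cm (g h : H →ₐ[k] C) : H →ₐ[k] C := (lf g h).comp (Bialgebra.comulAlgHom k H)

lemma cm_apply (g h : H →ₐ[k] C) (x : H) : cm g h x = lf g h (Coalgebra.comul (R := k) x) := rfl

lemma cm_eq (g h : H →ₐ[k] C) : cm g h = (WithConv.toConv g * WithConv.toConv h).ofConv := by
  ext x
  have := AlgHom.convMul_apply (WithConv.toConv g) (WithConv.toConv h) x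
  exact this.symm

lemma cm_assoc (g h l : H →ₐ[k] C) : cm (cm g h) l = cm g (cm h l) := by
  rw [cm_eq, cm_eq, cm_eq, cm_eq]
  simp only [WithConv.toConv_ofConv]
  rw [mul_assoc]

noncomputable def one' : H →ₐ[k] C := (Algebra.ofId k C).comp (Bialgebra.counitAlgHom k H)

noncomputable def inv' (g : H →ₐ[k] C) : H →ₐ[k] C := g.comp (HopfAlgebra.antipodeAlgHom k H)

lemma cm_inv (g : H →ₐ[k] C) : cm g (inv' g) = one' := by
  ext x
  have h := HopfAlgebra.mul_antipode_lTensor_comul_apply (R := k) x
  have h1 : ∀ z : H ⊗[k] H, lf g (inv' g) z =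
      g (LinearMap.mul' k H ((HopfAlgebra.antipode k).lTensor H z)) := by
    intro z
    induction z with
    | zero => simp
    | add x y hx hy => rw [map_add, map_add, map_add, map_add, hx, hy]
    | tmul x y => simp [inv']
  rw [cm_apply, h1, h]
  simp [one', Algebra.ofId_apply]

lemma inv_cm (g : H →ₐ[k] C) : cm (inv' g) g = one' := by
  ext x
  have h := HopfAlgebra.mul_antipode_rTensor_comul_apply (R := k) x
  have h1 : ∀ z : H ⊗[k] H, lf (inv' g) g z =
      g (LinearMap.mul' k H ((HopfAlgebra.antipode k).rTensor H z)) := by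
    intro z
    induction z with
    | zero => simp
    | add x y hx hy => rw [map_add, map_add, map_add, map_add, hx, hy]
    | tmul x y => simp [inv']
  rw [cm_apply, h1, h]
  simp [one', Algebra.ofId_apply]

lemma one_cm (g : H →ₐ[k] C) : cm one' g = g := by
  rw [cm_eq]
  have : WithConv.toConv (one' : H →ₐ[k] C) = 1 := rfl
  rw [this, one_mul]

lemma cm_one (g : H →ₐ[k] C) : cm g one' = g := by
  rw [cm_eq]
  have : WithConv.toConv (one' : H →ₐ[k] C) = 1 := rfl
  rw [this, mul_one]

lemma comp_lf (φ : C →ₐ[k] C') (g h : H →ₐ[k] C) : φ.comp (lf g h) = lf (φ.comp g) (φ.comp h) := by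
  apply Algebra.TensorProduct.ext'
  intro a b
  simp

lemma comp_cm (φ : C →ₐ[k] C') (g h : H →ₐ[k] C) : φ.comp (cm g h) = cm (φ.comp g) (φ.comp h) := by
  unfold cm
  rw [← AlgHom.comp_assoc, comp_lf]

lemma comp_inv (φ : C →ₐ[k] C') (g : H →ₐ[k] C) : φ.comp (inv' g) = inv' (φ.comp g) := rfl

abbrev iL : H →ₐ[k] H ⊗[k] C := Algebra.TensorProduct.includeLeft

abbrev iR : C →ₐ[k] H ⊗[k] C := Algebra.TensorProduct.includeRight

lemma lf_id : lf (iL : H →ₐ[k] H ⊗[k] H) iR = AlgHom.id k (H ⊗[k] H) := by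
  apply Algebra.TensorProduct.ext'
  intro a b
  simp

lemma cm_id : cm (iL : H →ₐ[k] H ⊗[k] H) iR = Bialgebra.comulAlgHom k H := by
  unfold cm
  rw [lf_id]
  rfl

end points

section grouplike
variable {k : Type} [CommRing k] {H : Type} [CommRing H] [HopfAlgebra k H]
variable {C C' : Type} [CommRing C] [Algebra k C] [CommRing C'] [Algebra k C'] {n : Type}
  [Fintype n] [DecidableEq n]

/-- group-like matrices -/
structure GrpL (k : Type) [CommRing k] {H : Type} [CommRing H] [HopfAlgebra k H] {n : Type}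
    [Fintype n] [DecidableEq n] (a : Matrix n n H) : Prop where
  comul : ∀ i j, Coalgebra.comul (R := k) (a i j) = ∑ l, a i l ⊗ₜ[k] a l j
  counit : ∀ i j, Coalgebra.counit (R := k) (a i j) = if i = j then 1 else 0

variable {a : Matrix n n H} (ha : GrpL k a)
include ha

lemma GrpL.map_cm (g h : H →ₐ[k] C) : a.map (cm g h) = a.map g * a.map h := by
  ext i j
  rw [Matrix.map_apply, cm_apply, ha.comul, map_sum, Matrix.mul_apply]
  simp

lemma GrpL.map_one' : a.map (one' : H →ₐ[k] C) = 1 := by
  ext i j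
  simp [one', ha.counit, Matrix.one_apply, Algebra.ofId_apply, apply_ite (algebraMap k C)]

lemma GrpL.mul_inv (g : H →ₐ[k] C) : a.map g * a.map (inv' g) = 1 := by
  rw [← ha.map_cm, cm_inv, ha.map_one']

lemma GrpL.inv_mul (g : H →ₐ[k] C) : a.map (inv' g) * a.map g = 1 := by
  rw [← ha.map_cm, inv_cm, ha.map_one']

end grouplike

end Pool.Agent.LN
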