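import Pool.Agent.Helper208_LN.Hopf2

set_option autoImplicit false
set_option linter.unusedSectionVars false
set_option linter.style.haveILetI false

namespace Pool.Agent.LN
open Matrix Finset
open scoped TensorProduct

section words
variable {k : Type} [Field k] {n : ℕ} {C C' : Type} [CommRing C] [CommRing C']

abbrev LL (n : ℕ) : Type := Unit ⊕ (Fin n × Fin n)

def ell (y : Matrix (Fin n) (Fin n) C) : LL n → C := Sum.elim (fun _ => 1) (fun ij => y ij.1 ij.2)

def NL (g : Matrix (Fin n) (Fin n) C) : Matrix (LL n) (LL n) C :=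
  Matrix.fromBlocks 1 0 0 (Matrix.kroneckerMap (· * ·) 1 g)

lemma ell_mul (y g : Matrix (Fin n) (Fin n) C) : ell (y * g) = ell y ᵥ* NL g := by
  ext (u | ⟨i, j⟩)
  · simp [ell, NL, vecMul, dotProduct]
  · simp only [ell, Sum.elim_inr, NL, vecMul, dotProduct, Fintype.sum_sum_type,
      Matrix.fromBlocks_apply₁₂, Matrix.fromBlocks_apply₂₂, Matrix.zero_apply, mul_zero,
      Finset.sum_const_zero, zero_add, Matrix.kroneckerMap_apply, Matrix.mul_apply]
    rw [Fintype.sum_prod_type]
    refine Eq.trans ?_ (Finset.sum_eq_single_of_mem i (Finset.mem_univ i) ?_).symm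
    · simp
    · intro b _ hb
      simp [Matrix.one_apply_ne hb]

lemma NL_mul (g h : Matrix (Fin n) (Fin n) C) : NL (g * h) = NL g * NL h := by
  unfold NL
  rw [Matrix.fromBlocks_multiply]
  have := Matrix.mul_kronecker_mul (1 : Matrix (Fin n) (Fin n) C) (1 : Matrix (Fin n) (Fin n) C) g h
  simp only [Matrix.mul_one, Matrix.mul_zero, Matrix.zero_mul, add_zero, zero_add] at this ⊢
  rw [this]

lemma NL_one : NL (1 : Matrix (Fin n) (Fin n) C) = 1 := by
  unfold NL
  have := Matrix.one_kronecker_one (α := C) (m := Fin n) (n := Fin n)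
  rw [show (Matrix.kroneckerMap (· * ·) (1 : Matrix (Fin n) (Fin n) C) (1 : Matrix (Fin n) (Fin n) C)) = 1 from this]
  exact Matrix.fromBlocks_one

lemma NL_map (f : C →+* C') (g : Matrix (Fin n) (Fin n) C) : (NL g).map f = NL (g.map f) := by
  ext (u | ⟨i, j⟩) (u' | ⟨i', j'⟩) <;> simp [NL, Matrix.one_apply, apply_ite f]

abbrev WD (D n : ℕ) : Type := Fin D → LL n

def mon (D : ℕ) (y : Matrix (Fin n) (Fin n) C) : WD D n → C := tv (fun _ => ell y)

lemma mon_apply (D : ℕ) (y : Matrix (Fin n) (Fin n) C) (w : WD D n) :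
    mon D y w = ∏ i, ell y (w i) := rfl

lemma mon_mul (D : ℕ) (y g : Matrix (Fin n) (Fin n) C) :
    mon D (y * g) = mon D y ᵥ* tp (Fin D) (NL g) := by
  unfold mon
  rw [ell_mul]
  exact tv_vecMul _ _

lemma mon_map (f : C →+* C') (D : ℕ) (y : Matrix (Fin n) (Fin n) C) (w : WD D n) :
    mon D (y.map f) w = f (mon D y w) := by
  simp only [mon_apply, map_prod]
  refine Finset.prod_congr rfl fun i _ => ?_
  rcases w i with u | ij <;> simp [ell]

noncomputable def wrep (k : Type) [Field k] (D n : ℕ) : PRep k n (WD D n) where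
  M := tp (Fin D) (NL (gX n k))
  mul' := by
    intro C _ _ g h _ _
    have key : ∀ g : Matrix (Fin n) (Fin n) C, evM (tp (Fin D) (NL (gX n k))) g = tp (Fin D) (NL g) := by
      intro g
      have h1 := tp_map (P := Fin D) (MvPolynomial.aeval (R := k) (fun ij : Fin n × Fin n => g ij.1 ij.2) :
        MvPolynomial (Fin n × Fin n) k →+* C) (NL (gX n k))
      have h2 : (gX n k).map (MvPolynomial.aeval (R := k) (fun ij : Fin n × Fin n => g ij.1 ij.2) :
        MvPolynomial (Fin n × Fin n) k →+* C) = g := by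
        ext i j; simp [gX]
      rw [NL_map, h2] at h1
      exact h1
    rw [key, key, key, NL_mul, tp_mul]
  one' := by
    intro C _ _
    have h1 := tp_map (P := Fin D) (MvPolynomial.aeval (R := k) (fun ij : Fin n × Fin n =>
      (1 : Matrix (Fin n) (Fin n) C) ij.1 ij.2) :
        MvPolynomial (Fin n × Fin n) k →+* C) (NL (gX n k))
    have h2 : (gX n k).map (MvPolynomial.aeval (R := k) (fun ij : Fin n × Fin n =>
      (1 : Matrix (Fin n) (Fin n) C) ij.1 ij.2) : MvPolynomial (Fin n × Fin n) k →+* C) = 1 := by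
      ext i j; simp [gX]
    rw [NL_map, h2, NL_one, tp_one] at h1
    exact h1

lemma wrep_ev [Algebra k C] (D : ℕ) (g : Matrix (Fin n) (Fin n) C) :
    (wrep k D n).ev g = tp (Fin D) (NL g) := by
  have h1 := tp_map (P := Fin D) (MvPolynomial.aeval (R := k) (fun ij : Fin n × Fin n => g ij.1 ij.2) :
        MvPolynomial (Fin n × Fin n) k →+* C) (NL (gX n k))
  have h2 : (gX n k).map (MvPolynomial.aeval (R := k) (fun ij : Fin n × Fin n => g ij.1 ij.2) :
        MvPolynomial (Fin n × Fin n) k →+* C) = g := by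
    ext i j; simp [gX]
  rw [NL_map, h2] at h1
  exact h1

/-- twist of a natural representation by a change of basis -/
noncomputable def PRep.tw {N N' : Type} [Fintype N] [DecidableEq N] [Fintype N'] [DecidableEq N']
    (ρ : PRep k n N) (σ : N' ≃ N) (A B : Matrix N' N' k) (hAB : A * B = 1) : PRep k n N' where
  M := B.map (MvPolynomial.C (σ := Fin n × Fin n)) * ρ.M.submatrix σ σ *
    A.map (MvPolynomial.C (σ := Fin n × Fin n))
  mul' := by
    intro C _ _ g h hg hh
    have key : ∀ g : Matrix (Fin n) (Fin n) C, evM (B.map (MvPolynomial.C (σ := Fin n × Fin n)) *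
        ρ.M.submatrix σ σ * A.map (MvPolynomial.C (σ := Fin n × Fin n))) g =
        B.map (algebraMap k C) * (ρ.ev g).submatrix σ σ * A.map (algebraMap k C) := by
      intro g
      rw [evM_mul, evM_mul, evM_C, evM_C]
      rfl
    have hAB' : A.map (algebraMap k C) * B.map (algebraMap k C) = 1 := by
      rw [← Matrix.map_mul, hAB]; exact Matrix.map_one _ (map_zero _) (map_one _)
    rw [key, key, key, ρ.ev_mul g h hg hh]
    have h1 : (ρ.ev g * ρ.ev h).submatrix σ σ = (ρ.ev g).submatrix σ σ * (ρ.ev h).submatrix σ σ :=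
      (Matrix.submatrix_mul_equiv _ _ _ _ _).symm
    rw [h1]
    calc _ = B.map (algebraMap k C) * (ρ.ev g).submatrix σ σ *
          (A.map (algebraMap k C) * B.map (algebraMap k C)) * (ρ.ev h).submatrix σ σ *
            A.map (algebraMap k C) := by rw [hAB', Matrix.mul_one]; simp only [Matrix.mul_assoc]
      _ = _ := by simp only [Matrix.mul_assoc]
  one' := by
    intro C _ _
    have hBA : B * A = 1 := mul_eq_one_comm.1 hAB
    have key : evM (B.map (MvPolynomial.C (σ := Fin n × Fin n)) *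
        ρ.M.submatrix σ σ * A.map (MvPolynomial.C (σ := Fin n × Fin n)))
          (1 : Matrix (Fin n) (Fin n) C) =
        B.map (algebraMap k C) * (ρ.ev (1 : Matrix (Fin n) (Fin n) C)).submatrix σ σ *
          A.map (algebraMap k C) := by
      rw [evM_mul, evM_mul, evM_C, evM_C]
      rfl
    rw [key, ρ.ev_one, Matrix.submatrix_one_equiv, Matrix.mul_one, ← Matrix.map_mul, hBA]
    exact Matrix.map_one _ (map_zero _) (map_one _)

lemma PRep.tw_ev {N N' : Type} [Fintype N] [DecidableEq N] [Fintype N'] [DecidableEq N']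
    (ρ : PRep k n N) (σ : N' ≃ N) (A B : Matrix N' N' k) (hAB : A * B = 1) [Algebra k C]
    (g : Matrix (Fin n) (Fin n) C) :
    (ρ.tw σ A B hAB).ev g = B.map (algebraMap k C) * (ρ.ev g).submatrix σ σ *
      A.map (algebraMap k C) := by
  show evM _ g = _
  unfold PRep.tw
  simp only
  rw [evM_mul, evM_mul, evM_C, evM_C]
  rfl

end words

section expansion
variable {k : Type} [Field k] {n : ℕ} {H : Type} [CommRing H] [Algebra k H]
variable (a : Matrix (Fin n) (Fin n) H)

/-- span of word monomials -/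
def VD (k : Type) [Field k] {n : ℕ} {H : Type} [CommRing H] [Algebra k H]
    (a : Matrix (Fin n) (Fin n) H) (D : ℕ) : Submodule k H := Submodule.span k (Set.range (mon D a))

lemma mon_append (D D' : ℕ) (w : WD D n) (w' : WD D' n) :
    mon (D + D') a (Fin.append w w') = mon D a w * mon D' a w' := by
  simp only [mon_apply, Fin.prod_univ_add, Fin.append_left, Fin.append_right]

lemma mon_none (D : ℕ) : mon D a (fun _ => Sum.inl ()) = 1 := by
  simp [mon_apply, ell]

lemma one_mem_VD (D : ℕ) : (1 : H) ∈ VD k a D :=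
  Submodule.subset_span ⟨fun _ => Sum.inl (), mon_none a D⟩

lemma VD_mul (D D' : ℕ) {x y : H} (hx : x ∈ VD k a D) (hy : y ∈ VD k a D') :
    x * y ∈ VD k a (D + D') := by
  have h : x * y ∈ VD k a D * VD k a D' := Submodule.mul_mem_mul hx hy
  unfold VD at h ⊢
  rw [Submodule.span_mul_span] at h
  refine Submodule.span_mono ?_ h
  rintro _ ⟨_, ⟨w, rfl⟩, _, ⟨w', rfl⟩, rfl⟩
  exact ⟨Fin.append w w', mon_append a D D' w w'⟩

lemma VD_mono {D D' : ℕ} (h : D ≤ D') {x : H} (hx : x ∈ VD k a D) : x ∈ VD k a D' := by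
  obtain ⟨j, rfl⟩ := Nat.exists_eq_add_of_le h
  have := VD_mul a D j hx (one_mem_VD a j)
  rwa [mul_one] at this

lemma VD_all (hgen : Algebra.adjoin k (Set.range fun ij : Fin n × Fin n => a ij.1 ij.2) = ⊤) (x : H) :
    ∃ D, x ∈ VD k a D := by
  have hx : x ∈ Algebra.adjoin k (Set.range fun ij : Fin n × Fin n => a ij.1 ij.2) := by
    rw [hgen]; trivial
  induction hx using Algebra.adjoin_induction with
  | mem x hx =>
    obtain ⟨⟨i, j⟩, rfl⟩ := hx
    refine ⟨1, Submodule.subset_span ⟨fun _ => Sum.inr (i, j), ?_⟩⟩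
    simp [mon_apply, ell]
  | algebraMap r =>
    refine ⟨0, ?_⟩
    rw [Algebra.algebraMap_eq_smul_one]
    exact Submodule.smul_mem _ _ (one_mem_VD a 0)
  | add x y _ _ hx hy =>
    obtain ⟨D, hD⟩ := hx
    obtain ⟨D', hD'⟩ := hy
    exact ⟨D + D', Submodule.add_mem _ (VD_mono a (by omega) hD) (VD_mono a (by omega) hD')⟩
  | mul x y _ _ hx hy =>
    obtain ⟨D, hD⟩ := hx
    obtain ⟨D', hD'⟩ := hy
    exact ⟨D + D', VD_mul a D D' hD hD'⟩

/-- tensors with left component in `V_D` -/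
def TD (k : Type) [Field k] {n : ℕ} {H : Type} [CommRing H] [Algebra k H]
    (a : Matrix (Fin n) (Fin n) H) (C : Type) [CommRing C] [Algebra k C] (D : ℕ) :
    Submodule k (H ⊗[k] C) := Submodule.span k {t | ∃ x ∈ VD k a D, ∃ c : C, t = x ⊗ₜ[k] c}

def TTD (k : Type) [Field k] {n : ℕ} {H : Type} [CommRing H] [Algebra k H]
    (a : Matrix (Fin n) (Fin n) H) (D : ℕ) :
    Submodule k (H ⊗[k] H) := Submodule.span k {t | ∃ x ∈ VD k a D, ∃ y ∈ VD k a D, t = x ⊗ₜ[k] y}

lemma TD_all (hgen : Algebra.adjoin k (Set.range fun ij : Fin n × Fin n => a ij.1 ij.2) = ⊤)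
    {C : Type} [CommRing C] [Algebra k C] (z : H ⊗[k] C) : ∃ D0, ∀ D ≥ D0, z ∈ TD k a C D := by
  induction z with
  | zero => exact ⟨0, fun D _ => Submodule.zero_mem _⟩
  | add x y hx hy =>
    obtain ⟨D, hD⟩ := hx
    obtain ⟨D', hD'⟩ := hy
    exact ⟨max D D', fun D'' h => Submodule.add_mem _ (hD _ (le_trans (le_max_left _ _) h))
      (hD' _ (le_trans (le_max_right _ _) h))⟩
  | tmul x c =>
    obtain ⟨D, hD⟩ := VD_all a hgen x
    exact ⟨D, fun D' h => Submodule.subset_span ⟨x, VD_mono a h hD, c, rfl⟩⟩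

lemma TTD_all (hgen : Algebra.adjoin k (Set.range fun ij : Fin n × Fin n => a ij.1 ij.2) = ⊤)
    (z : H ⊗[k] H) : ∃ D0, ∀ D ≥ D0, z ∈ TTD k a D := by
  induction z with
  | zero => exact ⟨0, fun D _ => Submodule.zero_mem _⟩
  | add x y hx hy =>
    obtain ⟨D, hD⟩ := hx
    obtain ⟨D', hD'⟩ := hy
    exact ⟨max D D', fun D'' h => Submodule.add_mem _ (hD _ (le_trans (le_max_left _ _) h))
      (hD' _ (le_trans (le_max_right _ _) h))⟩
  | tmul x y =>
    obtain ⟨D, hD⟩ := VD_all a hgen x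
    obtain ⟨D', hD'⟩ := VD_all a hgen y
    exact ⟨max D D', fun D'' h => Submodule.subset_span
      ⟨x, VD_mono a (le_trans (le_max_left _ _) h) hD, y,
        VD_mono a (le_trans (le_max_right _ _) h) hD', rfl⟩⟩

variable {E : Type} [Fintype E]

lemma mem_span_range_exists {e : E → H} {x : H} (hx : x ∈ Submodule.span k (Set.range e)) :
    ∃ c : E → k, x = ∑ b, c b • e b := by
  obtain ⟨c, hc⟩ := (Submodule.mem_span_range_iff_exists_fun k).1 hx
  exact ⟨c, hc.symm⟩

lemma TD_expand {C : Type} [CommRing C] [Algebra k C] (e : E → H) (D : ℕ)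
    (he : VD k a D ≤ Submodule.span k (Set.range e)) (z : H ⊗[k] C) (hz : z ∈ TD k a C D) :
    ∃ h : E → C, z = ∑ b, e b ⊗ₜ[k] h b := by
  refine Submodule.span_induction (p := fun z _ => ∃ h : E → C, z = ∑ b, e b ⊗ₜ[k] h b) ?_ ?_ ?_ ?_ hz
  · rintro _ ⟨x, hx, c, rfl⟩
    obtain ⟨c', rfl⟩ := mem_span_range_exists (he hx)
    refine ⟨fun b => c' b • c, ?_⟩
    rw [TensorProduct.sum_tmul]
    exact Finset.sum_congr rfl fun b _ => by rw [TensorProduct.smul_tmul]
  · exact ⟨fun _ => 0, by simp⟩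
  · rintro x y _ _ ⟨h, rfl⟩ ⟨h', rfl⟩
    exact ⟨fun b => h b + h' b, by simp [TensorProduct.tmul_add, Finset.sum_add_distrib]⟩
  · rintro r x _ ⟨h, rfl⟩
    exact ⟨fun b => r • h b, by simp [Finset.smul_sum]⟩

lemma TTD_expand (e : E → H) (D : ℕ)
    (he : VD k a D ≤ Submodule.span k (Set.range e)) (z : H ⊗[k] H) (hz : z ∈ TTD k a D) :
    ∃ h : E → E → k, z = ∑ b, ∑ b', h b b' • (e b ⊗ₜ[k] e b') := by
  refine Submodule.span_induction (p := fun z _ => ∃ h : E → E → k,
    z = ∑ b, ∑ b', h b b' • (e b ⊗ₜ[k] e b')) ?_ ?_ ?_ ?_ hz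
  · rintro _ ⟨x, hx, y, hy, rfl⟩
    obtain ⟨c, rfl⟩ := mem_span_range_exists (he hx)
    obtain ⟨c', rfl⟩ := mem_span_range_exists (he hy)
    refine ⟨fun b b' => c b * c' b', ?_⟩
    rw [TensorProduct.sum_tmul]
    refine Finset.sum_congr rfl fun b _ => ?_
    rw [TensorProduct.tmul_sum]
    refine Finset.sum_congr rfl fun b' _ => ?_
    rw [TensorProduct.smul_tmul_smul]
  · exact ⟨fun _ _ => 0, by simp⟩
  · rintro x y _ _ ⟨h, rfl⟩ ⟨h', rfl⟩
    exact ⟨fun b b' => h b b' + h' b b', by simp [add_smul, Finset.sum_add_distrib]⟩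
  · rintro r x _ ⟨h, rfl⟩
    exact ⟨fun b b' => r * h b b', by simp [Finset.smul_sum, mul_smul]⟩

end expansion

end Pool.Agent.LN
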