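import Pool.Agent.Helper208_LN.Hopf3

set_option autoImplicit false
set_option linter.unusedSectionVars false
set_option linter.style.haveILetI false

namespace Pool.Agent.LN
open Matrix Finset
open scoped TensorProduct

section rho
variable {k : Type} [Field k] {n : ℕ} {H : Type} [CommRing H] [HopfAlgebra k H]
variable {a : Matrix (Fin n) (Fin n) H}

lemma nontrivial_of_hopf (k : Type) [Field k] (H : Type) [CommRing H] [HopfAlgebra k H] :
    Nontrivial H := by
  refine ⟨⟨1, 0, fun h => ?_⟩⟩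
  have h3 := congrArg (Coalgebra.counit (R := k)) h
  rw [Bialgebra.counit_one, map_zero] at h3
  exact one_ne_zero h3

lemma exists_rho_aux (ha : GrpL k a) (D : ℕ) {Q E : Type} [Fintype Q] [DecidableEq Q] [Fintype E]
    [DecidableEq E] (σ : Q ⊕ E ≃ WD D n) (Λ : Q → E → k)
    (hΛ' : ∀ q, mon D a (σ (Sum.inl q)) = ∑ b, Λ q b • mon D a (σ (Sum.inr b))) :
    ∃ ρ : PRep k n (Q ⊕ E), 
      (∀ (C : Type) [CommRing C] [Algebra k C] (y g : H →ₐ[k] C),
        (∀ q, ∑ b, y (mon D a (σ (Sum.inr b))) * ρ.ev (a.map g) (Sum.inr b) (Sum.inl q) = 0) ∧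
        (∀ b', (cm y g) (mon D a (σ (Sum.inr b'))) =
          ∑ b, y (mon D a (σ (Sum.inr b))) * ρ.ev (a.map g) (Sum.inr b) (Sum.inr b'))) := by
  let Ω : Matrix (Q ⊕ E) (Q ⊕ E) k := Matrix.fromBlocks 1 0 (Matrix.of fun b q => - Λ q b) 1
  let Ωi : Matrix (Q ⊕ E) (Q ⊕ E) k := Matrix.fromBlocks 1 0 (Matrix.of fun b q => Λ q b) 1
  have hΩ : Ω * Ωi = 1 := by
    simp only [Ω, Ωi]
    rw [Matrix.fromBlocks_multiply]
    simp only [Matrix.mul_one, Matrix.mul_zero, Matrix.zero_mul, Matrix.one_mul, add_zero, zero_add]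
    rw [← Matrix.fromBlocks_one]
    congr 1
    ext b q; simp
  let ρ : PRep k n (Q ⊕ E) := (wrep k D n).tw σ Ω Ωi hΩ
  refine ⟨ρ, ?_⟩
  intro C _ _ y g
  -- the row vector `T`
  let T : Matrix (Fin n) (Fin n) C → (Q ⊕ E) → C := fun y =>
    (fun u => mon D y (σ u)) ᵥ* (Ω.map (algebraMap k C))
  have hT : ∀ f : H →ₐ[k] C, (∀ q, T (a.map f) (Sum.inl q) = 0) ∧
      (∀ b, T (a.map f) (Sum.inr b) = f (mon D a (σ (Sum.inr b)))) := by
    intro f
    have hm : ∀ w, mon D (a.map f) w = f (mon D a w) := fun w => mon_map (f : H →+* C) D a w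
    constructor
    · intro q
      simp only [T, vecMul, dotProduct, Fintype.sum_sum_type, hm, Matrix.map_apply, Ω,
        Matrix.fromBlocks_apply₁₁, Matrix.fromBlocks_apply₂₁, Matrix.of_apply]
      have h1 : ∑ q' : Q, f (mon D a (σ (Sum.inl q'))) * algebraMap k C ((1 : Matrix Q Q k) q' q) =
          f (mon D a (σ (Sum.inl q))) := by
        rw [Finset.sum_eq_single q]
        · simp
        · intro b _ hb; rw [Matrix.one_apply_ne hb]; simp
        · simp
      rw [h1, hΛ' q, map_sum, ← Finset.sum_add_distrib]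
      apply Finset.sum_eq_zero
      intro b _
      rw [map_smul, Algebra.smul_def, map_neg]
      ring
    · intro b
      simp only [T, vecMul, dotProduct, Fintype.sum_sum_type, hm, Matrix.map_apply, Ω,
        Matrix.fromBlocks_apply₁₂, Matrix.fromBlocks_apply₂₂, Matrix.zero_apply, map_zero, mul_zero,
        Finset.sum_const_zero, zero_add]
      rw [Finset.sum_eq_single b]
      · simp
      · intro b' _ hb; rw [Matrix.one_apply_ne hb]; simp
      · simp
  have hΩ' : Ω.map (algebraMap k C) * Ωi.map (algebraMap k C) = 1 := by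
    rw [← Matrix.map_mul, hΩ]; exact Matrix.map_one _ (map_zero _) (map_one _)
  have hTmul : ∀ y g : Matrix (Fin n) (Fin n) C, T (y * g) = T y ᵥ* ρ.ev g := by
    intro y g
    have h1 : ρ.ev g = Ωi.map (algebraMap k C) * (tp (Fin D) (NL g)).submatrix σ σ *
        Ω.map (algebraMap k C) := by
      have := PRep.tw_ev (wrep k D n) σ Ω Ωi hΩ g
      rw [wrep_ev] at this
      exact this
    have h2 : (fun u => mon D (y * g) (σ u)) =
        (fun u => mon D y (σ u)) ᵥ* (tp (Fin D) (NL g)).submatrix σ σ := by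
      ext u
      rw [mon_mul]
      simp only [vecMul, dotProduct, Matrix.submatrix_apply]
      exact (Equiv.sum_comp σ (fun w => mon D y w * tp (Fin D) (NL g) w (σ u))).symm
    simp only [T]
    rw [h2, h1, Matrix.vecMul_vecMul, Matrix.vecMul_vecMul]
    congr 1
    calc _ = 1 * (tp (Fin D) (NL g)).submatrix σ σ * Ω.map (algebraMap k C) := by rw [Matrix.one_mul]
      _ = _ := by rw [← hΩ']; simp only [Matrix.mul_assoc]
  have key : T (a.map (cm y g)) = T (a.map y) ᵥ* ρ.ev (a.map g) := by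
    rw [ha.map_cm, hTmul]
  have key2 : ∀ u, T (a.map (cm y g)) u = ∑ b, y (mon D a (σ (Sum.inr b))) *
      ρ.ev (a.map g) (Sum.inr b) u := by
    intro u
    rw [key]
    simp only [vecMul, dotProduct, Fintype.sum_sum_type, (hT y).1, (hT y).2, zero_mul,
      Finset.sum_const_zero, zero_add]
  constructor
  · intro q
    rw [← key2, (hT (cm y g)).1]
  · intro b'
    rw [← key2, (hT (cm y g)).2]

theorem exists_rho (ha : GrpL k a) (D : ℕ) :
    ∃ (Q E : Type) (_ : Fintype Q) (_ : DecidableEq Q) (_ : Fintype E) (_ : DecidableEq E)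
      (e0 : E) (ρ : PRep k n (Q ⊕ E)) (e : E → H), LinearIndependent k e ∧ e e0 = 1 ∧
      VD k a D ≤ Submodule.span k (Set.range e) ∧
      Fintype.card (Q ⊕ E) = Fintype.card (WD D n) ∧
      (∀ (C : Type) [CommRing C] [Algebra k C] (y g : H →ₐ[k] C),
        (∀ q, ∑ b, y (e b) * ρ.ev (a.map g) (Sum.inr b) (Sum.inl q) = 0) ∧
        (∀ b', (cm y g) (e b') = ∑ b, y (e b) * ρ.ev (a.map g) (Sum.inr b) (Sum.inr b'))) := by
  classical
  haveI := nontrivial_of_hopf k H
  let v : WD D n → H := mon D a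
  have hv0 : v (fun _ => Sum.inl ()) = 1 := mon_none a D
  have hs : LinearIndepOn k v {(fun _ => Sum.inl () : WD D n)} := by
    apply LinearIndepOn.singleton
    rw [hv0]; exact one_ne_zero
  obtain ⟨B, -, h0B, hspan, hli⟩ := exists_linearIndepOn_extension hs (Set.subset_univ _)
  have h0 : (fun _ => Sum.inl () : WD D n) ∈ B := h0B rfl
  let Q : Type := {w : WD D n // ¬ w ∈ B}
  let E : Type := {w : WD D n // w ∈ B}
  letI iQ : Fintype Q := Fintype.ofFinite _
  letI iE : Fintype E := Fintype.ofFinite _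
  letI dQ : DecidableEq Q := Classical.decEq _
  letI dE : DecidableEq E := Classical.decEq _
  let e : E → H := fun b => v b.1
  have he : LinearIndependent k e := hli
  have hVD : VD k a D ≤ Submodule.span k (Set.range e) := by
    unfold VD
    rw [Submodule.span_le]
    rintro _ ⟨w, rfl⟩
    have h1 : v w ∈ v '' Set.univ := ⟨w, trivial, rfl⟩
    have h2 := hspan h1
    have h3 : v '' B = Set.range e := by
      ext x; constructor
      · rintro ⟨w, hw, rfl⟩; exact ⟨⟨w, hw⟩, rfl⟩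
      · rintro ⟨⟨w, hw⟩, rfl⟩; exact ⟨w, hw, rfl⟩
    rw [h3] at h2
    exact h2
  have hΛ : ∀ q : Q, ∃ c : E → k, v q.1 = ∑ b, c b • e b := fun q =>
    mem_span_range_exists (hVD (Submodule.subset_span ⟨q.1, rfl⟩))
  choose Λ hΛ' using hΛ
  let σ : Q ⊕ E ≃ WD D n := (Equiv.sumComm Q E).trans (Equiv.sumCompl (fun w => w ∈ B))
  obtain ⟨ρ, hρ⟩ := exists_rho_aux (Q := Q) (E := E) ha D σ Λ hΛ'
  exact ⟨Q, E, iQ, dQ, iE, dE, ⟨_, h0⟩, ρ, e, he, hv0, hVD, Fintype.card_congr σ, hρ⟩

end rho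

section inv
variable {k : Type} [Field k] {n : ℕ} {H : Type} [CommRing H] [HopfAlgebra k H]
variable {a : Matrix (Fin n) (Fin n) H} {C : Type} [CommRing C] [Algebra k C]

lemma cm_right_cancel {X Y Z : H →ₐ[k] C} (h : cm X Z = cm Y Z) : X = Y := by
  have h2 := congrArg (fun t => cm t (inv' Z)) h
  simp only [cm_assoc, cm_inv, cm_one] at h2
  exact h2

lemma GrpL.inv_cm' (ha : GrpL k a) (g h : H →ₐ[k] C) :
    a.map (inv' (cm g h)) = a.map (inv' h) * a.map (inv' g) := by
  have h1 := ha.inv_mul (cm g h)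
  have h2 : a.map (cm g h) * (a.map (inv' h) * a.map (inv' g)) = 1 := by
    rw [ha.map_cm]
    calc _ = a.map g * (a.map h * a.map (inv' h)) * a.map (inv' g) := by
          simp only [Matrix.mul_assoc]
      _ = 1 := by rw [ha.mul_inv, Matrix.mul_one, ha.mul_inv]
  calc a.map (inv' (cm g h)) = a.map (inv' (cm g h)) *
        (a.map (cm g h) * (a.map (inv' h) * a.map (inv' g))) := by rw [h2, Matrix.mul_one]
    _ = (a.map (inv' (cm g h)) * a.map (cm g h)) * (a.map (inv' h) * a.map (inv' g)) := by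
        simp only [Matrix.mul_assoc]
    _ = _ := by rw [h1, Matrix.one_mul]

/-- `ξ(g,y)` -/
noncomputable def xiP (a : Matrix (Fin n) (Fin n) H) (f : Matrix (Fin n) (Fin n) (H ⊗[k] H))
    (g y : H →ₐ[k] C) : Matrix (Fin n) (Fin n) C := a.map (inv' y) * f.map (lf y g) * a.map y

/-- `μ(y₁,y₂)` -/
noncomputable def muP (a : Matrix (Fin n) (Fin n) H) (f : Matrix (Fin n) (Fin n) (H ⊗[k] H))
    (y₁ y₂ : H →ₐ[k] C) : Matrix (Fin n) (Fin n) C :=
  a.map (inv' y₁) * f.map (lf (cm y₁ (inv' y₂)) y₂) * a.map y₁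

/-- cocycle condition -/
def Coc (a : Matrix (Fin n) (Fin n) H) (f : Matrix (Fin n) (Fin n) (H ⊗[k] H)) : Prop :=
  ∀ (C : Type) [CommRing C] [Algebra k C] (g h l : H →ₐ[k] C),
    f.map (lf (cm g h) l) + f.map (lf g h) =
      f.map (lf g (cm h l)) + a.map g * f.map (lf h l) * a.map (inv' g)

variable {f : Matrix (Fin n) (Fin n) (H ⊗[k] H)}

lemma rel_I (ha : GrpL k a) (hf : Coc a f) (y g h : H →ₐ[k] C) :
    f.map (lf g h) = xiP a f g y + a.map g * xiP a f h (cm y g) * a.map (inv' g) -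
      xiP a f (cm g h) y := by
  have h1 := hf C y g h
  have h2 : a.map (inv' y) * (a.map y * f.map (lf g h) * a.map (inv' y)) * a.map y = f.map (lf g h) := by
    calc _ = (a.map (inv' y) * a.map y) * f.map (lf g h) * (a.map (inv' y) * a.map y) := by
          simp only [Matrix.mul_assoc]
      _ = _ := by rw [ha.inv_mul, Matrix.one_mul, Matrix.mul_one]
  have h3 : a.map y * f.map (lf g h) * a.map (inv' y) =
      f.map (lf (cm y g) h) + f.map (lf y g) - f.map (lf y (cm g h)) := by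
    rw [h1]; abel
  have h4 : a.map g * xiP a f h (cm y g) * a.map (inv' g) =
      a.map (inv' y) * f.map (lf (cm y g) h) * a.map y := by
    unfold xiP
    rw [ha.inv_cm', ha.map_cm]
    calc _ = (a.map g * a.map (inv' g)) * a.map (inv' y) * f.map (lf (cm y g) h) * a.map y *
          (a.map g * a.map (inv' g)) := by simp only [Matrix.mul_assoc]
      _ = _ := by rw [ha.mul_inv, Matrix.one_mul, Matrix.mul_one]
  rw [h4, ← h2, h3]
  unfold xiP
  rw [Matrix.mul_sub, Matrix.mul_add, Matrix.sub_mul, Matrix.add_mul]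
  abel

lemma rel_II (ha : GrpL k a) (hf : Coc a f) (y₁ y₂ g : H →ₐ[k] C) :
    a.map g * muP a f (cm y₁ g) (cm y₂ g) * a.map (inv' g) - muP a f y₁ y₂ =
      xiP a f g y₁ - xiP a f g y₂ := by
  set t := cm y₁ (inv' y₂) with ht
  have ht2 : cm t y₂ = y₁ := by rw [ht, cm_assoc, inv_cm, cm_one]
  have ht3 : cm (cm y₁ g) (inv' (cm y₂ g)) = t := by
    apply cm_right_cancel (Z := cm y₂ g)
    rw [cm_assoc, inv_cm, cm_one, ← cm_assoc, ht2]
  have h1 := hf C t y₂ g
  rw [ht2] at h1
  have hat : a.map (inv' y₁) * a.map t = a.map (inv' y₂) := by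
    rw [ht, ha.map_cm, ← Matrix.mul_assoc, ha.inv_mul, Matrix.one_mul]
  have hat2 : a.map (inv' t) * a.map y₁ = a.map y₂ := by
    have h5 : a.map y₁ = a.map t * a.map y₂ := by rw [← ha.map_cm, ht2]
    rw [h5, ← Matrix.mul_assoc, ha.inv_mul, Matrix.one_mul]
  have h4 : a.map g * muP a f (cm y₁ g) (cm y₂ g) * a.map (inv' g) =
      a.map (inv' y₁) * f.map (lf t (cm y₂ g)) * a.map y₁ := by
    unfold muP
    rw [ht3, ha.inv_cm', ha.map_cm]
    calc _ = (a.map g * a.map (inv' g)) * a.map (inv' y₁) * f.map (lf t (cm y₂ g)) * a.map y₁ *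
          (a.map g * a.map (inv' g)) := by simp only [Matrix.mul_assoc]
      _ = _ := by rw [ha.mul_inv, Matrix.one_mul, Matrix.mul_one]
  have h5 : f.map (lf t (cm y₂ g)) = f.map (lf y₁ g) + f.map (lf t y₂) -
      a.map t * f.map (lf y₂ g) * a.map (inv' t) := by
    rw [h1]; abel
  have h6 : a.map (inv' y₁) * (a.map t * f.map (lf y₂ g) * a.map (inv' t)) * a.map y₁ =
      xiP a f g y₂ := by
    unfold xiP
    calc _ = (a.map (inv' y₁) * a.map t) * f.map (lf y₂ g) * (a.map (inv' t) * a.map y₁) := by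
          simp only [Matrix.mul_assoc]
      _ = _ := by rw [hat, hat2]
  rw [h4, h5, Matrix.mul_sub, Matrix.mul_add, Matrix.sub_mul, Matrix.add_mul, h6]
  unfold xiP muP
  rw [← ht]
  abel

end inv

end Pool.Agent.LN
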