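import Pool.Agent.Helper208_LN.Hopf4

set_option autoImplicit false
set_option linter.unusedSectionVars false
set_option linter.style.haveILetI false

namespace Pool.Agent.LN
open Matrix Finset
open scoped TensorProduct

section split
variable {k : Type} [Field k] {n : ℕ} {H C : Type} [CommRing H] [Algebra k H] [CommRing C]
  [Algebra k C] {E : Type} [Fintype E] [DecidableEq E]

lemma mmap_smul (g : H →ₐ[k] C) (M : Matrix (Fin n) (Fin n) H) (c : H) :
    (c • M).map g = g c • M.map g := by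
  refine Matrix.ext fun α β => ?_
  simp only [Matrix.map_apply, Matrix.smul_apply, smul_eq_mul, map_mul]

lemma mmap_sum (g : H →ₐ[k] C) (f : E → Matrix (Fin n) (Fin n) H) :
    (∑ j, f j).map g = ∑ j, (f j).map g := by
  refine Matrix.ext fun α β => ?_
  simp only [Matrix.map_apply, Matrix.sum_apply, map_sum]

lemma mmap_alg (g : H →ₐ[k] C) (μ : Matrix (Fin n) (Fin n) k) :
    (μ.map (algebraMap k H)).map g = μ.map (algebraMap k C) := by
  refine Matrix.ext fun α β => ?_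
  simp only [Matrix.map_apply, AlgHom.commutes]

lemma mmap_ite (g : H →ₐ[k] C) (c : Prop) [Decidable c] (M : Matrix (Fin n) (Fin n) H) :
    (if c then M else 0).map g = if c then M.map g else 0 := by
  split_ifs
  · rfl
  · refine Matrix.ext fun α β => ?_
    simp only [Matrix.map_apply, Matrix.zero_apply, map_zero]

lemma cob_e1 (R : E → E → H) (aa ai : Matrix (Fin n) (Fin n) H) (e : E → H)
    (μ : E → E → Matrix (Fin n) (Fin n) k) (y₁ y₂ g : H →ₐ[k] C) (c₁ c₂ : E → C)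
    (hc₁ : ∀ b', c₁ b' = ∑ b, y₁ (e b) * g (R b b'))
    (hc₂ : ∀ b', c₂ b' = ∑ b, y₂ (e b) * g (R b b')) :
    aa.map g * (∑ b, ∑ b', (c₁ b * c₂ b') • (μ b b').map (algebraMap k C)) * ai.map g =
      ∑ i, ∑ i', (y₁ (e i) * y₂ (e i')) • (∑ j, ∑ l, (R i j * R i' l) •
        (aa * (μ j l).map (algebraMap k H) * ai)).map g := by
  have e2 : ∀ i i', (∑ j, ∑ l, (R i j * R i' l) •
      (aa * (μ j l).map (algebraMap k H) * ai)).map g =
      ∑ j, ∑ l, (g (R i j) * g (R i' l)) •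
        (aa.map g * (μ j l).map (algebraMap k C) * ai.map g) := by
    intro i i'
    rw [mmap_sum]
    refine Finset.sum_congr rfl fun j _ => ?_
    rw [mmap_sum]
    refine Finset.sum_congr rfl fun l _ => ?_
    rw [mmap_smul, Matrix.map_mul, Matrix.map_mul, mmap_alg, map_mul]
  simp only [e2]
  rw [← sum_rearr (fun i j => g (R i j)) (fun i => y₁ (e i)) (fun i => y₂ (e i))
    (fun j l => aa.map g * (μ j l).map (algebraMap k C) * ai.map g)]
  rw [Matrix.mul_sum, Matrix.sum_mul]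
  refine Finset.sum_congr rfl fun j _ => ?_
  rw [Matrix.mul_sum, Matrix.sum_mul]
  refine Finset.sum_congr rfl fun l _ => ?_
  rw [Matrix.mul_smul, Matrix.smul_mul, hc₁, hc₂]
  congr 2 <;> exact Finset.sum_congr rfl fun _ _ => mul_comm _ _

noncomputable def zz (R : E → E → H) (aa ai : Matrix (Fin n) (Fin n) H)
    (μ : E → E → Matrix (Fin n) (Fin n) k) (ξ : E → Matrix (Fin n) (Fin n) H) (e0 i i' : E) :
    Matrix (Fin n) (Fin n) H :=
  (∑ j, ∑ l, (R i j * R i' l) • (aa * (μ j l).map (algebraMap k H) * ai)) -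
    (μ i i').map (algebraMap k H) - ((if i' = e0 then ξ i else 0) - (if i = e0 then ξ i' else 0))

lemma cob_z (R : E → E → H) (aa ai : Matrix (Fin n) (Fin n) H) (e : E → H) (e0 : E)
    (he0 : e e0 = 1) (μ : E → E → Matrix (Fin n) (Fin n) k) (ξ : E → Matrix (Fin n) (Fin n) H)
    (y₁ y₂ g : H →ₐ[k] C) (c₁ c₂ : E → C)
    (hc₁ : ∀ b', c₁ b' = ∑ b, y₁ (e b) * g (R b b'))
    (hc₂ : ∀ b', c₂ b' = ∑ b, y₂ (e b) * g (R b b'))
    (h1 : aa.map g * (∑ b, ∑ b', (c₁ b * c₂ b') • (μ b b').map (algebraMap k C)) * ai.map g -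
      ∑ b, ∑ b', (y₁ (e b) * y₂ (e b')) • (μ b b').map (algebraMap k C) =
      ∑ b, y₁ (e b) • (ξ b).map g - ∑ b, y₂ (e b) • (ξ b).map g) :
    ∑ i, ∑ i', (y₁ (e i) * y₂ (e i')) • (zz R aa ai μ ξ e0 i i').map g = 0 := by
  rw [cob_e1 R aa ai e μ y₁ y₂ g c₁ c₂ hc₁ hc₂] at h1
  have e3 : ∑ b, y₁ (e b) • (ξ b).map g = ∑ i, ∑ i', (y₁ (e i) * y₂ (e i')) •
      (if i' = e0 then (ξ i).map g else 0) := by
    refine Finset.sum_congr rfl fun i _ => ?_
    rw [Finset.sum_eq_single e0]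
    · rw [if_pos rfl, he0, map_one, mul_one]
    · intro b _ hb; rw [if_neg hb, smul_zero]
    · intro h; exact absurd (Finset.mem_univ _) h
  have e4 : ∑ b, y₂ (e b) • (ξ b).map g = ∑ i, ∑ i', (y₁ (e i) * y₂ (e i')) •
      (if i = e0 then (ξ i').map g else 0) := by
    rw [Finset.sum_comm]
    refine Finset.sum_congr rfl fun i _ => ?_
    rw [Finset.sum_eq_single e0]
    · rw [if_pos rfl, he0, map_one, one_mul]
    · intro b _ hb; rw [if_neg hb, smul_zero]
    · intro h; exact absurd (Finset.mem_univ _) h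
  rw [e3, e4, ← sub_eq_zero] at h1
  rw [← h1, ← Finset.sum_sub_distrib, ← Finset.sum_sub_distrib, ← Finset.sum_sub_distrib]
  refine Finset.sum_congr rfl fun i _ => ?_
  rw [← Finset.sum_sub_distrib, ← Finset.sum_sub_distrib, ← Finset.sum_sub_distrib]
  refine Finset.sum_congr rfl fun i' _ => ?_
  rw [← smul_sub, ← smul_sub, ← smul_sub]
  congr 1
  unfold zz
  rw [Matrix.map_sub _ (map_sub g), Matrix.map_sub _ (map_sub g), Matrix.map_sub _ (map_sub g),
    mmap_alg, mmap_ite, mmap_ite]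

noncomputable def zc {C₂ : Type} [CommRing C₂] (R : E → E → C₂)
    (a1 ai1 : Matrix (Fin n) (Fin n) C₂) (ξ1 ξ2 ξ3 : E → Matrix (Fin n) (Fin n) C₂)
    (f : Matrix (Fin n) (Fin n) C₂) (e0 i : E) : Matrix (Fin n) (Fin n) C₂ :=
  (if i = e0 then f else 0) - (ξ1 i + (∑ j, R i j • (a1 * ξ2 j * ai1)) - ξ3 i)

lemma comp_z {C₂ : Type} [CommRing C₂] [Algebra k C₂] (R : E → E → C₂)
    (a1 ai1 : Matrix (Fin n) (Fin n) C₂) (ξ1 ξ2 ξ3 : E → Matrix (Fin n) (Fin n) C₂)
    (f : Matrix (Fin n) (Fin n) C₂) (e0 : E) (ye : E → C) (he0 : ye e0 = 1)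
    (ι : C₂ →ₐ[k] C) (c : E → C) (hc : ∀ b', c b' = ∑ b, ye b * ι (R b b'))
    (h1 : f.map ι = ∑ b, ye b • (ξ1 b).map ι + a1.map ι * (∑ b, c b • (ξ2 b).map ι) * ai1.map ι -
      ∑ b, ye b • (ξ3 b).map ι) :
    ∑ i, ye i • (zc R a1 ai1 ξ1 ξ2 ξ3 f e0 i).map ι = 0 := by
  have e1 : f.map ι = ∑ i, ye i • (if i = e0 then f.map ι else 0) := by
    rw [Finset.sum_eq_single e0]
    · rw [if_pos rfl, he0, one_smul]
    · intro b _ hb; rw [if_neg hb, smul_zero]
    · intro h; exact absurd (Finset.mem_univ _) h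
  have e2 : a1.map ι * (∑ b, c b • (ξ2 b).map ι) * ai1.map ι =
      ∑ i, ye i • (∑ j, R i j • (a1 * ξ2 j * ai1)).map ι := by
    rw [Matrix.mul_sum, Matrix.sum_mul]
    have h3 : ∀ j, a1.map ι * (c j • (ξ2 j).map ι) * ai1.map ι =
        ∑ i, (ye i * ι (R i j)) • (a1.map ι * (ξ2 j).map ι * ai1.map ι) := by
      intro j
      rw [Matrix.mul_smul, Matrix.smul_mul, hc, Finset.sum_smul]
    rw [Finset.sum_congr rfl fun j _ => h3 j, Finset.sum_comm]
    refine Finset.sum_congr rfl fun i _ => ?_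
    rw [mmap_sum, Finset.smul_sum]
    refine Finset.sum_congr rfl fun j _ => ?_
    rw [mmap_smul, smul_smul, Matrix.map_mul, Matrix.map_mul]
  rw [e2] at h1
  have h2 : (∑ i, ye i • (if i = e0 then f.map ι else 0)) - (∑ b, ye b • (ξ1 b).map ι +
      ∑ i, ye i • (∑ j, R i j • (a1 * ξ2 j * ai1)).map ι - ∑ b, ye b • (ξ3 b).map ι) = 0 := by
    rw [← e1, h1, sub_self]
  rw [← h2, ← Finset.sum_add_distrib, ← Finset.sum_sub_distrib, ← Finset.sum_sub_distrib]
  refine Finset.sum_congr rfl fun i _ => ?_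
  rw [← smul_add, ← smul_sub, ← smul_sub]
  congr 1
  unfold zc
  rw [Matrix.map_sub _ (map_sub ι), Matrix.map_sub _ (map_sub ι), Matrix.map_add _ (map_add ι),
    mmap_ite]

end split

end Pool.Agent.LN
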