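import Pool.Agent.Helper208_LN.Hopf5

set_option autoImplicit false
set_option linter.unusedSectionVars false
set_option linter.style.haveILetI false

namespace Pool.Agent.LN
open Matrix Finset
open scoped TensorProduct

section data
variable {k : Type} [Field k] {n : ℕ} {H : Type} [CommRing H] [HopfAlgebra k H]
variable {a : Matrix (Fin n) (Fin n) H} {C C' C₂ : Type} [CommRing C] [Algebra k C]
  [CommRing C'] [Algebra k C'] [CommRing C₂] [Algebra k C₂]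
variable {f : Matrix (Fin n) (Fin n) (H ⊗[k] H)}

lemma map_map_comp {N N' : Type} (M : Matrix N N' H) (g : H →ₐ[k] C) (φ : C →ₐ[k] C') :
    (M.map g).map φ = M.map (φ.comp g) := rfl

lemma fmap_map_comp (f : Matrix (Fin n) (Fin n) (H ⊗[k] H)) (g : H ⊗[k] H →ₐ[k] C)
    (φ : C →ₐ[k] C') : (f.map g).map φ = f.map (φ.comp g) := rfl

lemma xiP_map (φ : C →ₐ[k] C') (g y : H →ₐ[k] C) :
    (xiP a f g y).map φ = xiP a f (φ.comp g) (φ.comp y) := by
  unfold xiP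
  rw [Matrix.map_mul, Matrix.map_mul, map_map_comp a (inv' y) φ, map_map_comp a y φ,
    fmap_map_comp, comp_lf, comp_inv]

lemma muP_map (φ : C →ₐ[k] C') (y₁ y₂ : H →ₐ[k] C) :
    (muP a f y₁ y₂).map φ = muP a f (φ.comp y₁) (φ.comp y₂) := by
  unfold muP
  rw [Matrix.map_mul, Matrix.map_mul, map_map_comp a (inv' y₁) φ, map_map_comp a y₁ φ,
    fmap_map_comp, comp_lf, comp_inv, comp_cm, comp_inv]

lemma lf_comp_iL (y g : H →ₐ[k] C) : (lf y g).comp (iL : H →ₐ[k] H ⊗[k] H) = y := by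
  ext x; simp

lemma lf_comp_iR (y g : H →ₐ[k] C) : (lf y g).comp (iR : H →ₐ[k] H ⊗[k] H) = g := by
  ext x; simp

variable {E : Type} [Fintype E] [DecidableEq E]

lemma extract (e : E → H) (he : LinearIndependent k e) (z : E → Matrix (Fin n) (Fin n) C₂)
    (hz : ∑ b, (iL (e b) : H ⊗[k] C₂) • (z b).map (iR : C₂ →ₐ[k] H ⊗[k] C₂) = 0) (b : E) :
    z b = 0 := by
  refine Matrix.ext fun i j => ?_
  have h1 := congrFun (congrFun hz i) j
  simp only [Matrix.sum_apply, Matrix.smul_apply, Matrix.map_apply, smul_eq_mul,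
    Algebra.TensorProduct.includeLeft_apply, Algebra.TensorProduct.includeRight_apply,
    Algebra.TensorProduct.tmul_mul_tmul, mul_one, one_mul, Matrix.zero_apply] at h1
  exact li_coeff e he (fun b => z b i j) h1 b

lemma exists_equiv_unit {I : Type} [Fintype I] [DecidableEq I] (s0 : I) (hI : 2 ≤ Fintype.card I) :
    ∃ (m : ℕ) (_ : 1 ≤ m) (ε : I ≃ Unit ⊕ Fin m), ε s0 = Sum.inl () := by
  obtain ⟨m, hm⟩ : ∃ m, Fintype.card I = m + 1 := ⟨Fintype.card I - 1, by omega⟩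
  refine ⟨m, by omega, ?_⟩
  have hc : Fintype.card I = Fintype.card (Unit ⊕ Fin m) := by
    rw [hm]; simp [add_comm]
  let ε₀ := Fintype.equivOfCardEq hc
  exact ⟨ε₀.trans (Equiv.swap (ε₀ s0) (Sum.inl ())), by simp⟩

/-- extraction of the second relation from the universal point -/
lemma cob_extract (ha : GrpL k a) (hf : Coc a f) (e : E → H) (he : LinearIndependent k e) (e0 : E)
    (he0 : e e0 = 1) (R : E → E → H) (ai : Matrix (Fin n) (Fin n) H)
    (hai : ∀ (C : Type) [CommRing C] [Algebra k C] (φ : H →ₐ[k] C), ai.map φ = a.map (inv' φ))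
    (hcm : ∀ (C : Type) [CommRing C] [Algebra k C] (y g : H →ₐ[k] C) (b' : E),
      (cm y g) (e b') = ∑ b, y (e b) * g (R b b'))
    (μ : E → E → Matrix (Fin n) (Fin n) k) (ξ : E → Matrix (Fin n) (Fin n) H)
    (evXi : ∀ (C : Type) [CommRing C] [Algebra k C] (y g : H →ₐ[k] C),
      xiP a f g y = ∑ b, y (e b) • (ξ b).map g)
    (evMu : ∀ (C : Type) [CommRing C] [Algebra k C] (y₁ y₂ : H →ₐ[k] C),
      muP a f y₁ y₂ = ∑ b, ∑ b', (y₁ (e b) * y₂ (e b')) • (μ b b').map (algebraMap k C)) (i i' : E) :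
    zz R a ai μ ξ e0 i i' = 0 := by
  let y₁ : H →ₐ[k] H ⊗[k] (H ⊗[k] H) := iL
  let y₂ : H →ₐ[k] H ⊗[k] (H ⊗[k] H) := (iR : H ⊗[k] H →ₐ[k] H ⊗[k] (H ⊗[k] H)).comp iL
  let g : H →ₐ[k] H ⊗[k] (H ⊗[k] H) := (iR : H ⊗[k] H →ₐ[k] H ⊗[k] (H ⊗[k] H)).comp iR
  have h1 := rel_II ha hf y₁ y₂ g
  rw [evMu, evMu, evXi, evXi, ← hai] at h1
  have h2 := cob_z R a ai e e0 he0 μ ξ y₁ y₂ g (fun b => (cm y₁ g) (e b)) (fun b => (cm y₂ g) (e b))
    (fun b' => hcm _ y₁ g b') (fun b' => hcm _ y₂ g b') h1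
  have h3 : ∑ i, (iL (e i) : H ⊗[k] (H ⊗[k] H)) • (∑ i', (iL (e i') : H ⊗[k] H) •
      (zz R a ai μ ξ e0 i i').map (iR : H →ₐ[k] H ⊗[k] H)).map
        (iR : H ⊗[k] H →ₐ[k] H ⊗[k] (H ⊗[k] H)) = 0 := by
    rw [← h2]
    refine Finset.sum_congr rfl fun i _ => ?_
    rw [mmap_sum, Finset.smul_sum]
    refine Finset.sum_congr rfl fun i' _ => ?_
    rw [mmap_smul, smul_smul]
    rfl
  have h4 := extract e he (fun i => ∑ i', (iL (e i') : H ⊗[k] H) •
      (zz R a ai μ ξ e0 i i').map (iR : H →ₐ[k] H ⊗[k] H)) h3 i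
  exact extract e he (fun i' => zz R a ai μ ξ e0 i i') h4 i'

/-- extraction of the first relation from the universal point -/
lemma comp_extract (ha : GrpL k a) (hf : Coc a f) (e : E → H) (he : LinearIndependent k e) (e0 : E)
    (he0 : e e0 = 1) (R : E → E → H) (ai : Matrix (Fin n) (Fin n) H)
    (hai : ∀ (C : Type) [CommRing C] [Algebra k C] (φ : H →ₐ[k] C), ai.map φ = a.map (inv' φ))
    (hcm : ∀ (C : Type) [CommRing C] [Algebra k C] (y g : H →ₐ[k] C) (b' : E),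
      (cm y g) (e b') = ∑ b, y (e b) * g (R b b'))
    (ξ : E → Matrix (Fin n) (Fin n) H)
    (evXi : ∀ (C : Type) [CommRing C] [Algebra k C] (y g : H →ₐ[k] C),
      xiP a f g y = ∑ b, y (e b) • (ξ b).map g) (g₁ g₂ g₃ : H →ₐ[k] C₂) (h₃ : cm g₁ g₂ = g₃) (i : E) :
    zc (fun i j => g₁ (R i j)) (a.map g₁) (ai.map g₁) (fun j => (ξ j).map g₁)
      (fun j => (ξ j).map g₂) (fun j => (ξ j).map g₃) (f.map (lf g₁ g₂)) e0 i = 0 := by
  let y : H →ₐ[k] H ⊗[k] C₂ := iL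
  let ι : C₂ →ₐ[k] H ⊗[k] C₂ := iR
  have hcm' : cm (ι.comp g₁) (ι.comp g₂) = ι.comp g₃ := by
    rw [← comp_cm, h₃]
  have h1 := rel_I ha hf y (ι.comp g₁) (ι.comp g₂)
  rw [hcm', evXi, evXi, evXi, ← comp_lf, ← hai] at h1
  have h2 := comp_z (C := H ⊗[k] C₂) (fun i j => g₁ (R i j)) (a.map g₁) (ai.map g₁)
    (fun j => (ξ j).map g₁)
    (fun j => (ξ j).map g₂) (fun j => (ξ j).map g₃) (f.map (lf g₁ g₂)) e0 (fun b => y (e b))
    (by simp only [he0, map_one]) ι (fun b => (cm y (ι.comp g₁)) (e b))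
    (fun b' => hcm _ y (ι.comp g₁) b') h1
  exact extract e he _ h2 i

end data

end Pool.Agent.LN
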