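import Pool.Agent.Helper208_LN.Hopf6

set_option autoImplicit false
set_option linter.unusedSectionVars false
set_option linter.style.haveILetI false

namespace Pool.Agent.LN
open Matrix Finset
open scoped TensorProduct

section data
variable {k : Type} [Field k] {n : ℕ} {H : Type} [CommRing H] [HopfAlgebra k H]
variable {a : Matrix (Fin n) (Fin n) H} {C C' C₂ : Type} [CommRing C] [Algebra k C]
  [CommRing C'] [Algebra k C'] [CommRing C₂] [Algebra k C₂]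
variable {f : Matrix (Fin n) (Fin n) (H ⊗[k] H)}

/-- expansion of `ξ` and `μ` -/
lemma exists_D (hgen : Algebra.adjoin k (Set.range fun ij : Fin n × Fin n => a ij.1 ij.2) = ⊤) :
    ∃ D : ℕ, D ≠ 0 ∧ (∀ i j, (xiP a f (iR : H →ₐ[k] H ⊗[k] H) iL) i j ∈ TD k a H D) ∧
      (∀ i j, (muP a f (iL : H →ₐ[k] H ⊗[k] H) iR) i j ∈ TTD k a D) := by
  have hX : ∀ i j, ∃ D0, ∀ D ≥ D0, (xiP a f (iR : H →ₐ[k] H ⊗[k] H) iL) i j ∈ TD k a H D :=
    fun i j => TD_all a hgen _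
  have hM : ∀ i j, ∃ D0, ∀ D ≥ D0, (muP a f (iL : H →ₐ[k] H ⊗[k] H) iR) i j ∈ TTD k a D :=
    fun i j => TTD_all a hgen _
  choose DX hDX using hX
  choose DM' hDM using hM
  have hle : ∀ (F : Fin n → Fin n → ℕ) i j, F i j ≤ ∑ i, ∑ j, F i j := by
    intro F i j
    refine le_trans ?_ (Finset.single_le_sum (f := fun i => ∑ j, F i j)
      (fun _ _ => Nat.zero_le _) (Finset.mem_univ i))
    exact Finset.single_le_sum (f := fun j => F i j) (fun _ _ => Nat.zero_le _) (Finset.mem_univ j)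
  refine ⟨1 + (∑ i, ∑ j, DX i j) + (∑ i, ∑ j, DM' i j), by omega, ?_, ?_⟩
  · intro i j
    exact hDX i j _ (by have := hle DX i j; omega)
  · intro i j
    exact hDM i j _ (by have := hle DM' i j; omega)

/-- universal expansions -/
lemma exists_xi {E : Type} [Fintype E] (e : E → H) (D : ℕ)
    (hVD : VD k a D ≤ Submodule.span k (Set.range e))
    (hXD : ∀ i j, (xiP a f (iR : H →ₐ[k] H ⊗[k] H) iL) i j ∈ TD k a H D) :
    ∃ ξ : E → Matrix (Fin n) (Fin n) H,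
      ∀ (C : Type) [CommRing C] [Algebra k C] (y g : H →ₐ[k] C),
        xiP a f g y = ∑ b, y (e b) • (ξ b).map g := by
  have hXe : ∀ i j, ∃ h : E → H, (xiP a f (iR : H →ₐ[k] H ⊗[k] H) iL) i j = ∑ b, e b ⊗ₜ[k] h b :=
    fun i j => TD_expand a e D hVD _ (hXD i j)
  choose ξh hξh using hXe
  refine ⟨fun b => Matrix.of fun i j => ξh i j b, ?_⟩
  intro C _ _ y g
  have h1 := xiP_map (a := a) (f := f) (lf y g) (iR : H →ₐ[k] H ⊗[k] H) iL
  rw [lf_comp_iL, lf_comp_iR] at h1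
  rw [← h1]
  refine Matrix.ext fun i j => ?_
  rw [Matrix.map_apply, hξh, map_sum, Matrix.sum_apply]
  refine Finset.sum_congr rfl fun b _ => ?_
  rw [lf_tmul, Matrix.smul_apply, Matrix.map_apply, smul_eq_mul]
  rfl

lemma exists_mu {E : Type} [Fintype E] (e : E → H) (D : ℕ)
    (hVD : VD k a D ≤ Submodule.span k (Set.range e))
    (hMD : ∀ i j, (muP a f (iL : H →ₐ[k] H ⊗[k] H) iR) i j ∈ TTD k a D) :
    ∃ μ : E → E → Matrix (Fin n) (Fin n) k,
      ∀ (C : Type) [CommRing C] [Algebra k C] (y₁ y₂ : H →ₐ[k] C),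
        muP a f y₁ y₂ = ∑ b, ∑ b', (y₁ (e b) * y₂ (e b')) • (μ b b').map (algebraMap k C) := by
  have hMe : ∀ i j, ∃ h : E → E → k, (muP a f (iL : H →ₐ[k] H ⊗[k] H) iR) i j =
      ∑ b, ∑ b', h b b' • (e b ⊗ₜ[k] e b') := fun i j => TTD_expand a e D hVD _ (hMD i j)
  choose μh hμh using hMe
  refine ⟨fun b b' => Matrix.of fun i j => μh i j b b', ?_⟩
  intro C _ _ y₁ y₂
  have h1 := muP_map (a := a) (f := f) (lf y₁ y₂) (iL : H →ₐ[k] H ⊗[k] H) iR
  rw [lf_comp_iL, lf_comp_iR] at h1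
  rw [← h1]
  refine Matrix.ext fun i j => ?_
  rw [Matrix.map_apply, hμh, map_sum, Matrix.sum_apply]
  refine Finset.sum_congr rfl fun b _ => ?_
  rw [map_sum, Matrix.sum_apply]
  refine Finset.sum_congr rfl fun b' _ => ?_
  rw [map_smul, lf_tmul, Matrix.smul_apply, Matrix.map_apply, smul_eq_mul, Algebra.smul_def,
    mul_comm]
  rfl

variable {Q E : Type} [Fintype Q] [DecidableEq Q] [Fintype E] [DecidableEq E]

/-- the block conditions -/
lemma block_conds (ρ : PRep k n (Q ⊕ E)) (e : E → H) (he : LinearIndependent k e) (e0 : E)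
    (he0 : e e0 = 1)
    (hρ : ∀ (C : Type) [CommRing C] [Algebra k C] (y g : H →ₐ[k] C),
        (∀ q, ∑ b, y (e b) * ρ.ev (a.map g) (Sum.inr b) (Sum.inl q) = 0) ∧
        (∀ b', (cm y g) (e b') = ∑ b, y (e b) * ρ.ev (a.map g) (Sum.inr b) (Sum.inr b'))) :
    (∀ b q, (ρ.ev a) (Sum.inr b) (Sum.inl q) = 0) ∧
    (∀ b, (ρ.ev a) (Sum.inr b) (Sum.inr e0) = if b = e0 then 1 else 0) := by
  constructor
  · intro b q
    have h1 := (hρ (H ⊗[k] H) (iL : H →ₐ[k] H ⊗[k] H) iR).1 q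
    have h2 : ∑ b, e b ⊗ₜ[k] (ρ.ev a) (Sum.inr b) (Sum.inl q) = 0 := by
      rw [← h1]
      refine Finset.sum_congr rfl fun b _ => ?_
      rw [← ρ.ev_map, Matrix.map_apply, Algebra.TensorProduct.includeLeft_apply,
        Algebra.TensorProduct.includeRight_apply, Algebra.TensorProduct.tmul_mul_tmul, mul_one,
        one_mul]
    exact li_coeff e he _ h2 b
  · intro b
    have h1 := (hρ (H ⊗[k] H) (iL : H →ₐ[k] H ⊗[k] H) iR).2 e0
    rw [he0, map_one] at h1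
    have h2 : ∑ b, e b ⊗ₜ[k] ((ρ.ev a) (Sum.inr b) (Sum.inr e0) -
        if b = e0 then (1:H) else 0) = 0 := by
      simp only [TensorProduct.tmul_sub, Finset.sum_sub_distrib]
      rw [sub_eq_zero]
      have h3 : ∑ b, e b ⊗ₜ[k] (if b = e0 then (1:H) else 0) = (1 : H ⊗[k] H) := by
        rw [Finset.sum_eq_single e0]
        · rw [if_pos rfl, he0]; rfl
        · intro b _ hb; rw [if_neg hb, TensorProduct.tmul_zero]
        · intro h; exact absurd (Finset.mem_univ _) h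
      rw [h3, h1]
      refine Finset.sum_congr rfl fun b _ => ?_
      rw [← ρ.ev_map, Matrix.map_apply, Algebra.TensorProduct.includeLeft_apply,
        Algebra.TensorProduct.includeRight_apply, Algebra.TensorProduct.tmul_mul_tmul, mul_one,
        one_mul]
    exact sub_eq_zero.1 (li_coeff e he _ h2 b)

lemma chi_unit (ρ : PRep k n (Q ⊕ E)) (ai : Matrix (Fin n) (Fin n) H) (hai : a * ai = 1)
    (hblk : ∀ b q, (ρ.ev a) (Sum.inr b) (Sum.inl q) = 0) : IsUnit ((ρ.ev a).toBlocks₁₁.det) := by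
  have h0 : (ρ.ev a).det * (ρ.ev ai).det = 1 := by
    rw [← Matrix.det_mul, ρ.ev_mul_inv hai, Matrix.det_one]
  have h1 : IsUnit (ρ.ev a).det := IsUnit.of_mul_eq_one _ h0
  have h2 : ρ.ev a = Matrix.fromBlocks (ρ.ev a).toBlocks₁₁ (ρ.ev a).toBlocks₁₂ 0
      (ρ.ev a).toBlocks₂₂ := by
    conv_lhs => rw [← Matrix.fromBlocks_toBlocks (ρ.ev a)]
    congr 1
    refine Matrix.ext fun b q => ?_
    exact hblk b q
  rw [h2, Matrix.det_fromBlocks_zero₂₁] at h1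
  exact isUnit_of_mul_isUnit_left h1

/-- composition data -/
lemma comp_data (ρ : PRep k n (Q ⊕ E)) (e0 : E) (gu : Gd n E H) (hOk : gu.Ok ρ e0)
    (g₁ g₂ g₃ : H →ₐ[k] C₂) (hacm : gu.a.map g₃ = gu.a.map g₁ * gu.a.map g₂)
    (haicm : gu.ai.map g₃ = gu.ai.map g₂ * gu.ai.map g₁)
    (fm : Matrix (Fin n) (Fin n) C₂)
    (hrel : ∀ i, zc (fun i j => g₁ ((ρ.ev gu.a) (Sum.inr i) (Sum.inr j))) (gu.a.map g₁)
      (gu.ai.map g₁) (fun j => (gu.ξ j).map g₁)
      (fun j => (gu.ξ j).map g₂) (fun j => (gu.ξ j).map g₃) fm e0 i = 0) :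
    Gd.Comp ρ e0 (gu.map g₁) (gu.map g₂) (gu.map g₃) fm := by
  have hchi : g₃ gu.χ = g₁ gu.χ * g₂ gu.χ := by
    have h1 := (Good.map hOk g₃).det
    have h2 := (Good.map hOk g₁).det
    have h3 := (Good.map hOk g₂).det
    have hb := (Good.map hOk g₂).blk
    rw [← h1, ← h2, ← h3, ← Matrix.det_mul]
    congr 1
    have h4 : ρ.ev (gu.a.map g₃) = ρ.ev (gu.a.map g₁) * ρ.ev (gu.a.map g₂) := by
      rw [hacm, ρ.ev_mul]
      · exact (PRep.isUnit_det_of_mul_eq_one (Good.map hOk g₁).inv).1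
      · exact (PRep.isUnit_det_of_mul_eq_one (Good.map hOk g₂).inv).1
    rw [h4]
    refine Matrix.ext fun q q' => ?_
    simp only [Matrix.toBlocks₁₁, Matrix.of_apply, Matrix.mul_apply, Fintype.sum_sum_type, hb,
      mul_zero, Finset.sum_const_zero, add_zero]
  refine ⟨hacm, haicm, hchi, ?_, ?_⟩
  · show g₃ gu.χi = g₁ gu.χi * g₂ gu.χi
    have h1 : g₃ gu.χ * g₃ gu.χi = 1 := by rw [← map_mul, hOk.chi, map_one]
    have h2 : g₁ gu.χ * g₁ gu.χi = 1 := by rw [← map_mul, hOk.chi, map_one]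
    have h3 : g₂ gu.χ * g₂ gu.χi = 1 := by rw [← map_mul, hOk.chi, map_one]
    rw [hchi] at h1
    calc g₃ gu.χi = (g₁ gu.χ * g₁ gu.χi) * (g₂ gu.χ * g₂ gu.χi) * g₃ gu.χi := by
          rw [h2, h3]; ring
      _ = (g₁ gu.χ * g₂ gu.χ * g₃ gu.χi) * (g₁ gu.χi * g₂ gu.χi) := by ring
      _ = _ := by rw [h1, one_mul]
  · intro i
    have h1 := hrel i
    unfold zc at h1
    have h2 := sub_eq_zero.1 h1
    rw [h2]
    have h3 : ∀ i j, ρ.ev (gu.a.map g₁) i j = g₁ (ρ.ev gu.a i j) := by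
      intro i j
      rw [← ρ.ev_map]; rfl
    show _ = (gu.ξ i).map g₁ + (∑ j, (ρ.ev (gu.a.map g₁)) (Sum.inr i) (Sum.inr j) •
      (gu.a.map g₁ * (gu.ξ j).map g₂ * gu.ai.map g₁)) - (gu.ξ i).map g₃
    simp only [h3]

theorem exists_data (ha : GrpL k a) (hn : 1 ≤ n)
    (hgen : Algebra.adjoin k (Set.range fun ij : Fin n × Fin n => a ij.1 ij.2) = ⊤)
    (hf : Coc a f) :
    ∃ (Q E : Type) (_ : Fintype Q) (_ : DecidableEq Q) (_ : Fintype E) (_ : DecidableEq E)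
      (m : ℕ) (_ : 1 ≤ m) (ρ : PRep k n (Q ⊕ E)) (e0 : E) (ε : II Q E ≃ Unit ⊕ Fin m)
      (μ : E → E → Matrix (Fin n) (Fin n) k) (gu : Gd n E H),
      gu.Ok ρ e0 ∧ gu.Cob ρ e0 μ ∧ ε (cl e0) = Sum.inl () ∧ gu.a = a ∧
      Gd.Comp ρ e0 (gu.map (iL : H →ₐ[k] H ⊗[k] H)) (gu.map (iR : H →ₐ[k] H ⊗[k] H))
        (gu.map (Bialgebra.comulAlgHom k H)) f := by
  classical
  obtain ⟨D, hD0, hXD, hMD⟩ := exists_D (a := a) (f := f) hgen
  obtain ⟨Q, E, iQ, dQ, iE, dE, e0, ρ, e, he, he0, hVD, hcard, hρ⟩ := exists_rho ha D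
  obtain ⟨ξ, evXi⟩ := exists_xi e D hVD hXD
  obtain ⟨μ, evMu⟩ := exists_mu e D hVD hMD
  obtain ⟨hblk, hcol⟩ := block_conds ρ e he e0 he0 hρ
  have haid : a.map (AlgHom.id k H) = a := Matrix.ext fun i j => rfl
  have hainv : a * a.map (inv' (AlgHom.id k H)) = 1 := by
    have := ha.mul_inv (AlgHom.id k H)
    rwa [haid] at this
  have hχu := chi_unit ρ _ hainv hblk
  let gu : Gd n E H :=
    { a := a
      ai := a.map (inv' (AlgHom.id k H))
      χ := (ρ.ev a).toBlocks₁₁.det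
      χi := Ring.inverse ((ρ.ev a).toBlocks₁₁.det)
      ξ := ξ }
  have hOk : gu.Ok ρ e0 := ⟨hainv, Ring.mul_inverse_cancel _ hχu, hblk, hcol, rfl⟩
  have hai : ∀ (C : Type) [CommRing C] [Algebra k C] (φ : H →ₐ[k] C),
      gu.ai.map φ = a.map (inv' φ) := by
    intro C _ _ φ
    refine Matrix.ext fun i j => ?_
    rfl
  -- transformation of `e`
  have hcme : ∀ (C : Type) [CommRing C] [Algebra k C] (y g : H →ₐ[k] C) (b' : E),
      (cm y g) (e b') = ∑ b, y (e b) * g (ρ.ev a (Sum.inr b) (Sum.inr b')) := by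
    intro C _ _ y g b'
    rw [(hρ C y g).2 b']
    refine Finset.sum_congr rfl fun b _ => ?_
    rw [← ρ.ev_map]; rfl
  have hcardI : 2 ≤ Fintype.card (II Q E) := by
    have h1 : Fintype.card (II Q E) = Fintype.card (Q ⊕ E) ^ Fintype.card (Q ⊕ Unit) := by
      simp [II]
    rw [h1, hcard]
    have h2 : 2 ≤ Fintype.card (WD D n) := by
      have : Fintype.card (WD D n) = (1 + n * n)^D := by simp [WD, LL]
      rw [this]
      have h3 : 2 ≤ 1 + n * n := by nlinarith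
      calc 2 ≤ 1 + n * n := h3
        _ ≤ (1 + n*n)^D := Nat.le_self_pow hD0 _
    have h5 : Fintype.card (Q ⊕ Unit) ≠ 0 := by simp
    exact le_trans h2 (Nat.le_self_pow h5 _)
  obtain ⟨m, hm, ε, hε⟩ := exists_equiv_unit (cl e0 : II Q E) hcardI
  have hCob : gu.Cob ρ e0 μ := by
    intro i i'
    have := cob_extract ha hf e he e0 he0 (fun i j => ρ.ev a (Sum.inr i) (Sum.inr j)) gu.ai hai hcme
      μ ξ evXi evMu i i'
    exact sub_eq_zero.1 this
  refine ⟨Q, E, iQ, dQ, iE, dE, m, hm, ρ, e0, ε, μ, gu, hOk, hCob, hε, rfl, ?_⟩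
  have hacm : a.map (Bialgebra.comulAlgHom k H) = a.map (iL : H →ₐ[k] H ⊗[k] H) *
      a.map (iR : H →ₐ[k] H ⊗[k] H) := by
    rw [← ha.map_cm, cm_id]
  have haicm : gu.ai.map (Bialgebra.comulAlgHom k H) = gu.ai.map (iR : H →ₐ[k] H ⊗[k] H) *
      gu.ai.map (iL : H →ₐ[k] H ⊗[k] H) := by
    rw [hai, hai, hai, ← ha.inv_cm', cm_id]
  refine comp_data ρ e0 gu hOk _ _ _ hacm haicm f ?_
  intro i
  have h1 := comp_extract ha hf e he e0 he0 (fun i j => ρ.ev a (Sum.inr i) (Sum.inr j)) gu.ai hai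
    hcme ξ evXi (iL : H →ₐ[k] H ⊗[k] H) iR (Bialgebra.comulAlgHom k H) cm_id i
  rw [lf_id] at h1
  exact h1

end data

end Pool.Agent.LN
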