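import Pool.Agent.Helper208_LN.Hopf7

set_option autoImplicit false
set_option linter.unusedSectionVars false
set_option linter.style.haveILetI false

namespace Pool.Agent.LN
open Matrix Finset
open scoped TensorProduct Kronecker

section coreH
variable {k : Type} [Field k] {n : ℕ} {H : Type} [CommRing H] [HopfAlgebra k H]
variable {a : Matrix (Fin n) (Fin n) H} {f : Matrix (Fin n) (Fin n) (H ⊗[k] H)}

lemma charP_tensor (p : ℕ) [CharP k p] : CharP (H ⊗[k] H) p := by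
  haveI : Nontrivial (H ⊗[k] H) := nontrivial_of_hopf k (H ⊗[k] H)
  exact charP_of_injective_algebraMap (algebraMap k (H ⊗[k] H)).injective p

theorem coreH (p : ℕ) [hp : Fact p.Prime] [CharP k p] (ha : GrpL k a) (hn : 1 ≤ n)
    (hgen : Algebra.adjoin k (Set.range fun ij : Fin n × Fin n => a ij.1 ij.2) = ⊤)
    (hf : Coc a f) :
    ∃ (m q : ℕ) (Sx : SData k n q) (Sy : SData k m q) (b bi : Matrix (Fin m) (Fin m) H)
      (ai : Matrix (Fin n) (Fin n) H)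
      (X : Matrix (((Unit ⊕ Fin n) × Fin Sx.r) × Fin Sy.r)
        (((Unit ⊕ Fin n) × Fin Sx.r) × Fin Sy.r) H),
      a * ai = 1 ∧ b * bi = 1 ∧
      b.map (Bialgebra.comulAlgHom k H) = b.map (iL : H →ₐ[k] H ⊗[k] H) *
        b.map (iR : H →ₐ[k] H ⊗[k] H) ∧
      (((rho1 Sx).d f) ⊗ₖ (1 : Matrix (Fin Sy.r) (Fin Sy.r) (H ⊗[k] H))) =
        X.map (iL : H →ₐ[k] H ⊗[k] H) +
        Lm Sx Sy (a.map (iL : H →ₐ[k] H ⊗[k] H))
            ((b.map (iL : H →ₐ[k] H ⊗[k] H)).map (fun z => z^p)) *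
          X.map (iR : H →ₐ[k] H ⊗[k] H) *
        Lm Sx Sy (ai.map (iL : H →ₐ[k] H ⊗[k] H))
            ((bi.map (iL : H →ₐ[k] H ⊗[k] H)).map (fun z => z^p)) -
        X.map (Bialgebra.comulAlgHom k H) := by
  haveI := charP_tensor (H := H) (k := k) p
  obtain ⟨Q, E, iQ, dQ, iE, dE, m, hm, ρ, e0, ε, μ, gu, hOk, hCob, hε, hgua, hcomp⟩ :=
    exists_data ha hn hgen hf
  obtain ⟨q, Sx, Sy, X, hX⟩ := core p hn hm hOk hCob hε _ _ _ f hcomp
  subst hgua
  refine ⟨m, q, Sx, Sy, gam ρ e0 ε gu.a gu.χi, gam ρ e0 ε gu.ai gu.χ, gu.ai, X, hOk.inv,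
    Good.gam_inv ε hOk hε, ?_, ?_⟩
  · have h1 := (Good.gam_mul ε (Good.map hOk (iL : H →ₐ[k] H ⊗[k] H))
      (Good.map hOk (iR : H →ₐ[k] H ⊗[k] H)) hε hcomp.a hcomp.χi
      (Good.map hOk (Bialgebra.comulAlgHom k H))).1
    rw [gam_map, gam_map, gam_map]
    exact h1
  · rw [gam_map, gam_map]
    exact hX

end coreH

end Pool.Agent.LN
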