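import Pool.Agent.Helper208_LN.Hopf8

set_option autoImplicit false
set_option linter.unusedSectionVars false
set_option linter.style.haveILetI false

namespace Pool.Agent.LN
open Matrix Finset
open scoped TensorProduct Kronecker

section lm
variable {k : Type} [Field k] {n m q : ℕ} (Sx : SData k n q) (Sy : SData k m q)
variable {C C' : Type} [CommRing C] [Algebra k C] [CommRing C'] [Algebra k C']

lemma Lm_inv' {a ai : Matrix (Fin n) (Fin n) C} {b bi : Matrix (Fin m) (Fin m) C}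
    (ha : a * ai = 1) (hb : b * bi = 1) : Lm Sx Sy a b * Lm Sx Sy ai bi = 1 := by
  unfold Lm
  rw [← Matrix.mul_kronecker_mul, PRep.ev_mul_inv _ ha, PRep.ev_mul_inv _ hb,
    Matrix.one_kronecker_one]

lemma Lm_map' (φ : C →ₐ[k] C') (a : Matrix (Fin n) (Fin n) C) (b : Matrix (Fin m) (Fin m) C) :
    (Lm Sx Sy a b).map φ = Lm Sx Sy (a.map φ) (b.map φ) := by
  unfold Lm
  rw [← PRep.ev_map, ← PRep.ev_map]
  ext ⟨a, c⟩ ⟨a', c'⟩
  simp only [Matrix.map_apply, Matrix.kroneckerMap_apply, map_mul]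

lemma Lm_expand' (a : Matrix (Fin n) (Fin n) C) (b : Matrix (Fin m) (Fin m) C) :
    Lm Sx Sy a b = (((PRep.oneId k n).ev a) ⊗ₖ (Sx.ρ.ev a)) ⊗ₖ (Sy.ρ.ev b) := by
  unfold Lm rho1
  rw [PRep.kron_ev]

lemma Lm_mul (a a' : Matrix (Fin n) (Fin n) C) (b b' : Matrix (Fin m) (Fin m) C)
    (ha : IsUnit a.det) (ha' : IsUnit a'.det) (hb : IsUnit b.det) (hb' : IsUnit b'.det) :
    Lm Sx Sy (a * a') (b * b') = Lm Sx Sy a b * Lm Sx Sy a' b' := by
  unfold Lm
  rw [← Matrix.mul_kronecker_mul, PRep.ev_mul _ _ _ ha ha', PRep.ev_mul _ _ _ hb hb']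

lemma Lm_one_add {e : C} (he : e * e = 0) (P : Matrix (Fin n) (Fin n) C) :
    Lm Sx Sy (1 + e • P) 1 = 1 + e • (((rho1 Sx).d P) ⊗ₖ (1 : Matrix (Fin Sy.r) (Fin Sy.r) C)) := by
  unfold Lm
  rw [PRep.ev_one_add _ e he, PRep.ev_one, Matrix.add_kronecker, Matrix.one_kronecker_one,
    Matrix.smul_kronecker]

end lm

section gen
variable {C : Type} [CommRing C]

lemma pow_of_diff (p : ℕ) [hp : Fact p.Prime] [CharP C p] {e x y z : C} (he : e * e = 0)
    (h : x = y + e * z) : x ^ p = y ^ p := by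
  rw [h, add_pow_char, mul_pow]
  have : e ^ p = 0 := by
    obtain ⟨j, hj⟩ : ∃ j, p = j + 2 := ⟨p - 2, by have := hp.out.two_le; omega⟩
    rw [hj, pow_add, pow_two, he, mul_zero]
  rw [this, zero_mul, add_zero]

variable {N : Type} [Fintype N] [DecidableEq N]

lemma one_add_mul_one_add {e : C} (he : e * e = 0) (X Y : Matrix N N C) :
    (1 + e • X) * (1 + e • Y) = 1 + e • (X + Y) := by
  rw [mul_add, mul_one, add_mul, one_mul, Matrix.smul_mul, Matrix.mul_smul, smul_smul, he,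
    zero_smul, add_zero, smul_add, add_assoc]

lemma mmap_one_add {C' : Type} [CommRing C'] (φ : C →+* C') (e : C) (X : Matrix N N C) :
    (1 + e • X).map φ = 1 + φ e • X.map φ := by
  rw [Matrix.map_add _ (map_add φ), Matrix.map_one _ (map_zero φ) (map_one φ)]
  congr 1
  refine Matrix.ext fun i j => ?_
  simp only [Matrix.map_apply, Matrix.smul_apply, smul_eq_mul, map_mul]

end gen

section lift
variable {k : Type} [Field k] {n m q : ℕ} (Sx : SData k n q) (Sy : SData k m q)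
variable {A T H H₂ : Type} [CommRing A] [Algebra k A] [CommRing T] [Algebra k T]
  [CommRing H] [Algebra k H] [CommRing H₂] [Algebra k H₂]

theorem lift_rep (p : ℕ) [hp : Fact p.Prime] [CharP T p]
    (i₁ i₂ i₃ : A →ₐ[k] T) (g₁ g₂ g₃ : H →ₐ[k] H₂) (π : A →ₐ[k] H) (π₂ : T →ₐ[k] H₂)
    (h₁ : ∀ x, π₂ (i₁ x) = g₁ (π x)) (h₂ : ∀ x, π₂ (i₂ x) = g₂ (π x))
    (h₃ : ∀ x, π₂ (i₃ x) = g₃ (π x))
    (e : A) (eT : T) (heT : eT * eT = 0) (he1 : i₁ e = eT) (he2 : i₂ e = eT) (he3 : i₃ e = eT)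
    (hker : ∀ x, π₂ x = 0 → ∃ y, x = eT * y)
    (a ai : Matrix (Fin n) (Fin n) A) (ha : a * ai = 1) (f : Matrix (Fin n) (Fin n) T)
    (hcom : a.map i₃ = (1 + eT • f) * (a.map i₁ * a.map i₂))
    (b bi : Matrix (Fin m) (Fin m) A) (hb : b * bi = 1)
    (hbm : (b.map π).map g₃ = (b.map π).map g₁ * (b.map π).map g₂)
    (X : Matrix (((Unit ⊕ Fin n) × Fin Sx.r) × Fin Sy.r)
        (((Unit ⊕ Fin n) × Fin Sx.r) × Fin Sy.r) A)
    (hX : (((rho1 Sx).d (f.map π₂)) ⊗ₖ (1 : Matrix (Fin Sy.r) (Fin Sy.r) H₂)) =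
      (X.map π).map g₁ + Lm Sx Sy ((a.map π).map g₁) (((b.map π).map g₁).map (fun z => z^p)) *
        (X.map π).map g₂ * Lm Sx Sy ((ai.map π).map g₁) (((bi.map π).map g₁).map (fun z => z^p)) -
        (X.map π).map g₃) :
    ((1 + e • X) * Lm Sx Sy a (b.map (fun z => z^p))).map i₃ =
      ((1 + e • X) * Lm Sx Sy a (b.map (fun z => z^p))).map i₁ *
      ((1 + e • X) * Lm Sx Sy a (b.map (fun z => z^p))).map i₂ := by
  have hmp : ∀ (i : A →ₐ[k] T) (M : Matrix (Fin m) (Fin m) A),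
      (M.map (fun z => z^p)).map i = (M.map i).map (fun z => z^p) := by
    intro i M
    refine Matrix.ext fun α β => ?_
    simp only [Matrix.map_apply, map_pow]
  have hone : ∀ i : A →ₐ[k] T, a.map i * ai.map i = 1 := by
    intro i
    rw [← Matrix.map_mul, ha]; exact Matrix.map_one _ (map_zero _) (map_one _)
  have hbone : ∀ i : A →ₐ[k] T, b.map i * bi.map i = 1 := by
    intro i
    rw [← Matrix.map_mul, hb]; exact Matrix.map_one _ (map_zero _) (map_one _)
  have hbp : ∀ i : A →ₐ[k] T, (b.map i).map (fun z => z^p) * (bi.map i).map (fun z => z^p) = 1 := by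
    intro i
    rw [← map_pow_mul, hbone, map_pow_one]
  -- (1)
  have e1 : (b.map i₃).map (fun z => z^p) =
      (b.map i₁).map (fun z => z^p) * (b.map i₂).map (fun z => z^p) := by
    rw [← map_pow_mul]
    refine Matrix.ext fun α β => ?_
    simp only [Matrix.map_apply]
    have h4 : π₂ (i₃ (b α β) - (b.map i₁ * b.map i₂) α β) = 0 := by
      rw [map_sub, h₃, sub_eq_zero]
      have h5 := congrFun (congrFun hbm α) β
      simp only [Matrix.map_apply] at h5
      rw [h5, Matrix.mul_apply, Matrix.mul_apply, map_sum]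
      refine Finset.sum_congr rfl fun l _ => ?_
      simp only [Matrix.map_apply, map_mul, h₁, h₂]
    obtain ⟨z, hz⟩ := hker _ h4
    exact pow_of_diff p heT (z := z) (by rw [← hz]; ring)
  -- (2)
  set L₁ := Lm Sx Sy (a.map i₁) ((b.map i₁).map (fun z => z^p)) with hL₁
  set L₂ := Lm Sx Sy (a.map i₂) ((b.map i₂).map (fun z => z^p)) with hL₂
  set Li₁ := Lm Sx Sy (ai.map i₁) ((bi.map i₁).map (fun z => z^p)) with hLi₁
  set D := ((rho1 Sx).d f) ⊗ₖ (1 : Matrix (Fin Sy.r) (Fin Sy.r) T) with hD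
  have hL1 : L₁ * Li₁ = 1 := Lm_inv' Sx Sy (hone i₁) (hbp i₁)
  have e2 : Lm Sx Sy (a.map i₃) ((b.map i₃).map (fun z => z^p)) = (1 + eT • D) * (L₁ * L₂) := by
    rw [hcom, e1, hD, ← Lm_one_add Sx Sy heT, hL₁, hL₂, ← Lm_mul, ← Lm_mul, Matrix.one_mul]
    · exact PRep.isUnit_det_one_add heT f
    · rw [Matrix.det_mul]
      exact ((PRep.isUnit_det_of_mul_eq_one (hone i₁)).1).mul
        ((PRep.isUnit_det_of_mul_eq_one (hone i₂)).1)
    · rw [Matrix.det_one]; exact isUnit_one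
    · rw [Matrix.det_mul]
      exact ((PRep.isUnit_det_of_mul_eq_one (hbp i₁)).1).mul
        ((PRep.isUnit_det_of_mul_eq_one (hbp i₂)).1)
    · exact (PRep.isUnit_det_of_mul_eq_one (hone i₁)).1
    · exact (PRep.isUnit_det_of_mul_eq_one (hone i₂)).1
    · exact (PRep.isUnit_det_of_mul_eq_one (hbp i₁)).1
    · exact (PRep.isUnit_det_of_mul_eq_one (hbp i₂)).1
  have hc : ∀ i : A →ₐ[k] T, i e = eT → ((1 + e • X) * Lm Sx Sy a (b.map (fun z => z^p))).map i =
      (1 + eT • X.map i) * Lm Sx Sy (a.map i) ((b.map i).map (fun z => z^p)) := by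
    intro i hi
    rw [Matrix.map_mul, Lm_map', hmp]
    congr 1
    have := mmap_one_add (i : A →+* T) e X
    simp only [RingHom.coe_coe] at this
    rw [this, hi]
  rw [hc i₁ he1, hc i₂ he2, hc i₃ he3, e2, ← hL₁, ← hL₂]
  -- (5)
  have e5 : eT • (X.map i₃ + D) = eT • (X.map i₁ + L₁ * X.map i₂ * Li₁) := by
    rw [← sub_eq_zero, ← smul_sub]
    refine Matrix.ext fun α β => ?_
    have h6 : ((X.map i₃ + D) - (X.map i₁ + L₁ * X.map i₂ * Li₁)).map π₂ = 0 := by
      have hm1 : ∀ (i : A →ₐ[k] T) (g : H →ₐ[k] H₂) (_ : ∀ x, π₂ (i x) = g (π x)) (N : Type)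
          (M : Matrix N N A), (M.map i).map π₂ = (M.map π).map g := by
        intro i g hi N M
        refine Matrix.ext fun α β => ?_
        simp only [Matrix.map_apply, hi]
      have hmp2 : ∀ (M : Matrix (Fin m) (Fin m) T),
          (M.map (fun z => z^p)).map π₂ = (M.map π₂).map (fun z => z^p) := by
        intro M
        refine Matrix.ext fun α β => ?_
        simp only [Matrix.map_apply, map_pow]
      have hDm : D.map π₂ = (((rho1 Sx).d (f.map π₂)) ⊗ₖ (1 : Matrix (Fin Sy.r) (Fin Sy.r) H₂)) := by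
        rw [hD, ← PRep.d_map]
        refine Matrix.ext ?_
        rintro ⟨α, β⟩ ⟨γ, δ⟩
        simp only [Matrix.map_apply, Matrix.kroneckerMap_apply, map_mul, Matrix.one_apply,
          apply_ite π₂, map_one, map_zero]
      have hL₁m : L₁.map π₂ = Lm Sx Sy ((a.map π).map g₁) (((b.map π).map g₁).map (fun z => z^p)) := by
        rw [hL₁, Lm_map', hmp2, hm1 i₁ g₁ h₁, hm1 i₁ g₁ h₁]
      have hLi₁m : Li₁.map π₂ =
          Lm Sx Sy ((ai.map π).map g₁) (((bi.map π).map g₁).map (fun z => z^p)) := by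
        rw [hLi₁, Lm_map', hmp2, hm1 i₁ g₁ h₁, hm1 i₁ g₁ h₁]
      rw [Matrix.map_sub _ (map_sub π₂), Matrix.map_add _ (map_add π₂),
        Matrix.map_add _ (map_add π₂), Matrix.map_mul, Matrix.map_mul, hDm, hL₁m, hLi₁m, hX,
        hm1 i₁ g₁ h₁, hm1 i₂ g₂ h₂, hm1 i₃ g₃ h₃]
      abel
    have h7 := congrFun (congrFun h6 α) β
    rw [Matrix.map_apply, Matrix.zero_apply] at h7
    obtain ⟨z, hz⟩ := hker _ h7
    rw [Matrix.smul_apply, hz, smul_eq_mul, ← mul_assoc, heT, zero_mul, Matrix.zero_apply]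
  calc (1 + eT • X.map i₃) * ((1 + eT • D) * (L₁ * L₂))
      = (1 + eT • (X.map i₃ + D)) * (L₁ * L₂) := by
        rw [← Matrix.mul_assoc, one_add_mul_one_add heT]
    _ = (1 + eT • (X.map i₁ + L₁ * X.map i₂ * Li₁)) * (L₁ * L₂) := by rw [e5]
    _ = (1 + eT • X.map i₁) * (1 + eT • (L₁ * X.map i₂ * Li₁)) * (L₁ * L₂) := by
        rw [one_add_mul_one_add heT]
    _ = (1 + eT • X.map i₁) * ((1 + eT • (L₁ * X.map i₂ * Li₁)) * L₁) * L₂ := by
        simp only [Matrix.mul_assoc]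
    _ = (1 + eT • X.map i₁) * (L₁ * (1 + eT • X.map i₂)) * L₂ := by
        congr 2
        have hLiL : Li₁ * L₁ = 1 := mul_eq_one_comm.1 hL1
        rw [add_mul, one_mul, mul_add, mul_one, Matrix.smul_mul, Matrix.mul_smul,
          Matrix.mul_assoc (L₁ * X.map i₂), hLiL, Matrix.mul_one]
    _ = _ := by simp only [Matrix.mul_assoc]

/-- lifting of invertible matrices -/
lemma lift_inv {N : Type} [Fintype N] [DecidableEq N] (π : A →+* H)
    (hπs : Function.Surjective π) (e : A) (he : e * e = 0) (hπe : π e = 0)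
    (hker : ∀ x, π x = 0 → ∃ y, x = e * y) (b bi : Matrix N N H) (hb : b * bi = 1) :
    ∃ B Bi : Matrix N N A, B * Bi = 1 ∧ B.map π = b ∧ Bi.map π = bi := by
  choose s hs using hπs
  let B : Matrix N N A := b.map s
  let B' : Matrix N N A := bi.map s
  have hB : B.map π = b := by
    refine Matrix.ext fun i j => ?_
    simp only [B, Matrix.map_apply, hs]
  have hB' : B'.map π = bi := by
    refine Matrix.ext fun i j => ?_
    simp only [B', Matrix.map_apply, hs]
  have h1 : ∀ i j, ∃ y, (B * B' - 1) i j = e * y := by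
    intro i j
    apply hker
    have h2 : (B * B' - 1).map π = 0 := by
      rw [Matrix.map_sub _ (map_sub π), Matrix.map_mul, hB, hB', hb,
        Matrix.map_one _ (map_zero π) (map_one π), sub_self]
    exact congrFun (congrFun h2 i) j
  choose M hM using h1
  have h3 : B * B' = 1 + e • (Matrix.of M) := by
    refine Matrix.ext fun i j => ?_
    have := hM i j
    rw [Matrix.sub_apply, sub_eq_iff_eq_add'] at this
    rw [this, Matrix.add_apply, Matrix.smul_apply, Matrix.of_apply, smul_eq_mul]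
  refine ⟨B, B' * (1 + e • (-Matrix.of M)), ?_, hB, ?_⟩
  · rw [← Matrix.mul_assoc, h3, one_add_mul_one_add he, add_neg_cancel, smul_zero, add_zero]
  · rw [Matrix.map_mul, hB', mmap_one_add, hπe, zero_smul, add_zero, Matrix.mul_one]

end lift

end Pool.Agent.LN
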