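import Pool.Agent.Helper208_LN.Gen

set_option autoImplicit false
set_option linter.unusedSectionVars false
set_option linter.style.haveILetI false

namespace Pool.Agent.LN
open Matrix Finset
open scoped TensorProduct Kronecker

section main
variable {k R : Type} [Field k] [CommRing R] [Algebra k R] [Algebra R k] [IsScalarTower k R k]
variable {A : Type} [CommRing A] [HopfAlgebra R A] [Algebra k A] [IsScalarTower k R A] {ε : R}

/-- lifting of the comultiplication -/
lemma exists_ftilde (h : DN k R ε) {n : ℕ} (a ai : Matrix (Fin n) (Fin n) A) (ha : a * ai = 1)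
    (hG : GrpL k (a.map (pA k R A))) : ∃ f : Matrix (Fin n) (Fin n) (A ⊗[R] A),
      a.map (Bialgebra.comulAlgHom R A) = (1 + (algebraMap R (A ⊗[R] A) ε) • f) *
      (a.map (iL : A →ₐ[R] A ⊗[R] A) * a.map (iR : A →ₐ[R] A ⊗[R] A)) := by
  have h1 : ∀ i j, ∃ y, (a.map (Bialgebra.comulAlgHom R A) -
      a.map (iL : A →ₐ[R] A ⊗[R] A) * a.map (iR : A →ₐ[R] A ⊗[R] A)) i j = ε • y := by
    intro i j
    apply pAA_ker h
    rw [Matrix.sub_apply, map_sub, sub_eq_zero, Matrix.map_apply, Matrix.mul_apply, map_sum]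
    have h2 := hG.comul i j
    simp only [Matrix.map_apply] at h2
    rw [comul_pA] at h2
    have h3 : pAA k R A (Bialgebra.comulAlgHom R A (a i j)) =
        pAA k R A (Coalgebra.comul (R := R) (a i j)) := rfl
    rw [h3, h2]
    refine Finset.sum_congr rfl fun l _ => ?_
    rw [← pAA_tmul]
    congr 1
    simp only [Matrix.map_apply, Algebra.TensorProduct.includeLeft_apply,
      Algebra.TensorProduct.includeRight_apply, Algebra.TensorProduct.tmul_mul_tmul, mul_one,
      one_mul]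
  choose G hG' using h1
  have hinv : ∀ x : A →ₐ[R] A ⊗[R] A, a.map x * ai.map x = 1 := by
    intro x
    rw [← Matrix.map_mul, ha]; exact Matrix.map_one _ (map_zero _) (map_one _)
  refine ⟨Matrix.of G * (ai.map (iR : A →ₐ[R] A ⊗[R] A) * ai.map (iL : A →ₐ[R] A ⊗[R] A)), ?_⟩
  have h4 : a.map (Bialgebra.comulAlgHom R A) = a.map (iL : A →ₐ[R] A ⊗[R] A) *
      a.map (iR : A →ₐ[R] A ⊗[R] A) + (algebraMap R (A ⊗[R] A) ε) • Matrix.of G := by
    refine Matrix.ext fun i j => ?_
    have h5 := hG' i j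
    rw [Matrix.sub_apply, sub_eq_iff_eq_add'] at h5
    rw [h5, Matrix.add_apply, Matrix.smul_apply, Matrix.of_apply, smul_eq_mul, ← Algebra.smul_def]
  rw [h4, add_mul, one_mul, Matrix.smul_mul]
  congr 2
  have h6 : (ai.map (iR : A →ₐ[R] A ⊗[R] A) * ai.map (iL : A →ₐ[R] A ⊗[R] A)) *
      (a.map (iL : A →ₐ[R] A ⊗[R] A) * a.map (iR : A →ₐ[R] A ⊗[R] A)) = 1 := by
    calc _ = ai.map (iR : A →ₐ[R] A ⊗[R] A) * (ai.map (iL : A →ₐ[R] A ⊗[R] A) *
          a.map (iL : A →ₐ[R] A ⊗[R] A)) * a.map (iR : A →ₐ[R] A ⊗[R] A) := by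
          simp only [Matrix.mul_assoc]
      _ = 1 := by rw [mul_eq_one_comm.1 (hinv iL), Matrix.mul_one, mul_eq_one_comm.1 (hinv iR)]
  rw [Matrix.mul_assoc, h6, Matrix.mul_one]

theorem exists_rep (p : ℕ) [hp : Fact p.Prime] [CharP k p] (h : DN k R ε) [Module.Flat R A]
    [Algebra.FiniteType R A] : ∃ (N : Type) (_ : Fintype N) (_ : DecidableEq N) (c : Matrix N N A),
      GrpL R c ∧ Algebra.adjoin R (Set.range (fun ij : N × N => c ij.1 ij.2) ∪
      Set.range (fun ij : N × N => HopfAlgebra.antipode R (c ij.1 ij.2))) = ⊤ := by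
  haveI : Algebra.FiniteType k (k ⊗[R] A) := inferInstance
  obtain ⟨n, hn, a, hcomul, hcounit, hgen⟩ := exists_grouplike (k := k) (H := k ⊗[R] A)
  have ha : GrpL k a := ⟨hcomul, hcounit⟩
  have haid : a.map (AlgHom.id k (k ⊗[R] A)) = a := Matrix.ext fun i j => rfl
  have hainv : a * a.map (inv' (AlgHom.id k (k ⊗[R] A))) = 1 := by
    have := ha.mul_inv (AlgHom.id k (k ⊗[R] A))
    rwa [haid] at this
  have he : algebraMap R A ε * algebraMap R A ε = 0 := by rw [← map_mul, h.sq, map_zero]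
  have hpe : pA k R A (algebraMap R A ε) = 0 := by
    rw [AlgHom.commutes, IsScalarTower.algebraMap_apply R k (k ⊗[R] A), h.zero, map_zero]
  have hpk : ∀ x, pA k R A x = 0 → ∃ y, x = algebraMap R A ε * y := by
    intro x hx
    obtain ⟨y, hy⟩ := pA_ker h x hx
    exact ⟨y, by rw [hy, Algebra.smul_def]⟩
  obtain ⟨a', ai', ha'inv, ha'π, hai'π⟩ := lift_inv ((pA k R A : A →ₐ[R] k ⊗[R] A) : A →+* k ⊗[R] A)
    (pA_surj h) _ he hpe hpk _ _ hainv
  have ha'π' : a'.map (pA k R A) = a := ha'π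
  have hai'π' : ai'.map (pA k R A) = a.map (inv' (AlgHom.id k (k ⊗[R] A))) := hai'π
  have hGa' : GrpL k (a'.map (pA k R A)) := by rw [ha'π']; exact ha
  obtain ⟨f, hf⟩ := exists_ftilde h a' ai' ha'inv hGa'
  have hcoc := coc_of h ha'inv hf hGa'
  rw [ha'π'] at hcoc
  obtain ⟨m, q, Sx, Sy, b, bi, ai, X, hai, hb, hbm, hX⟩ := coreH p ha hn hgen hcoc
  have hai2 : ai = ai'.map (pA k R A) := by
    rw [hai'π']
    have h7 := mul_eq_one_comm.1 hainv
    calc ai = (a.map (inv' (AlgHom.id k (k ⊗[R] A))) * a) * ai := by rw [h7, Matrix.one_mul]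
      _ = _ := by rw [Matrix.mul_assoc, hai, Matrix.mul_one]
  obtain ⟨b', bi', hb'inv, hb'π, hbi'π⟩ := lift_inv
    ((pA k R A : A →ₐ[R] k ⊗[R] A) : A →+* k ⊗[R] A) (pA_surj h) _ he hpe hpk _ _ hb
  have hs := pA_surj (A := A) h
  choose s hs' using hs
  let X' := X.map s
  have hX'π : X'.map (pA k R A) = X := by
    refine Matrix.ext fun i j => ?_
    simp only [X', Matrix.map_apply, hs']
  -- instances
  haveI : Nontrivial ((k ⊗[R] A) ⊗[k] (k ⊗[R] A)) := nontrivial_of_hopf k _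
  haveI : Nontrivial (A ⊗[R] A) := (pAA k R A : A ⊗[R] A →ₐ[R] _).toRingHom.domain_nontrivial
  haveI : CharP (A ⊗[R] A) p :=
    charP_of_injective_algebraMap (algebraMap k (A ⊗[R] A)).injective p
  have heT : algebraMap R (A ⊗[R] A) ε * algebraMap R (A ⊗[R] A) ε = 0 := by
    rw [← map_mul, h.sq, map_zero]
  have key := lift_rep Sx Sy (A := A) (T := A ⊗[R] A) (H := k ⊗[R] A)
    (H₂ := (k ⊗[R] A) ⊗[k] (k ⊗[R] A)) p
    ((iL : A →ₐ[R] A ⊗[R] A).restrictScalars k) ((iR : A →ₐ[R] A ⊗[R] A).restrictScalars k)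
    ((Bialgebra.comulAlgHom R A).restrictScalars k)
    (iL : k ⊗[R] A →ₐ[k] (k ⊗[R] A) ⊗[k] (k ⊗[R] A)) iR (Bialgebra.comulAlgHom k (k ⊗[R] A))
    ((pA k R A).restrictScalars k) ((pAA k R A).restrictScalars k)
    (fun x => by
      show pAA k R A (x ⊗ₜ 1) = pA k R A x ⊗ₜ 1
      rw [pAA_tmul, map_one])
    (fun x => by
      show pAA k R A (1 ⊗ₜ x) = 1 ⊗ₜ pA k R A x
      rw [pAA_tmul, map_one])
    (fun x => (comul_pA x).symm)
    (algebraMap R A ε) (algebraMap R (A ⊗[R] A) ε) heT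
    (AlgHom.commutes (iL : A →ₐ[R] A ⊗[R] A) ε) (AlgHom.commutes (iR : A →ₐ[R] A ⊗[R] A) ε)
    (AlgHom.commutes (Bialgebra.comulAlgHom R A) ε)
    (fun x hx => by
      obtain ⟨y, hy⟩ := pAA_ker h x hx
      exact ⟨y, by rw [hy, Algebra.smul_def]⟩)
    a' ai' ha'inv f hf b' bi' hb'inv
    (by
      have e1 : b'.map ((pA k R A).restrictScalars k) = b := hb'π
      rw [e1]; exact hbm)
    X'
    (by
      have e1 : b'.map ((pA k R A).restrictScalars k) = b := hb'π
      have e2 : bi'.map ((pA k R A).restrictScalars k) = bi := hbi'π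
      have e3 : a'.map ((pA k R A).restrictScalars k) = a := ha'π
      have e4 : ai'.map ((pA k R A).restrictScalars k) = ai := hai2.symm
      have e5 : X'.map ((pA k R A).restrictScalars k) = X := hX'π
      rw [e1, e2, e3, e4, e5]
      exact hX)
  have hbp : b'.map (fun z => z^p) * bi'.map (fun z => z^p) = 1 := by
    haveI : Nontrivial (k ⊗[R] A) := nontrivial_of_hopf k _
    haveI : Nontrivial A := (pA k R A : A →ₐ[R] _).toRingHom.domain_nontrivial
    haveI : CharP A p := charP_of_injective_algebraMap (algebraMap k A).injective p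
    rw [← map_pow_mul, hb'inv, map_pow_one]
  have hL : Lm Sx Sy a' (b'.map (fun z => z^p)) * Lm Sx Sy ai' (bi'.map (fun z => z^p)) = 1 :=
    Lm_inv' Sx Sy ha'inv hbp
  have hcinv : ((1 + algebraMap R A ε • X') * Lm Sx Sy a' (b'.map (fun z => z^p))) *
      (Lm Sx Sy ai' (bi'.map (fun z => z^p)) * (1 + algebraMap R A ε • (-X'))) = 1 := by
    calc _ = (1 + algebraMap R A ε • X') * (Lm Sx Sy a' (b'.map (fun z => z^p)) *
          Lm Sx Sy ai' (bi'.map (fun z => z^p))) * (1 + algebraMap R A ε • (-X')) := by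
          simp only [Matrix.mul_assoc]
      _ = 1 := by
          rw [hL, Matrix.mul_one, one_add_mul_one_add he, add_neg_cancel, smul_zero, add_zero]
  have hc : GrpL R ((1 + algebraMap R A ε • X') * Lm Sx Sy a' (b'.map (fun z => z^p))) :=
    finish hcinv key
  have hcπ : ((1 + algebraMap R A ε • X') * Lm Sx Sy a' (b'.map (fun z => z^p))).map (pA k R A) =
      Lm Sx Sy a (b.map (fun z => z^p)) := by
    have e0 := mmap_one_add ((pA k R A : A →ₐ[R] k ⊗[R] A) : A →+* k ⊗[R] A) (algebraMap R A ε) X'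
    simp only [RingHom.coe_coe] at e0
    rw [Matrix.map_mul, e0, hpe, zero_smul, add_zero, Matrix.one_mul]
    have e1 := Lm_map' Sx Sy ((pA k R A).restrictScalars k) a' (b'.map (fun z => z^p))
    have e2 : (b'.map (fun z => z^p)).map ((pA k R A).restrictScalars k) =
        b.map (fun z => z^p) := by
      rw [← hb'π]
      refine Matrix.ext fun i j => ?_
      simp only [Matrix.map_apply]
      exact map_pow _ _ _
    have e3 : a'.map ((pA k R A).restrictScalars k) = a := ha'π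
    rw [e2, e3] at e1
    exact e1
  have hcG : GrpL k (Lm Sx Sy a (b.map (fun z => z^p))) := by
    rw [← hcπ]; exact GrpL_red hc
  have hbp' : b.map (fun z => z^p) * bi.map (fun z => z^p) = 1 := by
    haveI : Nontrivial (k ⊗[R] A) := nontrivial_of_hopf k _
    haveI : CharP (k ⊗[R] A) p :=
      charP_of_injective_algebraMap (algebraMap k (k ⊗[R] A)).injective p
    rw [← map_pow_mul, hb, map_pow_one]
  have hgenL := gen_L Sx Sy a ai (b.map (fun z => z^p)) (bi.map (fun z => z^p)) hai hbp' hcG hgen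
  rw [← hcπ] at hgenL
  exact ⟨_, inferInstance, inferInstance, _, hc, gen_of h _ hgenL⟩

end main

end Pool.Agent.LN
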