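import Pool.Agent.Helper208_LN.SData

set_option autoImplicit false
set_option linter.unusedSectionVars false
set_option linter.style.haveILetI false

namespace Pool.Agent.LN
open Matrix Finset

section
variable {Q E : Type} [Fintype Q] [DecidableEq Q] [Fintype E] [DecidableEq E]
variable {O O' : Type} [CommRing O] [CommRing O']

abbrev II (Q E : Type) : Type := Q ⊕ Unit → Q ⊕ E

def cl (j : E) : II Q E := Sum.map id (fun _ => j)

/-- the `(d+1)`-minor with rows `f` and columns `Q ∪ {j}` -/
def minor (f : II Q E) (j : E) (B : Matrix (Q ⊕ E) (Q ⊕ E) O) : O :=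
  (Matrix.of fun o o' => B (f o) (cl j o')).det

lemma minor_map (φ : O →+* O') (f : II Q E) (j : E) (B : Matrix (Q ⊕ E) (Q ⊕ E) O) :
    φ (minor f j B) = minor f j (B.map φ) := by
  unfold minor
  rw [RingHom.map_det]
  rfl

lemma det_fromCols_sum {ι : Type} (s : Finset ι) (P : Matrix (Q ⊕ Unit) Q O) (c : ι → O)
    (u : ι → Matrix (Q ⊕ Unit) Unit O) :
    (Matrix.fromCols P (∑ i ∈ s, c i • u i)).det = ∑ i ∈ s, c i * (Matrix.fromCols P (u i)).det := by
  have h : ∀ w : Matrix (Q ⊕ Unit) Unit O, (Matrix.fromCols P w).det =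
      Matrix.cramer (Matrix.fromCols P (0 : Matrix (Q ⊕ Unit) Unit O)) (fun o => w o ()) (Sum.inr ()) := by
    intro w
    rw [Matrix.cramer_apply]
    congr 1
    ext o o'
    rcases o' with q | u
    · rw [Matrix.updateCol_ne (by simp)]; rfl
    · obtain rfl : u = () := rfl
      rw [Matrix.updateCol_self]; rfl
  rw [h]
  have h2 : (fun o => (∑ i ∈ s, c i • u i) o ()) = ∑ i ∈ s, c i • (fun o => u i o ()) := by
    ext o
    simp [Matrix.sum_apply, Finset.sum_apply]
  rw [h2, map_sum, Finset.sum_apply]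
  refine Finset.sum_congr rfl fun i _ => ?_
  rw [map_smul, Pi.smul_apply, smul_eq_mul, ← h]

lemma minor_mul (f : II Q E) (j : E) (B B' : Matrix (Q ⊕ E) (Q ⊕ E) O)
    (hB : ∀ e q, B' (Sum.inr e) (Sum.inl q) = 0) :
    minor f j (B * B') = B'.toBlocks₁₁.det * ∑ i, B' (Sum.inr i) (Sum.inr j) * minor f i B := by
  let P : Matrix (Q ⊕ Unit) Q O := Matrix.of fun o q => B (f o) (Sum.inl q)
  let u : E → Matrix (Q ⊕ Unit) Unit O := fun i => Matrix.of fun o _ => B (f o) (Sum.inr i)
  let β : Matrix Q Unit O := Matrix.of fun q _ => B' (Sum.inl q) (Sum.inr j)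
  have h1 : ∀ i, minor f i B = (Matrix.fromCols P (u i)).det := by
    intro i
    unfold minor
    congr 1
    ext o o'
    rcases o' with q | w <;> rfl
  have h2 : minor f j (B * B') = (Matrix.fromCols P (∑ i, B' (Sum.inr i) (Sum.inr j) • u i) *
      Matrix.fromBlocks B'.toBlocks₁₁ β 0 1).det := by
    unfold minor
    congr 1
    rw [Matrix.fromCols_mul_fromBlocks]
    ext o o'
    rcases o' with q | w
    · simp only [Matrix.of_apply, cl, Sum.map_inl, id, Matrix.mul_apply, Fintype.sum_sum_type, hB,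
        mul_zero, Finset.sum_const_zero, add_zero, Matrix.fromCols_apply_inl, Matrix.add_apply,
        Matrix.toBlocks₁₁, P, Matrix.zero_apply]
    · simp only [Matrix.of_apply, cl, Sum.map_inr, Matrix.mul_apply, Fintype.sum_sum_type,
        Matrix.fromCols_apply_inr, Matrix.add_apply, P, β, Matrix.mul_one]
      congr 1
      simp only [Matrix.sum_apply, Matrix.smul_apply, u, Matrix.of_apply, smul_eq_mul]
      exact Finset.sum_congr rfl fun i _ => mul_comm _ _
  rw [h2, Matrix.det_mul, Matrix.det_fromBlocks_zero₂₁, Matrix.det_one, mul_one,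
    det_fromCols_sum, mul_comm]
  simp only [h1]

/-- expansion of the determinant along row combinations -/
lemma det_expand' {m L : Type} [Fintype m] [DecidableEq m] [Fintype L] [DecidableEq L]
    (M : m → L → O) (s : m → L) :
    (Matrix.of fun i j => M i (s j)).det = ∑ φ : m → L, (∏ i, M i (φ i)) *
      (Matrix.of fun i j => if φ i = s j then (1:O) else 0).det := by
  have h1 : (Matrix.of fun i j => M i (s j)).det =
      Matrix.detRowAlternating (fun i => ∑ l, M i l • (fun j => if l = s j then (1:O) else 0 : m → O)) := by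
    show Matrix.detRowAlternating _ = _
    congr 1
    ext i j
    simp [Finset.sum_apply]
  rw [h1]
  have h2 := (Matrix.detRowAlternating (n := m) (R := O)).toMultilinearMap.map_sum
    (fun i (l : L) => M i l • (fun j => if l = s j then (1:O) else 0 : m → O))
  simp only [AlternatingMap.coe_multilinearMap] at h2
  rw [h2]
  refine Finset.sum_congr rfl fun φ _ => ?_
  have h3 := (Matrix.detRowAlternating (n := m) (R := O)).toMultilinearMap.map_smul_univ
    (fun i => M i (φ i)) (fun i => (fun j => if φ i = s j then (1:O) else 0 : m → O))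
  simp only [AlternatingMap.coe_multilinearMap] at h3
  rw [h3, smul_eq_mul]
  rfl

/-- the coefficient vector `ω` -/
def om (e0 : E) (O : Type) [CommRing O] : II Q E → O := fun f => minor f e0 1

lemma om_map (φ : O →+* O') (e0 : E) (f : II Q E) : φ (om e0 O f) = om e0 O' f := by
  unfold om
  rw [minor_map, Matrix.map_one _ (map_zero _) (map_one _)]

lemma om_self (e0 : E) : om e0 O (cl e0 : II Q E) = 1 := by
  unfold om minor
  have : (Matrix.of fun o o' => (1 : Matrix (Q ⊕ E) (Q ⊕ E) O) (cl e0 o) (cl e0 o')) = 1 := by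
    ext o o'
    have hinj : Function.Injective (cl e0 : II Q E) := by
      rintro (q | u) (q' | u') h <;> simp [cl] at h
      · rw [h]
      · rfl
    simp only [Matrix.of_apply, Matrix.one_apply, hinj.eq_iff]
  rw [this, Matrix.det_one]

lemma minor_eq_mulVec (e0 : E) (f : II Q E) (B : Matrix (Q ⊕ E) (Q ⊕ E) O) :
    minor f e0 B = (tp (Q ⊕ Unit) B).mulVec (om e0 O) f := by
  unfold minor
  have h := det_expand' (fun o l => B (f o) l) (cl e0 : II Q E)
  rw [h]
  simp only [mulVec, dotProduct, tp_apply]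
  refine Finset.sum_congr rfl fun φ _ => ?_
  congr 1

def Nm (e0 : E) (O : Type) [CommRing O] : Matrix (II Q E) (II Q E) O :=
  Matrix.vecMulVec (om e0 O - Pi.single (cl e0) 1) (Pi.single (cl e0) 1)

/-- `Ω` -/
def Om (e0 : E) (O : Type) [CommRing O] : Matrix (II Q E) (II Q E) O := 1 + Nm e0 O

def Omi (e0 : E) (O : Type) [CommRing O] : Matrix (II Q E) (II Q E) O := 1 - Nm e0 O

lemma Om_sq (e0 : E) :
    (Nm e0 O : Matrix (II Q E) (II Q E) O) * Nm e0 O = 0 := by
  ext f f'
  rw [Matrix.mul_apply, Matrix.zero_apply]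
  apply Finset.sum_eq_zero
  intro j _
  simp only [Nm, Matrix.vecMulVec_apply, Pi.sub_apply]
  by_cases h : j = cl e0
  · subst h
    simp [om_self]
  · simp [Pi.single_eq_of_ne h]

lemma Om_mul_Omi (e0 : E) : (Om e0 O : Matrix (II Q E) (II Q E) O) * Omi e0 O = 1 := by
  unfold Om Omi
  rw [mul_sub, mul_one, add_mul, one_mul, Om_sq]
  abel

lemma Omi_mul_Om (e0 : E) : (Omi e0 O : Matrix (II Q E) (II Q E) O) * Om e0 O = 1 :=
  mul_eq_one_comm.1 (Om_mul_Omi e0)

lemma Om_col (e0 : E) (f : II Q E) : Om e0 O f (cl e0) = om e0 O f := by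
  unfold Om Nm
  simp only [Matrix.add_apply, Matrix.vecMulVec_apply, Pi.sub_apply, Pi.single_eq_same, mul_one]
  by_cases h : f = cl e0
  · subst h; simp
  · simp [Matrix.one_apply_ne h, Pi.single_eq_of_ne h]

lemma Om_map (φ : O →+* O') (e0 : E) : (Om e0 O : Matrix (II Q E) (II Q E) O).map φ = Om e0 O' := by
  ext f f'
  simp only [Om, Nm, Matrix.map_apply, Matrix.add_apply, Matrix.vecMulVec_apply, Pi.sub_apply, map_add,
    map_mul, map_sub, om_map, Matrix.one_apply, Pi.single_apply, apply_ite φ, map_zero, map_one]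

lemma Omi_map (φ : O →+* O') (e0 : E) : (Omi e0 O : Matrix (II Q E) (II Q E) O).map φ = Omi e0 O' := by
  ext f f'
  simp only [Omi, Nm, Matrix.map_apply, Matrix.sub_apply, Matrix.vecMulVec_apply, Pi.sub_apply, map_sub,
    map_mul, map_sub, om_map, Matrix.one_apply, Pi.single_apply, apply_ite φ, map_zero, map_one]

end

end Pool.Agent.LN
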