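import Mathlib

set_option autoImplicit false
set_option linter.unusedSectionVars false
set_option linter.style.haveILetI false

namespace Pool.Agent.LN
open Matrix Finset MvPolynomial

/-- Evaluate a matrix of polynomials in `n × n` variables at a matrix `g`. -/
noncomputable def evM {k C : Type} [CommRing k] [CommRing C] [Algebra k C] {n : ℕ} {N N' : Type}
    (M : Matrix N N' (MvPolynomial (Fin n × Fin n) k)) (g : Matrix (Fin n) (Fin n) C) :
    Matrix N N' C :=
  M.map (aeval fun ij : Fin n × Fin n => g ij.1 ij.2)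

/-- the tangent map at the identity -/
noncomputable def dM {k C : Type} [CommRing k] [CommRing C] [Algebra k C] {n : ℕ} {N N' : Type}
    (M : Matrix N N' (MvPolynomial (Fin n × Fin n) k)) (P : Matrix (Fin n) (Fin n) C) :
    Matrix N N' C :=
  M.map fun F => ∑ ij : Fin n × Fin n, P ij.1 ij.2 *
    aeval (fun ij : Fin n × Fin n => (1 : Matrix (Fin n) (Fin n) C) ij.1 ij.2) (pderiv ij F)

section basic
variable {k C C' : Type} [CommRing k] [CommRing C] [Algebra k C] [CommRing C'] [Algebra k C']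
  {n : ℕ} {N N' N'' : Type}

lemma evM_apply (M : Matrix N N' (MvPolynomial (Fin n × Fin n) k)) (g : Matrix (Fin n) (Fin n) C)
    (i : N) (j : N') : evM M g i j = aeval (fun ij : Fin n × Fin n => g ij.1 ij.2) (M i j) := rfl

lemma evM_map (M : Matrix N N' (MvPolynomial (Fin n × Fin n) k)) (g : Matrix (Fin n) (Fin n) C)
    (φ : C →ₐ[k] C') : (evM M g).map φ = evM M (g.map φ) := by
  ext i j
  simp only [evM, Matrix.map_apply]
  rw [← AlgHom.comp_apply, MvPolynomial.comp_aeval]

lemma dM_map (M : Matrix N N' (MvPolynomial (Fin n × Fin n) k)) (g : Matrix (Fin n) (Fin n) C)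
    (φ : C →ₐ[k] C') : (dM M g).map φ = dM M (g.map φ) := by
  ext i j
  simp only [dM, Matrix.map_apply, map_sum, map_mul]
  refine Finset.sum_congr rfl fun ij _ => ?_
  congr 1
  rw [← AlgHom.comp_apply, MvPolynomial.comp_aeval]
  congr 2
  ext ij
  simp only [Matrix.one_apply]
  split_ifs <;> simp

lemma dM_add (M : Matrix N N' (MvPolynomial (Fin n × Fin n) k)) (P Q : Matrix (Fin n) (Fin n) C) :
    dM M (P + Q) = dM M P + dM M Q := by
  ext i j
  simp only [dM, Matrix.map_apply, Matrix.add_apply, add_mul, Finset.sum_add_distrib]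

lemma dM_smul (M : Matrix N N' (MvPolynomial (Fin n × Fin n) k)) (c : C)
    (P : Matrix (Fin n) (Fin n) C) :
    dM M (c • P) = c • dM M P := by
  ext i j
  simp only [dM, Matrix.map_apply, Matrix.smul_apply, smul_eq_mul, Finset.mul_sum, mul_assoc]

lemma dM_neg (M : Matrix N N' (MvPolynomial (Fin n × Fin n) k))
    (P : Matrix (Fin n) (Fin n) C) :
    dM M (-P) = - dM M P := by
  have := dM_smul M (-1 : C) P
  simpa using this

lemma dM_sub (M : Matrix N N' (MvPolynomial (Fin n × Fin n) k)) (P Q : Matrix (Fin n) (Fin n) C) :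
    dM M (P - Q) = dM M P - dM M Q := by
  rw [sub_eq_add_neg, dM_add, dM_neg, sub_eq_add_neg]

lemma aeval_taylor {σ : Type} [Fintype σ] (ε : C) (hε : ε * ε = 0) (x P : σ → C)
    (F : MvPolynomial σ k) :
    aeval (fun i => x i + ε * P i) F = aeval x F + ε * ∑ i, P i * aeval x (pderiv i F) := by
  classical
  induction F using MvPolynomial.induction_on with
  | C a => simp
  | add f g hf hg =>
    simp only [map_add, hf, hg, mul_add, Finset.sum_add_distrib]
    ring
  | mul_X f i hf =>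
    simp only [map_mul, hf, aeval_X, Derivation.leibniz, map_add, smul_eq_mul, mul_add,
      Finset.sum_add_distrib, pderiv_X]
    have : ∑ j, P j * (aeval x f * aeval x (Pi.single (M := fun _ => MvPolynomial σ k) j 1 i)) =
        aeval x f * P i := by
      rw [Finset.sum_eq_single i]
      · simp [mul_comm]
      · intro j _ hj
        rw [Pi.single_eq_of_ne hj.symm]
        simp
      · simp
    rw [this]
    have h2 : ∑ j, P j * (x i * aeval x (pderiv j f)) = x i * ∑ j, P j * aeval x (pderiv j f) := by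
      rw [Finset.mul_sum]
      exact Finset.sum_congr rfl fun j _ => by ring
    rw [h2]
    linear_combination (∑ j, P j * aeval x (pderiv j f)) * P i * hε

lemma evM_one_add (M : Matrix N N' (MvPolynomial (Fin n × Fin n) k)) (ε : C) (hε : ε * ε = 0)
    (P : Matrix (Fin n) (Fin n) C) :
    evM M (1 + ε • P) = evM M 1 + ε • dM M P := by
  ext i j
  simp only [evM, dM, Matrix.map_apply, Matrix.add_apply, Matrix.smul_apply, smul_eq_mul]
  exact aeval_taylor ε hε (fun ij : Fin n × Fin n => (1 : Matrix (Fin n) (Fin n) C) ij.1 ij.2)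
    (fun ij => P ij.1 ij.2) (M i j)

end basic

/-- A natural (polynomial) representation of `GL_n`. -/
structure PRep (k : Type) [CommRing k] (n : ℕ) (N : Type) [Fintype N] [DecidableEq N] where
  M : Matrix N N (MvPolynomial (Fin n × Fin n) k)
  mul' : ∀ (C : Type) [CommRing C] [Algebra k C] (g h : Matrix (Fin n) (Fin n) C),
    IsUnit g.det → IsUnit h.det → evM M (g * h) = evM M g * evM M h
  one' : ∀ (C : Type) [CommRing C] [Algebra k C], evM M (1 : Matrix (Fin n) (Fin n) C) = 1

namespace PRep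
variable {k : Type} [CommRing k] {n : ℕ} {N N' : Type} [Fintype N] [DecidableEq N]
  [Fintype N'] [DecidableEq N']

noncomputable def ev (ρ : PRep k n N) {C : Type} [CommRing C] [Algebra k C]
    (g : Matrix (Fin n) (Fin n) C) : Matrix N N C := evM ρ.M g

noncomputable def d (ρ : PRep k n N) {C : Type} [CommRing C] [Algebra k C]
    (g : Matrix (Fin n) (Fin n) C) : Matrix N N C := dM ρ.M g

variable {C C' : Type} [CommRing C] [Algebra k C] [CommRing C'] [Algebra k C']

lemma ev_mul (ρ : PRep k n N) (g h : Matrix (Fin n) (Fin n) C) (hg : IsUnit g.det)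
    (hh : IsUnit h.det) : ρ.ev (g * h) = ρ.ev g * ρ.ev h := ρ.mul' C g h hg hh

@[simp] lemma ev_one (ρ : PRep k n N) : ρ.ev (1 : Matrix (Fin n) (Fin n) C) = 1 := ρ.one' C

lemma ev_map (ρ : PRep k n N) (g : Matrix (Fin n) (Fin n) C) (φ : C →ₐ[k] C') :
    (ρ.ev g).map φ = ρ.ev (g.map φ) := evM_map _ _ _

lemma d_map (ρ : PRep k n N) (g : Matrix (Fin n) (Fin n) C) (φ : C →ₐ[k] C') :
    (ρ.d g).map φ = ρ.d (g.map φ) := dM_map _ _ _

lemma d_add (ρ : PRep k n N) (P Q : Matrix (Fin n) (Fin n) C) :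
    ρ.d (P + Q) = ρ.d P + ρ.d Q := dM_add _ _ _

lemma d_sub (ρ : PRep k n N) (P Q : Matrix (Fin n) (Fin n) C) :
    ρ.d (P - Q) = ρ.d P - ρ.d Q := dM_sub _ _ _

lemma d_smul (ρ : PRep k n N) (c : C) (P : Matrix (Fin n) (Fin n) C) :
    ρ.d (c • P) = c • ρ.d P := dM_smul _ _ _

lemma ev_one_add (ρ : PRep k n N) (ε : C) (hε : ε * ε = 0) (P : Matrix (Fin n) (Fin n) C) :
    ρ.ev (1 + ε • P) = 1 + ε • ρ.d P := by
  have := evM_one_add ρ.M ε hε P
  rw [ρ.one'] at this
  exact this

lemma isUnit_det_of_mul_eq_one {g h : Matrix (Fin n) (Fin n) C} (H : g * h = 1) :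
    IsUnit g.det ∧ IsUnit h.det := by
  have : g.det * h.det = 1 := by rw [← Matrix.det_mul, H, Matrix.det_one]
  exact ⟨IsUnit.of_mul_eq_one _ this, IsUnit.of_mul_eq_one g.det (by rw [mul_comm]; exact this)⟩

lemma ev_mul_inv (ρ : PRep k n N) {g h : Matrix (Fin n) (Fin n) C} (H : g * h = 1) :
    ρ.ev g * ρ.ev h = 1 := by
  obtain ⟨h1, h2⟩ := isUnit_det_of_mul_eq_one H
  rw [← ρ.ev_mul g h h1 h2, H, ev_one]

lemma isUnit_det_one_add {ε : C} (hε : ε * ε = 0) (P : Matrix (Fin n) (Fin n) C) :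
    IsUnit (1 + ε • P).det := by
  have H : (1 + ε • P) * (1 - ε • P) = 1 := by
    rw [mul_sub, mul_one, add_mul, one_mul, Matrix.smul_mul, Matrix.mul_smul, smul_smul, hε,
      zero_smul]
    abel
  exact (isUnit_det_of_mul_eq_one H).1

/-- `dρ` is equivariant under conjugation. -/
lemma d_conj (ρ : PRep k n N) {g h : Matrix (Fin n) (Fin n) C} (H : g * h = 1)
    (P : Matrix (Fin n) (Fin n) C) : ρ.d (g * P * h) = ρ.ev g * ρ.d P * ρ.ev h := by
  -- work over the dual numbers
  let ι : C →ₐ[k] DualNumber C := (TrivSqZeroExt.inlAlgHom k C C)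
  have hι : ∀ c, ι c = TrivSqZeroExt.inl c := fun _ => rfl
  let ε : DualNumber C := DualNumber.eps
  have hε : ε * ε = 0 := DualNumber.eps_mul_eps
  have Hd : (g.map ι) * (h.map ι) = 1 := by
    rw [← Matrix.map_mul, H]
    exact Matrix.map_one _ (map_zero _) (map_one _)
  obtain ⟨u1, u2⟩ := isUnit_det_of_mul_eq_one Hd
  have e1 : (1 + ε • (g * P * h).map ι) = (g.map ι) * (1 + ε • P.map ι) * (h.map ι) := by
    rw [mul_add, mul_one, add_mul, Hd, Matrix.mul_smul, Matrix.smul_mul]
    congr 1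
    simp only [Matrix.map_mul]
  have e2 := congrArg (fun z => ρ.ev z) e1
  rw [ρ.ev_mul _ _ (by rw [Matrix.det_mul]; exact u1.mul (isUnit_det_one_add hε _)) u2,
    ρ.ev_mul _ _ u1 (isUnit_det_one_add hε _), ρ.ev_one_add ε hε, ρ.ev_one_add ε hε,
    mul_add, mul_one, add_mul, ρ.ev_mul_inv Hd] at e2
  have e3 := add_left_cancel e2
  rw [← ρ.d_map, ← ρ.d_map, ← ρ.ev_map, ← ρ.ev_map, Matrix.mul_smul, Matrix.smul_mul] at e3
  ext i j
  have e4 := congrArg (fun z : Matrix N N (DualNumber C) => TrivSqZeroExt.snd (z i j)) e3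
  simp only [Matrix.smul_apply, Matrix.map_apply, ← Matrix.map_mul] at e4
  simpa [hι, ε, DualNumber.snd_mul] using e4

/-- Kronecker product of natural representations. -/
noncomputable def kron (ρ : PRep k n N) (ρ' : PRep k n N') : PRep k n (N × N') where
  M := Matrix.kroneckerMap (· * ·) ρ.M ρ'.M
  mul' := by
    intro C _ _ g h hg hh
    have : ∀ g : Matrix (Fin n) (Fin n) C, evM (Matrix.kroneckerMap (· * ·) ρ.M ρ'.M) g =
      Matrix.kroneckerMap (· * ·) (ρ.ev g) (ρ'.ev g) := by
      intro g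
      ext ⟨i, i'⟩ ⟨j, j'⟩
      simp [evM, ev]
    rw [this, this, this, ρ.ev_mul _ _ hg hh, ρ'.ev_mul _ _ hg hh]
    exact Matrix.mul_kronecker_mul _ _ _ _
  one' := by
    intro C _ _
    have : ∀ g : Matrix (Fin n) (Fin n) C, evM (Matrix.kroneckerMap (· * ·) ρ.M ρ'.M) g =
      Matrix.kroneckerMap (· * ·) (ρ.ev g) (ρ'.ev g) := by
      intro g
      ext ⟨i, i'⟩ ⟨j, j'⟩
      simp [evM, ev]
    rw [this, ev_one, ev_one]
    exact Matrix.one_kronecker_one

lemma kron_ev (ρ : PRep k n N) (ρ' : PRep k n N') (g : Matrix (Fin n) (Fin n) C) :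
    (ρ.kron ρ').ev g = Matrix.kroneckerMap (· * ·) (ρ.ev g) (ρ'.ev g) := by
  ext ⟨i, i'⟩ ⟨j, j'⟩
  simp [evM, ev, kron]

/-- The representation `1 ⊕ id`. -/
noncomputable def oneId (k : Type) [CommRing k] (n : ℕ) : PRep k n (Unit ⊕ Fin n) where
  M := Matrix.fromBlocks 1 0 0 (Matrix.of fun i j => X (i, j))
  mul' := by
    intro C _ _ g h hg hh
    have : ∀ g : Matrix (Fin n) (Fin n) C, evM (k := k)
      (Matrix.fromBlocks (1 : Matrix Unit Unit _) 0 0 (Matrix.of fun i j => X (i, j))) g =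
      Matrix.fromBlocks 1 0 0 g := by
      intro g
      ext (i | i) (j | j)
      · simp [evM]
      · simp [evM]
      · simp [evM]
      · simp [evM]
    rw [this, this, this, Matrix.fromBlocks_multiply]
    simp
  one' := by
    intro C _ _
    ext (i | i) (j | j)
    · simp [evM]
    · simp [evM]
    · simp [evM]
    · simp [evM, Matrix.one_apply]

lemma oneId_ev (g : Matrix (Fin n) (Fin n) C) :
    (oneId k n).ev g = Matrix.fromBlocks 1 0 0 g := by
  ext (i | i) (j | j)
  · simp [evM, ev, oneId]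
  · simp [evM, ev, oneId]
  · simp [evM, ev, oneId]
  · simp [evM, ev, oneId]

end PRep

end Pool.Agent.LN
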