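import Mathlib

set_option autoImplicit false
set_option linter.unusedSectionVars false
set_option linter.style.haveILetI false

namespace Pool.Agent.LN
open Matrix Finset

variable {V : Type*} [Fintype V] [DecidableEq V]

/-- The ideal generated by the `q`-th powers of the elements `u v`. -/
def powIdeal {W S : Type*} [CommRing S] (u : W → S) (q : ℕ) : Ideal S :=
  Ideal.span (Set.range fun v => u v ^ q)

lemma pow_mem_powIdeal {W S : Type*} [CommRing S] (u : W → S) (q : ℕ) (v : W) :
    u v ^ q ∈ powIdeal u q := Ideal.subset_span ⟨v, rfl⟩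

/-- The basic congruence. -/
def Cong {S : Type*} [CommRing S] (q : ℕ) (a : Matrix V V S) (u : V → S) : Prop :=
  (∏ l, (a.mulVec u) l ^ (q-1)) - a.det^(q-1) * ∏ j, u j^(q-1) ∈ powIdeal u q

lemma mulVec_pow_mem {S : Type*} [CommRing S] (p r : ℕ) [hp : Fact p.Prime] [CharP S p]
    (b : Matrix V V S) (u : V → S) (l : V) :
    (b.mulVec u) l ^ (p^r) ∈ powIdeal u (p^r) := by
  haveI : ExpChar S p := ExpChar.prime hp.out
  simp only [mulVec, dotProduct]
  rw [sum_pow_char_pow p r]
  refine Ideal.sum_mem _ fun i _ => ?_
  rw [mul_pow]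
  exact Ideal.mul_mem_left _ _ (pow_mem_powIdeal u _ i)

lemma powIdeal_mulVec_le {S : Type*} [CommRing S] (p r : ℕ) [hp : Fact p.Prime] [CharP S p]
    (b : Matrix V V S) (u : V → S) :
    powIdeal (b.mulVec u) (p^r) ≤ powIdeal u (p^r) := by
  unfold powIdeal
  rw [Ideal.span_le]
  rintro _ ⟨l, rfl⟩
  exact mulVec_pow_mem p r b u l

lemma Cong.mul {S : Type*} [CommRing S] (p r : ℕ) [hp : Fact p.Prime] [CharP S p]
    {a b : Matrix V V S} (ha : ∀ u, Cong (p^r) a u) (hb : ∀ u, Cong (p^r) b u) (u : V → S) :
    Cong (p^r) (a*b) u := by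
  have h1 := ha (b.mulVec u)
  have h2 := hb u
  unfold Cong at *
  have h1' := powIdeal_mulVec_le p r b u h1
  have h3 := Ideal.add_mem _ h1' (Ideal.mul_mem_left _ (a.det^(p^r-1)) h2)
  convert h3 using 1
  rw [Matrix.mulVec_mulVec, Matrix.det_mul, mul_pow]
  ring

lemma Cong.diag {S : Type*} [CommRing S] (q : ℕ) (d : V → S) (u : V → S) :
    Cong q (Matrix.diagonal d) u := by
  unfold Cong
  have : (∏ l, (Matrix.diagonal d).mulVec u l ^ (q-1)) -
      (Matrix.diagonal d).det^(q-1) * ∏ j, u j^(q-1) = 0 := by
    simp only [Matrix.mulVec_diagonal, Matrix.det_diagonal, mul_pow, Finset.prod_mul_distrib,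
      Finset.prod_pow]
    ring
  rw [this]
  exact Ideal.zero_mem _

lemma Cong.transvec {S : Type*} [CommRing S] (q : ℕ) (i j : V) (hij : i ≠ j) (c : S) (u : V → S) :
    Cong q (Matrix.transvection i j c) u := by
  unfold Cong
  rw [Matrix.det_transvection_of_ne i j hij c, one_pow, one_mul]
  have hmv : ∀ l, (Matrix.transvection i j c).mulVec u l = if l = i then u i + c * u j else u l := by
    intro l
    rw [Matrix.transvection, Matrix.add_mulVec, Matrix.one_mulVec, Matrix.single_mulVec]
    simp only [Pi.add_apply, Function.update_apply, Pi.zero_apply]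
    split_ifs with h
    · subst h; rfl
    · simp
  have hprod : ∀ f : V → S, ∏ l, f l = f i * (f j * ∏ l ∈ (Finset.univ.erase i).erase j, f l) := by
    intro f
    rw [← Finset.mul_prod_erase Finset.univ f (Finset.mem_univ i),
      ← Finset.mul_prod_erase (Finset.univ.erase i) f (Finset.mem_erase.2 ⟨hij.symm, Finset.mem_univ j⟩)]
  rw [hprod, hprod (fun l => u l ^ (q-1))]
  have hrest : ∏ l ∈ (Finset.univ.erase i).erase j, (Matrix.transvection i j c).mulVec u l ^ (q-1)
      = ∏ l ∈ (Finset.univ.erase i).erase j, u l ^ (q-1) := by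
    apply Finset.prod_congr rfl
    intro l hl
    rw [hmv, if_neg]
    simp at hl
    exact hl.2
  rw [hrest, hmv i, hmv j, if_pos rfl, if_neg hij.symm]
  have key : (u i + c * u j)^(q-1) * u j^(q-1) - u i^(q-1) * u j^(q-1) ∈ powIdeal u q := by
    rw [← sub_mul]
    have hd : c * u j ∣ (u i + c * u j)^(q-1) - u i^(q-1) := by
      have := sub_dvd_pow_sub_pow (u i + c * u j) (u i) (q-1)
      simpa using this
    obtain ⟨w, hw⟩ := hd
    rcases Nat.eq_zero_or_pos q with hq | hq
    · subst hq; simp
    rw [hw]
    have : c * u j * w * u j^(q-1) = (c * w) * u j^q := by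
      obtain ⟨s, rfl⟩ : ∃ s, q = s + 1 := ⟨q-1, by omega⟩
      simp only [Nat.add_sub_cancel]
      ring
    rw [this]
    exact Ideal.mul_mem_left _ _ (pow_mem_powIdeal u q j)
  have := Ideal.mul_mem_right (∏ l ∈ (Finset.univ.erase i).erase j, u l ^ (q-1)) _ key
  convert this using 1
  ring

/-- `Cong` over a field. -/
lemma cong_field {K S : Type*} [Field K] [CommRing S] [Algebra K S] (p r : ℕ) [hp : Fact p.Prime]
    [CharP S p] (a : Matrix V V K) : ∀ u, Cong (p^r) (a.map (algebraMap K S)) u := by
  refine Matrix.diagonal_transvection_induction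
    (fun a => ∀ u, Cong (p^r) (a.map (algebraMap K S)) u) a ?_ ?_ ?_
  · intro D _ u
    rw [Matrix.diagonal_map (map_zero _)]
    exact Cong.diag _ _ _
  · intro t u
    have : (t.toMatrix.map (algebraMap K S)) = Matrix.transvection t.i t.j (algebraMap K S t.c) := by
      rw [Matrix.TransvectionStruct.toMatrix, Matrix.transvection, Matrix.transvection]
      rw [Matrix.map_add _ (map_add _), Matrix.map_one _ (map_zero _) (map_one _)]
      congr 1
      ext a b
      simp [Matrix.single, Matrix.of_apply, apply_ite (algebraMap K S)]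
    rw [this]
    exact Cong.transvec _ _ _ t.hij _ _
  · intro A B hA hB u
    rw [Matrix.map_mul]
    exact Cong.mul p r hA hB u

section generic
open MvPolynomial

lemma powIdeal_X_eq {R : Type*} [CommRing R] (q : ℕ) :
    powIdeal (fun v => (X v : MvPolynomial V R)) q =
      Ideal.span ((fun s => monomial s (1 : R)) '' (Set.range fun v : V => Finsupp.single v q)) := by
  unfold powIdeal
  congr 1
  ext x
  simp [X_pow_eq_monomial]

/-- membership in the `q`-power ideal of a polynomial ring descends along injective maps -/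
lemma mem_powIdeal_X_of_map {R R' : Type*} [CommRing R] [CommRing R'] (f : R →+* R')
    (hf : Function.Injective f) (q : ℕ) (F : MvPolynomial V R)
    (h : MvPolynomial.map f F ∈ powIdeal (fun v => (X v : MvPolynomial V R')) q) :
    F ∈ powIdeal (fun v => (X v : MvPolynomial V R)) q := by
  rw [powIdeal_X_eq, mem_ideal_span_monomial_image] at h ⊢
  rw [support_map_of_injective _ hf] at h
  exact h

/-- the generic matrix -/
noncomputable def genM (V : Type*) [Fintype V] [DecidableEq V] (p : ℕ) :
    Matrix V V (MvPolynomial (V × V) (ZMod p)) :=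
  Matrix.of fun i j => X (i, j)

lemma cong_generic (p r : ℕ) [hp : Fact p.Prime] :
    Cong (p^r) ((genM V p).map (C : _ →+* MvPolynomial V (MvPolynomial (V × V) (ZMod p))))
      (fun v => X v) := by
  have h := cong_field (V := V) (K := FractionRing (MvPolynomial (V × V) (ZMod p)))
    (S := MvPolynomial V (FractionRing (MvPolynomial (V × V) (ZMod p)))) p r
    ((genM V p).map (algebraMap _ _)) (fun v => X v)
  unfold Cong at *
  refine mem_powIdeal_X_of_map (algebraMap (MvPolynomial (V × V) (ZMod p))
    (FractionRing (MvPolynomial (V × V) (ZMod p)))) (IsFractionRing.injective _ _) _ _ ?_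
  convert h using 1
  rw [map_sub, map_prod, map_mul, map_prod]
  congr 1
  · refine Finset.prod_congr rfl fun l _ => ?_
    rw [map_pow]
    congr 1
    simp [mulVec, dotProduct, map_sum, MvPolynomial.algebraMap_eq]
  · congr 1
    · rw [map_pow]
      congr 1
      rw [RingHom.map_det]
      congr 1
      ext i j
      simp [MvPolynomial.algebraMap_eq]
    · refine Finset.prod_congr rfl fun l _ => ?_
      simp

theorem cong_all {S : Type*} [CommRing S] (p r : ℕ) [hp : Fact p.Prime]
    [CharP S p] (a : Matrix V V S) (u : V → S) : Cong (p^r) a u := by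
  have h := cong_generic (V := V) p r
  unfold Cong at *
  let ψ : MvPolynomial V (MvPolynomial (V × V) (ZMod p)) →+* S :=
    eval₂Hom (eval₂Hom (ZMod.castHom (dvd_refl p) S) (fun ij => a ij.1 ij.2)) u
  have hX : ∀ v, ψ (X v) = u v := fun v => by simp [ψ]
  have hC : ∀ i j, ψ (C (genM V p i j)) = a i j := fun i j => by simp [ψ, genM]
  have h2 := Ideal.mem_map_of_mem ψ h
  have h3 : Ideal.map ψ (powIdeal (fun v => (X v : MvPolynomial V _)) (p^r)) ≤ powIdeal u (p^r) := by
    unfold powIdeal
    rw [Ideal.map_span, Ideal.span_le]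
    rintro _ ⟨_, ⟨v, rfl⟩, rfl⟩
    simp only [map_pow, hX]
    exact pow_mem_powIdeal u _ v
  have h4 := h3 h2
  convert h4 using 1
  rw [map_sub, map_prod, map_mul, map_prod]
  congr 1
  · refine Finset.prod_congr rfl fun l _ => ?_
    rw [map_pow]
    congr 1
    simp only [mulVec, dotProduct, map_sum, map_mul, Matrix.map_apply, hX, hC]
  · congr 1
    · rw [map_pow]
      congr 1
      rw [RingHom.map_det]
      congr 1
      ext i j
      simp only [RingHom.mapMatrix_apply, Matrix.map_apply, hC]
    · refine Finset.prod_congr rfl fun l _ => ?_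
      rw [map_pow, hX]

end generic

section Phi
open MvPolynomial

/-- The exponent `(q-1,…,q-1)`. -/
noncomputable def topExp (V : Type*) [Fintype V] (q : ℕ) : V →₀ ℕ :=
  Finsupp.equivFunOnFinite.symm (fun _ => q-1)

@[simp] lemma topExp_apply (q : ℕ) (v : V) : topExp V q v = q-1 := rfl

/-- The functional `Φ`. -/
noncomputable def Phi {C : Type*} [CommRing C] (q : ℕ) : MvPolynomial V C →ₗ[C] C :=
  lcoeff C (topExp V q)

lemma Phi_apply {C : Type*} [CommRing C] (q : ℕ) (F : MvPolynomial V C) :
    Phi q F = coeff (topExp V q) F := rfl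

lemma Phi_C_mul {C : Type*} [CommRing C] (q : ℕ) (c : C) (F : MvPolynomial V C) :
    Phi q (MvPolynomial.C c * F) = c * Phi q F := by
  rw [Phi_apply, Phi_apply, coeff_C_mul]

lemma Phi_mul_C {C : Type*} [CommRing C] (q : ℕ) (c : C) (F : MvPolynomial V C) :
    Phi q (F * MvPolynomial.C c) = Phi q F * c := by
  rw [mul_comm, Phi_C_mul, mul_comm]

lemma Phi_map {C C' : Type*} [CommRing C] [CommRing C'] (f : C →+* C') (q : ℕ)
    (F : MvPolynomial V C) : Phi q (MvPolynomial.map f F) = f (Phi q F) := by
  rw [Phi_apply, Phi_apply, coeff_map]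

lemma Phi_of_mem {C : Type*} [CommRing C] (q : ℕ) (hq : 0 < q) (F : MvPolynomial V C)
    (hF : F ∈ powIdeal (fun v => (X v : MvPolynomial V C)) q) : Phi q F = 0 := by
  unfold powIdeal at hF
  refine Submodule.span_induction (p := fun F _ => Phi q F = 0) ?_ ?_ ?_ ?_
    (by
      have := (Ideal.mem_span_range_iff_exists_fun (x := F)
        (v := fun v => (X v : MvPolynomial V C)^q)).1 hF
      obtain ⟨c, rfl⟩ := this
      show (∑ i, c i * X i ^ q) ∈ Submodule.span C {G : MvPolynomial V C | ∃ v H, G = H * X v ^ q}
      exact Submodule.sum_mem _ fun i _ => Submodule.subset_span ⟨i, c i, rfl⟩)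
  · rintro _ ⟨v, H, rfl⟩
    rw [Phi_apply, X_pow_eq_monomial, coeff_mul_monomial']
    rw [if_neg]
    intro h
    have := h v
    simp at this
    omega
  · exact map_zero _
  · intro x y _ _ hx hy
    rw [map_add, hx, hy, add_zero]
  · intro c x _ hx
    rw [map_smul, hx, smul_zero]

lemma Phi_top {C : Type*} [CommRing C] (q : ℕ) (c : C) :
    Phi q (MvPolynomial.C c * ∏ v : V, X v ^ (q-1)) = c := by
  rw [Phi_apply]
  have : (∏ v : V, (X v : MvPolynomial V C) ^ (q-1)) = monomial (topExp V q) 1 := by
    rw [MvPolynomial.monomial_eq]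
    simp [Finsupp.prod_fintype]
  rw [this, coeff_C_mul, coeff_monomial, if_pos rfl, mul_one]

/-- linear substitution `X_v ↦ ∑_w G_{wv} X_w` -/
noncomputable def lsub {C : Type*} [CommRing C] (G : Matrix V V C) :
    MvPolynomial V C →ₐ[C] MvPolynomial V C :=
  aeval (fun v => ∑ w, MvPolynomial.C (G w v) * X w)

theorem Phi_lsub {C : Type*} [CommRing C] (p r : ℕ) [hp : Fact p.Prime] [CharP C p]
    (G : Matrix V V C) (F : MvPolynomial V C) :
    Phi (p^r) (lsub G F) = G.det^(p^r-1) * Phi (p^r) F := by
  have hq : 0 < p^r := pow_pos hp.out.pos r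
  induction F using MvPolynomial.induction_on' with
  | add f g hf hg => rw [map_add, map_add, map_add, hf, hg]; ring
  | monomial α c =>
  have hmon : monomial α c = MvPolynomial.C c * ∏ v : V, X v ^ (α v) := by
    rw [MvPolynomial.monomial_eq]
    congr 1
    simp [Finsupp.prod_fintype]
  rw [hmon, map_mul, Phi_C_mul]
  have hlC : lsub G (MvPolynomial.C c) = MvPolynomial.C c := by
    simp [lsub, MvPolynomial.algebraMap_eq]
  rw [hlC, Phi_C_mul]
  have hlX : ∀ v, lsub G (X v) = ((G.map MvPolynomial.C).transpose.mulVec (fun w => X w)) v := by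
    intro v
    simp [lsub, mulVec, dotProduct]
  have main : Phi (p^r) (lsub G (∏ v : V, X v ^ (α v))) =
      G.det^(p^r-1) * Phi (p^r) (∏ v : V, (X v : MvPolynomial V C) ^ (α v)) := by
    by_cases h1 : ∃ v, p^r ≤ α v
    · obtain ⟨v, hv⟩ := h1
      have hx : (∏ v : V, (X v : MvPolynomial V C) ^ (α v)) ∈
          powIdeal (fun v => (X v : MvPolynomial V C)) (p^r) := by
        rw [← Finset.mul_prod_erase Finset.univ _ (Finset.mem_univ v)]
        apply Ideal.mul_mem_right
        rw [← Nat.sub_add_cancel hv, pow_add]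
        exact Ideal.mul_mem_left _ _ (pow_mem_powIdeal (fun v => (X v : MvPolynomial V C)) _ v)
      have hlx : lsub G (∏ v : V, (X v : MvPolynomial V C) ^ (α v)) ∈
          powIdeal (fun v => (X v : MvPolynomial V C)) (p^r) := by
        rw [map_prod, ← Finset.mul_prod_erase Finset.univ _ (Finset.mem_univ v)]
        apply Ideal.mul_mem_right
        rw [map_pow, ← Nat.sub_add_cancel hv, pow_add]
        refine Ideal.mul_mem_left _ _ ?_
        rw [hlX]
        exact mulVec_pow_mem p r _ _ v
      rw [Phi_of_mem _ hq _ hx, Phi_of_mem _ hq _ hlx, mul_zero]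
    · push Not at h1
      by_cases h2 : ∀ v, α v = p^r - 1
      · have e1 : (∏ v : V, (X v : MvPolynomial V C) ^ (α v)) = ∏ v : V, X v ^ (p^r-1) :=
          Finset.prod_congr rfl fun v _ => by rw [h2]
        rw [e1]
        have e2 : Phi (p^r) (∏ v : V, (X v : MvPolynomial V C) ^ (p^r-1)) = 1 := by
          have := Phi_top (V := V) (C := C) (p^r) 1
          rwa [map_one, one_mul] at this
        rw [e2, mul_one]
        have hc := cong_all p r ((G.map (MvPolynomial.C (σ := V))).transpose) (fun w => X w)
        unfold Cong at hc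
        have h3 := Phi_of_mem _ hq _ hc
        rw [map_sub, sub_eq_zero] at h3
        have e3 : lsub G (∏ v : V, (X v : MvPolynomial V C) ^ (p^r-1)) =
          ∏ l, ((G.map (MvPolynomial.C (σ := V))).transpose.mulVec (fun w => X w)) l ^ (p^r-1) := by
          rw [map_prod]
          refine Finset.prod_congr rfl fun v _ => ?_
          rw [map_pow, hlX]
        rw [e3, h3, Matrix.det_transpose]
        have e4 : (G.map (MvPolynomial.C (σ := V))).det = MvPolynomial.C G.det := by
          rw [RingHom.map_det]; rfl
        rw [e4, ← map_pow, Phi_C_mul, e2, mul_one]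
      · push Not at h2
        obtain ⟨v0, hv0⟩ := h2
        -- degree argument
        have hlt : ∑ v, α v < ∑ v : V, (p^r-1) := by
          apply Finset.sum_lt_sum
          · intro v _
            have := h1 v
            omega
          · exact ⟨v0, Finset.mem_univ _, by have := h1 v0; omega⟩
        have hdeg : (topExp V (p^r)).degree = ∑ v : V, (p^r-1) := by
          rw [Finsupp.degree_eq_sum]
          rfl
        have hom1 : (∏ v : V, (X v : MvPolynomial V C) ^ (α v)).IsHomogeneous (∑ v, α v) := by
          apply MvPolynomial.IsHomogeneous.prod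
          intro v _
          have := (isHomogeneous_X C v).pow (α v)
          simpa using this
        have hom2 : (lsub G (∏ v : V, (X v : MvPolynomial V C) ^ (α v))).IsHomogeneous (∑ v, α v) := by
          rw [map_prod]
          apply MvPolynomial.IsHomogeneous.prod
          intro v _
          rw [map_pow]
          have : (lsub G (X v)).IsHomogeneous 1 := by
            simp only [lsub, aeval_X]
            apply MvPolynomial.IsHomogeneous.sum
            intro w _
            have := (isHomogeneous_C V (G w v)).mul (isHomogeneous_X C w)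
            simpa using this
          have := this.pow (α v)
          simpa using this
        have hne : (topExp V (p^r)).degree ≠ ∑ v, α v := by rw [hdeg]; omega
        rw [Phi_apply, Phi_apply, hom1.coeff_eq_zero hne, hom2.coeff_eq_zero hne, mul_zero]
  rw [main]
  ring

end Phi

end Pool.Agent.LN
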