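import Pool.Agent.Helper208_LN.Phi

set_option autoImplicit false
set_option linter.unusedSectionVars false
set_option linter.style.haveILetI false

namespace Pool.Agent.LN
open Matrix Finset

variable {n : ℕ}

/-- rows of a matrix indexed by naturals -/
def nrow {S : Type*} [Zero S] (M : Matrix (Fin n) (Fin n) S) (i : ℕ) : Fin n → S :=
  if h : i < n then M ⟨i, h⟩ else 0

lemma nrow_val {S : Type*} [Zero S] (M : Matrix (Fin n) (Fin n) S) (i : Fin n) :
    nrow M i.val = M i := by simp [nrow]

/-- first `l` rows from `y`, the others from `w` -/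
def mix {S : Type*} (l : ℕ) (y w : Matrix (Fin n) (Fin n) S) : Matrix (Fin n) (Fin n) S :=
  Matrix.of fun i j => if i.val < l then y i j else w i j

/-- `K(y,w)` -/
def KK {S : Type*} [CommRing S] (q : ℕ) (y w : Matrix (Fin n) (Fin n) S) : S :=
  ∏ l ∈ Finset.Ico 1 n, (mix l y w).det ^ (q-1)

/-- the intermediate row arrangement -/
def rws {S : Type*} [Zero S] (y x w : Matrix (Fin n) (Fin n) S) (k l : ℕ) (i : ℕ) : Fin n → S :=
  if i < k then (if i + n < l + k then nrow y i else nrow x i)
  else if i - k < l then nrow y (l - 1 - (i - k)) else nrow w i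

def DD {S : Type*} [CommRing S] (y x w : Matrix (Fin n) (Fin n) S) (k l : ℕ) : S :=
  (Matrix.of fun i : Fin n => rws y x w k l i.val).det

lemma sign_pow_eq_one {S : Type*} [CommRing S] (p r : ℕ) [hp : Fact p.Prime] [CharP S p]
    (σ : Equiv.Perm (Fin n)) : (((Equiv.Perm.sign σ : ℤˣ) : ℤ) : S) ^ (p^r-1) = 1 := by
  rcases Int.units_eq_one_or (Equiv.Perm.sign σ) with h | h
  · rw [h]; simp
  · rw [h]
    rcases hp.out.eq_two_or_odd' with h2 | h2
    · subst h2
      have : (-1 : S) = 1 := by
        haveI := (CharTwo.neg_eq (R := S) 1); exact this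
      simp [this]
    · have : Even (p^r-1) := by
        have := h2.pow (n := r)
        exact Nat.Odd.sub_odd this odd_one
      simp [this.neg_one_pow]

lemma det_perm_pow {S : Type*} [CommRing S] (p r : ℕ) [hp : Fact p.Prime] [CharP S p]
    (σ : Equiv.Perm (Fin n)) (M : Matrix (Fin n) (Fin n) S) :
    (M.submatrix σ id).det ^ (p^r-1) = M.det ^ (p^r-1) := by
  rw [Matrix.det_permute, mul_pow, sign_pow_eq_one p r σ, one_mul]

/-- reversal of an interval `[s, t)` as an involution -/
def revFun (s t : ℕ) (i : ℕ) : ℕ := if s ≤ i ∧ i < t then s + (t - 1 - i) else i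

lemma revFun_invol (s t i : ℕ) : revFun s t (revFun s t i) = i := by
  unfold revFun
  split_ifs with h1 h2 h2 <;> omega

lemma revFun_lt (s t i : ℕ) (ht : t ≤ n) (hi : i < n) : revFun s t i < n := by
  unfold revFun
  split_ifs with h1 <;> omega

def revPerm (s t : ℕ) (ht : t ≤ n) : Equiv.Perm (Fin n) where
  toFun i := ⟨revFun s t i, revFun_lt s t i ht i.2⟩
  invFun i := ⟨revFun s t i, revFun_lt s t i ht i.2⟩
  left_inv i := by ext; simp [revFun_invol]
  right_inv i := by ext; simp [revFun_invol]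

lemma DD_zero {S : Type*} [CommRing S] (p r : ℕ) [hp : Fact p.Prime] [CharP S p]
    (y x w : Matrix (Fin n) (Fin n) S) (l : ℕ) (hl : l ≤ n) :
    DD y x w 0 l ^ (p^r-1) = (mix l y w).det ^ (p^r-1) := by
  rw [← det_perm_pow p r (revPerm 0 l hl) (mix l y w), DD]
  congr 2
  ext i j
  simp only [Matrix.of_apply, rws, Matrix.submatrix_apply, id, mix, revPerm, Equiv.coe_fn_mk, revFun]
  have hi := i.2
  simp only [Nat.not_lt_zero, if_false, Nat.sub_zero, Nat.zero_le, true_and, Nat.zero_add]
  by_cases h : i.val < l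
  · have h2 : l - 1 - i.val < n := by omega
    have h3 : l - 1 - i.val < l := by omega
    simp [h, nrow, h2, h3]
  · simp [h, nrow]

lemma DD_last {S : Type*} [CommRing S] (p r : ℕ) [hp : Fact p.Prime] [CharP S p]
    (y x w : Matrix (Fin n) (Fin n) S) (k : ℕ) (hk : k ≤ n) :
    DD y x w k n ^ (p^r-1) = y.det ^ (p^r-1) := by
  rw [← det_perm_pow p r (revPerm k n le_rfl) y, DD]
  congr 2
  ext i j
  simp only [Matrix.of_apply, rws, Matrix.submatrix_apply, id, revPerm, Equiv.coe_fn_mk, revFun]
  have hi := i.2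
  by_cases h : i.val < k
  · have h1 : i.val + n < n + k := by omega
    have h2 : ¬ (k ≤ i.val) := by omega
    simp [h, h1, h2, nrow]
  · have h1 : i.val - k < n := by omega
    have h2 : k ≤ i.val := by omega
    have h3 : n - 1 - (i.val - k) < n := by omega
    have h4 : n - 1 - (i.val - k) = k + (n - 1 - i.val) := by omega
    simp only [h, h1, h2, if_false, if_true, true_and, i.2, nrow, dif_pos h3]
    congr 1
    ext
    exact h4

lemma rws_update {S : Type*} [Zero S] (y x w : Matrix (Fin n) (Fin n) S) (k l : ℕ)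
    (hk : k < n) (hl : l < n) :
    (Matrix.of fun i : Fin n => rws y x w (k+1) l i.val).updateRow ⟨k, hk⟩ (y ⟨l, hl⟩) =
      Matrix.of fun i : Fin n => rws y x w k (l+1) i.val := by
  ext i j
  rw [Matrix.updateRow_apply]
  have hi := i.2
  split_ifs with h
  · subst h
    simp [rws, nrow, hl]
  · have hne : i.val ≠ k := fun hh => h (Fin.ext hh)
    simp only [Matrix.of_apply, rws]
    by_cases h1 : i.val < k
    · have h2 : i.val < k + 1 := by omega
      have h3 : i.val + n < l + (k+1) ↔ i.val + n < l + 1 + k := by omega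
      simp [h1, h2, h3]
    · have h2 : ¬ (i.val < k + 1) := by omega
      have h3 : i.val - (k+1) < l ↔ i.val - k < l + 1 := by omega
      have h4 : l - 1 - (i.val - (k+1)) = l + 1 - 1 - (i.val - k) := by omega
      simp only [h1, h2, if_false, h3, h4]

lemma rws_self {S : Type*} [Zero S] (y x w : Matrix (Fin n) (Fin n) S) (k l : ℕ)
    (hk : k < n) (hl : l < n) : rws y x w (k+1) l k = x ⟨k, hk⟩ := by
  have : ¬ (k + n < l + (k+1)) := by omega
  simp [rws, this, nrow, hk]

lemma rws_zero_det {S : Type*} [CommRing S] (y x w : Matrix (Fin n) (Fin n) S) (k l j : ℕ)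
    (hk : k < n) (hl : l < n) (hj : j < l) :
    ((Matrix.of fun i : Fin n => rws y x w (k+1) l i.val).updateRow ⟨k, hk⟩
      (y ⟨j, hj.trans hl⟩)).det = 0 := by
  by_cases h : j + n < l + (k+1)
  · -- position j
    have hjk : j < k := by omega
    refine Matrix.det_zero_of_row_eq (i := ⟨k, hk⟩) (j := ⟨j, hj.trans hl⟩) ?_ ?_
    · intro hh; simp [Fin.ext_iff] at hh; omega
    · rw [Matrix.updateRow_self, Matrix.updateRow_ne]
      · have h1 : j < k + 1 := by omega
        ext c
        simp only [Matrix.of_apply, rws, h1, h, if_true, nrow, hj.trans hl, dif_pos]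
      · intro hh; simp [Fin.ext_iff] at hh; omega
  · have hpos : k + 1 + (l - 1 - j) < n := by omega
    refine Matrix.det_zero_of_row_eq (i := ⟨k, hk⟩) (j := ⟨k + 1 + (l-1-j), hpos⟩) ?_ ?_
    · intro hh; simp [Fin.ext_iff] at hh; omega
    · rw [Matrix.updateRow_self, Matrix.updateRow_ne]
      · ext c
        have h1 : ¬ (k + 1 + (l-1-j) < k + 1) := by omega
        have h2 : k + 1 + (l-1-j) - (k+1) < l := by omega
        have h3 : l - 1 - (k + 1 + (l-1-j) - (k+1)) = j := by omega
        simp only [Matrix.of_apply, rws, h1, h2, h3, if_false, if_true, nrow, hj.trans hl, dif_pos]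
      · intro hh; simp [Fin.ext_iff] at hh; omega

section
open MvPolynomial

variable {R : Type*} [CommRing R]

/-- coefficient matrix of the linear forms -/
noncomputable def coefM {S : Type*} [CommRing S] (y x w : Matrix (Fin n) (Fin n) S) (k : ℕ)
    (hk : k < n) : Matrix (Fin n) (Fin n) S :=
  Matrix.of fun l j => ((Matrix.of fun i : Fin n => rws y x w (k+1) l.val i.val).updateRow ⟨k, hk⟩
      (Pi.single j 1)).det

lemma coefM_mulVec {S : Type*} [CommRing S] (y x w : Matrix (Fin n) (Fin n) S) (k : ℕ)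
    (hk : k < n) (v : Fin n → S) (l : Fin n) :
    (coefM y x w k hk).mulVec v l =
      ((Matrix.of fun i : Fin n => rws y x w (k+1) l.val i.val).updateRow ⟨k, hk⟩ v).det := by
  rw [← Matrix.cramer_transpose_apply]
  have hv : v = ∑ j, v j • (Pi.single j 1 : Fin n → S) := by
    ext i
    simp [Finset.sum_apply, Pi.single_apply]
  conv_rhs => rw [hv]
  rw [map_sum]
  simp only [map_smul, Finset.sum_apply, Pi.smul_apply, smul_eq_mul, Matrix.cramer_transpose_apply]
  simp only [mulVec, dotProduct, coefM, Matrix.of_apply]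
  exact Finset.sum_congr rfl fun j _ => mul_comm _ _

lemma coefM_det {S : Type*} [CommRing S] (y x w : Matrix (Fin n) (Fin n) S) (k : ℕ)
    (hk : k < n) :
    (coefM y x w k hk).det * y.det = ∏ l : Fin n, DD y x w k (l.val+1) := by
  have h1 : (coefM y x w k hk * yᵀ).det = (coefM y x w k hk).det * y.det := by
    rw [Matrix.det_mul, Matrix.det_transpose]
  have hent : ∀ l j, (coefM y x w k hk * yᵀ) l j =
    ((Matrix.of fun i : Fin n => rws y x w (k+1) l.val i.val).updateRow ⟨k, hk⟩ (y j)).det := by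
    intro l j
    rw [← coefM_mulVec]
    rfl
  rw [← h1, Matrix.det_of_isUpperTriangular]
  · refine Finset.prod_congr rfl fun l _ => ?_
    rw [hent]
    have := rws_update y x w k l.val hk l.2
    rw [this]
    rfl
  · intro l j hjl
    rw [hent]
    have : j.val < l.val := hjl
    exact rws_zero_det y x w k l.val j.val hk l.2 this

/-- generic matrix over `R` -/
noncomputable def gX (n : ℕ) (R : Type*) [CommRing R] :
    Matrix (Fin n) (Fin n) (MvPolynomial (Fin n × Fin n) R) :=
  Matrix.of fun i j => X (i, j)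

noncomputable def EE {S : Type*} [CommRing S] (q : ℕ) (y x w : Matrix (Fin n) (Fin n) S) (k : ℕ) : S :=
  (∏ l ∈ Finset.Ico 1 n, DD y x w k l ^ (q-1)) * ∏ i ∈ Finset.Ico 1 (k+1), DD y x w i 0 ^ (q-1)

lemma EE_step (p r : ℕ) [hp : Fact p.Prime] {S : Type*} [CommRing S] [IsDomain S] [CharP S p]
    (y x w : Matrix (Fin n) (Fin n) S) (hy : y.det ≠ 0) (k : ℕ) (hk : k < n) :
    EE (p^r) y x w (k+1) - EE (p^r) y x w k * ∏ j, x ⟨k, hk⟩ j ^ (p^r-1) ∈
      powIdeal (fun ij : Fin n × Fin n => x ij.1 ij.2) (p^r) := by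
  have hc := cong_all p r (coefM y x w k hk) (x ⟨k, hk⟩)
  unfold Cong at hc
  have hle : powIdeal (x ⟨k, hk⟩) (p^r) ≤ powIdeal (fun ij : Fin n × Fin n => x ij.1 ij.2) (p^r) := by
    unfold powIdeal
    rw [Ideal.span_le]
    rintro _ ⟨j, rfl⟩
    exact pow_mem_powIdeal (fun ij : Fin n × Fin n => x ij.1 ij.2) (p^r) (⟨k, hk⟩, j)
  have hc' := hle hc
  have h1 : ∏ l, (coefM y x w k hk).mulVec (x ⟨k, hk⟩) l ^ (p^r-1) =
      ∏ l ∈ Finset.range n, DD y x w (k+1) l ^ (p^r-1) := by
    rw [Finset.prod_range]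
    refine Finset.prod_congr rfl fun l _ => ?_
    rw [coefM_mulVec, DD]
    congr 2
    ext i j
    rw [Matrix.updateRow_apply]
    split_ifs with h
    · subst h
      simp only [Matrix.of_apply]
      rw [rws_self y x w k l.val hk l.2]
    · rfl
  have hn : 1 ≤ n := by omega
  have h2 : (coefM y x w k hk).det ^ (p^r-1) = ∏ l ∈ Finset.Ico 1 n, DD y x w k l ^ (p^r-1) := by
    have h3 := congrArg (fun z => z ^ (p^r-1)) (coefM_det y x w k hk)
    simp only [mul_pow] at h3
    rw [← Finset.prod_pow, ← Finset.prod_range (fun l => DD y x w k (l+1) ^ (p^r-1))] at h3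
    have h4 : ∏ l ∈ Finset.range n, DD y x w k (l+1) ^ (p^r-1) =
        (∏ l ∈ Finset.Ico 1 n, DD y x w k l ^ (p^r-1)) * y.det ^ (p^r-1) := by
      rw [← DD_last p r y x w k hk.le]
      rw [← Finset.prod_Ico_succ_top hn]
      rw [Finset.prod_Ico_eq_prod_range]
      refine Finset.prod_congr (by simp) fun l _ => by rw [add_comm]
    rw [h4] at h3
    exact mul_right_cancel₀ (pow_ne_zero _ hy) h3
  rw [h1, h2] at hc'
  have h5 := Ideal.mul_mem_left _ (∏ i ∈ Finset.Ico 1 (k+1), DD y x w i 0 ^ (p^r-1)) hc'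
  convert h5 using 1
  rw [EE, EE, Finset.prod_Ico_succ_top (by omega : 1 ≤ k+1),
    Finset.range_eq_Ico, Finset.prod_eq_prod_Ico_succ_bot (by omega : 0 < n)]
  ring

lemma EE_cong (p r : ℕ) [hp : Fact p.Prime] {S : Type*} [CommRing S] [IsDomain S] [CharP S p]
    (y x w : Matrix (Fin n) (Fin n) S) (hy : y.det ≠ 0) (k : ℕ) (hk : k ≤ n) :
    EE (p^r) y x w k - EE (p^r) y x w 0 * ∏ i ∈ Finset.range k, ∏ j, nrow x i j ^ (p^r-1) ∈
      powIdeal (fun ij : Fin n × Fin n => x ij.1 ij.2) (p^r) := by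
  induction k with
  | zero => simp
  | succ k ih =>
    have h1 := EE_step p r y x w hy k hk
    have h2 := ih (by omega)
    have h3 := Ideal.add_mem _ h1 (Ideal.mul_mem_right (∏ j, x ⟨k, hk⟩ j ^ (p^r-1)) _ h2)
    convert h3 using 1
    rw [Finset.prod_range_succ]
    have : nrow x k = x ⟨k, hk⟩ := by
      have : k < n := hk
      simp [nrow, this]
    rw [this]
    ring

lemma EE_zero (p r : ℕ) [hp : Fact p.Prime] {S : Type*} [CommRing S] [CharP S p]
    (y x w : Matrix (Fin n) (Fin n) S) : EE (p^r) y x w 0 = KK (p^r) y w := by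
  rw [EE, KK]
  simp only [Nat.zero_add, Finset.Ico_self, Finset.prod_empty, mul_one]
  refine Finset.prod_congr rfl fun l hl => ?_
  rw [Finset.mem_Ico] at hl
  exact DD_zero p r y x w l hl.2.le

lemma EE_top (q : ℕ) {S : Type*} [CommRing S] (hn : 1 ≤ n)
    (y x w : Matrix (Fin n) (Fin n) S) :
    EE q y x w n = x.det^(q-1) * KK q y x * KK q x w := by
  rw [EE, Finset.prod_Ico_succ_top hn]
  have h1 : ∏ l ∈ Finset.Ico 1 n, DD y x w n l ^ (q-1) = KK q y x := by
    rw [KK]
    refine Finset.prod_congr rfl fun l hl => ?_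
    rw [DD]
    congr 2
    ext i j
    have hi := i.2
    have : i.val + n < l + n ↔ i.val < l := by omega
    simp only [Matrix.of_apply, rws, hi, if_true, this, mix, nrow_val]
    split_ifs <;> rfl
  have h2 : ∏ l ∈ Finset.Ico 1 n, DD y x w l 0 ^ (q-1) = KK q x w := by
    rw [KK]
    refine Finset.prod_congr rfl fun l hl => ?_
    rw [Finset.mem_Ico] at hl
    rw [DD]
    congr 2
    ext i j
    have hi := i.2
    have : ¬ (i.val + n < 0 + l) := by omega
    simp only [Matrix.of_apply, rws, this, if_false, mix, nrow_val, Nat.not_lt_zero]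
    split_ifs <;> rfl
  have h3 : DD y x w n 0 = x.det := by
    rw [DD]
    congr 1
    ext i j
    have hi := i.2
    simp [rws, nrow]
  rw [h1, h2, h3]
  ring

/-- The reproducing formula. -/
theorem rep_formula (p r : ℕ) [hp : Fact p.Prime] {R : Type*} [CommRing R] [IsDomain R] [CharP R p]
    (hn : 1 ≤ n) (y w : Matrix (Fin n) (Fin n) R) (hy : y.det ≠ 0) :
    Phi (p^r) ((gX n R).det^(p^r-1) * KK (p^r) (y.map C) (gX n R) * KK (p^r) (gX n R) (w.map C)) =
      KK (p^r) y w := by
  have hy' : (y.map (C : R →+* MvPolynomial (Fin n × Fin n) R)).det ≠ 0 := by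
    have : (y.map (C : R →+* MvPolynomial (Fin n × Fin n) R)).det = C y.det := by
      rw [RingHom.map_det]; rfl
    rw [this]
    intro h
    exact hy (by simpa using h)
  have h := EE_cong p r (y.map C) (gX n R) (w.map C) hy' n le_rfl
  have hq : 0 < p^r := pow_pos hp.out.pos r
  have hI : powIdeal (fun ij : Fin n × Fin n => gX n R ij.1 ij.2) (p^r) =
      powIdeal (fun v => (X v : MvPolynomial (Fin n × Fin n) R)) (p^r) := rfl
  rw [hI] at h
  have h2 := Phi_of_mem _ hq _ h
  rw [map_sub, sub_eq_zero, EE_top _ hn, EE_zero p r] at h2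
  rw [h2]
  have h3 : KK (p^r) (y.map C) (w.map C) = (C (KK (p^r) y w) : MvPolynomial (Fin n × Fin n) R) := by
    rw [KK, KK, map_prod]
    refine Finset.prod_congr rfl fun l _ => ?_
    rw [map_pow]
    congr 1
    rw [RingHom.map_det]
    congr 1
    ext i j : 2
    simp only [mix, Matrix.of_apply, Matrix.map_apply, RingHom.mapMatrix_apply]
    split_ifs <;> rfl
  have h4 : ∏ i ∈ Finset.range n, ∏ j, nrow (gX n R) i j ^ (p^r-1) =
      ∏ v : Fin n × Fin n, (X v : MvPolynomial (Fin n × Fin n) R) ^ (p^r-1) := by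
    rw [Fintype.prod_prod_type, Finset.prod_range]
    refine Finset.prod_congr rfl fun i _ => ?_
    rw [nrow_val]
    rfl
  rw [h3, h4]
  exact Phi_top _ _

end

end Pool.Agent.LN
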