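import Pool.Agent.Helper208_LN.SLemma

set_option autoImplicit false
set_option linter.unusedSectionVars false
set_option linter.style.haveILetI false

namespace Pool.Agent.LN
open Matrix Finset MvPolynomial

/-- Steinberg-type data for `GL_n`. -/
structure SData (k : Type) [Field k] (n q : ℕ) where
  r : ℕ
  hr : 0 < r
  ρ : PRep k n (Fin r)
  Θ : Matrix (Fin r) (Fin r) (MvPolynomial (Fin n × Fin n) k)
  Θ1 : ∀ i j, Phi q ((gX n k).det^(q-1) * Θ i j) = (1 : Matrix (Fin r) (Fin r) k) i j
  Θ2 : ∀ (C : Type) [CommRing C] [Algebra k C] (x g h : Matrix (Fin n) (Fin n) C), g * h = 1 →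
     evM Θ (x * g) = (g.det ^ ((n-1)*(q-1))) • (ρ.ev h * evM Θ x * ρ.ev g)

section
variable {k C : Type} [CommRing k] [CommRing C] [Algebra k C] {n : ℕ} {N N' N'' : Type}

lemma evM_mul [Fintype N'] (M : Matrix N N' (MvPolynomial (Fin n × Fin n) k))
    (M' : Matrix N' N'' (MvPolynomial (Fin n × Fin n) k)) (g : Matrix (Fin n) (Fin n) C) :
    evM (M * M') g = evM M g * evM M' g := by
  unfold evM
  rw [Matrix.map_mul]

lemma evM_C (A : Matrix N N' k) (g : Matrix (Fin n) (Fin n) C) :
    evM (A.map (MvPolynomial.C (σ := Fin n × Fin n))) g = A.map (algebraMap k C) := by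
  ext i j
  simp [evM]

lemma evM_tp {P : Type} [Fintype P] (g : Matrix (Fin n) (Fin n) C) :
    evM (tp P (gX n k)) g = tp P g := by
  ext i j
  simp [evM, tp_apply, gX, map_prod]

end

/-- the matrix `x₂(x)ᵀ x₁(x)` -/
def X21 {C : Type} [CommRing C] {n q : ℕ} (x : Matrix (Fin n) (Fin n) C) :
    Matrix (W2 n q) (W1 n q) C := Matrix.of fun c' c => x2 x c' * x1 x c

lemma X21_eq {C : Type} [CommRing C] {n q : ℕ} (x : Matrix (Fin n) (Fin n) C) :
    X21 (q := q) x = Matrix.vecMulVec (x2 x) (x1 x) := rfl

lemma X21_mul {C : Type} [CommRing C] {n q : ℕ} (x g : Matrix (Fin n) (Fin n) C) :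
    X21 (q := q) (x * g) = (tp (P2 n q) g)ᵀ * X21 (q := q) x * tp (P1 n q) g := by
  rw [X21_eq, x1_mul, x2_mul, X21_eq, Matrix.mul_vecMulVec, Matrix.vecMulVec_mul,
    Matrix.mulVec_transpose]

lemma evM_X21 {k C : Type} [CommRing k] [CommRing C] [Algebra k C] {n q : ℕ}
    (g : Matrix (Fin n) (Fin n) C) :
    evM (X21 (q := q) (gX n k)) g = X21 g := by
  ext i j
  have hg : (gX n k).map (aeval (R := k) (fun ij : Fin n × Fin n => g ij.1 ij.2) :
      MvPolynomial (Fin n × Fin n) k →+* C) = g := by
    ext a b; simp [gX]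
  simp only [evM, X21, Matrix.map_apply, Matrix.of_apply, map_mul]
  have h1 := x1_map (q := q) (aeval (R := k) (fun ij : Fin n × Fin n => g ij.1 ij.2) :
      MvPolynomial (Fin n × Fin n) k →+* C) (gX n k) j
  have h2 := x2_map (q := q) (aeval (R := k) (fun ij : Fin n × Fin n => g ij.1 ij.2) :
      MvPolynomial (Fin n × Fin n) k →+* C) (gX n k) i
  rw [hg] at h1 h2
  rw [h1, h2]
  rfl

theorem exists_SData (p r : ℕ) [hp : Fact p.Prime] (k : Type) [Field k] [CharP k p] (n : ℕ)
    (hn : 1 ≤ n) : Nonempty (SData k n (p^r)) := by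
  classical
  set e := emat n (p^r) k with he
  have hcube := emat_cube (n := n) (k := k) p r hn
  have hE : (e * e) * (e * e) = e * e := by
    rw [← Matrix.mul_assoc, hcube, hcube]
  obtain ⟨s, hs, α, β, hαβ, hβα⟩ := exists_rank_factorization (e * e) hE
    (emat_sq_ne_zero p r hn)
  have hcomm : ∀ (C : Type) [CommRing C] [Algebra k C] (g : Matrix (Fin n) (Fin n) C),
      IsUnit g.det → (e * e).map (algebraMap k C) * tp (P1 n (p^r)) g =
        tp (P1 n (p^r)) g * (e * e).map (algebraMap k C) := by
    intro C _ _ g hg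
    rcases subsingleton_or_nontrivial C with hC | hC
    · ext i j; exact Subsingleton.elim _ _
    · haveI : CharP C p := charP_of_injective_algebraMap (algebraMap k C).injective p
      have h1 := emat_comm p r hn g hg
      rw [Matrix.map_mul, he, emat_map, Matrix.mul_assoc, h1, ← Matrix.mul_assoc, h1,
        Matrix.mul_assoc]
  let M : Matrix (Fin s) (Fin s) (MvPolynomial (Fin n × Fin n) k) :=
    α.map (MvPolynomial.C (σ := Fin n × Fin n)) * tp (P1 n (p^r)) (gX n k) * β.map (MvPolynomial.C (σ := Fin n × Fin n))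
  have hM : ∀ (C : Type) [CommRing C] [Algebra k C] (g : Matrix (Fin n) (Fin n) C),
      evM M g = α.map (algebraMap k C) * tp (P1 n (p^r)) g * β.map (algebraMap k C) := by
    intro C _ _ g
    simp only [M]
    rw [evM_mul, evM_mul, evM_C, evM_C, evM_tp]
  have hαβ' : ∀ (C : Type) [CommRing C] [Algebra k C],
      α.map (algebraMap k C) * β.map (algebraMap k C) = 1 := by
    intro C _ _
    rw [← Matrix.map_mul, hαβ]
    exact Matrix.map_one _ (map_zero _) (map_one _)
  have hβα' : ∀ (C : Type) [CommRing C] [Algebra k C],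
      β.map (algebraMap k C) * α.map (algebraMap k C) = (e*e).map (algebraMap k C) := by
    intro C _ _
    rw [← Matrix.map_mul, hβα]
  have hαE : ∀ (C : Type) [CommRing C] [Algebra k C],
      α.map (algebraMap k C) * (e*e).map (algebraMap k C) = α.map (algebraMap k C) := by
    intro C _ _
    rw [← hβα', ← Matrix.mul_assoc, hαβ', Matrix.one_mul]
  have hEβ : ∀ (C : Type) [CommRing C] [Algebra k C],
      (e*e).map (algebraMap k C) * β.map (algebraMap k C) = β.map (algebraMap k C) := by
    intro C _ _
    rw [← hβα', Matrix.mul_assoc, hαβ', Matrix.mul_one]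
  let ρ : PRep k n (Fin s) :=
    { M := M
      mul' := by
        intro C _ _ g h hg hh
        rw [hM, hM, hM, tp_mul]
        calc _ = α.map (algebraMap k C) * (e*e).map (algebraMap k C) *
                tp (P1 n (p^r)) g * tp (P1 n (p^r)) h * β.map (algebraMap k C) := by
              rw [hαE]; simp only [Matrix.mul_assoc]
          _ = α.map (algebraMap k C) * ((e*e).map (algebraMap k C) *
                tp (P1 n (p^r)) g) * tp (P1 n (p^r)) h * β.map (algebraMap k C) := by
              simp only [Matrix.mul_assoc]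
          _ = _ := by
              rw [hcomm C g hg, ← hβα']; simp only [Matrix.mul_assoc]
      one' := by
        intro C _ _
        rw [hM, tp_one, Matrix.mul_one, hαβ'] }
  have hρ : ∀ (C : Type) [CommRing C] [Algebra k C] (g : Matrix (Fin n) (Fin n) C),
      ρ.ev g = α.map (algebraMap k C) * tp (P1 n (p^r)) g * β.map (algebraMap k C) := hM
  let Θ : Matrix (Fin s) (Fin s) (MvPolynomial (Fin n × Fin n) k) :=
    (α * Kmat n (p^r) k).map (MvPolynomial.C (σ := Fin n × Fin n)) * X21 (q := p^r) (gX n k) * β.map (MvPolynomial.C (σ := Fin n × Fin n))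
  have hΘ : ∀ (C : Type) [CommRing C] [Algebra k C] (g : Matrix (Fin n) (Fin n) C),
      evM Θ g = α.map (algebraMap k C) * Kmat n (p^r) C * X21 (q := p^r) g * β.map (algebraMap k C) := by
    intro C _ _ g
    simp only [Θ]
    rw [evM_mul, evM_mul, evM_C, evM_C, evM_X21, Matrix.map_mul, Kmat_map]
  refine ⟨⟨s, hs, ρ, Θ, ?_, ?_⟩⟩
  · intro i j
    have h1 : Phi (p^r) ((gX n k).det^(p^r-1) * Θ i j) =
        (α * Kmat n (p^r) k * Jmat n (p^r) k * β) i j := by
      have h2 : (gX n k).det^(p^r-1) * Θ i j = ∑ c, (∑ c', C ((α * Kmat n (p^r) k) i c' * β c j) *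
          ((gX n k).det^(p^r-1) * x2 (gX n k) c' * x1 (gX n k) c)) := by
        simp only [Θ]
        rw [Matrix.mul_apply, Finset.mul_sum]
        refine Finset.sum_congr rfl fun c _ => ?_
        rw [Matrix.mul_apply, Finset.sum_mul, Finset.mul_sum]
        refine Finset.sum_congr rfl fun c' _ => ?_
        simp only [X21, Matrix.of_apply, Matrix.map_apply, map_mul]
        ring
      rw [h2, map_sum, Matrix.mul_apply]
      refine Finset.sum_congr rfl fun c _ => ?_
      rw [map_sum, Matrix.mul_apply, Finset.sum_mul]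
      refine Finset.sum_congr rfl fun c' _ => ?_
      rw [Phi_C_mul]
      simp only [Jmat, Matrix.of_apply]
      ring
    rw [h1]
    have h3 : α * Kmat n (p^r) k * Jmat n (p^r) k * β = 1 := by
      calc α * Kmat n (p^r) k * Jmat n (p^r) k * β = α * e * β := by
            rw [he, emat]; simp only [Matrix.mul_assoc]
        _ = α * e * (e * e * β) := by
            have : e * e * β = β := by
              rw [← hβα, Matrix.mul_assoc, hαβ, Matrix.mul_one]
            rw [this]
        _ = α * (e * e * e) * β := by simp only [Matrix.mul_assoc]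
        _ = α * (β * α) * β := by rw [hcube, hβα]
        _ = 1 := by
            rw [← Matrix.mul_assoc, hαβ, Matrix.one_mul, hαβ]
    rw [h3]
  · intro C _ _ x g h hgh
    obtain ⟨hg, hh⟩ := PRep.isUnit_det_of_mul_eq_one hgh
    have hhg : h * g = 1 := by
      exact mul_eq_one_comm.1 hgh
    have htp : tp (P1 n (p^r)) h * tp (P1 n (p^r)) g = 1 := by
      rw [← tp_mul, hhg, tp_one]
    -- `𝒦 R₂(g)ᵀ = δ R₁(h) 𝒦`
    have hK : Kmat n (p^r) C * (tp (P2 n (p^r)) g)ᵀ =
        (g.det ^ ((n-1)*(p^r-1))) • (tp (P1 n (p^r)) h * Kmat n (p^r) C) := by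
      have h1 := congrArg (fun z => tp (P1 n (p^r)) h * z) (Kmat_equiv (n := n) (q := p^r) g)
      simp only [← Matrix.mul_assoc, htp, Matrix.one_mul, Matrix.mul_smul] at h1
      exact h1
    rw [hΘ, hΘ, hρ, hρ, X21_mul]
    calc _ = α.map (algebraMap k C) * (Kmat n (p^r) C * (tp (P2 n (p^r)) g)ᵀ) * X21 (q := p^r) x *
            tp (P1 n (p^r)) g * β.map (algebraMap k C) := by
          simp only [Matrix.mul_assoc]
      _ = (g.det ^ ((n-1)*(p^r-1))) • (α.map (algebraMap k C) * (tp (P1 n (p^r)) h * Kmat n (p^r) C)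
            * X21 (q := p^r) x * tp (P1 n (p^r)) g * β.map (algebraMap k C)) := by
          rw [hK, Matrix.mul_smul, Matrix.smul_mul, Matrix.smul_mul, Matrix.smul_mul]
      _ = _ := by
          congr 1
          calc _ = (α.map (algebraMap k C) * (e*e).map (algebraMap k C)) * tp (P1 n (p^r)) h *
                Kmat n (p^r) C * X21 (q := p^r) x * tp (P1 n (p^r)) g *
                  ((e*e).map (algebraMap k C) * β.map (algebraMap k C)) := by
                rw [hαE, hEβ]; simp only [Matrix.mul_assoc]
            _ = α.map (algebraMap k C) * ((e*e).map (algebraMap k C) * tp (P1 n (p^r)) h) *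
                Kmat n (p^r) C * X21 (q := p^r) x * (tp (P1 n (p^r)) g *
                  (e*e).map (algebraMap k C)) * β.map (algebraMap k C) := by
                simp only [Matrix.mul_assoc]
            _ = α.map (algebraMap k C) * (tp (P1 n (p^r)) h * (e*e).map (algebraMap k C)) *
                Kmat n (p^r) C * X21 (q := p^r) x * ((e*e).map (algebraMap k C) * tp (P1 n (p^r)) g)
                   * β.map (algebraMap k C) := by
                rw [hcomm C h hh, ← hcomm C g hg]
            _ = _ := by
                rw [← hβα']; simp only [Matrix.mul_assoc]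

end Pool.Agent.LN
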