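import Pool.Agent.Helper208_LN.Tensor

set_option autoImplicit false
set_option linter.unusedSectionVars false
set_option linter.style.haveILetI false

namespace Pool.Agent.LN
open Matrix Finset MvPolynomial

/-- idempotent factorization -/
lemma exists_rank_factorization {k : Type} [Field k] {N : Type} [Fintype N] [DecidableEq N]
    (E : Matrix N N k) (hE : E * E = E) (hne : E ≠ 0) :
    ∃ (r : ℕ) (_ : 0 < r) (α : Matrix (Fin r) N k) (β : Matrix N (Fin r) k),
      α * β = 1 ∧ β * α = E := by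
  classical
  let f : (N → k) →ₗ[k] (N → k) := Matrix.toLin' E
  let S := LinearMap.range f
  let b : Module.Basis (Fin (Module.finrank k S)) k S := Module.finBasis k S
  let pb : Module.Basis N k (N → k) := Pi.basisFun k N
  let β : Matrix N (Fin (Module.finrank k S)) k := LinearMap.toMatrix b pb S.subtype
  let α : Matrix (Fin (Module.finrank k S)) N k := LinearMap.toMatrix pb b f.rangeRestrict
  have h1 : β * α = E := by
    have := LinearMap.toMatrix_comp pb b pb S.subtype f.rangeRestrict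
    rw [← this]
    have h2 : S.subtype ∘ₗ f.rangeRestrict = f := by ext; rfl
    rw [h2]
    exact LinearMap.toMatrix'_toLin' E
  have h2 : α * β = 1 := by
    have := LinearMap.toMatrix_comp b pb b f.rangeRestrict S.subtype
    rw [← this]
    have h3 : f.rangeRestrict ∘ₗ S.subtype = LinearMap.id := by
      refine LinearMap.ext fun x => Subtype.ext ?_
      obtain ⟨x, y, rfl⟩ := x
      show f (f y) = f y
      simp only [f, Matrix.toLin'_apply, Matrix.mulVec_mulVec, hE]
    rw [h3]
    exact LinearMap.toMatrix_id b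
  have hr : 0 < Module.finrank k S := by
    rcases Nat.eq_zero_or_pos (Module.finrank k S) with h | h
    · exfalso
      apply hne
      rw [← h1]
      ext i j
      rw [Matrix.mul_apply]
      haveI : IsEmpty (Fin (Module.finrank k S)) := by rw [h]; infer_instance
      simp
    · exact h
  exact ⟨_, hr, α, β, h2, h1⟩

section
variable {k : Type} [Field k] {n q : ℕ}

/-- the form `J` -/
noncomputable def Jmat (n q : ℕ) (k : Type) [CommRing k] : Matrix (W2 n q) (W1 n q) k :=
  Matrix.of fun c' c => Phi q ((gX n k).det^(q-1) * x2 (gX n k) c' * x1 (gX n k) c)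

lemma gX_map {C C' : Type} [CommRing C] [CommRing C'] (f : C →+* C') :
    (gX n C).map (MvPolynomial.map f) = gX n C' := by
  ext i j : 2
  simp [gX]

lemma Jmat_map {C C' : Type} [CommRing C] [CommRing C'] (f : C →+* C') :
    (Jmat n q C).map f = Jmat n q C' := by
  ext c' c
  simp only [Jmat, Matrix.map_apply, Matrix.of_apply]
  rw [← Phi_map, map_mul (MvPolynomial.map f), map_mul (MvPolynomial.map f),
    map_pow (MvPolynomial.map f), ← x1_map, ← x2_map, RingHom.map_det]
  have : (MvPolynomial.map f).mapMatrix (gX n C) = gX n C' := gX_map f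
  rw [this, gX_map]

lemma x1_mapC {C : Type} [CommRing C] (y : Matrix (Fin n) (Fin n) C) (c : W1 n q) :
    x1 (y.map (MvPolynomial.C (σ := Fin n × Fin n))) c = MvPolynomial.C (x1 y c) := x1_map _ _ _

lemma x2_mapC {C : Type} [CommRing C] (y : Matrix (Fin n) (Fin n) C) (c : W2 n q) :
    x2 (y.map (MvPolynomial.C (σ := Fin n × Fin n))) c = MvPolynomial.C (x2 y c) := x2_map _ _ _

/-- pairing via `J` -/
lemma Phi_pair {C : Type} [CommRing C] (u : W2 n q → C) (v : W1 n q → C) :
    Phi q ((gX n C).det^(q-1) * (∑ c', MvPolynomial.C (u c') * x2 (gX n C) c') *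
      (∑ c, x1 (gX n C) c * MvPolynomial.C (v c))) = ∑ c', ∑ c, u c' * Jmat n q C c' c * v c := by
  have : (gX n C).det^(q-1) * (∑ c', MvPolynomial.C (u c') * x2 (gX n C) c') *
      (∑ c, x1 (gX n C) c * MvPolynomial.C (v c)) =
      ∑ c', ∑ c, MvPolynomial.C (u c' * v c) *
        ((gX n C).det^(q-1) * x2 (gX n C) c' * x1 (gX n C) c) := by
    simp only [Finset.mul_sum, Finset.sum_mul]
    rw [Finset.sum_comm]
    refine Finset.sum_congr rfl fun c' _ => ?_
    refine Finset.sum_congr rfl fun c _ => ?_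
    rw [map_mul]
    ring
  rw [this, map_sum]
  refine Finset.sum_congr rfl fun c' _ => ?_
  rw [map_sum]
  refine Finset.sum_congr rfl fun c _ => ?_
  rw [Phi_C_mul]
  simp only [Jmat, Matrix.of_apply]
  ring

/-- bilinear evaluation -/
def bil {C : Type} [CommRing C] (y w : Matrix (Fin n) (Fin n) C) (K : Matrix (W1 n q) (W2 n q) C) : C :=
  ∑ c, ∑ c', x1 y c * K c c' * x2 w c'

/-- `x₁(y) 𝒦 J 𝒦 x₂(w) = x₁(y) 𝒦 x₂(w)`. -/
lemma bil_KJ {C : Type} [CommRing C] (y w : Matrix (Fin n) (Fin n) C)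
    (A B : Matrix (W1 n q) (W2 n q) C) :
    bil y w (A * Jmat n q C * B) =
      Phi q ((gX n C).det^(q-1) * bil (y.map MvPolynomial.C) (gX n C) (A.map MvPolynomial.C) *
        bil (gX n C) (w.map MvPolynomial.C) (B.map MvPolynomial.C)) := by
  have h := Phi_pair (n := n) (q := q) (C := C) (fun c' => ∑ c, x1 y c * A c c')
    (fun c => ∑ c', B c c' * x2 w c')
  have e1 : (∑ c', MvPolynomial.C (∑ c, x1 y c * A c c') * x2 (gX n C) c') =
      bil (y.map MvPolynomial.C) (gX n C) (A.map MvPolynomial.C) := by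
    rw [bil, Finset.sum_comm]
    refine Finset.sum_congr rfl fun c' _ => ?_
    rw [map_sum, Finset.sum_mul]
    refine Finset.sum_congr rfl fun c _ => ?_
    rw [x1_mapC, Matrix.map_apply, map_mul]
  have e2 : (∑ c, x1 (gX n C) c * MvPolynomial.C (∑ c', B c c' * x2 w c')) =
      bil (gX n C) (w.map MvPolynomial.C) (B.map MvPolynomial.C) := by
    rw [bil]
    refine Finset.sum_congr rfl fun c _ => ?_
    rw [map_sum, Finset.mul_sum]
    refine Finset.sum_congr rfl fun c' _ => ?_
    rw [x2_mapC, Matrix.map_apply, map_mul]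
    ring
  rw [e1, e2] at h
  rw [h]
  have e3 : ∀ (c : W1 n q) (c' : W2 n q), (A * Jmat n q C * B) c c' =
      ∑ d' : W2 n q, ∑ d : W1 n q, A c d' * Jmat n q C d' d * B d c' := by
    intro c c'
    rw [Matrix.mul_apply, Finset.sum_comm]
    refine Finset.sum_congr rfl fun d _ => ?_
    rw [Matrix.mul_apply, Finset.sum_mul]
  simp only [bil, e3, Finset.mul_sum, Finset.sum_mul]
  -- reorder sums
  calc _ = ∑ c : W1 n q, ∑ d' : W2 n q, ∑ c' : W2 n q, ∑ d : W1 n q,
        x1 y c * (A c d' * Jmat n q C d' d * B d c') * x2 w c' := by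
        refine Finset.sum_congr rfl fun c _ => ?_
        rw [Finset.sum_comm]
    _ = ∑ d' : W2 n q, ∑ c : W1 n q, ∑ d : W1 n q, ∑ c' : W2 n q,
        x1 y c * (A c d' * Jmat n q C d' d * B d c') * x2 w c' := by
        rw [Finset.sum_comm]
        refine Finset.sum_congr rfl fun d' _ => Finset.sum_congr rfl fun c _ => ?_
        rw [Finset.sum_comm]
    _ = ∑ d' : W2 n q, ∑ d : W1 n q, ∑ c : W1 n q, ∑ c' : W2 n q,
        x1 y c * (A c d' * Jmat n q C d' d * B d c') * x2 w c' := by
        refine Finset.sum_congr rfl fun d' _ => ?_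
        rw [Finset.sum_comm]
    _ = _ := by
        refine Finset.sum_congr rfl fun d' _ => Finset.sum_congr rfl fun d _ => ?_
        rw [Finset.sum_comm]
        refine Finset.sum_congr rfl fun c' _ => Finset.sum_congr rfl fun c _ => ?_
        ring

lemma KK_eq_bil {C : Type} [CommRing C] (y w : Matrix (Fin n) (Fin n) C) :
    KK q y w = bil y w (Kmat n q C) := KK_eq y w

lemma rep_bil (p r : ℕ) [hp : Fact p.Prime] {R : Type} [CommRing R] [IsDomain R] [CharP R p]
    (hn : 1 ≤ n) (y w : Matrix (Fin n) (Fin n) R) (hy : y.det ≠ 0) :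
    bil y w (Kmat n (p^r) R * Jmat n (p^r) R * Kmat n (p^r) R) = bil y w (Kmat n (p^r) R) := by
  rw [bil_KJ, Kmat_map, ← KK_eq_bil, ← KK_eq_bil, ← KK_eq_bil]
  exact rep_formula p r hn y w hy

lemma bil_map {C C' : Type} [CommRing C] [CommRing C'] (f : C →+* C')
    (y w : Matrix (Fin n) (Fin n) C) (K : Matrix (W1 n q) (W2 n q) C) :
    f (bil y w K) = bil (y.map f) (w.map f) (K.map f) := by
  simp only [bil, map_sum, map_mul, x1_map, x2_map, Matrix.map_apply]

/-- If `x₁(x) Δ x₂(u) = 0` generically then `J Δ J = 0`. -/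
lemma JDJ_zero {k : Type} [CommRing k] (Δ : Matrix (W1 n q) (W2 n q) k)
    (h : bil ((gX n k).map (MvPolynomial.C (σ := Fin n × Fin n))) (gX n (MvPolynomial (Fin n × Fin n) k))
      (Δ.map (fun a => MvPolynomial.C (MvPolynomial.C a))) = 0) :
    Jmat n q k * Δ * Jmat n q k = 0 := by
  -- first: for every `c`, `∑ x₁(gX) c₁ (Δ J) c₁ c = 0`
  have h1 : ∀ c : W1 n q, ∑ c₁ : W1 n q, x1 (gX n k) c₁ * MvPolynomial.C ((Δ * Jmat n q k) c₁ c) = 0 := by
    intro c
    have hp := Phi_pair (n := n) (q := q) (C := MvPolynomial (Fin n × Fin n) k)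
      (fun c' => ∑ c₁, x1 (gX n k) c₁ * MvPolynomial.C (Δ c₁ c')) (Pi.single c 1)
    have e1 : (∑ c', MvPolynomial.C (∑ c₁, x1 (gX n k) c₁ * MvPolynomial.C (Δ c₁ c')) *
        x2 (gX n (MvPolynomial (Fin n × Fin n) k)) c') = 0 := by
      rw [← h, bil, Finset.sum_comm]
      refine Finset.sum_congr rfl fun c' _ => ?_
      rw [map_sum, Finset.sum_mul]
      refine Finset.sum_congr rfl fun c _ => ?_
      rw [x1_mapC, Matrix.map_apply, map_mul]
    rw [e1, mul_zero, zero_mul, map_zero] at hp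
    rw [hp]
    have e2 : ∀ c', ∑ d, (∑ c₁, x1 (gX n k) c₁ * MvPolynomial.C (Δ c₁ c')) *
        Jmat n q (MvPolynomial (Fin n × Fin n) k) c' d * (Pi.single c 1 : W1 n q → _) d =
        (∑ c₁, x1 (gX n k) c₁ * MvPolynomial.C (Δ c₁ c')) * MvPolynomial.C (Jmat n q k c' c) := by
      intro c'
      rw [Finset.sum_eq_single c]
      · rw [Pi.single_eq_same, mul_one]
        congr 1
        rw [← Jmat_map (MvPolynomial.C (R := k) (σ := Fin n × Fin n)), Matrix.map_apply]
      · intro b _ hb
        rw [Pi.single_eq_of_ne hb, mul_zero]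
      · simp
    rw [Finset.sum_congr rfl (fun c' _ => e2 c')]
    simp only [Finset.sum_mul]
    rw [Finset.sum_comm]
    refine Finset.sum_congr rfl fun c₁ _ => ?_
    rw [Matrix.mul_apply, map_sum, Finset.mul_sum]
    refine Finset.sum_congr rfl fun c' _ => ?_
    rw [map_mul]
    ring
  ext c' c
  have hp := Phi_pair (n := n) (q := q) (C := k) (Pi.single c' 1) (fun c₁ => (Δ * Jmat n q k) c₁ c)
  rw [h1 c, mul_zero, map_zero] at hp
  rw [Matrix.mul_assoc, Matrix.mul_apply, Matrix.zero_apply]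
  rw [Finset.sum_eq_single c'] at hp
  · rw [hp]
    refine Finset.sum_congr rfl fun c₁ _ => ?_
    rw [Pi.single_eq_same, one_mul]
  · intro b _ hb
    rw [Pi.single_eq_of_ne hb]
    simp
  · simp

lemma gX_det_ne_zero {k : Type} [CommRing k] [IsDomain k] : (gX n k).det ≠ 0 := by
  have := Matrix.det_mvPolynomialX_ne_zero (Fin n) k
  have h : gX n k = Matrix.mvPolynomialX (Fin n) (Fin n) k := by
    ext i j : 2
    simp [gX, Matrix.mvPolynomialX]
  rwa [h]

lemma JKJKJ (p r : ℕ) [hp : Fact p.Prime] {k : Type} [CommRing k] [IsDomain k] [CharP k p] (hn : 1 ≤ n) :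
    Jmat n (p^r) k * Kmat n (p^r) k * Jmat n (p^r) k * Kmat n (p^r) k * Jmat n (p^r) k =
      Jmat n (p^r) k * Kmat n (p^r) k * Jmat n (p^r) k := by
  have hy : ((gX n k).map (MvPolynomial.C (R := MvPolynomial (Fin n × Fin n) k)
      (σ := Fin n × Fin n))).det ≠ 0 := by
    have : ((gX n k).map (MvPolynomial.C (R := MvPolynomial (Fin n × Fin n) k)
      (σ := Fin n × Fin n))).det = C (gX n k).det := by
      rw [RingHom.map_det]; rfl
    rw [this]
    intro h
    exact gX_det_ne_zero (n := n) (k := k) (by simpa using h)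
  have h := rep_bil p r (R := MvPolynomial (Fin n × Fin n) (MvPolynomial (Fin n × Fin n) k)) hn
    ((gX n k).map (MvPolynomial.C (R := MvPolynomial (Fin n × Fin n) k)
      (σ := Fin n × Fin n))) (gX n (MvPolynomial (Fin n × Fin n) k)) hy
  let f : k →+* MvPolynomial (Fin n × Fin n) (MvPolynomial (Fin n × Fin n) k) :=
    (MvPolynomial.C (R := MvPolynomial (Fin n × Fin n) k) (σ := Fin n × Fin n)).comp
      (MvPolynomial.C (R := k) (σ := Fin n × Fin n))
  have hJ := JDJ_zero (n := n) (q := p^r) (k := k)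
    (Kmat n (p^r) k * Jmat n (p^r) k * Kmat n (p^r) k - Kmat n (p^r) k) (by
      have e1 : (Kmat n (p^r) k * Jmat n (p^r) k * Kmat n (p^r) k - Kmat n (p^r) k).map
          (fun a => (MvPolynomial.C (σ := Fin n × Fin n)
            (MvPolynomial.C (σ := Fin n × Fin n) a))) =
          Kmat n (p^r) (MvPolynomial (Fin n × Fin n) (MvPolynomial (Fin n × Fin n) k)) *
          Jmat n (p^r) (MvPolynomial (Fin n × Fin n) (MvPolynomial (Fin n × Fin n) k)) *
          Kmat n (p^r) (MvPolynomial (Fin n × Fin n) (MvPolynomial (Fin n × Fin n) k)) -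
          Kmat n (p^r) (MvPolynomial (Fin n × Fin n) (MvPolynomial (Fin n × Fin n) k)) := by
        have : (fun a => (MvPolynomial.C (σ := Fin n × Fin n)
            (MvPolynomial.C (σ := Fin n × Fin n) a))) = (f : k → _) := rfl
        rw [this, Matrix.map_sub _ (map_sub f), Matrix.map_mul, Matrix.map_mul, Kmat_map, Jmat_map]
      rw [e1]
      have e2 : ∀ (y w : Matrix (Fin n) (Fin n) (MvPolynomial (Fin n × Fin n)
          (MvPolynomial (Fin n × Fin n) k))) (A B : Matrix (W1 n (p^r)) (W2 n (p^r)) _),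
          bil y w (A - B) = bil y w A - bil y w B := by
        intro y w A B
        simp only [bil, Matrix.sub_apply, mul_sub, sub_mul, Finset.sum_sub_distrib]
      rw [e2, h, sub_self])
  rw [Matrix.mul_sub, Matrix.sub_mul, sub_eq_zero] at hJ
  refine Eq.trans ?_ hJ
  simp only [Matrix.mul_assoc]

/-- the map `e = 𝒦 J` -/
noncomputable def emat (n q : ℕ) (k : Type) [CommRing k] : Matrix (W1 n q) (W1 n q) k :=
  Kmat n q k * Jmat n q k

lemma emat_map {C C' : Type} [CommRing C] [CommRing C'] (f : C →+* C') :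
    (emat n q C).map f = emat n q C' := by
  rw [emat, Matrix.map_mul, Kmat_map, Jmat_map, emat]

lemma emat_cube (p r : ℕ) [hp : Fact p.Prime] {k : Type} [CommRing k] [IsDomain k] [CharP k p]
    (hn : 1 ≤ n) :
    emat n (p^r) k * emat n (p^r) k * emat n (p^r) k = emat n (p^r) k * emat n (p^r) k := by
  have h := congrArg (fun z => Kmat n (p^r) k * z) (JKJKJ (n := n) (k := k) p r hn)
  simp only [emat, Matrix.mul_assoc] at *
  exact h

lemma bil_one {C : Type} [CommRing C] :
    bil (q := q) (1 : Matrix (Fin n) (Fin n) C) 1 (Kmat n q C) = 1 := by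
  rw [← KK_eq_bil, KK]
  apply Finset.prod_eq_one
  intro l _
  have : mix l (1 : Matrix (Fin n) (Fin n) C) 1 = 1 := by
    ext i j; simp [mix]
  rw [this]; simp

lemma emat_sq_ne_zero (p r : ℕ) [hp : Fact p.Prime] {k : Type} [CommRing k] [IsDomain k] [CharP k p]
    (hn : 1 ≤ n) : emat n (p^r) k * emat n (p^r) k ≠ 0 := by
  intro h0
  -- `bil 1 1 (𝒦 J 𝒦 J 𝒦) = 1`
  have h1 : bil (1 : Matrix (Fin n) (Fin n) k) 1
      ((Kmat n (p^r) k * Jmat n (p^r) k * Kmat n (p^r) k) * Jmat n (p^r) k * Kmat n (p^r) k) = 1 := by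
    rw [bil_KJ]
    have e1 : (Kmat n (p^r) k * Jmat n (p^r) k * Kmat n (p^r) k).map
        (MvPolynomial.C (R := k) (σ := Fin n × Fin n)) =
        Kmat n (p^r) (MvPolynomial (Fin n × Fin n) k) *
        Jmat n (p^r) (MvPolynomial (Fin n × Fin n) k) *
        Kmat n (p^r) (MvPolynomial (Fin n × Fin n) k) := by
      rw [Matrix.map_mul, Matrix.map_mul, Kmat_map, Jmat_map]
    have e0 : (1 : Matrix (Fin n) (Fin n) k).map (MvPolynomial.C (R := k) (σ := Fin n × Fin n)) = 1 :=
      Matrix.map_one _ (map_zero _) (map_one _)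
    rw [e1, e0, rep_bil p r hn _ _ (by simp), ← e0, ← Kmat_map (MvPolynomial.C (R := k) (σ := Fin n × Fin n)),
      ← bil_KJ, rep_bil p r hn _ _ (by simp), bil_one]
  have h2 : (Kmat n (p^r) k * Jmat n (p^r) k * Kmat n (p^r) k) * Jmat n (p^r) k * Kmat n (p^r) k = 0 := by
    have : emat n (p^r) k * emat n (p^r) k * Kmat n (p^r) k = 0 := by rw [h0, Matrix.zero_mul]
    simp only [emat, Matrix.mul_assoc] at *
    exact this
  rw [h2] at h1
  simp [bil] at h1

/-- equivariance of `J` -/
lemma Jmat_equiv (p r : ℕ) [hp : Fact p.Prime] {C : Type} [CommRing C] [CharP C p] (hn : 1 ≤ n)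
    (g : Matrix (Fin n) (Fin n) C) (hg : IsUnit g.det) :
    (tp (P2 n (p^r)) g)ᵀ * Jmat n (p^r) C * tp (P1 n (p^r)) g =
      (g.det ^ ((n-1)*(p^r-1))) • Jmat n (p^r) C := by
  have key : (g.det ^ (p^r-1)) • ((tp (P2 n (p^r)) g)ᵀ * Jmat n (p^r) C * tp (P1 n (p^r)) g) =
      (g.det ^ (n*(p^r-1))) • Jmat n (p^r) C := by
    ext c' c
    let G : Matrix (Fin n × Fin n) (Fin n × Fin n) C := Matrix.kroneckerMap (· * ·) 1 g
    have hG : G.det = g.det ^ n := by
      have := Matrix.det_kronecker (1 : Matrix (Fin n) (Fin n) C) g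
      rw [show G = Matrix.kroneckerMap (· * ·) (1 : Matrix (Fin n) (Fin n) C) g from rfl]
      rw [this]
      simp
    have hsub : (gX n C).map (lsub G) = gX n C * g.map MvPolynomial.C := by
      refine Matrix.ext fun i j => ?_
      simp only [Matrix.map_apply, gX, Matrix.of_apply, lsub, aeval_X, Matrix.mul_apply]
      rw [Fintype.sum_prod_type, Finset.sum_eq_single_of_mem i (Finset.mem_univ i)]
      · refine Finset.sum_congr rfl fun l _ => ?_
        simp [G, mul_comm]
      · intro b _ hb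
        apply Finset.sum_eq_zero
        intro l _
        simp [G, Matrix.one_apply_ne hb]
    have h1 := Phi_lsub p r G ((gX n C).det^(p^r-1) * x2 (gX n C) c' * x1 (gX n C) c)
    have h2 : lsub G ((gX n C).det^(p^r-1) * x2 (gX n C) c' * x1 (gX n C) c) =
        MvPolynomial.C (g.det ^ (p^r-1)) * ((gX n C).det^(p^r-1) *
          (∑ d', MvPolynomial.C (tp (P2 n (p^r)) g d' c') * x2 (gX n C) d') *
          (∑ d, x1 (gX n C) d * MvPolynomial.C (tp (P1 n (p^r)) g d c))) := by
      have e0 : ∀ F, lsub G F = (lsub G : MvPolynomial (Fin n × Fin n) C →+* _) F := fun _ => rfl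
      rw [e0, map_mul, map_mul, map_pow, ← x1_map, ← x2_map, RingHom.map_det]
      have e1 : (lsub G : MvPolynomial (Fin n × Fin n) C →+* _).mapMatrix (gX n C) =
        gX n C * g.map MvPolynomial.C := hsub
      have e2 : (gX n C).map (lsub G : MvPolynomial (Fin n × Fin n) C →+* _) =
        gX n C * g.map MvPolynomial.C := hsub
      rw [e1, e2, x1_mul, x2_mul, Matrix.det_mul]
      have e3 : (g.map (MvPolynomial.C (σ := Fin n × Fin n))).det = MvPolynomial.C g.det := by
        rw [RingHom.map_det]; rfl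
      rw [e3]
      simp only [vecMul, dotProduct]
      have e4 : ∀ (P : Type) [Fintype P] (a b : P → Fin n), tp P (g.map (MvPolynomial.C (σ := Fin n × Fin n))) a b
          = MvPolynomial.C (tp P g a b) := by
        intro P _ a b
        simp [tp_apply, map_prod]
      simp only [e4, map_pow, mul_pow]
      have e5 : ∑ d', MvPolynomial.C (tp (P2 n (p^r)) g d' c') * x2 (gX n C) d' =
          ∑ d', x2 (gX n C) d' * MvPolynomial.C (tp (P2 n (p^r)) g d' c') :=
        Finset.sum_congr rfl fun _ _ => mul_comm _ _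
      rw [e5]
      ring
    rw [h2, Phi_C_mul, Phi_pair, hG] at h1
    simp only [Matrix.smul_apply, smul_eq_mul]
    rw [← pow_mul] at h1
    have e6 : Jmat n (p^r) C c' c = Phi (p^r) ((gX n C).det^(p^r-1) * x2 (gX n C) c' * x1 (gX n C) c) := rfl
    rw [e6, ← h1]
    congr 1
    rw [Matrix.mul_apply, Finset.sum_comm]
    refine Finset.sum_congr rfl fun d _ => ?_
    rw [Matrix.mul_apply, Finset.sum_mul]
    rfl
  have hpow : g.det ^ (n*(p^r-1)) = g.det ^ (p^r-1) * g.det ^ ((n-1)*(p^r-1)) := by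
    rw [← pow_add]
    congr 1
    obtain ⟨m, rfl⟩ : ∃ m, n = m + 1 := ⟨n-1, by omega⟩
    simp only [Nat.add_sub_cancel]
    ring
  rw [hpow, ← smul_smul] at key
  have hu : IsUnit (g.det ^ (p^r-1)) := hg.pow _
  exact hu.smul_left_cancel.1 key

/-- `e` commutes with tensor powers of invertible matrices -/
lemma emat_comm (p r : ℕ) [hp : Fact p.Prime] {C : Type} [CommRing C] [CharP C p] (hn : 1 ≤ n)
    (g : Matrix (Fin n) (Fin n) C) (hg : IsUnit g.det) :
    emat n (p^r) C * tp (P1 n (p^r)) g = tp (P1 n (p^r)) g * emat n (p^r) C := by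
  have h1 := Kmat_equiv (n := n) (q := p^r) g
  have h2 := Jmat_equiv p r hn g hg
  have h3 : (g.det ^ ((n-1)*(p^r-1))) • (emat n (p^r) C * tp (P1 n (p^r)) g) =
      (g.det ^ ((n-1)*(p^r-1))) • (tp (P1 n (p^r)) g * emat n (p^r) C) := by
    calc _ = ((g.det ^ ((n-1)*(p^r-1))) • Kmat n (p^r) C) * Jmat n (p^r) C * tp (P1 n (p^r)) g := by
          rw [emat, Matrix.smul_mul, Matrix.smul_mul]
      _ = tp (P1 n (p^r)) g * Kmat n (p^r) C *
          ((tp (P2 n (p^r)) g)ᵀ * Jmat n (p^r) C * tp (P1 n (p^r)) g) := by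
          rw [← h1]; simp only [Matrix.mul_assoc]
      _ = _ := by
          rw [h2, Matrix.mul_smul, emat, Matrix.mul_assoc]
  have hu : IsUnit (g.det ^ ((n-1)*(p^r-1))) := hg.pow _
  exact hu.smul_left_cancel.1 h3

end

end Pool.Agent.LN
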