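import Pool.Agent.Helper208_LN.Rep
import Pool.Agent.Helper208_LN.PRep

set_option autoImplicit false
set_option linter.unusedSectionVars false
set_option linter.style.haveILetI false

namespace Pool.Agent.LN
open Matrix Finset

section tp
variable {P m : Type} [Fintype P] [DecidableEq P] [Fintype m] [DecidableEq m]
variable {C C' : Type} [CommRing C] [CommRing C']

/-- tensor power of a matrix -/
def tp (P : Type) [Fintype P] {m m' : Type} (g : Matrix m m' C) : Matrix (P → m) (P → m') C :=
  Matrix.of fun c' c => ∏ p, g (c' p) (c p)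

/-- decomposable tensor -/
def tv (u : P → m → C) : (P → m) → C := fun c => ∏ p, u p (c p)

lemma tp_apply {m' : Type} (g : Matrix m m' C) (c' : P → m) (c : P → m') :
    tp P g c' c = ∏ p, g (c' p) (c p) := rfl

lemma tp_mul {m' m'' : Type} [Fintype m'] [DecidableEq m'] (g : Matrix m m' C) (h : Matrix m' m'' C) :
    tp P (g * h) = tp P g * tp P h := by
  ext c' c
  rw [Matrix.mul_apply]
  simp only [tp_apply, Matrix.mul_apply]
  rw [Finset.prod_univ_sum, Fintype.piFinset_univ]
  exact Finset.sum_congr rfl fun x _ => Finset.prod_mul_distrib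

lemma tp_one : tp P (1 : Matrix m m C) = 1 := by
  ext c' c
  rw [tp_apply]
  by_cases h : c' = c
  · subst h; simp
  · rw [Matrix.one_apply_ne h]
    obtain ⟨p, hp⟩ := Function.ne_iff.1 h
    exact Finset.prod_eq_zero (Finset.mem_univ p) (Matrix.one_apply_ne hp)

lemma tp_map {m' : Type} (f : C →+* C') (g : Matrix m m' C) : (tp P g).map f = tp P (g.map f) := by
  ext c' c
  simp [tp_apply, map_prod]

lemma tv_vecMul (u : P → m → C) (g : Matrix m m C) :
    tv (fun p => (u p) ᵥ* g) = (tv u) ᵥ* (tp P g) := by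
  ext c
  simp only [tv, vecMul, dotProduct, tp_apply]
  rw [Finset.prod_univ_sum, Fintype.piFinset_univ]
  exact Finset.sum_congr rfl fun x _ => Finset.prod_mul_distrib

end tp

section expand
variable {n : ℕ} {C : Type} [CommRing C]

/-- Full multilinear expansion of the determinant. -/
lemma det_expand {m : Type} [Fintype m] [DecidableEq m] (M : m → m → C) :
    (Matrix.of M).det = ∑ φ : m → m, (∏ i, M i (φ i)) *
      (Matrix.of fun i j => if j = φ i then (1:C) else 0).det := by
  have h1 : (Matrix.of M).det = Matrix.detRowAlternating (fun i => ∑ j, M i j • (Pi.single j 1 : m → C)) := by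
    show Matrix.detRowAlternating _ = _
    congr 1
    ext i j
    simp [Finset.sum_apply, Pi.single_apply]
  rw [h1]
  have h2 := (Matrix.detRowAlternating (n := m) (R := C)).toMultilinearMap.map_sum
    (fun i (j : m) => M i j • (Pi.single j 1 : m → C))
  simp only [AlternatingMap.coe_multilinearMap] at h2
  rw [h2]
  refine Finset.sum_congr rfl fun φ _ => ?_
  have h3 := (Matrix.detRowAlternating (n := m) (R := C)).toMultilinearMap.map_smul_univ
    (fun i => M i (φ i)) (fun i => (Pi.single (φ i) 1 : m → C))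
  simp only [AlternatingMap.coe_multilinearMap] at h3
  rw [h3, smul_eq_mul]
  congr 1
  show Matrix.det _ = _
  congr 1
  ext i j
  simp [Pi.single_apply]

end expand

section KJ

/-- index type of the determinants -/
abbrev TT (n q : ℕ) : Type := Fin (n-1) × Fin (q-1)

def lo {n q : ℕ} (p : TT n q × Fin n) : Prop := p.2.val < p.1.1.val + 1

instance {n q : ℕ} : DecidablePred (@lo n q) := fun p => by unfold lo; infer_instance

abbrev P1 (n q : ℕ) : Type := {p : TT n q × Fin n // lo p}
abbrev P2 (n q : ℕ) : Type := {p : TT n q × Fin n // ¬ lo p}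
abbrev W1 (n q : ℕ) : Type := P1 n q → Fin n
abbrev W2 (n q : ℕ) : Type := P2 n q → Fin n

/-- combined index function -/
def comb {n q : ℕ} (c : W1 n q) (c' : W2 n q) : TT n q × Fin n → Fin n :=
  fun p => if h : lo p then c ⟨p, h⟩ else c' ⟨p, h⟩

variable {n q : ℕ} {C : Type} [CommRing C]

def Kmat (n q : ℕ) (C : Type) [CommRing C] : Matrix (W1 n q) (W2 n q) C :=
  Matrix.of fun c c' => ∏ t : TT n q,
    (Matrix.of fun i j : Fin n => if j = comb c c' (t, i) then (1:C) else 0).det

lemma Kmat_map {C' : Type} [CommRing C'] (f : C →+* C') : (Kmat n q C).map f = Kmat n q C' := by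
  ext c c'
  simp only [Kmat, Matrix.map_apply, Matrix.of_apply, map_prod]
  refine Finset.prod_congr rfl fun t _ => ?_
  rw [RingHom.map_det]
  congr 1
  ext i j
  simp only [RingHom.mapMatrix_apply, Matrix.map_apply, Matrix.of_apply]
  split_ifs <;> simp

/-- the expansion -/
lemma prod_det_expand (M : TT n q × Fin n → Fin n → C) :
    ∏ t : TT n q, (Matrix.of fun i j : Fin n => M (t, i) j).det =
      ∑ c : W1 n q, ∑ c' : W2 n q, tv (fun p : P1 n q => M p.1) c * Kmat n q C c c' *
        tv (fun p : P2 n q => M p.1) c' := by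
  rw [Finset.prod_congr rfl (fun t _ => det_expand (fun i j => M (t, i) j))]
  rw [Finset.prod_univ_sum, Fintype.piFinset_univ]
  let e1 : (TT n q → (Fin n → Fin n)) ≃ (TT n q × Fin n → Fin n) :=
    (Equiv.curry (TT n q) (Fin n) (Fin n)).symm
  let e2 : (TT n q × Fin n → Fin n) ≃ W1 n q × W2 n q :=
    Equiv.piEquivPiSubtypeProd (fun p : TT n q × Fin n => lo p) (fun _ => Fin n)
  rw [← Fintype.sum_prod_type' (fun (c : W1 n q) (c' : W2 n q) =>
    tv (fun p : P1 n q => M p.1) c * Kmat n q C c c' * tv (fun p : P2 n q => M p.1) c')]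
  rw [← Equiv.sum_comp (e1.trans e2)]
  refine Finset.sum_congr rfl fun Φ _ => ?_
  have hcomb : comb ((e1.trans e2) Φ).1 ((e1.trans e2) Φ).2 = fun p => Φ p.1 p.2 := by
    ext p
    simp only [comb, e1, e2, Equiv.trans_apply, Equiv.piEquivPiSubtypeProd, Equiv.coe_fn_mk]
    split_ifs <;> rfl
  rw [Finset.prod_mul_distrib]
  have h1 : Kmat n q C ((e1.trans e2) Φ).1 ((e1.trans e2) Φ).2 =
      ∏ t : TT n q, (Matrix.of fun i j => if j = Φ t i then (1:C) else 0).det := by
    simp only [Kmat, Matrix.of_apply, hcomb]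
  rw [h1]
  have h2 : ∏ t : TT n q, ∏ i, M (t, i) (Φ t i) = tv (fun p : P1 n q => M p.1) ((e1.trans e2) Φ).1 *
      tv (fun p : P2 n q => M p.1) ((e1.trans e2) Φ).2 := by
    rw [← Fintype.prod_prod_type' (fun t i => M (t,i) (Φ t i))]
    rw [← Fintype.prod_subtype_mul_prod_subtype (fun p : TT n q × Fin n => lo p)]
    rfl
  rw [h2]
  ring

def x1 (x : Matrix (Fin n) (Fin n) C) : W1 n q → C := tv (fun p : P1 n q => x p.1.2)
def x2 (x : Matrix (Fin n) (Fin n) C) : W2 n q → C := tv (fun p : P2 n q => x p.1.2)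

lemma x1_mul (x g : Matrix (Fin n) (Fin n) C) :
    x1 (q := q) (x * g) = x1 x ᵥ* tp (P1 n q) g := tv_vecMul _ _

lemma x2_mul (x g : Matrix (Fin n) (Fin n) C) :
    x2 (q := q) (x * g) = x2 x ᵥ* tp (P2 n q) g := tv_vecMul _ _

lemma x1_map {C' : Type} [CommRing C'] (f : C →+* C') (x : Matrix (Fin n) (Fin n) C) (c : W1 n q) :
    x1 (q := q) (x.map f) c = f (x1 x c) := by
  simp [x1, tv, map_prod]

lemma x2_map {C' : Type} [CommRing C'] (f : C →+* C') (x : Matrix (Fin n) (Fin n) C) (c : W2 n q) :
    x2 (q := q) (x.map f) c = f (x2 x c) := by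
  simp [x2, tv, map_prod]

lemma KK_eq (y w : Matrix (Fin n) (Fin n) C) :
    KK q y w = ∑ c : W1 n q, ∑ c' : W2 n q, x1 y c * Kmat n q C c c' * x2 w c' := by
  have h := prod_det_expand (n := n) (q := q) (C := C)
    (fun p => if lo p then y p.2 else w p.2)
  have h1 : ∀ c, tv (fun p : P1 n q => if lo p.1 then y p.1.2 else w p.1.2) c = x1 y c := by
    intro c
    simp only [x1, tv]
    exact Finset.prod_congr rfl fun p _ => by rw [if_pos p.2]
  have h2 : ∀ c, tv (fun p : P2 n q => if lo p.1 then y p.1.2 else w p.1.2) c = x2 w c := by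
    intro c
    simp only [x2, tv]
    exact Finset.prod_congr rfl fun p _ => by rw [if_neg p.2]
  simp only [h1, h2] at h
  rw [← h, KK, Fintype.prod_prod_type]
  simp only [Finset.prod_Ico_eq_prod_range]
  rw [Finset.prod_range]
  refine Finset.prod_congr rfl fun l _ => ?_
  have h3 : ∀ s : Fin (q-1), (Matrix.of fun i j : Fin n =>
      (if lo ((l, s), i) then y i else w i) j).det = (mix (1 + l.val) y w).det := by
    intro s
    congr 1
    ext i j
    simp only [Matrix.of_apply, mix, lo]
    by_cases h : i.val < l.val + 1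
    · have : i.val < 1 + l.val := by omega
      simp [h, this]
    · have : ¬ (i.val < 1 + l.val) := by omega
      simp [h, this]
  simp only [h3, Finset.prod_const, Finset.card_univ, Fintype.card_fin]

/-- equivariance of `𝒦` -/
lemma Kmat_equiv (g : Matrix (Fin n) (Fin n) C) :
    tp (P1 n q) g * Kmat n q C * (tp (P2 n q) g)ᵀ = (g.det ^ ((n-1)*(q-1))) • Kmat n q C := by
  ext c c'
  have h := prod_det_expand (n := n) (q := q) (C := C) (fun p => g (comb c c' p))
  have h1 : ∀ d, tv (fun p : P1 n q => g (comb c c' p.1)) d = tp (P1 n q) g c d := by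
    intro d
    simp only [tv, tp_apply]
    refine Finset.prod_congr rfl fun p _ => ?_
    simp [comb, p.2]
  have h2 : ∀ d, tv (fun p : P2 n q => g (comb c c' p.1)) d = tp (P2 n q) g c' d := by
    intro d
    simp only [tv, tp_apply]
    refine Finset.prod_congr rfl fun p _ => ?_
    simp [comb, p.2]
  simp only [h1, h2] at h
  rw [Matrix.mul_apply]
  simp only [Matrix.mul_apply, Matrix.transpose_apply, Finset.sum_mul, Matrix.smul_apply,
    smul_eq_mul]
  rw [Finset.sum_comm, ← h]
  have h3 : ∀ t : TT n q, (Matrix.of fun i j : Fin n => g (comb c c' (t, i)) j).det =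
      (Matrix.of fun i j : Fin n => if j = comb c c' (t, i) then (1:C) else 0).det * g.det := by
    intro t
    rw [← Matrix.det_mul]
    congr 1
    ext i j
    simp [Matrix.mul_apply]
  simp only [h3, Finset.prod_mul_distrib, Finset.prod_const, Finset.card_univ, Fintype.card_prod,
    Fintype.card_fin]
  rw [Kmat, Matrix.of_apply, mul_comm]

end KJ

end Pool.Agent.LN
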